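import Pool.Agent.H11.TD.Bas

/-!
# TD AccA: ordered triangles with one vertex in each of three sets

`tt G S1 S2 S3 = ∑ v ∈ S1, ee G (nb G v S2) (nb G v S3)` is the number of the triples `(a, b, c) ∈ S1 × S2 × S3` of
pairwise adjacent vertices.  It is symmetric (in the sense that permuting the three sets does not change it) and
additive in each set.
-/

set_option autoImplicit false

open Finset

namespace Pool.Agent.H11.TD

variable {α : Type} [Fintype α] [DecidableEq α] (G : SimpleGraph α)

/-- ordered triangles in `S1 × S2 × S3` -/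
noncomputable def tt (S1 S2 S3 : Finset α) : ℕ := ∑ v ∈ S1, ee G (nb G v S2) (nb G v S3)

open scoped Classical in
theorem acca_tt_eq (S1 S2 S3 : Finset α) : tt G S1 S2 S3 = ∑ a ∈ S1, ∑ b ∈ S2, ∑ c ∈ S3,
    (if G.Adj a b ∧ G.Adj a c ∧ G.Adj b c then 1 else 0) := by
  unfold tt ee nb
  refine sum_congr rfl fun a _ => ?_
  rw [sum_filter]
  refine sum_congr rfl fun b _ => ?_
  by_cases h : G.Adj a b
  · rw [if_pos h, filter_filter, card_filter]
    refine sum_congr rfl fun c _ => ?_
    simp [h]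
  · rw [if_neg h]
    symm
    refine sum_eq_zero fun c _ => ?_
    simp [h]

theorem tt_swap12 (S1 S2 S3 : Finset α) : tt G S1 S2 S3 = tt G S2 S1 S3 := by
  classical
  rw [acca_tt_eq, acca_tt_eq, sum_comm]
  refine sum_congr rfl fun b _ => sum_congr rfl fun a _ => sum_congr rfl fun c _ => ?_
  have : (G.Adj a b ∧ G.Adj a c ∧ G.Adj b c) ↔ (G.Adj b a ∧ G.Adj b c ∧ G.Adj a c) := by
    rw [G.adj_comm a b]; tauto
  simp only [this]

theorem tt_swap23 (S1 S2 S3 : Finset α) : tt G S1 S2 S3 = tt G S1 S3 S2 := by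
  classical
  rw [acca_tt_eq, acca_tt_eq]
  refine sum_congr rfl fun a _ => ?_
  rw [sum_comm]
  refine sum_congr rfl fun c _ => sum_congr rfl fun b _ => ?_
  have : (G.Adj a b ∧ G.Adj a c ∧ G.Adj b c) ↔ (G.Adj a c ∧ G.Adj a b ∧ G.Adj c b) := by
    rw [G.adj_comm b c]; tauto
  simp only [this]

theorem tt_union (S S' S2 S3 : Finset α) (h : Disjoint S S') :
    tt G (S ∪ S') S2 S3 = tt G S S2 S3 + tt G S' S2 S3 := by
  unfold tt
  exact sum_union h

theorem tt_biUnion {ι : Type} [DecidableEq ι] (L : Finset ι) (H : ι → Finset α)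
    (h : ∀ i ∈ L, ∀ j ∈ L, i ≠ j → Disjoint (H i) (H j)) (S2 S3 : Finset α) :
    tt G (L.biUnion H) S2 S3 = ∑ i ∈ L, tt G (H i) S2 S3 := by
  unfold tt
  exact sum_biUnion h

/-- `(x + y)^3` for `univ = H ∪ B` -/
theorem tt_cube (H : Finset α) :
    t3 G univ = tt G H H H + 3 * tt G (univ \ H) H H + 3 * tt G (univ \ H) H (univ \ H) +
      tt G (univ \ H) (univ \ H) (univ \ H) := by
  have h0 : t3 G univ = tt G univ univ univ := rfl
  have hd : Disjoint H (univ \ H) := disjoint_sdiff
  have hu : ∀ S T : Finset α, tt G univ S T = tt G H S T + tt G (univ \ H) S T := by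
    intro S T
    rw [← tt_union G H (univ \ H) S T hd, union_sdiff_of_subset (subset_univ H)]
  set B : Finset α := univ \ H with hB
  have e1 : ∀ S T : Finset α, tt G S univ T = tt G S H T + tt G S B T := by
    intro S T
    rw [tt_swap12 G S univ T, hu, tt_swap12 G H S T, tt_swap12 G B S T]
  have e2 : ∀ S T : Finset α, tt G S T univ = tt G S T H + tt G S T B := by
    intro S T
    rw [tt_swap23 G S T univ, e1, tt_swap23 G S H T, tt_swap23 G S B T]
  rw [h0, hu, e1, e1, e2, e2, e2, e2]
  have f1 : tt G H H B = tt G B H H := by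
    rw [tt_swap23 G H H B, tt_swap12 G H B H]
  have f2 : tt G H B H = tt G B H H := tt_swap12 G H B H
  have f3 : tt G H B B = tt G B H B := tt_swap12 G H B B
  have f4 : tt G B B H = tt G B H B := tt_swap23 G B B H
  rw [f1, f2, f3, f4]
  ring

end Pool.Agent.H11.TD
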