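import Pool.Agent.H11.TD.AccA

/-!
# TD AccB: the triangle accounting

`acc_in`: ordered triangles in `HU = ⋃ H k` (disjoint sets).  If the three vertices are not all in the same `H k`
then at least one of them, say in `H k`, has both others outside `H k` (if two of them are in the same set,
the third one; otherwise any one).  The number of ordered triples whose first (second, third) vertex `v ∈ H k` has
both others in `HU \ H k` is `∑_k ∑_{v ∈ H k} ee (nb v (HU \ H k)) (nb v (HU \ H k)) = ∑_k tt (H k) (HU \ H k) (HU \ H k)`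
(in all three positions, by the symmetry of `tt`).
Algebraic proof: `tt HU HU HU = ∑_k tt (H k) HU HU`, and with `C = HU \ H k`, `tt (H k) HU HU = tt (Hk) (Hk) (Hk) +
2 tt (Hk) (Hk) C + tt (Hk) C C`, and `∑_k tt (Hk) (Hk) C_k = ∑_k ∑_{l ≠ k} tt (H l) (Hk) (Hk) ≤ ∑_l tt (H l) C_l C_l`.
`acc`: `tt_cube` with `H = HU` and `acc_in`.
-/

set_option autoImplicit false

open Finset

namespace Pool.Agent.H11.TD

variable {α : Type} [Fintype α] [DecidableEq α] (G : SimpleGraph α)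

private theorem accb_mono3 (S1 S2 S3 S3' : Finset α) (h : S3 ⊆ S3') :
    tt G S1 S2 S3 ≤ tt G S1 S2 S3' := by
  unfold tt
  exact Finset.sum_le_sum fun v _ => ee_mono G (Finset.Subset.refl _) (nb_mono G h)

private theorem accb_union3 (S1 S2 S S' : Finset α) (h : Disjoint S S') :
    tt G S1 S2 (S ∪ S') = tt G S1 S2 S + tt G S1 S2 S' := by
  rw [tt_swap23, tt_swap12, tt_union G S S' S1 S2 h, tt_swap12 G S S1 S2, tt_swap23 G S1 S S2,
    tt_swap12 G S' S1 S2, tt_swap23 G S1 S' S2]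

private theorem accb_union2 (S1 S S' S3 : Finset α) (h : Disjoint S S') :
    tt G S1 (S ∪ S') S3 = tt G S1 S S3 + tt G S1 S' S3 := by
  rw [tt_swap12, tt_union G S S' S1 S3 h, tt_swap12 G S S1 S3, tt_swap12 G S' S1 S3]

private theorem accb_sdiff {ι : Type} [DecidableEq ι] (L : Finset ι) (H : ι → Finset α)
    (h : ∀ i ∈ L, ∀ j ∈ L, i ≠ j → Disjoint (H i) (H j)) (k : ι) (hk : k ∈ L) :
    L.biUnion H \ H k = (L.erase k).biUnion H := by
  ext v
  simp only [mem_sdiff, mem_biUnion, mem_erase]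
  constructor
  · rintro ⟨⟨i, hi, hv⟩, hv'⟩
    exact ⟨i, ⟨fun e => hv' (e ▸ hv), hi⟩, hv⟩
  · rintro ⟨i, ⟨hik, hi⟩, hv⟩
    exact ⟨⟨i, hi, hv⟩, fun hv' => Finset.disjoint_left.1 (h i hi k hk hik) hv hv'⟩

private theorem accb_split {ι : Type} [DecidableEq ι] (L : Finset ι) (H : ι → Finset α)
    (k : ι) (hk : k ∈ L) :
    tt G (H k) (L.biUnion H) (L.biUnion H) = tt G (H k) (H k) (H k) +
      2 * tt G (H k) (H k) (L.biUnion H \ H k) +
      tt G (H k) (L.biUnion H \ H k) (L.biUnion H \ H k) := by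
  have h1 : H k ⊆ L.biUnion H := Finset.subset_biUnion_of_mem H hk
  have h2 : L.biUnion H = H k ∪ (L.biUnion H \ H k) := (Finset.union_sdiff_of_subset h1).symm
  have h3 : Disjoint (H k) (L.biUnion H \ H k) := Finset.disjoint_sdiff
  have h4 : tt G (H k) (L.biUnion H) (L.biUnion H) =
      tt G (H k) (H k ∪ (L.biUnion H \ H k)) (H k ∪ (L.biUnion H \ H k)) := by rw [← h2]
  rw [h4, accb_union2 G _ _ _ _ h3, accb_union3 G _ _ _ _ h3, accb_union3 G _ _ _ _ h3,
    tt_swap23 G (H k) (L.biUnion H \ H k) (H k)]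
  ring

theorem acc_in {ι : Type} [DecidableEq ι] (L : Finset ι) (H : ι → Finset α)
    (h : ∀ i ∈ L, ∀ j ∈ L, i ≠ j → Disjoint (H i) (H j)) :
    t3 G (L.biUnion H) ≤ ∑ k ∈ L, (t3 G (H k) +
      3 * ∑ v ∈ H k, ee G (nb G v (L.biUnion H \ H k)) (nb G v (L.biUnion H \ H k))) := by
  have e1 : t3 G (L.biUnion H) = ∑ k ∈ L, tt G (H k) (L.biUnion H) (L.biUnion H) :=
    tt_biUnion G L H h _ _
  have e2 : ∑ k ∈ L, tt G (H k) (L.biUnion H) (L.biUnion H) =
      ∑ k ∈ L, tt G (H k) (H k) (H k) + 2 * ∑ k ∈ L, tt G (H k) (H k) (L.biUnion H \ H k) +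
      ∑ k ∈ L, tt G (H k) (L.biUnion H \ H k) (L.biUnion H \ H k) := by
    rw [Finset.mul_sum, ← Finset.sum_add_distrib, ← Finset.sum_add_distrib]
    exact Finset.sum_congr rfl fun k hk => accb_split G L H k hk
  have hdis : ∀ k ∈ L, ∀ i ∈ L.erase k, ∀ j ∈ L.erase k, i ≠ j → Disjoint (H i) (H j) :=
    fun k _ i hi j hj hij => h i (Finset.mem_of_mem_erase hi) j (Finset.mem_of_mem_erase hj) hij
  have e3 : ∑ k ∈ L, tt G (H k) (H k) (L.biUnion H \ H k) =
      ∑ k ∈ L, ∑ l ∈ L.erase k, tt G (H l) (H k) (H k) := by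
    apply Finset.sum_congr rfl
    intro k hk
    rw [tt_swap23, tt_swap12, accb_sdiff L H h k hk,
      tt_biUnion G (L.erase k) H (hdis k hk) (H k) (H k)]
  have e4 : ∑ k ∈ L, ∑ l ∈ L.erase k, tt G (H l) (H k) (H k) =
      ∑ l ∈ L, ∑ k ∈ L.erase l, tt G (H l) (H k) (H k) := by
    apply Finset.sum_comm'
    intro x y
    simp only [mem_erase]
    constructor
    · rintro ⟨hx, hyx, hy⟩
      exact ⟨⟨Ne.symm hyx, hx⟩, hy⟩
    · rintro ⟨⟨hxy, hx⟩, hy⟩
      exact ⟨hx, Ne.symm hxy, hy⟩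
  have e5 : ∑ l ∈ L, ∑ k ∈ L.erase l, tt G (H l) (H k) (H k) ≤
      ∑ l ∈ L, tt G (H l) (L.biUnion H \ H l) (L.biUnion H \ H l) := by
    apply Finset.sum_le_sum
    intro l hl
    have f1 : tt G (H l) (L.biUnion H \ H l) (L.biUnion H \ H l) =
        ∑ k ∈ L.erase l, tt G (H k) (H l) (L.biUnion H \ H l) := by
      have f2 : tt G (H l) (L.biUnion H \ H l) (L.biUnion H \ H l) =
          tt G ((L.erase l).biUnion H) (H l) (L.biUnion H \ H l) := by
        rw [tt_swap12, accb_sdiff L H h l hl]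
      rw [f2, tt_biUnion G (L.erase l) H (hdis l hl)]
    rw [f1]
    apply Finset.sum_le_sum
    intro k hk
    have f3 : tt G (H l) (H k) (H k) = tt G (H k) (H l) (H k) := tt_swap12 G _ _ _
    rw [f3]
    apply accb_mono3
    rw [accb_sdiff L H h l hl]
    exact Finset.subset_biUnion_of_mem H hk
  have e6 : ∑ k ∈ L, (t3 G (H k) +
      3 * ∑ v ∈ H k, ee G (nb G v (L.biUnion H \ H k)) (nb G v (L.biUnion H \ H k))) =
      ∑ k ∈ L, tt G (H k) (H k) (H k) +
        3 * ∑ k ∈ L, tt G (H k) (L.biUnion H \ H k) (L.biUnion H \ H k) := by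
    rw [Finset.mul_sum, ← Finset.sum_add_distrib]
    rfl
  rw [e1, e2, e6, e3, e4]
  omega

theorem acc {ι : Type} [DecidableEq ι] (L : Finset ι) (H : ι → Finset α)
    (h : ∀ i ∈ L, ∀ j ∈ L, i ≠ j → Disjoint (H i) (H j)) :
    t3 G univ ≤ ∑ k ∈ L, (t3 G (H k) +
      3 * ∑ v ∈ H k, ee G (nb G v (L.biUnion H \ H k)) (nb G v (L.biUnion H \ H k))) +
      ∑ b ∈ univ \ L.biUnion H,
        (3 * ee G (nb G b (L.biUnion H)) (nb G b (L.biUnion H)) +
          3 * ee G (nb G b (L.biUnion H)) (nb G b (univ \ L.biUnion H)) +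
          ee G (nb G b (univ \ L.biUnion H)) (nb G b (univ \ L.biUnion H))) := by
  have h1 := acc_in G L H h
  have h2 := tt_cube G (L.biUnion H)
  have h3 : ∑ b ∈ univ \ L.biUnion H,
        (3 * ee G (nb G b (L.biUnion H)) (nb G b (L.biUnion H)) +
          3 * ee G (nb G b (L.biUnion H)) (nb G b (univ \ L.biUnion H)) +
          ee G (nb G b (univ \ L.biUnion H)) (nb G b (univ \ L.biUnion H))) =
      3 * tt G (univ \ L.biUnion H) (L.biUnion H) (L.biUnion H) +
        3 * tt G (univ \ L.biUnion H) (L.biUnion H) (univ \ L.biUnion H) +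
        tt G (univ \ L.biUnion H) (univ \ L.biUnion H) (univ \ L.biUnion H) := by
    unfold tt
    rw [Finset.mul_sum, Finset.mul_sum, ← Finset.sum_add_distrib, ← Finset.sum_add_distrib]
  have h4 : t3 G (L.biUnion H) = tt G (L.biUnion H) (L.biUnion H) (L.biUnion H) := rfl
  rw [h4] at h1
  rw [h2, h3]
  omega

end Pool.Agent.H11.TD
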