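import Pool.Agent.H11.TD.Bas

/-!
# TD Tu: Turan's bound inside a neighbourhood

If `G` has no clique of size `R + 2` and `S ⊆ NN G v` then `S` spans no clique of size `R + 1`, so by Turan's
theorem `e(S) ≤ (1 - 1/R) |S|² / 2`, i.e. `R * ee S S ≤ (R - 1) |S|²`.
Mathlib: `SimpleGraph.CliqueFree.card_edgeFinset_le` (or the Turan graph results in
`Mathlib/Combinatorics/SimpleGraph/Extremal/Turan.lean`) applied to `G.induce S`; alternatively a direct induction on
`|S|` (remove a maximal clique) or the Motzkin–Straus / Caro–Wei argument.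
-/

set_option autoImplicit false

open Finset

namespace Pool.Agent.H11.TD

variable {α : Type} [Fintype α] [DecidableEq α] (G : SimpleGraph α)

private theorem tu_cf {R : ℕ} (hG : G.CliqueFree (R + 2)) (v : α) (S : Finset α)
    (hS : S ⊆ NN G v) : (G.induce (S : Set α)).CliqueFree (R + 1) := by
  classical
  intro t ht
  have h1 : G.IsNClique (R + 1) (t.map (Function.Embedding.subtype _)) := by
    have h2 := ht.map (f := Function.Embedding.subtype (fun x => x ∈ (S : Set α)))
    refine h2.mono ?_
    rw [SimpleGraph.map_le_iff_le_comap]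
  have h3 : G.IsNClique (R + 2) (insert v (t.map (Function.Embedding.subtype _))) := by
    refine h1.insert ?_
    intro b hb
    rw [Finset.mem_map] at hb
    obtain ⟨x, _, rfl⟩ := hb
    have hx : (x : α) ∈ S := x.2
    have := hS hx
    exact (mem_NN G).1 this
  exact hG _ h3

private theorem tu_ee (S : Finset α) [DecidableRel G.Adj] :
    ee G S S = 2 * (G.induce (S : Set α)).edgeFinset.card := by
  classical
  rw [← SimpleGraph.sum_degrees_eq_twice_card_edges]
  unfold ee
  rw [← Finset.sum_coe_sort S (fun v => (nb G v S).card)]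
  refine Finset.sum_congr rfl fun x _ => ?_
  rw [← SimpleGraph.card_neighborFinset_eq_degree]
  symm
  refine Finset.card_bij (fun y _ => (y : α)) ?_ ?_ ?_
  · intro y hy
    rw [SimpleGraph.mem_neighborFinset] at hy
    rw [mem_nb]
    exact ⟨y.2, hy⟩
  · intro y _ z _ h
    exact Subtype.ext h
  · intro b hb
    rw [mem_nb] at hb
    refine ⟨⟨b, hb.1⟩, ?_, rfl⟩
    rw [SimpleGraph.mem_neighborFinset]
    exact hb.2

theorem turan_nb {R : ℕ} (hR : 1 ≤ R) (hG : G.CliqueFree (R + 2)) (v : α) (S : Finset α)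
    (hS : S ⊆ NN G v) : (R : ℝ) * (ee G S S : ℝ) ≤ (R - 1) * (S.card : ℝ) ^ 2 := by
  classical
  have hcf := tu_cf G hG v S hS
  have h1 := hcf.card_edgeFinset_le
  simp only at h1
  rw [← SimpleGraph.card_edgeFinset_turanGraph] at h1
  have h2 := SimpleGraph.mul_card_edgeFinset_turanGraph_le (n := Fintype.card (S : Set α)) (r := R)
  have h3 := tu_ee G S
  have h4 : Fintype.card (S : Set α) = S.card := by simp
  rw [h4] at h1 h2
  have h5 : R * ee G S S ≤ (R - 1) * S.card ^ 2 := by
    rw [h3]
    calc R * (2 * (G.induce (S : Set α)).edgeFinset.card)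
        = 2 * R * (G.induce (S : Set α)).edgeFinset.card := by ring
      _ ≤ 2 * R * (SimpleGraph.turanGraph S.card R).edgeFinset.card := Nat.mul_le_mul_left _ h1
      _ ≤ _ := h2
  have h6 : ((R * ee G S S : ℕ) : ℝ) ≤ (((R - 1) * S.card ^ 2 : ℕ) : ℝ) := by exact_mod_cast h5
  push_cast [Nat.cast_sub hR] at h6
  exact h6

/-- the same in divided form -/
theorem turan_nb' {R : ℕ} (hR : 1 ≤ R) (hG : G.CliqueFree (R + 2)) (v : α) (S : Finset α)
    (hS : S ⊆ NN G v) : (ee G S S : ℝ) ≤ (R - 1) / R * (S.card : ℝ) ^ 2 := by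
  have h := turan_nb G hR hG v S hS
  have h0 : (0 : ℝ) < R := by exact_mod_cast hR
  rw [div_mul_eq_mul_div, le_div_iff₀ h0]
  linarith

end Pool.Agent.H11.TD
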