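import Pool.Agent.H11.TD.HulB
import Pool.Agent.H11.TD.Tu

/-!
# TD BadB: the triangles at an arbitrary vertex in terms of the hulls

Let `L` be a family (`Fam`), `H = HH L`, `b` any vertex, `g = |nb b H|`.
`nb b H` is the disjoint union of the `nb b (hull V)`, `V ∈ L`, so
`ee (nb b H)(nb b H) ≤ ∑_V ee (nb b hull V)(nb b hull V) + ∑_V ∑_{v ∈ nb b (hull V)} |NN v \ hull V|
  ≤ ∑_V (R-1)/R |nb b (hull V)|² + 3 γ m g` (`turan_nb'`, `hpt_ext`), and
`ee (nb b H)(nb b (univ \ H)) ≤ ∑_V ∑_{v ∈ nb b (hull V)} |NN v \ hull V| ≤ 3 γ m g`.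
-/

set_option autoImplicit false

open Finset

namespace Pool.Agent.H11.TD

variable {α : Type} [Fintype α] [DecidableEq α] (G : SimpleGraph α) {R r m : ℕ} {γ η : ℝ}

private theorem badb_disj (L : Finset (Fin (R + 1) → Finset α))
    (hL : Fam G R m γ η L) (b : α) :
    Set.PairwiseDisjoint (↑L : Set (Fin (R + 1) → Finset α)) (fun V => nb G b (hull G m γ V)) := by
  intro V hV V' hV' hne
  have h := hL.disj V (Finset.mem_coe.1 hV) V' (Finset.mem_coe.1 hV') hne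
  refine Finset.disjoint_left.2 ?_
  intro x hx hx'
  exact Finset.disjoint_left.1 h ((mem_nb G).1 hx).1 ((mem_nb G).1 hx').1

private theorem badb_union (L : Finset (Fin (R + 1) → Finset α)) (b : α) :
    nb G b (HH G m γ L) = L.biUnion (fun V => nb G b (hull G m γ V)) := by
  ext x
  simp only [HH, mem_nb, Finset.mem_biUnion]
  constructor
  · rintro ⟨⟨V, hV, hx⟩, ha⟩
    exact ⟨V, hV, hx, ha⟩
  · rintro ⟨V, hV, hx, ha⟩
    exact ⟨⟨V, hV, hx⟩, ha⟩

private theorem badb_sub1 (L : Finset (Fin (R + 1) → Finset α)) (b v : α)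
    (V : Fin (R + 1) → Finset α) :
    (nb G v (nb G b (HH G m γ L))).card ≤
      (nb G v (nb G b (hull G m γ V))).card + (NN G v \ hull G m γ V).card := by
  refine (Finset.card_le_card ?_).trans (Finset.card_union_le _ _)
  intro u hu
  obtain ⟨hu1, hu2⟩ := (mem_nb G).1 hu
  obtain ⟨hu3, hu4⟩ := (mem_nb G).1 hu1
  by_cases h : u ∈ hull G m γ V
  · exact Finset.mem_union_left _ ((mem_nb G).2 ⟨(mem_nb G).2 ⟨h, hu4⟩, hu2⟩)
  · exact Finset.mem_union_right _ (Finset.mem_sdiff.2 ⟨(mem_NN G).2 hu2, h⟩)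

private theorem badb_sub2 (L : Finset (Fin (R + 1) → Finset α)) (b v : α)
    (V : Fin (R + 1) → Finset α) (hV : V ∈ L) :
    (nb G v (nb G b (univ \ HH G m γ L))).card ≤ (NN G v \ hull G m γ V).card := by
  refine Finset.card_le_card ?_
  intro u hu
  obtain ⟨hu1, hu2⟩ := (mem_nb G).1 hu
  obtain ⟨hu3, hu4⟩ := (mem_nb G).1 hu1
  refine Finset.mem_sdiff.2 ⟨(mem_NN G).2 hu2, fun h => ?_⟩
  exact (Finset.mem_sdiff.1 hu3).2 (Finset.mem_biUnion.2 ⟨V, hV, h⟩)

theorem badB (hp : Par R r m γ η) (hG : Ctx G R r m) (L : Finset (Fin (R + 1) → Finset α))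
    (hL : Fam G R m γ η L) (b : α) :
    3 * (ee G (nb G b (HH G m γ L)) (nb G b (HH G m γ L)) : ℝ) +
      3 * (ee G (nb G b (HH G m γ L)) (nb G b (univ \ HH G m γ L)) : ℝ) ≤
    ∑ V ∈ L, 3 * ((R - 1) / R) * ((nb G b (hull G m γ V)).card : ℝ) ^ 2 +
      18 * γ * m * ((nb G b (HH G m γ L)).card : ℝ) := by
  obtain ⟨N, hN⟩ : ∃ N : (Fin (R + 1) → Finset α) → Finset α,
      N = fun V => nb G b (hull G m γ V) := ⟨_, rfl⟩
  obtain ⟨X, hX⟩ : ∃ X : Finset α, X = nb G b (HH G m γ L) := ⟨_, rfl⟩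
  have hXN : X = L.biUnion N := by rw [hX, hN]; exact badb_union G L b
  have hdis : Set.PairwiseDisjoint (↑L : Set (Fin (R + 1) → Finset α)) N := by
    rw [hN]; exact badb_disj G L hL b
  have hcard : (X.card : ℝ) = ∑ V ∈ L, ((N V).card : ℝ) := by
    rw [hXN, Finset.card_biUnion hdis]
    push_cast
    rfl
  have hR1 : 1 ≤ R := le_trans (by norm_num) hp.hR
  -- the external edges
  obtain ⟨E, hE⟩ : ∃ E : ℝ, E = ∑ V ∈ L, ∑ v ∈ N V, ((NN G v \ hull G m γ V).card : ℝ) := ⟨_, rfl⟩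
  have hEle : E ≤ 3 * γ * m * (X.card : ℝ) := by
    rw [hE, hcard, Finset.mul_sum]
    refine Finset.sum_le_sum fun V hV => ?_
    have h1 : ∑ v ∈ N V, ((NN G v \ hull G m γ V).card : ℝ) ≤ ∑ _v ∈ N V, 3 * γ * (m : ℝ) := by
      refine Finset.sum_le_sum fun v hv => ?_
      rw [hN] at hv
      exact hpt_ext G hp hG (hL.core V hV) v ((mem_nb G).1 hv).1
    rw [Finset.sum_const, nsmul_eq_mul] at h1
    linarith
  have h1 : (ee G X X : ℝ) ≤ ∑ V ∈ L, ((R - 1) / R * ((N V).card : ℝ) ^ 2) + E := by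
    have h2 : (ee G X X : ℝ) = ∑ V ∈ L, ∑ v ∈ N V, ((nb G v X).card : ℝ) := by
      unfold ee
      push_cast
      conv_lhs => rw [hXN]
      rw [Finset.sum_biUnion hdis, ← hXN]
    rw [h2, hE, ← Finset.sum_add_distrib]
    refine Finset.sum_le_sum fun V hV => ?_
    have h3 : ∑ v ∈ N V, ((nb G v X).card : ℝ) ≤
        ∑ v ∈ N V, (((nb G v (N V)).card : ℝ) + ((NN G v \ hull G m γ V).card : ℝ)) := by
      refine Finset.sum_le_sum fun v _ => ?_
      rw [hX, hN]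
      exact_mod_cast badb_sub1 G L b v V
    rw [Finset.sum_add_distrib] at h3
    have h4 : (ee G (N V) (N V) : ℝ) ≤ (R - 1) / R * ((N V).card : ℝ) ^ 2 := by
      refine turan_nb' G hR1 hG.cf b (N V) ?_
      intro u hu
      rw [hN] at hu
      exact (mem_NN G).2 ((mem_nb G).1 hu).2
    have h5 : (ee G (N V) (N V) : ℝ) = ∑ v ∈ N V, ((nb G v (N V)).card : ℝ) := by
      unfold ee
      push_cast
      rfl
    linarith
  have h6 : (ee G X (nb G b (univ \ HH G m γ L)) : ℝ) ≤ E := by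
    have h2 : (ee G X (nb G b (univ \ HH G m γ L)) : ℝ) =
        ∑ V ∈ L, ∑ v ∈ N V, ((nb G v (nb G b (univ \ HH G m γ L))).card : ℝ) := by
      unfold ee
      push_cast
      rw [hXN, Finset.sum_biUnion hdis]
    rw [h2, hE]
    refine Finset.sum_le_sum fun V hV => Finset.sum_le_sum fun v _ => ?_
    exact_mod_cast badb_sub2 G L b v V hV
  have h7 : ∑ V ∈ L, 3 * (((R : ℝ) - 1) / R) * ((nb G b (hull G m γ V)).card : ℝ) ^ 2 =
      3 * ∑ V ∈ L, (((R : ℝ) - 1) / R * ((N V).card : ℝ) ^ 2) := by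
    rw [Finset.mul_sum, hN]
    exact Finset.sum_congr rfl fun V _ => by ring
  rw [h7, ← hX]
  linarith

end Pool.Agent.H11.TD
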