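import Pool.Agent.H11.TD.HulB
import Pool.Agent.H11.TD.Tu

/-!
# TD BadJ: the triangles at a vertex outside the hull of `V` (used for the vertices of `JJ`)

Let `V` be a core, `y ∉ hull V`, `hull V ⊆ H`, `B = univ \ H`, `K = nb y (hull V)`, `U = |K|`, `N' = NN y \ hull V`,
`|N'| ≤ R m + r - U`.
* Algebra (`ee_union_self`, `ee_comm`): with `H' = nb y H \ hull V`, `nb y H = K ∪ H'`, `N' = H' ∪ nb y B`:
  `3 ee (nb y H)(nb y H) + 3 ee (nb y H)(nb y B) + ee (nb y B)(nb y B)
    ≤ 3 ee K K + 3 ee N' N' + 6 ee K N'`.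
* `turan_nb'`: `ee K K ≤ (R-1)/R U²`, `ee N' N' ≤ (R-1)/R (R m + r - U)²`.
* `ee K N' = ∑_{z ∈ N'} |nb z K| ≤ ∑_{z ∈ N'} |nb z (hull V)| ≤ 4 R³ √η m²`:
  every `z ∈ N'` is outside `tot V`; those with `|nb z (tot V)| ≥ √η m` are at most `2 R² √η m` by `outer_count` (`θ = √η`) and
  contribute at most `R m + r ≤ (R + 1) m` each; the others have `|nb z (hull V)| ≤ √η m + 4 R η m ≤ 2 √η m`
  (`hull_out_card`, `4 R √η ≤ 1`), and there are at most `(R + 1) m` of them;
  `(2 R² + 2)(R + 1) ≤ 4 R³`.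
-/

set_option autoImplicit false

open Finset

namespace Pool.Agent.H11.TD

variable {α : Type} [Fintype α] [DecidableEq α] (G : SimpleGraph α) {R r m : ℕ} {γ η : ℝ}
  {V : Fin (R + 1) → Finset α}

private lemma badj_split (H U0 : Finset α) (hH : U0 ⊆ H) (y : α) :
    nb G y H = nb G y U0 ∪ nb G y (H \ U0) ∧ Disjoint (nb G y U0) (nb G y (H \ U0)) := by
  constructor
  · rw [← nb_union, Finset.union_sdiff_of_subset hH]
  · rw [Finset.disjoint_left]
    intro z h1 h2
    rw [mem_nb] at h1 h2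
    exact (Finset.mem_sdiff.1 h2.1).2 h1.1

private lemma badj_alg (H U0 : Finset α) (hH : U0 ⊆ H) (y : α) :
    3 * ee G (nb G y H) (nb G y H) + 3 * ee G (nb G y H) (nb G y (univ \ H)) +
      ee G (nb G y (univ \ H)) (nb G y (univ \ H)) ≤
    3 * ee G (nb G y U0) (nb G y U0) + 3 * ee G (NN G y \ U0) (NN G y \ U0) +
      6 * ee G (nb G y U0) (NN G y \ U0) := by
  obtain ⟨h1, h2⟩ := badj_split G H U0 hH y
  have hN : NN G y \ U0 = nb G y (H \ U0) ∪ nb G y (univ \ H) := by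
    ext z
    simp only [Finset.mem_sdiff, Finset.mem_union, mem_nb, mem_NN, Finset.mem_univ, true_and]
    constructor
    · rintro ⟨h3, h4⟩
      by_cases h5 : z ∈ H
      · exact Or.inl ⟨⟨h5, h4⟩, h3⟩
      · exact Or.inr ⟨h5, h3⟩
    · rintro (⟨⟨h5, h4⟩, h3⟩ | ⟨h5, h3⟩)
      · exact ⟨h3, h4⟩
      · exact ⟨h3, fun h6 => h5 (hH h6)⟩
  have hd : Disjoint (nb G y (H \ U0)) (nb G y (univ \ H)) := by
    rw [Finset.disjoint_left]
    intro z h3 h4
    rw [mem_nb] at h3 h4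
    exact (Finset.mem_sdiff.1 h4.1).2 (Finset.mem_sdiff.1 h3.1).1
  rw [hN, h1, ee_union_self G h2, ee_union_left G h2, ee_union_self G hd,
    ee_union_right G hd]
  omega

theorem badJ (hp : Par R r m γ η) (hG : Ctx G R r m) (hV : Core G R m η V) (H : Finset α)
    (hH : hull G m γ V ⊆ H) (y : α) (hy : y ∉ hull G m γ V) :
    3 * (ee G (nb G y H) (nb G y H) : ℝ) + 3 * (ee G (nb G y H) (nb G y (univ \ H)) : ℝ) +
      (ee G (nb G y (univ \ H)) (nb G y (univ \ H)) : ℝ) ≤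
    3 * ((R - 1) / R) * (((nb G y (hull G m γ V)).card : ℝ) ^ 2 +
      (R * m + r - ((nb G y (hull G m γ V)).card : ℝ)) ^ 2) +
      24 * (R : ℝ) ^ 3 * Real.sqrt η * m ^ 2 := by
  set U0 := hull G m γ V with hU0
  set N' := NN G y \ U0 with hN'
  have hR4 : (4 : ℝ) ≤ R := by exact_mod_cast hp.hR
  have hR0 : (0 : ℝ) < R := by linarith
  have hm0 : (0 : ℝ) ≤ m := Nat.cast_nonneg m
  have hη0 := hp.hη
  have hγ0 := hp.hγ
  have hγ1 : γ ≤ 1 := by
    have := hp.hγ'
    nlinarith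
  have hη1 : 16 * (R : ℝ) ^ 2 * η ≤ 1 := by
    have := hp.hη'
    nlinarith [mul_pos (pow_pos hR0 2) hη0]
  have hηle : η ≤ 1 := by nlinarith [mul_pos (pow_pos hR0 2) hη0]
  have hrm : (r : ℝ) ≤ m := by
    have h1 := hp.hm
    have h2 : η * m ≤ 1 * m := mul_le_mul_of_nonneg_right hηle hm0
    linarith
  set s := Real.sqrt η with hs
  have hs0 : 0 < s := Real.sqrt_pos.2 hη0
  have hss : s * s = η := Real.mul_self_sqrt hη0.le
  have h4Rs : 4 * R * s ≤ 1 := by
    have h1 : (4 * R * s) ^ 2 ≤ 1 ^ 2 := by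
      calc (4 * R * s) ^ 2 = 16 * (R : ℝ) ^ 2 * (s * s) := by ring
        _ = 16 * (R : ℝ) ^ 2 * η := by rw [hss]
        _ ≤ 1 ^ 2 := by linarith
    exact le_of_sq_le_sq h1 (by norm_num)
  -- degrees
  have hdeg : ∀ z : α, ((nb G z U0).card : ℝ) ≤ (R + 1) * m := by
    intro z
    have h1 := (nb_card_le G z U0).trans (hG.deg z)
    have h2 : ((nb G z U0).card : ℝ) ≤ R * m + r := by exact_mod_cast h1
    linarith
  have hK : nb G y U0 = NN G y ∩ U0 := nb_eq_inter G
  have hcard : N'.card + (nb G y U0).card = (NN G y).card := by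
    rw [hN', hK]
    exact Finset.card_sdiff_add_card_inter _ _
  have hcardR : (N'.card : ℝ) + ((nb G y U0).card : ℝ) ≤ R * m + r := by
    have h1 := hG.deg y
    rw [← hcard] at h1
    exact_mod_cast h1
  have hN'c : (N'.card : ℝ) ≤ (R + 1) * m := by
    have : (0 : ℝ) ≤ ((nb G y U0).card : ℝ) := Nat.cast_nonneg _
    linarith
  -- Turan
  have hT1 := turan_nb' G (by have := hp.hR; omega : 1 ≤ R) hG.cf y (nb G y U0)
    (by rw [hK]; exact Finset.inter_subset_left)
  have hT2 := turan_nb' G (by have := hp.hR; omega : 1 ≤ R) hG.cf y N'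
    (by rw [hN']; exact Finset.sdiff_subset)
  have hq : (0 : ℝ) ≤ (R - 1) / R := div_nonneg (by linarith) hR0.le
  have hT2' : (ee G N' N' : ℝ) ≤ (R - 1) / R * (R * m + r - ((nb G y U0).card : ℝ)) ^ 2 := by
    refine hT2.trans (mul_le_mul_of_nonneg_left ?_ hq)
    apply pow_le_pow_left₀ (Nat.cast_nonneg _)
    linarith
  -- mixed term
  have htot : tot V ⊆ U0 := by
    intro z hz
    rw [mem_tot] at hz
    obtain ⟨i, hi⟩ := hz
    rw [hU0, hull, mem_tot]
    exact ⟨i, core_sub_hpt G hp hV i hi⟩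
  have hmix : (ee G (nb G y U0) N' : ℝ) ≤ 4 * (R : ℝ) ^ 3 * s * m ^ 2 := by
    have h1 : ee G (nb G y U0) N' ≤ ∑ z ∈ N', (nb G z U0).card := by
      unfold ee
      rw [sum_nb_comm]
      refine Finset.sum_le_sum fun z _ => Finset.card_le_card (nb_mono G ?_)
      rw [hK]
      exact Finset.inter_subset_right
    classical
    set Y := N'.filter (fun z => s * m ≤ ((nb G z (tot V)).card : ℝ)) with hY
    have hYc : (Y.card : ℝ) ≤ 2 * (R : ℝ) ^ 2 * s * m := by
      have h2 := outer_count G hp hG hV s Y (fun z hz => by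
        rw [hY, Finset.mem_filter] at hz
        refine ⟨fun h3 => ?_, hz.2⟩
        rw [hN', Finset.mem_sdiff] at hz
        exact hz.1.2 (htot h3))
      rw [← hss] at h2
      have h3 : s * (Y.card : ℝ) ≤ s * (2 * (R : ℝ) ^ 2 * s * m) := by
        calc s * (Y.card : ℝ) ≤ 2 * (R : ℝ) ^ 2 * (s * s) * m := h2
          _ = s * (2 * (R : ℝ) ^ 2 * s * m) := by ring
      exact le_of_mul_le_mul_left h3 hs0
    have hsplit : ∑ z ∈ N', ((nb G z U0).card : ℝ)
        = ∑ z ∈ Y, ((nb G z U0).card : ℝ) +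
          ∑ z ∈ N'.filter (fun z => ¬ s * m ≤ ((nb G z (tot V)).card : ℝ)),
            ((nb G z U0).card : ℝ) := by
      rw [hY]
      exact (Finset.sum_filter_add_sum_filter_not _ _ _).symm
    have hA : ∑ z ∈ Y, ((nb G z U0).card : ℝ) ≤ 2 * (R : ℝ) ^ 2 * s * m * ((R + 1) * m) := by
      calc ∑ z ∈ Y, ((nb G z U0).card : ℝ) ≤ ∑ _z ∈ Y, (R + 1) * (m : ℝ) :=
            Finset.sum_le_sum fun z _ => hdeg z
        _ = Y.card * ((R + 1) * m) := by rw [Finset.sum_const, nsmul_eq_mul]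
        _ ≤ _ := mul_le_mul_of_nonneg_right hYc (by positivity)
    have hB : ∑ z ∈ N'.filter (fun z => ¬ s * m ≤ ((nb G z (tot V)).card : ℝ)),
        ((nb G z U0).card : ℝ) ≤ (R + 1) * m * (2 * s * m) := by
      calc _ ≤ ∑ _z ∈ N'.filter (fun z => ¬ s * m ≤ ((nb G z (tot V)).card : ℝ)),
              (2 * s * m : ℝ) := by
            refine Finset.sum_le_sum fun z hz => ?_
            rw [Finset.mem_filter, not_le] at hz
            have h3 : nb G z U0 ⊆ nb G z (tot V) ∪ (U0 \ tot V) := by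
              intro w hw
              rw [mem_nb] at hw
              by_cases h4 : w ∈ tot V
              · exact Finset.mem_union_left _ ((mem_nb G).2 ⟨h4, hw.2⟩)
              · exact Finset.mem_union_right _ (Finset.mem_sdiff.2 ⟨hw.1, h4⟩)
            have h5 := (Finset.card_le_card h3).trans (Finset.card_union_le _ _)
            have h6 : ((nb G z U0).card : ℝ) ≤
                ((nb G z (tot V)).card : ℝ) + ((U0 \ tot V).card : ℝ) := by exact_mod_cast h5
            have h7 := hull_out_card G hp hG hV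
            have h8 : 4 * R * η * m ≤ s * m := by
              rw [← hss]
              calc 4 * R * (s * s) * m = (4 * R * s) * (s * m) := by ring
                _ ≤ 1 * (s * m) := mul_le_mul_of_nonneg_right h4Rs (by positivity)
                _ = s * m := one_mul _
            have h9 := hz.2
            linarith
        _ = ((N'.filter (fun z => ¬ s * m ≤ ((nb G z (tot V)).card : ℝ))).card : ℝ) *
              (2 * s * m) := by rw [Finset.sum_const, nsmul_eq_mul]
        _ ≤ N'.card * (2 * s * m) := by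
            refine mul_le_mul_of_nonneg_right ?_ (by positivity)
            exact_mod_cast Finset.card_filter_le _ _
        _ ≤ (R + 1) * m * (2 * s * m) := mul_le_mul_of_nonneg_right hN'c (by positivity)
    have h2 : (ee G (nb G y U0) N' : ℝ) ≤ ∑ z ∈ N', ((nb G z U0).card : ℝ) := by
      exact_mod_cast h1
    rw [hsplit] at h2
    have h3 : 2 * (R : ℝ) ^ 2 * s * m * ((R + 1) * m) + (R + 1) * m * (2 * s * m)
        = (2 * ((R : ℝ) ^ 3 + R ^ 2 + R + 1)) * (s * m ^ 2) := by ring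
    have h4 : 2 * ((R : ℝ) ^ 3 + R ^ 2 + R + 1) ≤ 4 * (R : ℝ) ^ 3 := by
      have h5 : (R : ℝ) ^ 2 * 4 ≤ (R : ℝ) ^ 2 * R := mul_le_mul_of_nonneg_left hR4 (by positivity)
      nlinarith
    have h5 : (2 * ((R : ℝ) ^ 3 + R ^ 2 + R + 1)) * (s * m ^ 2)
        ≤ 4 * (R : ℝ) ^ 3 * (s * m ^ 2) := mul_le_mul_of_nonneg_right h4 (by positivity)
    calc (ee G (nb G y U0) N' : ℝ) ≤ _ := h2
      _ ≤ 2 * (R : ℝ) ^ 2 * s * m * ((R + 1) * m) + (R + 1) * m * (2 * s * m) := add_le_add hA hB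
      _ ≤ 4 * (R : ℝ) ^ 3 * (s * m ^ 2) := by rw [h3]; exact h5
      _ = 4 * (R : ℝ) ^ 3 * s * m ^ 2 := by ring
  have halg := badj_alg G H U0 hH y
  have halg' : 3 * (ee G (nb G y H) (nb G y H) : ℝ) +
      3 * (ee G (nb G y H) (nb G y (univ \ H)) : ℝ) +
      (ee G (nb G y (univ \ H)) (nb G y (univ \ H)) : ℝ) ≤
      3 * (ee G (nb G y U0) (nb G y U0) : ℝ) + 3 * (ee G N' N' : ℝ) +
      6 * (ee G (nb G y U0) N' : ℝ) := by exact_mod_cast halg
  have hfin : 3 * ((R - 1) / R) * (((nb G y U0).card : ℝ) ^ 2 +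
      (R * m + r - ((nb G y U0).card : ℝ)) ^ 2) = 3 * ((R - 1) / R * ((nb G y U0).card : ℝ) ^ 2) +
      3 * ((R - 1) / R * (R * m + r - ((nb G y U0).card : ℝ)) ^ 2) := by ring
  rw [hfin]
  linarith

end Pool.Agent.H11.TD
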