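import Pool.Agent.H11.TD.Defs

/-!
# TD Bas: elementary facts about `nb`, `ee`, `rest`, `ms`

All proofs are short (`Finset.filter`, `Finset.card`, double counting).
* `ee_comm`: symmetry of the adjacency; `ee G S T` is the cardinality of
  `{p ∈ S ×ˢ T | G.Adj p.1 p.2}`.
* `t3_cliques`: each triangle (3-clique, `G.cliqueFinset 3`, here as `Set.ncard` of the set of the finsets `s` with
  `G.IsNClique 3 s`) corresponds to six ordered triples `(a, b, c)`.
* `sum_nb_comm`: double counting of the edges between `S` and `T`.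
-/

set_option autoImplicit false

open Finset

namespace Pool.Agent.H11.TD

variable {α : Type} [Fintype α] [DecidableEq α] (G : SimpleGraph α)

theorem mem_nb {v u : α} {S : Finset α} : u ∈ nb G v S ↔ u ∈ S ∧ G.Adj v u := by
  classical
  unfold nb
  rw [Finset.mem_filter]

theorem mem_NN {v u : α} : u ∈ NN G v ↔ G.Adj v u := by
  unfold NN
  rw [mem_nb]
  exact ⟨fun h => h.2, fun h => ⟨Finset.mem_univ _, h⟩⟩

theorem nb_mono {v : α} {S T : Finset α} (h : S ⊆ T) : nb G v S ⊆ nb G v T := by
  intro u hu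
  rw [mem_nb] at hu ⊢
  exact ⟨h hu.1, hu.2⟩

theorem nb_union {v : α} {S T : Finset α} : nb G v (S ∪ T) = nb G v S ∪ nb G v T := by
  ext u
  rw [Finset.mem_union, mem_nb, mem_nb, mem_nb, Finset.mem_union]
  tauto

theorem nb_eq_inter {v : α} {S : Finset α} : nb G v S = NN G v ∩ S := by
  ext u
  rw [Finset.mem_inter, mem_nb, mem_NN]
  tauto

private theorem bas_nb_card (v : α) (S : Finset α) :
    (nb G v S).card = ∑ u ∈ S, (open Classical in if G.Adj v u then 1 else 0) := by
  classical
  unfold nb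
  rw [Finset.card_filter]

theorem sum_nb_comm (S T : Finset α) :
    ∑ v ∈ S, (nb G v T).card = ∑ u ∈ T, (nb G u S).card := by
  classical
  simp only [bas_nb_card]
  rw [Finset.sum_comm]
  apply Finset.sum_congr rfl
  intro u _
  apply Finset.sum_congr rfl
  intro v _
  simp only [G.adj_comm]

theorem ee_comm (S T : Finset α) : ee G S T = ee G T S := sum_nb_comm G S T

theorem ee_mono {S S' T T' : Finset α} (h : S ⊆ S') (h' : T ⊆ T') : ee G S T ≤ ee G S' T' := by
  unfold ee
  calc ∑ v ∈ S, (nb G v T).card ≤ ∑ v ∈ S, (nb G v T').card :=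
        Finset.sum_le_sum fun v _ => Finset.card_le_card (nb_mono G h')
    _ ≤ ∑ v ∈ S', (nb G v T').card :=
        Finset.sum_le_sum_of_subset h

theorem ee_union_left {S S' T : Finset α} (h : Disjoint S S') :
    ee G (S ∪ S') T = ee G S T + ee G S' T := by
  unfold ee
  exact Finset.sum_union h

theorem ee_union_right {S T T' : Finset α} (h : Disjoint T T') :
    ee G S (T ∪ T') = ee G S T + ee G S T' := by
  rw [ee_comm, ee_union_left G h, ee_comm G T S, ee_comm G T' S]

/-- `ee (S ∪ S') (S ∪ S') = ee S S + 2 ee S S' + ee S' S'` -/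
theorem ee_union_self {S S' : Finset α} (h : Disjoint S S') :
    ee G (S ∪ S') (S ∪ S') = ee G S S + 2 * ee G S S' + ee G S' S' := by
  rw [ee_union_left G h, ee_union_right G h, ee_union_right G h, ee_comm G S' S]
  ring

theorem ee_self_le (S : Finset α) : ee G S S ≤ S.card * (S.card - 1) := by
  unfold ee
  rw [← smul_eq_mul]
  apply Finset.sum_le_card_nsmul
  intro v hv
  rw [← Finset.card_erase_of_mem hv]
  apply Finset.card_le_card
  intro u hu
  rw [mem_nb] at hu
  rw [Finset.mem_erase]
  exact ⟨(G.ne_of_adj hu.2).symm, hu.1⟩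

theorem nb_card_le (v : α) (S : Finset α) : (nb G v S).card ≤ (NN G v).card :=
  Finset.card_le_card (nb_mono G (Finset.subset_univ S))

theorem nb_card_le' (v : α) (S : Finset α) : (nb G v S).card ≤ S.card := by
  apply Finset.card_le_card
  intro u hu
  rw [mem_nb] at hu
  exact hu.1

private theorem bas_t3 : t3 G univ =
    (open Classical in (univ : Finset (α × α × α)).filter
      (fun p => G.Adj p.1 p.2.1 ∧ G.Adj p.1 p.2.2 ∧ G.Adj p.2.1 p.2.2)).card := by
  classical
  rw [Finset.card_filter, Fintype.sum_prod_type]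
  unfold t3
  apply Finset.sum_congr rfl
  intro v _
  rw [Fintype.sum_prod_type]
  unfold ee
  rw [show nb G v univ = univ.filter (fun u => G.Adj v u) from by
    ext u; rw [mem_nb, Finset.mem_filter]]
  rw [Finset.sum_filter]
  apply Finset.sum_congr rfl
  intro u _
  by_cases h : G.Adj v u
  · rw [if_pos h, bas_nb_card, Finset.sum_filter]
    apply Finset.sum_congr rfl
    intro w _
    by_cases h1 : G.Adj v w
    · by_cases h2 : G.Adj u w
      · simp [h, h1, h2]
      · simp [h1, h2]
    · simp [h1]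
  · rw [if_neg h]
    symm
    apply Finset.sum_eq_zero
    intro w _
    simp [h]

theorem t3_cliques : t3 G univ = 6 * {s : Finset α | G.IsNClique 3 s}.ncard := by
  classical
  rw [bas_t3]
  have hset : {s : Finset α | G.IsNClique 3 s} =
      (((univ : Finset (Finset α)).filter (fun s => G.IsNClique 3 s) : Finset (Finset α)) :
        Set (Finset α)) := by
    ext s
    simp
  rw [hset, Set.ncard_coe_finset]
  have hmaps : ∀ p ∈ ((univ : Finset (α × α × α)).filter
      (fun p => G.Adj p.1 p.2.1 ∧ G.Adj p.1 p.2.2 ∧ G.Adj p.2.1 p.2.2)),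
      ({p.1, p.2.1, p.2.2} : Finset α) ∈
        ((univ : Finset (Finset α)).filter (fun s => G.IsNClique 3 s)) := by
    intro p hp
    rw [Finset.mem_filter] at hp ⊢
    refine ⟨Finset.mem_univ _, ?_⟩
    rw [SimpleGraph.is3Clique_iff]
    exact ⟨p.1, p.2.1, p.2.2, hp.2.1, hp.2.2.1, hp.2.2.2, rfl⟩
  rw [Finset.card_eq_sum_card_fiberwise hmaps]
  rw [Finset.sum_const_nat (m := 6), mul_comm]
  intro s hs
  rw [Finset.mem_filter, SimpleGraph.is3Clique_iff] at hs
  obtain ⟨_, a, b, c, hab, hac, hbc, rfl⟩ := hs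
  have nab : a ≠ b := G.ne_of_adj hab
  have nac : a ≠ c := G.ne_of_adj hac
  have nbc : b ≠ c := G.ne_of_adj hbc
  have hfib : (((univ : Finset (α × α × α)).filter
      (fun p => G.Adj p.1 p.2.1 ∧ G.Adj p.1 p.2.2 ∧ G.Adj p.2.1 p.2.2)).filter
      (fun p => ({p.1, p.2.1, p.2.2} : Finset α) = {a, b, c})) =
      {(a, b, c), (a, c, b), (b, a, c), (b, c, a), (c, a, b), (c, b, a)} := by
    ext ⟨x, y, z⟩
    rw [Finset.mem_filter, Finset.mem_filter]
    constructor
    · rintro ⟨⟨_, h1, h2, h3⟩, h4⟩
      simp only at h1 h2 h3 h4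
      have n1 := G.ne_of_adj h1
      have n2 := G.ne_of_adj h2
      have n3 := G.ne_of_adj h3
      have hx : x ∈ ({a, b, c} : Finset α) := by rw [← h4]; simp
      have hy : y ∈ ({a, b, c} : Finset α) := by rw [← h4]; simp
      have hz : z ∈ ({a, b, c} : Finset α) := by rw [← h4]; simp
      simp only [Finset.mem_insert, Finset.mem_singleton] at hx hy hz
      clear h4 h1 h2 h3
      rcases hx with rfl | rfl | rfl <;> rcases hy with rfl | rfl | rfl <;>
        rcases hz with rfl | rfl | rfl <;> simp_all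
    · intro h
      simp only [Finset.mem_insert, Finset.mem_singleton, Prod.mk.injEq] at h
      rcases h with ⟨rfl, rfl, rfl⟩ | ⟨rfl, rfl, rfl⟩ | ⟨rfl, rfl, rfl⟩ | ⟨rfl, rfl, rfl⟩ |
        ⟨rfl, rfl, rfl⟩ | ⟨rfl, rfl, rfl⟩
      · exact ⟨⟨Finset.mem_univ _, hab, hac, hbc⟩, rfl⟩
      · refine ⟨⟨Finset.mem_univ _, hac, hab, hbc.symm⟩, ?_⟩
        ext t; simp only [Finset.mem_insert, Finset.mem_singleton]; tauto
      · refine ⟨⟨Finset.mem_univ _, hab.symm, hbc, hac⟩, ?_⟩
        ext t; simp only [Finset.mem_insert, Finset.mem_singleton]; tauto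
      · refine ⟨⟨Finset.mem_univ _, hbc, hab.symm, hac.symm⟩, ?_⟩
        ext t; simp only [Finset.mem_insert, Finset.mem_singleton]; tauto
      · refine ⟨⟨Finset.mem_univ _, hac.symm, hbc.symm, hab⟩, ?_⟩
        ext t; simp only [Finset.mem_insert, Finset.mem_singleton]; tauto
      · refine ⟨⟨Finset.mem_univ _, hbc.symm, hac.symm, hab.symm⟩, ?_⟩
        ext t; simp only [Finset.mem_insert, Finset.mem_singleton]; tauto
  rw [hfib]
  rw [Finset.card_insert_of_notMem, Finset.card_insert_of_notMem, Finset.card_insert_of_notMem,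
    Finset.card_insert_of_notMem, Finset.card_insert_of_notMem, Finset.card_singleton] <;>
  simp only [Finset.mem_insert, Finset.mem_singleton, Prod.mk.injEq, not_or, not_and] <;>
  simp [nab, nac, nbc, nab.symm, nac.symm, nbc.symm]

section parts

variable {k : ℕ} (V : Fin k → Finset α)

theorem mem_tot {v : α} : v ∈ tot V ↔ ∃ i, v ∈ V i := by
  unfold tot
  simp

theorem mem_rest {i : Fin k} {v : α} : v ∈ rest V i ↔ ∃ j, j ≠ i ∧ v ∈ V j := by
  unfold rest
  simp

theorem rest_union (i : Fin k) : rest V i ∪ V i = tot V := by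
  ext v
  rw [Finset.mem_union, mem_rest, mem_tot]
  constructor
  · rintro (⟨j, _, hj⟩ | h)
    · exact ⟨j, hj⟩
    · exact ⟨i, h⟩
  · rintro ⟨j, hj⟩
    by_cases h : j = i
    · right; rw [← h]; exact hj
    · left; exact ⟨j, h, hj⟩

/-- `|nb v (rest V i)| + ms = |rest V i|` -/
theorem nb_rest_card (i : Fin k) (v : α) : (nb G v (rest V i)).card + ms G V i v = (rest V i).card := by
  unfold ms
  have hsub : nb G v (rest V i) ⊆ rest V i := by
    intro u hu
    rw [mem_nb] at hu
    exact hu.1
  rw [add_comm]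
  exact Finset.card_sdiff_add_card_eq_card hsub

theorem tot_card (h : ∀ i j, i ≠ j → Disjoint (V i) (V j)) : (tot V).card = ∑ i, (V i).card := by
  unfold tot
  apply Finset.card_biUnion
  intro i _ j _ hij
  exact h i j hij

theorem rest_card (h : ∀ i j, i ≠ j → Disjoint (V i) (V j)) (i : Fin k) :
    (rest V i).card + (V i).card = ∑ j, (V j).card := by
  rw [← tot_card V h, ← rest_union V i]
  symm
  apply Finset.card_union_of_disjoint
  rw [Finset.disjoint_left]
  intro v hv hv'
  rw [mem_rest] at hv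
  obtain ⟨j, hj, hvj⟩ := hv
  exact Finset.disjoint_left.1 (h j i hj) hvj hv'

end parts

end Pool.Agent.H11.TD
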