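import Pool.Agent.H11.TD.Tu

/-!
# TD BpSum: the vertices outside all clusters pay for themselves

`H`, `J'`, `B'` is a partition of the vertices (`H` = union of the hulls, `J'` = union of the `JJ`, `B'` = `BP`).
For `b` let `g = |nb b H|`, `D = R m + r`,
`f b = ee (nb b (univ \ H)) (nb b (univ \ H)) - 6 P (1 - g / D) - 18 γ m g`.
Claim: `∑_{b ∈ B'} f b ≤ κ m² |J'|` for large `m`, if every `b ∈ B'` is bad or has more than `ε m` bad neighbours.

Facts.  `|nb b (univ \ H)| ≤ D - g`; Turan: `ee ≤ (R-1)/R (D - g)²`; `6 P ≥ R (R-1) m²` (p1), `D ≤ R (m + 1)`, so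
`6 P / D ≥ (R - 1)(m - 1)` and
(1) `f b ≤ (D - g)(R - 1)((m + 1) - g/R - (m - 1)) - 18 γ m g = (D - g)(R - 1)(2 - g/R) - 18 γ m g`.
From p2: `6 P ≤ R (R - 1) m² + C' m ≤ 2 R² m²`.
(2) `b` bad: `f b ≤ - K m` for every given constant `K`, if `m` is large:
  if `g ≤ κ' m`, `κ' = ε / (4 R²)` (with `ee ≤ (R (R-1) - ε) m²` as `b` is bad; `ε ≤ R (R-1)` may be assumed or is
  harmless): `f b ≤ (R (R-1) - ε) m² - 6 P + (6 P / D) g ≤ - ε m² + 2 R κ' m² ≤ - ε m² / 2`;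
  if `g > κ' m` (`≥ 2 R`): the first term of (1) is `≤ 0` and `f b ≤ - 18 γ κ' m²`.
(3) `b ∈ B'` not bad: `f b ≤ 0` if `g ≥ 2 R` (then `2 - g/R ≤ 0`), and `f b ≤ 2 (R - 1) D ≤ 4 R² m` always.
  The vertices `b ∈ B'`, not bad, with `g < 2 R` have more than `ε m - 2 R ≥ ε m / 2` bad neighbours outside `H`; double
  counting: their number is at most `(2 / (ε m)) |Bad \ H| D ≤ (4 R / ε) |Bad \ H|`, `|Bad \ H| ≤ |Bad ∩ B'| + |J'|`.
Sum: `∑ f ≤ 4 R² m (4 R / ε)(|Bad ∩ B'| + |J'|) - K m |Bad ∩ B'| ≤ (16 R³ / ε) m |J'| ≤ κ m² |J'|` with `K = 16 R³ / ε`.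
-/

set_option autoImplicit false

open Finset

namespace Pool.Agent.H11.TD

/-- inequality (1) of the header -/
private theorem bpsum_one {R r m P D g n' E γ : ℝ} (hR : 4 ≤ R) (hr0 : 0 ≤ r) (hr : r ≤ R)
    (hm : 1 ≤ m) (hD : D = R * m + r) (hP : R * (R - 1) * m ^ 2 ≤ 6 * P) (hg : 0 ≤ g)
    (hn : 0 ≤ n') (hng : n' + g ≤ D) (hE : E ≤ (R - 1) / R * n' ^ 2) :
    E - 6 * P * (1 - g / D) - 18 * γ * m * g ≤
      (D - g) * (R - 1) * (2 - g / R) - 18 * γ * m * g := by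
  have hR0 : 0 < R := by linarith
  have hD0 : 0 < D := by
    rw [hD]
    have : 0 < R * m := mul_pos hR0 (by linarith)
    linarith
  have hDg : 0 ≤ D - g := by linarith
  have h1 : E ≤ (R - 1) / R * (D - g) ^ 2 := by
    refine hE.trans (mul_le_mul_of_nonneg_left ?_ (div_nonneg (by linarith) hR0.le))
    exact pow_le_pow_left₀ hn (by linarith) 2
  have hDle : D ≤ R * (m + 1) := by rw [hD]; linarith
  have h2 : (R - 1) * (m - 1) * D ≤ 6 * P := by
    have h3 : (R - 1) * (m - 1) * D ≤ (R - 1) * (m - 1) * (R * (m + 1)) :=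
      mul_le_mul_of_nonneg_left hDle (mul_nonneg (by linarith) (by linarith))
    have h4 : (R - 1) * (m - 1) * (R * (m + 1)) = R * (R - 1) * m ^ 2 - R * (R - 1) := by ring
    have h5 : 0 ≤ R * (R - 1) := mul_nonneg hR0.le (by linarith)
    linarith
  have h6 : (R - 1) * (m - 1) * (D - g) ≤ 6 * P * (1 - g / D) := by
    have h7 : 6 * P * (1 - g / D) = 6 * P / D * (D - g) := by
      field_simp
    rw [h7]
    refine mul_le_mul_of_nonneg_right ?_ hDg
    rw [le_div_iff₀ hD0]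
    exact h2
  have h8 : (R - 1) / R * (D - g) ^ 2 - (R - 1) * (m - 1) * (D - g) ≤
      (D - g) * (R - 1) * (2 - g / R) := by
    have h9 : (R - 1) / R * (D - g) ^ 2 - (R - 1) * (m - 1) * (D - g) =
        (D - g) * (R - 1) * ((D - g) / R - (m - 1)) := by
      field_simp
    rw [h9]
    refine mul_le_mul_of_nonneg_left ?_ (mul_nonneg hDg (by linarith))
    have h10 : (D - g) / R ≤ (m + 1) - g / R := by
      rw [sub_div]
      have : D / R ≤ m + 1 := by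
        rw [div_le_iff₀ hR0]
        linarith
      linarith
    linarith
  linarith

/-- the bad vertices -/
private theorem bpsum_bad {R r m P D g n' E γ ε κ' c : ℝ} (hR : 4 ≤ R) (hr0 : 0 ≤ r) (hr : r ≤ R)
    (hm : 1 ≤ m) (hD : D = R * m + r) (hP : R * (R - 1) * m ^ 2 ≤ 6 * P)
    (hP2 : 6 * P ≤ 2 * R ^ 2 * m ^ 2) (hg : 0 ≤ g)
    (hn : 0 ≤ n') (hng : n' + g ≤ D) (hE : E ≤ (R - 1) / R * n' ^ 2)
    (hE2 : E ≤ (R * (R - 1) - ε) * m ^ 2) (hε : 0 < ε) (hγ : 0 < γ) (hκ' : κ' = ε / (4 * R ^ 2))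
    (hmk : 2 * R ≤ κ' * m) (hc1 : c ≤ ε / 2) (hc2 : c ≤ 18 * γ * κ') :
    E - 6 * P * (1 - g / D) - 18 * γ * m * g ≤ - (c * m ^ 2) := by
  have hR0 : 0 < R := by linarith
  have hm0 : 0 < m := by linarith
  have hD1 : R * m ≤ D := by rw [hD]; linarith
  have hD0 : 0 < D := lt_of_lt_of_le (mul_pos hR0 hm0) hD1
  rcases le_or_gt g (κ' * m) with h | h
  · have h1 : 6 * P * (g / D) ≤ 2 * R * m * (κ' * m) := by
      have h2 : 6 * P * (g / D) = 6 * P / D * g := by ring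
      rw [h2]
      have h3 : 6 * P / D ≤ 2 * R * m := by
        rw [div_le_iff₀ hD0]
        have h4 : 2 * R * m * (R * m) ≤ 2 * R * m * D :=
          mul_le_mul_of_nonneg_left hD1 (by positivity)
        nlinarith
      exact mul_le_mul h3 h hg (by positivity)
    have h5 : 2 * R * m * (κ' * m) = ε * m ^ 2 / (2 * R) := by
      rw [hκ']
      field_simp
      ring
    have h6 : ε * m ^ 2 / (2 * R) ≤ ε * m ^ 2 / 2 := by
      refine div_le_div_of_nonneg_left (by positivity) (by norm_num) (by linarith)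
    have h7 : c * m ^ 2 ≤ ε / 2 * m ^ 2 := mul_le_mul_of_nonneg_right hc1 (sq_nonneg m)
    have h8 : 0 ≤ 18 * γ * m * g := by positivity
    have h9 : 6 * P * (1 - g / D) = 6 * P - 6 * P * (g / D) := by ring
    rw [h9]
    have h10 : (R * (R - 1) - ε) * m ^ 2 = R * (R - 1) * m ^ 2 - ε * m ^ 2 := by ring
    rw [h10] at hE2
    linarith
  · have h1 := bpsum_one (γ := γ) hR hr0 hr hm hD hP hg hn hng hE
    have h2 : (D - g) * (R - 1) * (2 - g / R) ≤ 0 := by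
      refine mul_nonpos_of_nonneg_of_nonpos (mul_nonneg (by linarith) (by linarith)) ?_
      have : 2 ≤ g / R := by
        rw [le_div_iff₀ hR0]
        linarith
      linarith
    have h3 : c * m ^ 2 ≤ 18 * γ * κ' * m ^ 2 := mul_le_mul_of_nonneg_right hc2 (sq_nonneg m)
    have h4 : 18 * γ * m * (κ' * m) ≤ 18 * γ * m * g :=
      mul_le_mul_of_nonneg_left h.le (by positivity)
    have h5 : 18 * γ * m * (κ' * m) = 18 * γ * κ' * m ^ 2 := by ring
    linarith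

/-- vertices with many neighbours in `H` -/
private theorem bpsum_large {R r m P D g n' E γ : ℝ} (hR : 4 ≤ R) (hr0 : 0 ≤ r) (hr : r ≤ R)
    (hm : 1 ≤ m) (hD : D = R * m + r) (hP : R * (R - 1) * m ^ 2 ≤ 6 * P) (hg : 2 * R ≤ g)
    (hn : 0 ≤ n') (hng : n' + g ≤ D) (hE : E ≤ (R - 1) / R * n' ^ 2) (hγ : 0 < γ) :
    E - 6 * P * (1 - g / D) - 18 * γ * m * g ≤ 0 := by
  have hR0 : 0 < R := by linarith
  have hg0 : 0 ≤ g := by linarith
  have h1 := bpsum_one (γ := γ) hR hr0 hr hm hD hP hg0 hn hng hE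
  have h2 : (D - g) * (R - 1) * (2 - g / R) ≤ 0 := by
    refine mul_nonpos_of_nonneg_of_nonpos (mul_nonneg (by linarith) (by linarith)) ?_
    have : 2 ≤ g / R := by
      rw [le_div_iff₀ hR0]
      linarith
    linarith
  have h3 : 0 ≤ 18 * γ * m * g := by positivity
  linarith

/-- the general bound -/
private theorem bpsum_gen {R r m P D g n' E γ : ℝ} (hR : 4 ≤ R) (hr0 : 0 ≤ r) (hr : r ≤ R)
    (hm : 1 ≤ m) (hD : D = R * m + r) (hP : R * (R - 1) * m ^ 2 ≤ 6 * P) (hg0 : 0 ≤ g)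
    (hn : 0 ≤ n') (hng : n' + g ≤ D) (hE : E ≤ (R - 1) / R * n' ^ 2) (hγ : 0 < γ) :
    E - 6 * P * (1 - g / D) - 18 * γ * m * g ≤ 4 * R ^ 2 * m := by
  have hR0 : 0 < R := by linarith
  have hm0 : 0 < m := by linarith
  have h1 := bpsum_one (γ := γ) hR hr0 hr hm hD hP hg0 hn hng hE
  have h3 : 0 ≤ 18 * γ * m * g := by positivity
  have hDle : D ≤ 2 * R * m := by
    rw [hD]
    nlinarith
  have hgR : 0 ≤ g / R := div_nonneg hg0 hR0.le
  have h4 : (D - g) * (R - 1) * (2 - g / R) ≤ (D - g) * (R - 1) * 2 :=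
    mul_le_mul_of_nonneg_left (by linarith) (mul_nonneg (by linarith) (by linarith))
  have h5 : (D - g) * (R - 1) * 2 ≤ (2 * R * m) * (R - 1) * 2 := by
    refine mul_le_mul_of_nonneg_right (mul_le_mul_of_nonneg_right ?_ (by linarith)) (by norm_num)
    linarith
  have h6 : (2 * R * m) * (R - 1) * 2 ≤ 4 * R ^ 2 * m := by
    nlinarith [mul_pos hR0 hm0]
  linarith

/-- the upper bound for `P` from the specification -/
private theorem bpsum_P {R r m : ℕ} {C P : ℝ} (hR : 4 ≤ R) (hr : r < R) (hC : 0 < C)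
    (hm2 : (2 : ℝ) ≤ m) (hmC : C ≤ m) (hP : PSpec R r m C P) :
    6 * P ≤ 2 * (R : ℝ) ^ 2 * m ^ 2 := by
  have h := (abs_le.1 hP.p2).2
  have hR' : (4 : ℝ) ≤ R := by exact_mod_cast hR
  have hr' : (r : ℝ) ≤ R := by exact_mod_cast hr.le
  have hr0 : (0 : ℝ) ≤ r := Nat.cast_nonneg r
  have hm0 : (0 : ℝ) < m := by linarith
  have hmax : max (3 * (r : ℝ) - R) 0 ≤ 2 * R := max_le (by linarith) (by linarith)
  have h1 : (2 * (R : ℝ) * (R - 1) * r + (R - 1) * max (3 * (r : ℝ) - R) 0) * m ≤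
      2 * (R : ℝ) ^ 2 * (R + 1) * m := by
    refine mul_le_mul_of_nonneg_right ?_ hm0.le
    have h2 : 2 * (R : ℝ) * (R - 1) * r ≤ 2 * (R : ℝ) * (R - 1) * R :=
      mul_le_mul_of_nonneg_left hr' (mul_nonneg (by linarith) (by linarith))
    have h3 : ((R : ℝ) - 1) * max (3 * (r : ℝ) - R) 0 ≤ (R - 1) * (2 * R) :=
      mul_le_mul_of_nonneg_left hmax (by linarith)
    nlinarith
  have h4 : (R + 1) * (6 * P) ≤ (R + 1) * (R * (R - 1) * (m : ℝ) ^ 2 + 2 * (R : ℝ) ^ 2 * m + C) := by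
    have h5 : C ≤ (R + 1) * C := by nlinarith
    nlinarith
  have h6 : 6 * P ≤ R * (R - 1) * (m : ℝ) ^ 2 + 2 * (R : ℝ) ^ 2 * m + C :=
    le_of_mul_le_mul_left h4 (by linarith)
  have h7 : 2 * (R : ℝ) ^ 2 * m ≤ (R : ℝ) ^ 2 * m ^ 2 := by
    have : (0 : ℝ) ≤ (R : ℝ) ^ 2 * m * (m - 2) :=
      mul_nonneg (by positivity) (by linarith)
    nlinarith
  have h8 : C ≤ R * (m : ℝ) ^ 2 := by
    have h9 : (m : ℝ) ≤ (m : ℝ) ^ 2 := by nlinarith
    have h10 : (m : ℝ) ^ 2 ≤ R * (m : ℝ) ^ 2 := by nlinarith [sq_nonneg (m : ℝ)]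
    linarith
  nlinarith

section counting

variable {α : Type} [Fintype α] [DecidableEq α] (G : SimpleGraph α)

private theorem bpsum_split (b : α) (H : Finset α) :
    (nb G b (univ \ H)).card + (nb G b H).card = (NN G b).card := by
  rw [← card_union_of_disjoint, ← nb_union]
  · congr 1
    rw [sdiff_union_of_subset (subset_univ H)]
    rfl
  · rw [disjoint_left]
    intro x hx hx'
    rw [mem_nb] at hx hx'
    exact (mem_sdiff.1 hx.1).2 hx'.1

omit [DecidableEq α] in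
private theorem bpsum_notGood {R m : ℕ} {ε : ℝ} {b : α} (hb : b ∈ Bad G R m ε) :
    ¬ Good G R m ε b := by
  classical
  simpa [Bad] using hb

private theorem bpsum_count {R r m : ℕ} (hG : Ctx G R r m) (N X : Finset α) (t : ℝ)
    (ht : ∀ b ∈ N, t ≤ ((nb G b X).card : ℝ)) :
    (N.card : ℝ) * t ≤ (X.card : ℝ) * (R * m + r) := by
  have h1 : (N.card : ℝ) * t ≤ ∑ b ∈ N, ((nb G b X).card : ℝ) := by
    rw [← nsmul_eq_mul]
    exact card_nsmul_le_sum N _ t ht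
  have h2 : ∑ b ∈ N, ((nb G b X).card : ℝ) = ∑ x ∈ X, ((nb G x N).card : ℝ) := by
    exact_mod_cast sum_nb_comm G N X
  have h3 : ∑ x ∈ X, ((nb G x N).card : ℝ) ≤ (X.card : ℝ) * (R * m + r) := by
    rw [← nsmul_eq_mul]
    refine sum_le_card_nsmul X _ _ fun x _ => ?_
    exact_mod_cast (nb_card_le G x N).trans (hG.deg x)
  linarith

end counting

theorem bp_sum (R r : ℕ) (hR : 4 ≤ R) (hr : r < R) (C ε γ κ : ℝ) (hC : 0 < C) (hε : 0 < ε)
    (hγ : 0 < γ) (hκ : 0 < κ) : ∃ m0 : ℕ, ∀ m : ℕ, m0 ≤ m → ∀ P : ℝ, PSpec R r m C P →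
      ∀ (α : Type) [Fintype α] [DecidableEq α] (G : SimpleGraph α), Ctx G R r m →
        ∀ H J' B' : Finset α, Disjoint H J' → Disjoint H B' → Disjoint J' B' →
          H ∪ J' ∪ B' = univ →
          (∀ b ∈ B', b ∈ Bad G R m ε ∨ ε * m < ((nb G b (Bad G R m ε)).card : ℝ)) →
          ∑ b ∈ B', ((ee G (nb G b (univ \ H)) (nb G b (univ \ H)) : ℝ) -
            6 * P * (1 - ((nb G b H).card : ℝ) / (R * m + r)) -
            18 * γ * m * ((nb G b H).card : ℝ)) ≤ κ * m ^ 2 * (J'.card : ℝ) := by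
  set κ' : ℝ := ε / (4 * (R : ℝ) ^ 2) with hκ'
  set c : ℝ := min (ε / 2) (18 * γ * κ') with hc
  have hR' : (4 : ℝ) ≤ R := by exact_mod_cast hR
  have hR0 : (0 : ℝ) < R := by linarith
  have hr' : (r : ℝ) ≤ R := by exact_mod_cast hr.le
  have hr0 : (0 : ℝ) ≤ r := Nat.cast_nonneg r
  have hκ'0 : 0 < κ' := by positivity
  have hc0 : 0 < c := lt_min (by linarith) (by positivity)
  set X : ℝ := 2 * R / κ' + 4 * R / ε + C + 16 * (R : ℝ) ^ 3 / (ε * c) +
    16 * (R : ℝ) ^ 3 / (ε * κ) with hX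
  refine ⟨⌈X⌉₊ + 2, ?_⟩
  intro m hm P hP α _ _ G hG H J' B' hHJ hHB hJB hcov hB
  have hmX : X + 2 ≤ (m : ℝ) := by
    have h1 : X ≤ (⌈X⌉₊ : ℝ) := Nat.le_ceil X
    have h2 : ((⌈X⌉₊ + 2 : ℕ) : ℝ) ≤ (m : ℝ) := by exact_mod_cast hm
    push_cast at h2
    linarith
  have p1 : 0 ≤ 2 * R / κ' := by positivity
  have p2 : 0 ≤ 4 * R / ε := by positivity
  have p3 : 0 ≤ 16 * (R : ℝ) ^ 3 / (ε * c) := by positivity
  have p4 : 0 ≤ 16 * (R : ℝ) ^ 3 / (ε * κ) := by positivity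
  have hm2 : (2 : ℝ) ≤ m := by linarith
  have hm1 : (1 : ℝ) ≤ m := by linarith
  have hm0 : (0 : ℝ) < m := by linarith
  have hmC : C ≤ m := by linarith
  have hmk : 2 * R ≤ κ' * m := by
    have : 2 * R / κ' ≤ m := by linarith
    rw [div_le_iff₀ hκ'0] at this
    linarith
  have hme : 4 * R ≤ ε * m := by
    have : 4 * R / ε ≤ m := by linarith
    rw [div_le_iff₀ hε] at this
    linarith
  have hmc : 16 * (R : ℝ) ^ 3 / ε ≤ c * m := by
    have h1 : 16 * (R : ℝ) ^ 3 / (ε * c) ≤ m := by linarith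
    rw [div_le_iff₀ (by positivity)] at h1
    rw [div_le_iff₀ hε]
    linarith
  have hmκ : 16 * (R : ℝ) ^ 3 / ε ≤ κ * m := by
    have h1 : 16 * (R : ℝ) ^ 3 / (ε * κ) ≤ m := by linarith
    rw [div_le_iff₀ (by positivity)] at h1
    rw [div_le_iff₀ hε]
    linarith
  have hP1 := hP.p1
  have hP2 := bpsum_P hR hr hC hm2 hmC hP
  -- abbreviations
  set f : α → ℝ := fun b => (ee G (nb G b (univ \ H)) (nb G b (univ \ H)) : ℝ) -
            6 * P * (1 - ((nb G b H).card : ℝ) / (R * m + r)) -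
            18 * γ * m * ((nb G b H).card : ℝ) with hf
  have hng : ∀ b, ((nb G b (univ \ H)).card : ℝ) + ((nb G b H).card : ℝ) ≤ (R : ℝ) * m + r := by
    intro b
    have h1 := bpsum_split G b H
    have h2 := hG.deg b
    have h3 : (nb G b (univ \ H)).card + (nb G b H).card ≤ R * m + r := by omega
    exact_mod_cast h3
  have hE : ∀ b, (ee G (nb G b (univ \ H)) (nb G b (univ \ H)) : ℝ) ≤
      ((R : ℝ) - 1) / R * ((nb G b (univ \ H)).card : ℝ) ^ 2 := by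
    intro b
    exact turan_nb' G (by omega) hG.cf b _ (nb_mono G (subset_univ _))
  have hE2 : ∀ b, b ∈ Bad G R m ε → (ee G (nb G b (univ \ H)) (nb G b (univ \ H)) : ℝ) ≤
      ((R : ℝ) * (R - 1) - ε) * (m : ℝ) ^ 2 := by
    intro b hb
    have h1 : ¬ Good G R m ε b := bpsum_notGood G hb
    have h2 : (ee G (NN G b) (NN G b) : ℝ) < ((R : ℝ) * (R - 1) - ε) * (m : ℝ) ^ 2 := by
      unfold Good at h1
      exact not_le.1 h1
    have h3 : ee G (nb G b (univ \ H)) (nb G b (univ \ H)) ≤ ee G (NN G b) (NN G b) :=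
      ee_mono G (nb_mono G (subset_univ _)) (nb_mono G (subset_univ _))
    have h4 : (ee G (nb G b (univ \ H)) (nb G b (univ \ H)) : ℝ) ≤ (ee G (NN G b) (NN G b) : ℝ) := by
      exact_mod_cast h3
    linarith
  have hbad : ∀ b, b ∈ Bad G R m ε → f b ≤ -(c * (m : ℝ) ^ 2) := by
    intro b hb
    exact bpsum_bad hR' hr0 hr' hm1 rfl hP1 hP2 (Nat.cast_nonneg _) (Nat.cast_nonneg _) (hng b)
      (hE b) (hE2 b hb) hε hγ hκ' hmk (min_le_left _ _) (min_le_right _ _)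
  have hlarge : ∀ b, 2 * (R : ℝ) ≤ ((nb G b H).card : ℝ) → f b ≤ 0 := by
    intro b hb
    exact bpsum_large hR' hr0 hr' hm1 rfl hP1 hb (Nat.cast_nonneg _) (hng b) (hE b) hγ
  have hgen : ∀ b, f b ≤ 4 * (R : ℝ) ^ 2 * m := by
    intro b
    exact bpsum_gen hR' hr0 hr' hm1 rfl hP1 (Nat.cast_nonneg _) (Nat.cast_nonneg _) (hng b) (hE b) hγ
  classical
  set B1 : Finset α := B'.filter (fun b => b ∈ Bad G R m ε) with hB1
  set B2 : Finset α := B'.filter (fun b => b ∉ Bad G R m ε) with hB2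
  set N3 : Finset α := B2.filter (fun b => ((nb G b H).card : ℝ) < 2 * R) with hN3
  set N4 : Finset α := B2.filter (fun b => ¬ ((nb G b H).card : ℝ) < 2 * R) with hN4
  have hs1 : ∑ b ∈ B', f b = ∑ b ∈ B1, f b + ∑ b ∈ B2, f b :=
    (sum_filter_add_sum_filter_not B' _ f).symm
  have hs2 : ∑ b ∈ B2, f b = ∑ b ∈ N3, f b + ∑ b ∈ N4, f b :=
    (sum_filter_add_sum_filter_not B2 _ f).symm
  have hs3 : ∑ b ∈ B1, f b ≤ (B1.card : ℝ) * (-(c * (m : ℝ) ^ 2)) := by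
    rw [← nsmul_eq_mul]
    exact sum_le_card_nsmul B1 _ _ fun b hb => hbad b (mem_filter.1 hb).2
  have hs4 : ∑ b ∈ N4, f b ≤ 0 :=
    sum_nonpos fun b hb => hlarge b (not_lt.1 (mem_filter.1 hb).2)
  have hs5 : ∑ b ∈ N3, f b ≤ (N3.card : ℝ) * (4 * (R : ℝ) ^ 2 * m) := by
    rw [← nsmul_eq_mul]
    exact sum_le_card_nsmul N3 _ _ fun b _ => hgen b
  -- the bad vertices outside H
  set Y : Finset α := Bad G R m ε \ H with hY
  have hYc : (Y.card : ℝ) ≤ (B1.card : ℝ) + (J'.card : ℝ) := by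
    have h1 : Y ⊆ B1 ∪ J' := by
      intro x hx
      rw [hY, mem_sdiff] at hx
      have h2 : x ∈ H ∪ J' ∪ B' := by rw [hcov]; exact mem_univ x
      rw [mem_union, mem_union] at h2
      rw [mem_union, hB1, mem_filter]
      rcases h2 with (h2 | h2) | h2
      · exact absurd h2 hx.2
      · exact Or.inr h2
      · exact Or.inl ⟨h2, hx.1⟩
    have h3 := (card_le_card h1).trans (card_union_le B1 J')
    exact_mod_cast h3
  have hN3Y : (N3.card : ℝ) * (ε * m / 2) ≤ (Y.card : ℝ) * (R * m + r) := by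
    refine bpsum_count G hG N3 Y _ fun b hb => ?_
    rw [hN3, mem_filter, hB2, mem_filter] at hb
    obtain ⟨⟨hbB, hbn⟩, hbg⟩ := hb
    have h1 : ε * m < ((nb G b (Bad G R m ε)).card : ℝ) := (hB b hbB).resolve_left hbn
    have h2 : nb G b (Bad G R m ε) ⊆ nb G b Y ∪ nb G b H := by
      intro x hx
      rw [mem_nb] at hx
      rw [mem_union, mem_nb, mem_nb, hY, mem_sdiff]
      by_cases hxH : x ∈ H
      · exact Or.inr ⟨hxH, hx.2⟩
      · exact Or.inl ⟨⟨hx.1, hxH⟩, hx.2⟩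
    have h3 : ((nb G b (Bad G R m ε)).card : ℝ) ≤ ((nb G b Y).card : ℝ) + ((nb G b H).card : ℝ) := by
      exact_mod_cast (card_le_card h2).trans (card_union_le _ _)
    linarith
  have hN3c : (N3.card : ℝ) * ε ≤ 4 * R * ((B1.card : ℝ) + (J'.card : ℝ)) := by
    have h1 : (Y.card : ℝ) * (R * m + r) ≤ ((B1.card : ℝ) + (J'.card : ℝ)) * (2 * R * m) := by
      refine mul_le_mul hYc ?_ (by positivity) (by positivity)
      nlinarith
    have h2 : (N3.card : ℝ) * ε * (m / 2) ≤ 4 * R * ((B1.card : ℝ) + (J'.card : ℝ)) * (m / 2) := by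
      have e1 : (N3.card : ℝ) * ε * (m / 2) = (N3.card : ℝ) * (ε * m / 2) := by ring
      have e2 : 4 * R * ((B1.card : ℝ) + (J'.card : ℝ)) * (m / 2) =
        ((B1.card : ℝ) + (J'.card : ℝ)) * (2 * R * m) := by ring
      rw [e1, e2]
      exact hN3Y.trans h1
    exact le_of_mul_le_mul_right h2 (by linarith)
  have hN3d : (N3.card : ℝ) * (4 * (R : ℝ) ^ 2 * m) ≤
      16 * (R : ℝ) ^ 3 / ε * m * ((B1.card : ℝ) + (J'.card : ℝ)) := by
    have h1 : (N3.card : ℝ) ≤ 4 * R * ((B1.card : ℝ) + (J'.card : ℝ)) / ε := by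
      rw [le_div_iff₀ hε]
      exact hN3c
    have h2 : (N3.card : ℝ) * (4 * (R : ℝ) ^ 2 * m) ≤
        4 * R * ((B1.card : ℝ) + (J'.card : ℝ)) / ε * (4 * (R : ℝ) ^ 2 * m) :=
      mul_le_mul_of_nonneg_right h1 (by positivity)
    refine h2.trans (le_of_eq ?_)
    ring
  have hb1 : 16 * (R : ℝ) ^ 3 / ε * m * (B1.card : ℝ) ≤ c * m * m * (B1.card : ℝ) := by
    refine mul_le_mul_of_nonneg_right (mul_le_mul_of_nonneg_right hmc hm0.le) (Nat.cast_nonneg _)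
  have hj1 : 16 * (R : ℝ) ^ 3 / ε * m * (J'.card : ℝ) ≤ κ * m * m * (J'.card : ℝ) := by
    refine mul_le_mul_of_nonneg_right (mul_le_mul_of_nonneg_right hmκ hm0.le) (Nat.cast_nonneg _)
  have hfin : ∑ b ∈ B', f b ≤ κ * m ^ 2 * (J'.card : ℝ) := by
    rw [hs1, hs2]
    have e1 : 16 * (R : ℝ) ^ 3 / ε * m * ((B1.card : ℝ) + (J'.card : ℝ)) =
      16 * (R : ℝ) ^ 3 / ε * m * (B1.card : ℝ) + 16 * (R : ℝ) ^ 3 / ε * m * (J'.card : ℝ) := by ring
    have e2 : (B1.card : ℝ) * (-(c * (m : ℝ) ^ 2)) = -(c * m * m * (B1.card : ℝ)) := by ring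
    have e3 : κ * m ^ 2 * (J'.card : ℝ) = κ * m * m * (J'.card : ℝ) := by ring
    rw [e3]
    rw [e1] at hN3d
    rw [e2] at hs3
    linarith
  exact hfin

end Pool.Agent.H11.TD
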