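import Pool.Agent.H11.TD.Defs

/-!
# TD JB: the contributions of the vertices in `J` and `B`

`W0 = (R - 1) m`; `Par` gives `γ m ≥ 1000 R² η m ≥ 1000 R² (r + 1)`, in particular `γ m ≥ 1000 R² (r + 1)`.
* `jl1`, `jl2`: let `y = R m - U`, `γ m / 2 ≤ y ≤ (9/20) R m`.
  `3 (R-1)/R (U² + (R m + r - U)²) = 3 (R - 1)(R m² - 2 m y + (2 y² + 2 r y + r²)/R)`.
  jl1: subtracting `3 W0 U = 3 (R - 1) m (R m - y)` leaves `3 (R - 1)(- m y + (2 y² + 2 r y + r²)/R)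
   ≤ - 3 W0 y (1 - 9/10) + 3 (R - 1)(2 r y + r²)/R`; then `y ≥ γ m / 2`, `2 R √η m U ≤ 2 R² √η m²` with `200 R √η ≤ γ`.
  jl2: `2 y²/R ≤ (9/10) m y`, so the left side is `≤ 3 R W0 m - 3.3 W0 y + small`, and
  `0.1 W0 y ≥ 0.05 W0 γ m` covers `(R - 1) γ/40 m²` and the small terms.
* `pd_le`: `6 P/(R m + r) ≥ R (R-1) m² / (R (m + 1)) ≥ (R - 1)(m - 1)`.
* `bl1`: `3 (R-1)/R U ≤ 1.65 W0`, so the left side is `≤ (1.65 W0 - (R - 1)(m - 1) + 36 γ m) U ≤ 0.7 W0 U`.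
* `bl2`: if `U ≤ (R/3 - 1/6) m`: `3 (R-1)/R U - (R - 1)(m - 1) + 36 γ m ≤ - W0/(2R) + (R - 1) + 36 γ m ≤ 0`.
  Otherwise: convexity (or: the difference `3 (R-1)/R U² - ((R-1)(m-1) - 36 γ m) U - (42/25) W0 (U - (R/3 - 1/6) m)` is a convex
  function of `U`, nonpositive at `U = (R/3 - 1/6) m` and at `U = (11/20) R m`: there it is
  `≤ W0 m (0.3575 R + small - (42/25)(13/60) R - 0.28) ≤ 0`, `0.3575 < 0.364`).
-/

set_option autoImplicit false

namespace Pool.Agent.H11.TD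

/-- the elementary consequences of `Par` -/
theorem jb_par {R r m : ℕ} {γ η : ℝ} (hp : Par R r m γ η) :
    (4 : ℝ) ≤ R ∧ (0 : ℝ) ≤ r ∧ (r : ℝ) + 1 ≤ R ∧ 16000 * ((r : ℝ) + 1) ≤ γ * m ∧
      4000 * γ ≤ 1 ∧ 1000 * (R : ℝ) ≤ m ∧ (0 : ℝ) < m := by
  have hR : (4 : ℝ) ≤ R := by exact_mod_cast hp.hR
  have hr : (r : ℝ) + 1 ≤ R := by exact_mod_cast hp.hr
  have hr0 : (0 : ℝ) ≤ r := Nat.cast_nonneg r
  have hm0 : (0 : ℝ) ≤ m := Nat.cast_nonneg m
  have h1 := hp.hγ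
  have h2 := hp.hγ'
  have h3 := hp.hη
  have h4 := hp.hη'
  have h5 := hp.hm
  have hmpos : (0 : ℝ) < m := by
    rcases hm0.lt_or_eq with h | h
    · exact h
    · rw [← h] at h5; nlinarith
  have hR2 : (16 : ℝ) ≤ (R : ℝ) ^ 2 := by nlinarith
  have h6 : 1000 * (R : ℝ) ^ 2 * ((r : ℝ) + 1) ≤ γ * m := by
    calc 1000 * (R : ℝ) ^ 2 * ((r : ℝ) + 1) ≤ 1000 * (R : ℝ) ^ 2 * (η * m) :=
          mul_le_mul_of_nonneg_left h5 (by positivity)
      _ = (1000 * (R : ℝ) ^ 2 * η) * m := by ring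
      _ ≤ γ * m := mul_le_mul_of_nonneg_right h4 hm0
  have h7 : 16000 * ((r : ℝ) + 1) ≤ 1000 * (R : ℝ) ^ 2 * ((r : ℝ) + 1) := by nlinarith
  have h8 : 4000 * γ ≤ 1 := by nlinarith
  have h9 : 1000 * (R : ℝ) ≤ m := by
    have h10 : 1000 * (R : ℝ) ^ 2 ≤ γ * m := by nlinarith
    have h11 : γ * m ≤ m := by nlinarith
    nlinarith
  exact ⟨hR, hr0, hr, h7.trans h6, h8, h9, hmpos⟩

theorem jb_E {R r m U : ℝ} (hR : 4 ≤ R) (hr : 0 ≤ r) (hrR : r + 1 ≤ R)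
    (h1 : (11 / 20 : ℝ) * R * m ≤ U) (h2 : U ≤ R * m) :
    (U ^ 2 + (R * m + r - U) ^ 2) / R ≤
      R * m ^ 2 - 11 / 10 * m * (R * m - U) + 9 / 10 * r * m + r := by
  have hR0 : 0 < R := by linarith
  rw [div_le_iff₀ hR0]
  have hy0 : 0 ≤ R * m - U := by linarith
  have hy1 : 0 ≤ 9 / 20 * R * m - (R * m - U) := by linarith
  have h3 := mul_nonneg hy0 hy1
  have h4 := mul_nonneg hr hy1
  have h5 : 0 ≤ r * (R - r) := mul_nonneg hr (by linarith)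
  nlinarith [h3, h4, h5]

theorem jb_conv {c D s K L U : ℝ} (hc : 0 ≤ c) (hKL : K < L) (h1 : K ≤ U) (h2 : U ≤ L)
    (hK : c * K ^ 2 - D * K ≤ 0) (hL : c * L ^ 2 - D * L ≤ s * (L - K)) :
    c * U ^ 2 - D * U ≤ s * (U - K) := by
  have h3 : (L - K) * (c * U ^ 2 - D * U - s * (U - K)) ≤ 0 := by
    have e : (L - K) * (c * U ^ 2 - D * U - s * (U - K)) =
        (L - U) * (c * K ^ 2 - D * K) + (U - K) * (c * L ^ 2 - D * L - s * (L - K)) -
          c * ((U - K) * (L - U) * (L - K)) := by ring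
    rw [e]
    have a1 : (L - U) * (c * K ^ 2 - D * K) ≤ 0 :=
      mul_nonpos_of_nonneg_of_nonpos (by linarith) hK
    have a2 : (U - K) * (c * L ^ 2 - D * L - s * (L - K)) ≤ 0 :=
      mul_nonpos_of_nonneg_of_nonpos (by linarith) (by linarith)
    have a3 : 0 ≤ c * ((U - K) * (L - U) * (L - K)) :=
      mul_nonneg hc (mul_nonneg (mul_nonneg (by linarith) (by linarith)) (by linarith))
    linarith
  have h4 : 0 < L - K := by linarith
  by_contra h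
  push Not at h
  have := mul_pos h4 (sub_pos.mpr h)
  linarith

theorem jl1 {R r m : ℕ} {γ η : ℝ} (hp : Par R r m γ η) (hη2 : 200 * R * Real.sqrt η ≤ γ) (U : ℝ)
    (h1 : (11 / 20 : ℝ) * R * m ≤ U) (h2 : U ≤ (R - γ / 2) * m) :
    3 * ((R - 1) / R) * (U ^ 2 + (R * m + r - U) ^ 2) + (R - 1) * γ / 40 * m ^ 2 -
      3 * ((R - 1) * m) * U + 2 * R * Real.sqrt η * m * U ≤ -(γ / 10) * ((R - 1) * m) * m := by
  obtain ⟨hR, hr, hrR, hγm, hγ4, hm1, hm0⟩ := jb_par hp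
  have hγ := hp.hγ
  have hγm0 : 0 < γ * m := mul_pos hγ hm0
  have hU : U ≤ R * m := by nlinarith
  have hE := jb_E hR hr hrR h1 hU
  have hR1 : (0 : ℝ) < (R : ℝ) - 1 := by linarith
  have hR0 : (0 : ℝ) < R := by linarith
  have e1 : 3 * (((R : ℝ) - 1) / R) * (U ^ 2 + (R * m + r - U) ^ 2) =
      3 * (R - 1) * ((U ^ 2 + (R * m + r - U) ^ 2) / R) := by ring
  rw [e1]
  have h3 := mul_le_mul_of_nonneg_left hE (by linarith : (0 : ℝ) ≤ 3 * ((R : ℝ) - 1))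
  have hs : 0 ≤ Real.sqrt η := Real.sqrt_nonneg η
  -- the term with the square root
  have h4 : 2 * R * Real.sqrt η * m * U ≤ (R - 1) * (γ * m * m) / 75 := by
    have a1 : 2 * R * Real.sqrt η * m * U ≤ 2 * R * Real.sqrt η * m * (R * m) :=
      mul_le_mul_of_nonneg_left hU (by positivity)
    have a2 : 2 * R * Real.sqrt η * m * (R * m) = (200 * R * Real.sqrt η) * (R * m * m / 100) := by
      ring
    have a3 : (200 * R * Real.sqrt η) * (R * m * m / 100) ≤ γ * (R * m * m / 100) :=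
      mul_le_mul_of_nonneg_right hη2 (by positivity)
    have a4 : (R : ℝ) ≤ 4 / 3 * (R - 1) := by linarith
    have a5 := mul_le_mul_of_nonneg_right a4 (by positivity : 0 ≤ γ * m * m)
    nlinarith
  have hy : γ / 2 * m ≤ R * m - U := by nlinarith
  have h5 : (R - 1) * m * (γ / 2 * m) ≤ (R - 1) * m * (R * m - U) :=
    mul_le_mul_of_nonneg_left hy (by positivity)
  have h6 : (R - 1) * m * (16000 * r) ≤ (R - 1) * m * (γ * m) :=
    mul_le_mul_of_nonneg_left (by linarith) (by positivity)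
  have h7 : (R - 1) * (16000 * r) ≤ (R - 1) * m * (γ * m) := by
    have : ((R : ℝ) - 1) * (16000 * r) * 1 ≤ (R - 1) * (16000 * r) * m :=
      mul_le_mul_of_nonneg_left (by linarith) (by positivity)
    linarith
  have h8 : 0 ≤ (R - 1) * m * (γ * m) := by positivity
  nlinarith [h3, h4, h5, h6, h7, h8]

theorem jl2 {R r m : ℕ} {γ η : ℝ} (hp : Par R r m γ η) (U : ℝ)
    (h1 : (11 / 20 : ℝ) * R * m ≤ U) (h2 : U ≤ (R - γ / 2) * m) :
    3 * ((R - 1) / R) * (U ^ 2 + (R * m + r - U) ^ 2) + (R - 1) * γ / 40 * m ^ 2 ≤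
      3 * R * ((R - 1) * m) * m - 16 / 5 * ((R - 1) * m) * (R * m - U) := by
  obtain ⟨hR, hr, hrR, hγm, hγ4, hm1, hm0⟩ := jb_par hp
  have hγ := hp.hγ
  have hγm0 : 0 < γ * m := mul_pos hγ hm0
  have hU : U ≤ R * m := by nlinarith
  have hE := jb_E hR hr hrR h1 hU
  have hR1 : (0 : ℝ) < (R : ℝ) - 1 := by linarith
  have hR0 : (0 : ℝ) < R := by linarith
  have e1 : 3 * (((R : ℝ) - 1) / R) * (U ^ 2 + (R * m + r - U) ^ 2) =
      3 * (R - 1) * ((U ^ 2 + (R * m + r - U) ^ 2) / R) := by ring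
  rw [e1]
  have h3 := mul_le_mul_of_nonneg_left hE (by linarith : (0 : ℝ) ≤ 3 * ((R : ℝ) - 1))
  have hy : γ / 2 * m ≤ R * m - U := by nlinarith
  have h5 : (R - 1) * m * (γ / 2 * m) ≤ (R - 1) * m * (R * m - U) :=
    mul_le_mul_of_nonneg_left hy (by positivity)
  have h6 : (R - 1) * m * (16000 * r) ≤ (R - 1) * m * (γ * m) :=
    mul_le_mul_of_nonneg_left (by linarith) (by positivity)
  have h7 : (R - 1) * (16000 * r) ≤ (R - 1) * m * (γ * m) := by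
    have : ((R : ℝ) - 1) * (16000 * r) * 1 ≤ (R - 1) * (16000 * r) * m :=
      mul_le_mul_of_nonneg_left (by linarith) (by positivity)
    linarith
  have h8 : 0 ≤ (R - 1) * m * (γ * m) := by positivity
  nlinarith [h3, h5, h6, h7, h8]

theorem pd_le {R r m : ℕ} {γ η P : ℝ} (hp : Par R r m γ η)
    (hP : (R : ℝ) * (R - 1) * m ^ 2 ≤ 6 * P) :
    ((R : ℝ) - 1) * (m - 1) ≤ 6 * P / (R * m + r) := by
  obtain ⟨hR, hr, hrR, hγm, hγ4, hm1, hm0⟩ := jb_par hp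
  rw [le_div_iff₀ (by positivity)]
  have h1 : ((m : ℝ) - 1) * (R * m + r) ≤ R * m ^ 2 := by nlinarith
  have h2 := mul_le_mul_of_nonneg_left h1 (by linarith : (0 : ℝ) ≤ (R : ℝ) - 1)
  nlinarith [h2, hP]

theorem bl1 {R r m : ℕ} {γ η P : ℝ} (hp : Par R r m γ η)
    (hP : (R : ℝ) * (R - 1) * m ^ 2 ≤ 6 * P) (U : ℝ) (h0 : 0 ≤ U)
    (h1 : U ≤ (11 / 20 : ℝ) * R * m) :
    3 * ((R - 1) / R) * U ^ 2 - (6 * P / (R * m + r) - 36 * γ * m) * U ≤
      7 / 10 * ((R - 1) * m) * U := by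
  have hpd := pd_le hp hP
  obtain ⟨hR, hr, hrR, hγm, hγ4, hm1, hm0⟩ := jb_par hp
  have hR1 : (0 : ℝ) < (R : ℝ) - 1 := by linarith
  have hR0 : (0 : ℝ) < R := by linarith
  have e1 : 3 * (((R : ℝ) - 1) / R) * U ^ 2 = 3 * (R - 1) * (U / R) * U := by ring
  rw [e1]
  have h2 : U / R ≤ 11 / 20 * m := by
    rw [div_le_iff₀ hR0]; linarith
  have h3 : 3 * ((R : ℝ) - 1) * (U / R) ≤ 3 * (R - 1) * (11 / 20 * m) :=
    mul_le_mul_of_nonneg_left h2 (by linarith)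
  have h4 : 36 * γ * m ≤ 9 / 1000 * m := by nlinarith
  have h5 : 3 * ((R : ℝ) - 1) * (U / R) - (6 * P / (R * m + r) - 36 * γ * m) ≤
      7 / 10 * ((R - 1) * m) := by nlinarith
  have h6 := mul_le_mul_of_nonneg_right h5 h0
  linarith

theorem bl2 {R r m : ℕ} {γ η P : ℝ} (hp : Par R r m γ η)
    (hP : (R : ℝ) * (R - 1) * m ^ 2 ≤ 6 * P) (U : ℝ) (h0 : 0 ≤ U)
    (h1 : U ≤ (11 / 20 : ℝ) * R * m) :
    3 * ((R - 1) / R) * U ^ 2 - (6 * P / (R * m + r) - 36 * γ * m) * U ≤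
      42 / 25 * ((R - 1) * m) * max (U - ((R : ℝ) / 3 - 1 / 6) * m) 0 := by
  have hpd := pd_le hp hP
  obtain ⟨hR, hr, hrR, hγm, hγ4, hm1, hm0⟩ := jb_par hp
  have hR1 : (0 : ℝ) < (R : ℝ) - 1 := by linarith
  have hR0 : (0 : ℝ) < R := by linarith
  have h4 : 36 * γ * m ≤ 9 / 1000 * m := by nlinarith
  -- below the threshold the left side is nonpositive
  have low : ∀ V : ℝ, 0 ≤ V → V ≤ ((R : ℝ) / 3 - 1 / 6) * m →
      3 * (((R : ℝ) - 1) / R) * V ^ 2 - (6 * P / (R * m + r) - 36 * γ * m) * V ≤ 0 := by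
    intro V hV0 hV
    have e1 : 3 * (((R : ℝ) - 1) / R) * V ^ 2 = 3 * (R - 1) * (V / R) * V := by ring
    rw [e1]
    have h2 : V / R ≤ (1 / 3 - 1 / (6 * R)) * m := by
      rw [div_le_iff₀ hR0]
      have : (1 / 3 - 1 / (6 * (R : ℝ))) * m * R = ((R : ℝ) / 3 - 1 / 6) * m := by
        field_simp
      linarith
    have h3 : 3 * ((R : ℝ) - 1) * (V / R) ≤ 3 * (R - 1) * ((1 / 3 - 1 / (6 * R)) * m) :=
      mul_le_mul_of_nonneg_left h2 (by linarith)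
    have h5 : 3 * ((R : ℝ) - 1) * ((1 / 3 - 1 / (6 * R)) * m) ≤ (R - 1) * m - 3 / 8 * m := by
      have e2 : 3 * ((R : ℝ) - 1) * ((1 / 3 - 1 / (6 * R)) * m) =
          (R - 1) * m - (R - 1) / (2 * R) * m := by
        field_simp
        ring
      rw [e2]
      have h6 : 3 / 8 ≤ ((R : ℝ) - 1) / (2 * R) := by
        rw [le_div_iff₀ (by linarith)]; linarith
      have := mul_le_mul_of_nonneg_right h6 hm0.le
      linarith
    have h7 : 3 * ((R : ℝ) - 1) * (V / R) - (6 * P / (R * m + r) - 36 * γ * m) ≤ 0 := by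
      nlinarith
    have h8 := mul_nonpos_of_nonpos_of_nonneg h7 hV0
    linarith
  have hW : 0 ≤ 42 / 25 * (((R : ℝ) - 1) * m) := by positivity
  rcases le_total U (((R : ℝ) / 3 - 1 / 6) * m) with h | h
  · exact (low U h0 h).trans (mul_nonneg hW (le_max_right _ _))
  · have hmax : max (U - ((R : ℝ) / 3 - 1 / 6) * m) 0 = U - ((R : ℝ) / 3 - 1 / 6) * m :=
      max_eq_left (by linarith)
    rw [hmax]
    have hc : 0 ≤ 3 * (((R : ℝ) - 1) / R) := by positivity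
    have hK0 : 0 ≤ ((R : ℝ) / 3 - 1 / 6) * m := mul_nonneg (by linarith) hm0.le
    have hKL : ((R : ℝ) / 3 - 1 / 6) * m < 11 / 20 * R * m := by
      have : (R : ℝ) / 3 - 1 / 6 < 11 / 20 * R := by linarith
      exact mul_lt_mul_of_pos_right this hm0
    refine jb_conv hc hKL h h1 (low _ hK0 le_rfl) ?_
    have e3 : 3 * (((R : ℝ) - 1) / R) * (11 / 20 * R * m) ^ 2 =
        363 / 400 * ((R - 1) * R * m ^ 2) := by
      field_simp
      ring
    rw [e3]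
    have h9 : (((R : ℝ) - 1) * (m - 1) - 9 / 1000 * m) * (11 / 20 * R * m) ≤
        (6 * P / (R * m + r) - 36 * γ * m) * (11 / 20 * R * m) :=
      mul_le_mul_of_nonneg_right (by linarith) (by positivity)
    have h10 : 363 / 400 * (((R : ℝ) - 1) * R * m ^ 2) -
        (((R : ℝ) - 1) * (m - 1) - 9 / 1000 * m) * (11 / 20 * R * m) ≤
        42 / 25 * ((R - 1) * m) * (11 / 20 * R * m - ((R : ℝ) / 3 - 1 / 6) * m) := by
      have a1 : (0 : ℝ) ≤ m * m := by positivity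
      have a2 : (0 : ℝ) ≤ (R - 1) * m * (m - 1000 * R) :=
        mul_nonneg (by positivity) (by linarith)
      have a3 : (0 : ℝ) ≤ ((R : ℝ) - 4) * (m * m) := mul_nonneg (by linarith) a1
      have a4 : (0 : ℝ) ≤ ((R : ℝ) - 4) * ((R : ℝ) - 4) * (m * m) :=
        mul_nonneg (mul_nonneg (by linarith) (by linarith)) a1
      nlinarith [a1, a2, a3, a4]
    linarith

/-- `∑ (U_b - K)⁺ ≤ (∑ U_b - K)⁺` -/
theorem sum_pos_part {α : Type} (B : Finset α) (U : α → ℝ) (K : ℝ) (hK : 0 ≤ K)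
    (hU : ∀ b ∈ B, 0 ≤ U b) : ∑ b ∈ B, max (U b - K) 0 ≤ max (∑ b ∈ B, U b - K) 0 := by
  classical
  by_cases h : ∃ b ∈ B, K < U b
  · obtain ⟨b, hb, hbK⟩ := h
    refine le_trans ?_ (le_max_left _ _)
    rw [← Finset.add_sum_erase B _ hb, ← Finset.add_sum_erase B U hb]
    have h1 : max (U b - K) 0 = U b - K := max_eq_left (by linarith)
    rw [h1]
    have h2 : ∑ x ∈ B.erase b, max (U x - K) 0 ≤ ∑ x ∈ B.erase b, U x := by
      refine Finset.sum_le_sum fun x hx => ?_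
      have := hU x (Finset.mem_of_mem_erase hx)
      exact max_le (by linarith) this
    linarith
  · push Not at h
    refine le_trans (le_of_eq ?_) (le_max_right _ _)
    refine Finset.sum_eq_zero fun b hb => ?_
    exact max_eq_right (by linarith [h b hb])

end Pool.Agent.H11.TD
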