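import Pool.Agent.H11.TD.Defs

/-!
# TD PvA: lower bounds for the contribution of one vertex (non exact versions)

Notation: `f = xi - (X - r)` (integer, may be negative), `W0 = (R - 1) m`, `W = W0 + X - 2 xi`, `t = tv W μ ex`, and the relation
`ex + j + b ≤ μ + f`.  From `Par`: `|xi| ≤ 5 R η m`, `|X| ≤ 5 R (R + 1) η m` give `|f| ≤ 10 R² η m`, `|W - W0| ≤ 10 R² η m`;
`1000 R² η ≤ γ ≤ 1/(1000 R)`, `W0 ≥ 3 m`; `√η ≤ 1/(1000 R)` (because `η ≤ 1/(10⁶ R³)`).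

Case A: `w := j - f ≥ 0`.  Then `μ ≥ w + ex + b`.  `g(w) := 3 w W - 3 w (w - 1)`;
`3 μ W - 3 μ (μ - 1) = g(w) + 3 (μ - w)(W - (μ + w - 1))`, and `w ≤ j + |f| ≤ 11 R² η m`, `μ ≤ 2 γ m`, so
`3 (μ - w)(W - (μ + w - 1)) ≥ 3 (μ - w)(W0 - 4 γ m)` and, as `ex ≤ μ - w`, `ex ≤ 3 γ m`: `3 ex (ex - 1) ≤ 9 γ m (μ - w)`; so
`t ≥ g(w) + 3 (μ - w)(W0 - 7 γ m) ≥ 3 w (W0 - 21 R² η m) + 2.9 W0 (μ - w)`.
* pv1: `t ≥ 3 W0 w - 63 R² η m w + 2 W0 (ex + b)`; `w ≤ j + f⁻` and `f⁺ ≤ j`, so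
  `W0 √η f⁺ + 63 R² η m j ≤ 2 R √η m j`.
* pv2: `t ≥ 2.9 W0 w + 2.9 W0 (μ - w) ≥ 2.5 W0 μ`.
Case B: `u := f - j > 0`.  Then `ex + b ≤ μ + u`, `u ≤ f ≤ 10 R² η m`,
`3 ex (ex - 1) ≤ 3 (μ + u)(μ + u - 1) = 3 μ² + 6 μ u - 3 μ + 3 u (u - 1)`, so
`t ≥ 3 μ (W - 2 μ - 2 u) - 3 u (u - 1) ≥ 2.9 W0 μ - 3 u (u - 1)`.
* pv2: `u (u - 1) ≤ f⁺ (f⁺ - 1)`.
* pv1: the right side is `≤ W0 (- 3 u + √η (u + j) + 2 (μ + u)) - 2 R √η m j ≤ W0 (- u + √η u + 2 μ)`, and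
  `3 u² ≤ W0 u (1 - √η)`.
-/

set_option autoImplicit false

namespace Pool.Agent.H11.TD

/-- case A: `w = j - f ≥ 0` -/
theorem pvA_caseA (W0 E g W μ ex w : ℝ) (hE : 0 ≤ E) (hEg : 21 * E ≤ g) (hg : 180 * g ≤ W0)
    (hW : W0 - 10 * E ≤ W) (hw0 : 0 ≤ w) (hw : w ≤ 11 * E) (hex0 : 0 ≤ ex) (hexμ : ex ≤ μ - w)
    (hμ : μ ≤ 2 * g) (hex3 : ex ≤ 3 * g) :
    3 * w * W0 - 63 * E * w + 29 / 10 * W0 * (μ - w) ≤ tv W μ ex := by
  have hg0 : 0 ≤ g := by linarith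
  have hd : 0 ≤ μ - w := by linarith
  have a1 : 0 ≤ w * (W - (W0 - 10 * E)) := mul_nonneg hw0 (by linarith)
  have a2 : 0 ≤ w * (11 * E - w) := mul_nonneg hw0 (by linarith)
  have a3 : 0 ≤ (μ - w) * ((W - (W0 - 10 * E)) + (2 * g - μ) + (11 * E - w) + 1) :=
    mul_nonneg hd (by linarith)
  have a4 : 0 ≤ ex * (3 * g - ex) := mul_nonneg hex0 (by linarith)
  have a5 : 0 ≤ g * (μ - w - ex) := mul_nonneg hg0 (by linarith)
  have a6 : 0 ≤ (μ - w) * (W0 / 10 - 63 * E - 15 * g) := mul_nonneg hd (by linarith)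
  unfold tv
  linarith [a1, a2, a3, a4, a5, a6]

/-- case B: `u = f - j ≥ 1` -/
theorem pvA_caseB (W0 E g W μ ex u : ℝ) (hE : 0 ≤ E) (hEg : 21 * E ≤ g) (hg : 180 * g ≤ W0)
    (hW : W0 - 10 * E ≤ W) (hu1 : 1 ≤ u) (hu : u ≤ 10 * E) (hex0 : 0 ≤ ex) (hexμ : ex ≤ μ + u)
    (hμ0 : 0 ≤ μ) (hμ : μ ≤ 2 * g) :
    29 / 10 * W0 * μ - 3 * u * (u - 1) ≤ tv W μ ex := by
  have b1 : 0 ≤ (μ + u - ex) * (μ + u + ex - 1) := mul_nonneg (by linarith) (by linarith)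
  have b2 : 0 ≤ μ * (W - (W0 - 10 * E)) := mul_nonneg hμ0 (by linarith)
  have b3 : 0 ≤ μ * (2 * g - μ) := mul_nonneg hμ0 (by linarith)
  have b4 : 0 ≤ μ * (10 * E - u) := mul_nonneg hμ0 (by linarith)
  have b5 : 0 ≤ μ * (W0 / 10 - 90 * E - 12 * g) := mul_nonneg hμ0 (by linarith)
  unfold tv
  linarith [b1, b2, b3, b4, b5]

/-- basic numerical facts, `E = R² η m`, `g = γ m` -/
theorem pvA_basic {R r m : ℕ} {γ η : ℝ} (hp : Par R r m γ η) (X xi : ℤ)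
    (hX : |(X : ℝ)| ≤ 5 * R * (R + 1) * η * m) (hx : |(xi : ℝ)| ≤ 5 * R * η * m) :
    (4 : ℝ) ≤ R ∧ 0 < (m : ℝ) ∧ 0 ≤ (R : ℝ) ^ 2 * η * m ∧
      1000 * ((R : ℝ) ^ 2 * η * m) ≤ γ * m ∧ 4000 * (γ * m) ≤ m ∧
      (r : ℝ) ≤ (R : ℝ) ^ 2 * η * m / 16 ∧ |(X : ℝ)| ≤ 25 / 4 * ((R : ℝ) ^ 2 * η * m) ∧
      |(xi : ℝ)| ≤ 5 / 4 * ((R : ℝ) ^ 2 * η * m) ∧ 4 * (R : ℝ) * η * m ≤ (R : ℝ) ^ 2 * η * m ∧
      0 < Real.sqrt η ∧ Real.sqrt η ≤ 1 / 4 ∧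
      63 * ((R : ℝ) ^ 2 * η * m) ≤ R * Real.sqrt η * m := by
  obtain ⟨hR, hr, hγ, hγ', hη, hη', hm⟩ := hp
  have hR' : (4 : ℝ) ≤ R := by exact_mod_cast hR
  have hr0 : (0 : ℝ) ≤ r := Nat.cast_nonneg r
  have hηm : 1 ≤ η * m := by linarith
  have hm0 : 0 < (m : ℝ) := by
    by_contra h
    have : (m : ℝ) ≤ 0 := not_lt.mp h
    nlinarith
  have hR2 : 4 * (R : ℝ) ≤ (R : ℝ) ^ 2 := by nlinarith
  have hR3 : (16 : ℝ) ≤ (R : ℝ) ^ 2 := by nlinarith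
  have hηm0 : 0 ≤ η * m := by linarith
  have hE0 : 0 ≤ (R : ℝ) ^ 2 * η * m := by positivity
  have hs0 : 0 < Real.sqrt η := Real.sqrt_pos.mpr hη
  have hss : Real.sqrt η ^ 2 = η := Real.sq_sqrt hη.le
  have h1 : 1000 * ((R : ℝ) ^ 2 * η * m) ≤ γ * m := by
    have := mul_le_mul_of_nonneg_right hη' hm0.le
    linarith
  have h2 : 4000 * (γ * m) ≤ m := by
    have h3 : 4000 * γ ≤ 1 := by nlinarith
    have := mul_le_mul_of_nonneg_right h3 hm0.le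
    linarith
  have h3 : (r : ℝ) ≤ (R : ℝ) ^ 2 * η * m / 16 := by
    have := mul_le_mul_of_nonneg_right hR3 hηm0
    linarith
  have h4 : |(X : ℝ)| ≤ 25 / 4 * ((R : ℝ) ^ 2 * η * m) := by
    have e : 5 * (R : ℝ) * (R + 1) ≤ 25 / 4 * (R : ℝ) ^ 2 := by nlinarith
    have := mul_le_mul_of_nonneg_right e hηm0
    linarith
  have h5 : |(xi : ℝ)| ≤ 5 / 4 * ((R : ℝ) ^ 2 * η * m) := by
    have e : 5 * (R : ℝ) ≤ 5 / 4 * (R : ℝ) ^ 2 := by nlinarith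
    have := mul_le_mul_of_nonneg_right e hηm0
    linarith
  have h6 : 4 * (R : ℝ) * η * m ≤ (R : ℝ) ^ 2 * η * m := by
    have := mul_le_mul_of_nonneg_right hR2 hηm0
    linarith
  have hRs : 1000 * (R * Real.sqrt η) ≤ 1 := by
    have hk : (R : ℝ) ^ 2 * η * 1000000 ≤ 1 := by
      have : 1000 * γ ≤ 1 := by nlinarith
      nlinarith
    have hk2 : (1000 * (R * Real.sqrt η)) ^ 2 ≤ 1 ^ 2 := by
      have : (1000 * (R * Real.sqrt η)) ^ 2 = (R : ℝ) ^ 2 * η * 1000000 := by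
        rw [mul_pow, mul_pow, hss]; ring
      rw [this]; linarith
    exact abs_le_of_sq_le_sq' hk2 zero_le_one |>.2
  have hRs0 : 0 < R * Real.sqrt η := mul_pos (by linarith) hs0
  have h7 : Real.sqrt η ≤ 1 / 4 := by nlinarith
  have h8 : 63 * ((R : ℝ) ^ 2 * η * m) ≤ R * Real.sqrt η * m := by
    have e : (R : ℝ) ^ 2 * η * m = (R * Real.sqrt η) * (R * Real.sqrt η * m) := by
      have : (R * Real.sqrt η) * (R * Real.sqrt η * m) = (R : ℝ) ^ 2 * (Real.sqrt η ^ 2) * m := by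
        ring
      rw [this, hss]
    rw [e]
    have hq : 0 ≤ R * Real.sqrt η * m := by positivity
    nlinarith [mul_nonneg (sub_nonneg.mpr hRs) hq]
  exact ⟨hR', hm0, hE0, h1, h2, h3, h4, h5, h6, hs0, h7, h8⟩

theorem pv1 {R r m : ℕ} {γ η : ℝ} (hp : Par R r m γ η) (X xi : ℤ)
    (hX : |(X : ℝ)| ≤ 5 * R * (R + 1) * η * m) (hx : |(xi : ℝ)| ≤ 5 * R * η * m)
    (μ ex j b : ℕ) (hμ : (μ : ℝ) ≤ 2 * γ * m) (hex : (ex : ℝ) ≤ 3 * γ * m)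
    (hj : (j : ℝ) ≤ 4 * R * η * m) (hrel : ((ex : ℤ) + j + b) + (X - r) - xi ≤ μ) :
    (R - 1) * (m : ℝ) * (3 * (j - ((xi : ℝ) - (X - r))) + Real.sqrt η * max ((xi : ℝ) - (X - r)) 0 +
        2 * (ex + b)) - 2 * R * Real.sqrt η * m * j -
        63 * (R : ℝ) ^ 2 * η * m * max (-((xi : ℝ) - (X - r))) 0 ≤
      tv ((R - 1) * m + X - 2 * xi) μ ex := by
  obtain ⟨hR, hm0, hE0, hEg, hgm, hrE, hXE, hxE, hjE, hs0, hs4, hEs⟩ := pvA_basic hp X xi hX hx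
  obtain ⟨hX1, hX2⟩ := abs_le.mp hXE
  obtain ⟨hx1, hx2⟩ := abs_le.mp hxE
  set E : ℝ := (R : ℝ) ^ 2 * η * m with hEdef
  set s : ℝ := Real.sqrt η with hsdef
  have hr0 : (0 : ℝ) ≤ r := Nat.cast_nonneg r
  have hj0 : (0 : ℝ) ≤ j := Nat.cast_nonneg j
  have hb0 : (0 : ℝ) ≤ b := Nat.cast_nonneg b
  have hex0 : (0 : ℝ) ≤ ex := Nat.cast_nonneg ex
  have hμ0 : (0 : ℝ) ≤ μ := Nat.cast_nonneg μ
  have hjE' : (j : ℝ) ≤ E := hj.trans hjE
  have hrel' : (ex : ℝ) + j + b + (X - r) - xi ≤ μ := by exact_mod_cast hrel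
  set W0 : ℝ := (R - 1) * (m : ℝ) with hW0
  have hW0m : 3 * (m : ℝ) ≤ W0 := by nlinarith
  have hg180 : 180 * (γ * m) ≤ W0 := by linarith
  have hE21 : 21 * E ≤ γ * m := by linarith
  have hW : W0 - 10 * E ≤ W0 + X - 2 * xi := by linarith
  have hf1 : (xi : ℝ) - (X - r) ≤ 10 * E := by linarith
  have hf2 : -(10 * E) ≤ (xi : ℝ) - (X - r) := by linarith
  have hW0s : W0 * s ≤ R * s * m := by
    rw [hW0]; nlinarith [mul_pos hs0 hm0]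
  by_cases hc : xi - (X - r) ≤ (j : ℤ)
  · have hc' : (xi : ℝ) - (X - r) ≤ j := by exact_mod_cast hc
    set f : ℝ := (xi : ℝ) - (X - r) with hf
    have key := pvA_caseA W0 E (γ * m) (W0 + X - 2 * xi) μ ex (j - f) hE0 hE21 hg180 hW
      (by linarith) (by linarith) hex0 (by linarith) (by linarith) (by linarith)
    have hfp : max f 0 ≤ j := max_le hc' hj0
    have hfp0 : 0 ≤ max f 0 := le_max_right _ _
    have hfm0 : 0 ≤ max (-f) 0 := le_max_right _ _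
    have hdec : f = max f 0 - max (-f) 0 := by
      rcases le_total f 0 with h | h
      · rw [max_eq_right h, max_eq_left (by linarith)]; ring
      · rw [max_eq_left h, max_eq_right (by linarith)]; ring
    have c1 : W0 * s * max f 0 ≤ R * s * m * j := by
      have t1 : W0 * s * max f 0 ≤ R * s * m * max f 0 :=
        mul_le_mul_of_nonneg_right hW0s hfp0
      have t2 : R * s * m * max f 0 ≤ R * s * m * j :=
        mul_le_mul_of_nonneg_left hfp (by positivity)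
      linarith
    have c2 : 63 * E * j ≤ R * s * m * j := mul_le_mul_of_nonneg_right hEs hj0
    have c3 : 63 * E * (j - f) ≤ 63 * E * j + 63 * E * max (-f) 0 := by
      have : 0 ≤ E * max f 0 := mul_nonneg hE0 hfp0
      have h2 : E * f = E * max f 0 - E * max (-f) 0 := by rw [← mul_sub, ← hdec]
      linarith
    have c4 : 2 * (W0 * (ex + b)) ≤ 29 / 10 * W0 * (μ - (j - f)) := by
      have hw00 : 0 ≤ W0 := by linarith
      have h1 : (ex : ℝ) + b ≤ μ - (j - f) := by linarith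
      have h2 : W0 * (ex + b) ≤ W0 * (μ - (j - f)) := mul_le_mul_of_nonneg_left h1 hw00
      have h3 : 0 ≤ W0 * (ex + b) := mul_nonneg hw00 (by linarith)
      linarith
    have e63 : 63 * (R : ℝ) ^ 2 * η * m = 63 * E := by rw [hEdef]; ring
    rw [e63]
    linarith [key, c1, c2, c3, c4]
  · have hc1 : (j : ℤ) + 1 ≤ xi - (X - r) := by omega
    have hc' : (j : ℝ) + 1 ≤ (xi : ℝ) - (X - r) := by exact_mod_cast hc1
    set f : ℝ := (xi : ℝ) - (X - r) with hf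
    have key := pvA_caseB W0 E (γ * m) (W0 + X - 2 * xi) μ ex (f - j) hE0 hE21 hg180 hW
      (by linarith) (by linarith) hex0 (by linarith) hμ0 (by linarith)
    have hf0 : 0 ≤ f := by linarith
    rw [max_eq_left hf0, max_eq_right (by linarith : -f ≤ 0)]
    have hw00 : 0 ≤ W0 := by linarith
    have d1 : W0 * s * j ≤ R * s * m * j := mul_le_mul_of_nonneg_right hW0s hj0
    have d0 : 0 ≤ R * s * m * j := by positivity
    have d2 : W0 * (ex + b) ≤ W0 * (μ + (f - j)) :=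
      mul_le_mul_of_nonneg_left (by linarith) hw00
    have d3 : 0 ≤ W0 * μ := mul_nonneg hw00 hμ0
    have d4 : 0 ≤ (f - j) * (W0 * (1 - s) - 3 * (f - j)) := by
      refine mul_nonneg (by linarith) ?_
      have : W0 * (1 / 2) ≤ W0 * (1 - s) := mul_le_mul_of_nonneg_left (by linarith) hw00
      linarith
    linarith [key, d1, d2, d3, d4, d0]

theorem pv2 {R r m : ℕ} {γ η : ℝ} (hp : Par R r m γ η) (X xi : ℤ)
    (hX : |(X : ℝ)| ≤ 5 * R * (R + 1) * η * m) (hx : |(xi : ℝ)| ≤ 5 * R * η * m)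
    (μ ex j b : ℕ) (hμ : (μ : ℝ) ≤ 2 * γ * m) (hex : (ex : ℝ) ≤ 3 * γ * m)
    (hj : (j : ℝ) ≤ 4 * R * η * m) (hrel : ((ex : ℤ) + j + b) + (X - r) - xi ≤ μ) :
    5 / 2 * ((R - 1) * (m : ℝ)) * μ -
        3 * max ((xi : ℝ) - (X - r)) 0 * (max ((xi : ℝ) - (X - r)) 0 - 1) ≤
      tv ((R - 1) * m + X - 2 * xi) μ ex := by
  obtain ⟨hR, hm0, hE0, hEg, hgm, hrE, hXE, hxE, hjE, hs0, hs4, hEs⟩ := pvA_basic hp X xi hX hx
  obtain ⟨hX1, hX2⟩ := abs_le.mp hXE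
  obtain ⟨hx1, hx2⟩ := abs_le.mp hxE
  set E : ℝ := (R : ℝ) ^ 2 * η * m with hEdef
  set s : ℝ := Real.sqrt η with hsdef
  have hr0 : (0 : ℝ) ≤ r := Nat.cast_nonneg r
  have hj0 : (0 : ℝ) ≤ j := Nat.cast_nonneg j
  have hb0 : (0 : ℝ) ≤ b := Nat.cast_nonneg b
  have hex0 : (0 : ℝ) ≤ ex := Nat.cast_nonneg ex
  have hμ0 : (0 : ℝ) ≤ μ := Nat.cast_nonneg μ
  have hjE' : (j : ℝ) ≤ E := hj.trans hjE
  have hrel' : (ex : ℝ) + j + b + (X - r) - xi ≤ μ := by exact_mod_cast hrel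
  set W0 : ℝ := (R - 1) * (m : ℝ) with hW0
  have hW0m : 3 * (m : ℝ) ≤ W0 := by nlinarith
  have hg180 : 180 * (γ * m) ≤ W0 := by linarith
  have hE21 : 21 * E ≤ γ * m := by linarith
  have hW : W0 - 10 * E ≤ W0 + X - 2 * xi := by linarith
  have hf1 : (xi : ℝ) - (X - r) ≤ 10 * E := by linarith
  have hf2 : -(10 * E) ≤ (xi : ℝ) - (X - r) := by linarith
  by_cases hc : xi - (X - r) ≤ (j : ℤ)
  · have hc' : (xi : ℝ) - (X - r) ≤ j := by exact_mod_cast hc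
    have hfint : 0 ≤ max ((xi : ℝ) - (X - r)) 0 * (max ((xi : ℝ) - (X - r)) 0 - 1) := by
      rcases le_or_gt (xi - (X - r)) 0 with h | h
      · have : (xi : ℝ) - (X - r) ≤ 0 := by exact_mod_cast h
        rw [max_eq_right this]; norm_num
      · have h1 : (1 : ℤ) ≤ xi - (X - r) := h
        have : (1 : ℝ) ≤ (xi : ℝ) - (X - r) := by exact_mod_cast h1
        rw [max_eq_left (by linarith)]
        exact mul_nonneg (by linarith) (by linarith)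
    set f : ℝ := (xi : ℝ) - (X - r) with hf
    have key := pvA_caseA W0 E (γ * m) (W0 + X - 2 * xi) μ ex (j - f) hE0 hE21 hg180 hW
      (by linarith) (by linarith) hex0 (by linarith) (by linarith) (by linarith)
    have hw00 : 0 ≤ W0 := by linarith
    have e1 : 0 ≤ (j - f) * (W0 / 10 - 63 * E) := mul_nonneg (by linarith) (by linarith)
    have e2 : 0 ≤ W0 * μ := mul_nonneg hw00 hμ0
    linarith [key, e1, e2, hfint]
  · have hc1 : (j : ℤ) + 1 ≤ xi - (X - r) := by omega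
    have hc' : (j : ℝ) + 1 ≤ (xi : ℝ) - (X - r) := by exact_mod_cast hc1
    set f : ℝ := (xi : ℝ) - (X - r) with hf
    have key := pvA_caseB W0 E (γ * m) (W0 + X - 2 * xi) μ ex (f - j) hE0 hE21 hg180 hW
      (by linarith) (by linarith) hex0 (by linarith) hμ0 (by linarith)
    have hf0 : 0 ≤ f := by linarith
    rw [max_eq_left hf0]
    have hw00 : 0 ≤ W0 := by linarith
    have e2 : 0 ≤ W0 * μ := mul_nonneg hw00 hμ0
    have e3 : 0 ≤ j * (f + (f - j) - 1) := mul_nonneg hj0 (by linarith)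
    linarith [key, e2, e3]

end Pool.Agent.H11.TD
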