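import Pool.Agent.H11.TD.Defs

/-!
# TD PvB: the exact lower bound for the contribution of one vertex (`X = r + 1`, `xi ≤ 1`)

`W0 = (R - 1) m`, `W = W0 + X - 2 xi`, `φ = 1 - xi ≥ 0`, `δ = μ - φ ≥ ex + b ≥ 0` (relation with `X - r = 1`).
`3 μ W - 3 μ (μ - 1) = 3 φ (W - φ + 1) + 3 δ (W - (μ + φ - 1))` and `W - φ + 1 = W0 + X - xi`.
* `δ = 0`: then `ex = 0` and `tv = 3 φ (W0 + X - xi)`.
* `δ = 1`: `ex ≤ 1`, so `3 ex (ex - 1) = 0`, and `W - (μ + φ - 1) = W - 2 φ = W0 + X - 2`.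
* `δ ≥ 2`: `W - (μ + φ - 1) ≥ W0 - 4 γ m`, `3 ex (ex - 1) ≤ 9 γ m δ` (`ex ≤ δ`, `ex ≤ 3 γ m`), so the difference is
  `≥ 3 δ (W0 - 7 γ m) ≥ 3 (W0 + X - 2) + 2 W0 (δ - 1)`, because `W0 (δ - 1) ≥ 21 γ m δ + 3 X`.
(`X = r + 1 ≤ η m`, `W0 ≥ 3 m`, `γ ≤ 1/4000`.)
-/

set_option autoImplicit false

namespace Pool.Agent.H11.TD

theorem pv3 {R r m : ℕ} {γ η : ℝ} (hp : Par R r m γ η) (xi : ℤ)
    (hx : |(xi : ℝ)| ≤ 5 * R * η * m) (hx1 : xi ≤ 1)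
    (μ ex b : ℕ) (hμ : (μ : ℝ) ≤ 2 * γ * m) (hex : (ex : ℝ) ≤ 3 * γ * m)
    (hrel : ((ex : ℤ) + b) + 1 - xi ≤ μ) :
    3 * (1 - (xi : ℝ)) * ((R - 1) * m + (r + 1) - xi) +
        (if (1 : ℤ) ≤ μ - (1 - xi) then
          3 * ((R - 1) * (m : ℝ) + (r + 1) - 2) + 2 * ((R - 1) * m) * ((μ : ℝ) - (1 - xi) - 1)
        else 0) ≤
      tv ((R - 1) * m + (r + 1) - 2 * xi) μ ex := by
  obtain ⟨δ, hδ⟩ : ∃ δ : ℤ, δ = (μ : ℤ) - (1 - xi) := ⟨_, rfl⟩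
  have hδR : (μ : ℝ) = δ + (1 - (xi : ℝ)) := by
    rw [hδ]; push_cast; ring
  have hexδ : (ex : ℤ) ≤ δ := by rw [hδ]; omega
  have hexR : (ex : ℝ) ≤ δ := by exact_mod_cast hexδ
  have hφ : (0 : ℝ) ≤ 1 - (xi : ℝ) := by
    have : (xi : ℝ) ≤ 1 := by exact_mod_cast hx1
    linarith
  have hm0 : (0 : ℝ) ≤ m := Nat.cast_nonneg m
  have hr0 : (0 : ℝ) ≤ r := Nat.cast_nonneg r
  have hR4 : (4 : ℝ) ≤ R := by exact_mod_cast hp.hR
  have hγ := hp.hγ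
  have hγ1 : 4000 * γ ≤ 1 := by
    have h1 := hp.hγ'
    nlinarith
  have hcast : ((if (1 : ℤ) ≤ μ - (1 - xi) then
          3 * ((R - 1) * (m : ℝ) + (r + 1) - 2) + 2 * ((R - 1) * m) * ((μ : ℝ) - (1 - xi) - 1)
        else 0) : ℝ) = if (1 : ℤ) ≤ δ then
          3 * ((R - 1) * (m : ℝ) + (r + 1) - 2) + 2 * ((R - 1) * m) * ((δ : ℝ) - 1) else 0 := by
    rw [← hδ]
    congr 1
    rw [hδR]
    ring
  rw [hcast]
  have htv : tv ((R - 1) * m + (r + 1) - 2 * xi) μ ex =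
      3 * (1 - (xi : ℝ)) * ((R - 1) * m + (r + 1) - xi) +
      (3 * δ * ((R - 1) * m + (r + 1) - 1 - δ) - 3 * ex * ((ex : ℝ) - 1)) := by
    unfold tv
    rw [hδR]
    ring
  rw [htv]
  have hex0 : (0 : ℤ) ≤ ex := Int.natCast_nonneg ex
  by_cases h1 : (1 : ℤ) ≤ δ
  · rw [if_pos h1]
    by_cases h2 : δ = 1
    · have he : (ex : ℝ) * ((ex : ℝ) - 1) ≤ 0 := by
        have h3 : (ex : ℝ) ≤ 1 := by rw [h2] at hexR; exact_mod_cast hexR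
        have h4 : (0 : ℝ) ≤ ex := Nat.cast_nonneg ex
        nlinarith
      rw [h2]
      push_cast
      linarith
    · have h3 : (2 : ℤ) ≤ δ := by omega
      have h3R : (2 : ℝ) ≤ δ := by exact_mod_cast h3
      have h4 : (0 : ℝ) ≤ ex := Nat.cast_nonneg ex
      have hδμ : (δ : ℝ) ≤ 2 * γ * m := by
        rw [hδR] at hμ
        linarith
      have h5 : (ex : ℝ) * ((ex : ℝ) - 1) ≤ δ * (3 * γ * m) := by
        calc (ex : ℝ) * ((ex : ℝ) - 1) ≤ ex * ex := by nlinarith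
          _ ≤ δ * (3 * γ * m) := mul_le_mul hexR hex h4 (by linarith)
      have h6 : (δ : ℝ) * δ ≤ δ * (2 * γ * m) :=
        mul_le_mul_of_nonneg_left hδμ (by linarith)
      have h7 : (3 : ℝ) * m ≤ (R - 1) * m := mul_le_mul_of_nonneg_right (by linarith) hm0
      have h8 : (3 * (m : ℝ)) * ((δ : ℝ) - 1) ≤ ((R - 1) * m) * ((δ : ℝ) - 1) :=
        mul_le_mul_of_nonneg_right h7 (by linarith)
      have h9 : 15 * γ * m * δ ≤ (3 * (m : ℝ)) * ((δ : ℝ) - 1) := by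
        have hmδ : 0 ≤ (m : ℝ) * δ := mul_nonneg hm0 (by linarith)
        have hmδ2 : 0 ≤ (m : ℝ) * (δ - 2) := mul_nonneg hm0 (by linarith)
        have : 4000 * γ * (m * δ) ≤ 1 * (m * δ) := mul_le_mul_of_nonneg_right hγ1 hmδ
        nlinarith
      have h10 : 0 ≤ (r : ℝ) * (δ - 1) := mul_nonneg hr0 (by linarith)
      nlinarith
  · rw [if_neg h1]
    have h2 : δ = 0 := by omega
    have h3 : (ex : ℝ) = 0 := by
      have : (ex : ℤ) = 0 := by omega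
      exact_mod_cast this
    rw [h2, h3]
    push_cast
    linarith

end Pool.Agent.H11.TD
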