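import Pool.Agent.H11.TD.NumE
import Pool.Agent.H11.TD.PvA
import Pool.Agent.H11.TD.PvB
import Pool.Agent.H11.TD.JB

/-!
# TD CiE: the exact cluster inequality, `cc = 1`, `J = ∅`, `R < 3 r`

`x i = |A i| - m`, `X = ∑ x i = r + 1`, `W0 = (R - 1) m`, `N = (R+1) m + r + 1`; all `jj = 0` (`hjj`).
For `v ∈ A i` with `x i ≤ 1` put `δ v = mu v - (1 - x i) ≥ ex v + bb v` (integer `≥ 0`), `D = ∑` of these `δ v`.
Let `F2 = ∑_{x i ≥ 2} a i (x i - 1)`, `Smu2 = ∑_{x i ≥ 2} ∑_{v ∈ A i} mu v`.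
* `pv3` for `x i ≤ 1`: `∑∑_{x i ≤ 1} tv ≥ G + E`, `G = ∑_{x i ≤ 1} a i 3 (1 - x i)(W0 + X - x i)`, and `E = 0` if `D = 0`,
  `E ≥ 3 (W0 + X - 2) + 2 W0 (D - 1)` if `D ≥ 1` (one vertex with `δ ≥ 1` gives `3 (W0 + X - 2) + 2 W0 (δ - 1)`, each other one
  gives at least `2 W0 δ`).
* `pv2` for `x i ≥ 2` (`f = x i - 1 ≥ 1`, small: `3 f (f - 1) ≤ W0 f / 100`):
  `∑∑_{x i ≥ 2} tv ≥ (5/2) W0 Smu2 - (1/10) W0 F2`.
* `B` sum: (a) if all `U_b ≤ (R/3 - 1/6) m` then it is `≤ 0` by `bl2`.  (b) otherwise `∑_B U ≥ (R/3 - 1/6) m ≥ m` and by `bl1`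
  it is `≤ (7/10) W0 ∑_B U`, `∑_B U = ∑∑ bb ≤ D + Smu2 + F2`.
* `num_E`: `S6 - G + (4/5) W0 F2 ≤ 6 P N + par - 2 W0 F2`, `par = 0` or `3 (W0 + X) - 6` (`(R - r) m` odd).
So `CL ≤ par - E - 2 W0 F2 + [case (b): (7/10) W0 D]` (the `F2` terms: `1/10 + 7/10 = 4/5`; `Smu2` terms: `7/10 ≤ 5/2`), where in case
(b) and `D ≥ 1`: `- E + (7/10) W0 D ≤ - W0 - 1.3 W0 D + 6`.
1. `F2 > 0`: `F2 ≥ m/2`, so `2 W0 F2 ≥ W0 m ≥ par`; in all cases `CL ≤ 0`.
2. `F2 = 0` (all `x i ≤ 1`), case (b): `D ≥ ∑_B U ≥ m`, so `CL ≤ par - 1.3 W0 m + 6 ≤ 0`.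
3. `F2 = 0`, case (a): `CL ≤ par - E`.  If `(R - r) m` is even: `par = 0`.  If it is odd then `D` is odd, so `D ≥ 1` and
   `E ≥ 3 (W0 + X - 2) = par`: indeed `∑∑ mu` is even (`ev`), `∑∑ mu = D + ∑ a i (1 - x i)` and
   `∑ a i (1 - x i) = (m (R + 1 - X) + X - ∑ x i²) = (R - r) m - ∑ x i (x i - 1)`, with `x i (x i - 1)` even.
-/

set_option autoImplicit false

open Finset

namespace Pool.Agent.H11.TD

private theorem cie_E {ι α : Type} (I : Finset ι) (A : ι → Finset α) (δ : ι → α → ℤ)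
    (hδ : ∀ i ∈ I, ∀ v ∈ A i, 0 ≤ δ i v) (T W : ℝ) (hT : 2 * W ≤ T) (hW : 0 ≤ W) :
    0 ≤ ∑ i ∈ I, ∑ v ∈ A i, (if 1 ≤ δ i v then T + 2 * W * ((δ i v : ℝ) - 1) else 0) ∧
    (1 ≤ ∑ i ∈ I, ∑ v ∈ A i, δ i v →
      T + 2 * W * (((∑ i ∈ I, ∑ v ∈ A i, δ i v : ℤ) : ℝ) - 1) ≤
        ∑ i ∈ I, ∑ v ∈ A i, (if 1 ≤ δ i v then T + 2 * W * ((δ i v : ℝ) - 1) else 0)) := by
  have h1 : ∀ i ∈ I, ∀ v ∈ A i,
      0 ≤ (if 1 ≤ δ i v then T + 2 * W * ((δ i v : ℝ) - 1) else 0) - 2 * W * (δ i v : ℝ) := by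
    intro i hi v hv
    split_ifs with h
    · linarith
    · have h0 : δ i v = 0 := le_antisymm (by omega) (hδ i hi v hv)
      rw [h0]
      simp
  have h2 : ∀ i ∈ I, ∀ v ∈ A i,
      0 ≤ (if 1 ≤ δ i v then T + 2 * W * ((δ i v : ℝ) - 1) else 0) := by
    intro i hi v hv
    have h3 := h1 i hi v hv
    have h4 : (0 : ℝ) ≤ (δ i v : ℝ) := by exact_mod_cast hδ i hi v hv
    have h5 : 0 ≤ 2 * W * (δ i v : ℝ) := by positivity
    linarith
  refine ⟨sum_nonneg fun i hi => sum_nonneg fun v hv => h2 i hi v hv, fun hD => ?_⟩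
  obtain ⟨i0, hi0, hpos⟩ : ∃ i ∈ I, 0 < ∑ v ∈ A i, δ i v := by
    by_contra hcon
    push Not at hcon
    have := sum_nonpos hcon
    omega
  obtain ⟨v0, hv0, hpos0⟩ : ∃ v ∈ A i0, 0 < δ i0 v := by
    by_contra hcon
    push Not at hcon
    have := sum_nonpos hcon
    omega
  have h6 : T - 2 * W ≤ ∑ i ∈ I, ∑ v ∈ A i,
      ((if 1 ≤ δ i v then T + 2 * W * ((δ i v : ℝ) - 1) else 0) - 2 * W * (δ i v : ℝ)) := by
    have h7 : (if 1 ≤ δ i0 v0 then T + 2 * W * ((δ i0 v0 : ℝ) - 1) else 0) -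
        2 * W * (δ i0 v0 : ℝ) = T - 2 * W := by
      rw [if_pos (by omega)]
      ring
    rw [← h7]
    refine (single_le_sum (f := fun v => (if 1 ≤ δ i0 v then T + 2 * W * ((δ i0 v : ℝ) - 1) else 0) -
        2 * W * (δ i0 v : ℝ)) (fun v hv => h1 i0 hi0 v hv) hv0).trans ?_
    exact single_le_sum (f := fun i => ∑ v ∈ A i,
      ((if 1 ≤ δ i v then T + 2 * W * ((δ i v : ℝ) - 1) else 0) - 2 * W * (δ i v : ℝ)))
      (fun i hi => sum_nonneg fun v hv => h1 i hi v hv) hi0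
  have h8 : ∑ i ∈ I, ∑ v ∈ A i,
      ((if 1 ≤ δ i v then T + 2 * W * ((δ i v : ℝ) - 1) else 0) - 2 * W * (δ i v : ℝ)) =
      ∑ i ∈ I, ∑ v ∈ A i, (if 1 ≤ δ i v then T + 2 * W * ((δ i v : ℝ) - 1) else 0) -
        2 * W * ((∑ i ∈ I, ∑ v ∈ A i, δ i v : ℤ) : ℝ) := by
    push_cast
    rw [mul_sum, ← sum_sub_distrib]
    apply sum_congr rfl
    intro i _
    rw [mul_sum, ← sum_sub_distrib]
  rw [h8] at h6
  linarith

private theorem cie_parity {R r m : ℕ} (hr : r ≤ R) {α : Type} (A : Fin (R + 1) → Finset α)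
    (mu : α → ℕ) (x : Fin (R + 1) → ℤ) (hx : ∀ i, ((A i).card : ℤ) = m + x i)
    (hX : ∑ i, x i = r + 1) (hev : Even (∑ i, ∑ v ∈ A i, mu v)) (hodd : ¬ Even ((R - r) * m)) :
    ¬ Even (∑ i, ∑ v ∈ A i, ((mu v : ℤ) - (1 - x i))) := by
  intro hD
  apply hodd
  have h1 : ∑ i, ∑ v ∈ A i, ((mu v : ℤ) - (1 - x i)) =
      ((∑ i, ∑ v ∈ A i, mu v : ℕ) : ℤ) - ∑ i, ((m : ℤ) + x i) * (1 - x i) := by
    push_cast
    rw [← sum_sub_distrib]
    apply sum_congr rfl
    intro i _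
    rw [sum_sub_distrib, sum_const, nsmul_eq_mul, hx i]
  have h2 : ∑ i, ((m : ℤ) + x i) * (1 - x i) =
      (((R - r) * m : ℕ) : ℤ) - ∑ i, x i * (x i - 1) := by
    have h3 : ∑ i, ((m : ℤ) + x i) * (1 - x i) =
        ∑ i : Fin (R + 1), ((m : ℤ) - m * x i - x i * (x i - 1)) := by
      apply sum_congr rfl
      intro i _
      ring
    rw [h3, sum_sub_distrib, sum_sub_distrib, ← mul_sum, hX, sum_const, card_univ,
      Fintype.card_fin, nsmul_eq_mul]
    push_cast [Nat.cast_sub hr]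
    ring
  have h4 : Even (∑ i, x i * (x i - 1)) := by
    apply Finset.even_sum
    intro i _
    exact Int.even_mul_pred_self (x i)
  have h5 : Even ((∑ i, ∑ v ∈ A i, mu v : ℕ) : ℤ) := by exact_mod_cast hev
  have h6 : Even (((R - r) * m : ℕ) : ℤ) := by
    have h7 : (((R - r) * m : ℕ) : ℤ) = ((∑ i, ∑ v ∈ A i, mu v : ℕ) : ℤ) -
        (∑ i, ∑ v ∈ A i, ((mu v : ℤ) - (1 - x i))) + ∑ i, x i * (x i - 1) := by
      rw [h1, h2]
      ring
    rw [h7]
    exact (h5.sub hD).add h4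
  exact_mod_cast h6

theorem ci_E (R r : ℕ) (hR : 4 ≤ R) (hr : 1 ≤ r) (hs : r + 2 ≤ R) (h3 : R < 3 * r) (C γ : ℝ)
    (hC : 0 < C) (hγ : 0 < γ) : ∃ η0 : ℝ, 0 < η0 ∧ ∀ η : ℝ, 0 < η → η ≤ η0 → ∃ m0 : ℕ,
      ∀ m : ℕ, m0 ≤ m → Par R r m γ η → ∀ P : ℝ, PSpec R r m C P →
        ∀ (α : Type) [DecidableEq α] (A : Fin (R + 1) → Finset α) (mu ex jj bb : α → ℕ)
          (J B : Finset α) (U : α → ℝ), CD R r m γ η A mu ex jj bb J B U →
          cc R r m A J = 1 → J.card = 0 → CL R r m γ P A mu ex J B U ≤ 0 := by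
  refine ⟨1, one_pos, fun η hη _ => ⟨100, fun m hm hp P hP α _ A mu ex jj bb J B U hD hcc hJ => ?_⟩⟩
  have hJ0 : J = ∅ := card_eq_zero.1 hJ
  -- numbers
  have hR4 : (4 : ℝ) ≤ R := by exact_mod_cast hR
  have hm100 : (100 : ℝ) ≤ m := by exact_mod_cast hm
  have hr1 : (1 : ℝ) ≤ r := by exact_mod_cast hr
  have hp1 := hp.hγ'
  have hp2 := hp.hη'
  have hp3 := hp.hm
  have hη1 : 1000 * (R : ℝ) * η ≤ 1 := by nlinarith [mul_pos hη (by linarith : (0 : ℝ) < R)]
  have hRη : (R : ℝ) * η * m ≤ m / 1000 := by nlinarith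
  have hηm : η * m ≤ m / 4000 := by nlinarith [mul_nonneg hη.le (by linarith : (0 : ℝ) ≤ m)]
  set W : ℝ := ((R : ℝ) - 1) * m with hW
  have hW3 : 3 * (m : ℝ) ≤ W := by nlinarith
  have hrm : (r : ℝ) + 1 ≤ m / 4000 := hp3.trans hηm
  -- excesses
  set x : Fin (R + 1) → ℤ := fun i => ((A i).card : ℤ) - m with hx
  have hcz : ∀ i, ((A i).card : ℤ) = m + x i := fun i => by
    show ((A i).card : ℤ) = m + (((A i).card : ℤ) - m)
    ring
  have hcr : ∀ i, ((A i).card : ℝ) = (m : ℝ) + (x i : ℝ) := fun i => by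
    have := hcz i
    exact_mod_cast this
  have hsum : ∑ k, ((A k).card : ℤ) = (R + 1) * m + r + 1 := by
    have := hcc
    unfold cc at this
    rw [hJ] at this
    push_cast at this
    linarith
  have hsumR : ∑ k, ((A k).card : ℝ) = (R + 1) * m + r + 1 := by exact_mod_cast hsum
  have hX : ∑ i, x i = r + 1 := by
    show ∑ i, (((A i).card : ℤ) - m) = r + 1
    rw [sum_sub_distrib, hsum, sum_const, card_univ, Fintype.card_fin, nsmul_eq_mul]
    push_cast
    ring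
  have hxs : ∀ i, |(x i : ℝ)| ≤ 5 * R * η * m := by
    intro i
    have := hD.size i
    rw [hcr i] at this
    simpa using this
  have hxm : ∀ i, |(x i : ℝ)| ≤ m / 200 := by
    intro i
    have := hxs i
    nlinarith
  have hrel : ∀ i, ∀ v ∈ A i, ((ex v : ℤ) + bb v) + 1 - x i ≤ mu v := by
    intro i v hv
    have h4 := hD.rel i v hv
    have h5 := hD.hjj i v hv
    rw [hJ] at h5
    have h6 : jj v = 0 := by omega
    rw [hsum, h6, hcz i] at h4
    push_cast at h4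
    linarith
  have hbb : ∑ i, ∑ v ∈ A i, (bb v : ℝ) = ∑ b ∈ B, U b := hD.sB
  -- the contributions of the vertices
  set δ : Fin (R + 1) → α → ℤ := fun i v => (mu v : ℤ) - (1 - x i) with hδ
  have hδ0 : ∀ i ∈ univ.filter (fun i => x i ≤ 1), ∀ v ∈ A i, 0 ≤ δ i v := by
    intro i _ v hv
    have := hrel i v hv
    show 0 ≤ (mu v : ℤ) - (1 - x i)
    have h7 : (0 : ℤ) ≤ ex v := by positivity
    have h8 : (0 : ℤ) ≤ bb v := by positivity
    linarith
  set T : ℝ := 3 * (((R : ℝ) - 1) * m + (r + 1) - 2) with hTdef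
  have hT : T = 3 * (W + (r + 1) - 2) := by rw [hTdef, hW]
  have hTW : 2 * W ≤ T := by rw [hT]; linarith
  obtain ⟨hE0, hE1⟩ := cie_E (univ.filter (fun i => x i ≤ 1)) A δ hδ0 T W hTW (by linarith)
  set E : ℝ := ∑ i ∈ univ.filter (fun i => x i ≤ 1), ∑ v ∈ A i,
    (if 1 ≤ δ i v then T + 2 * W * ((δ i v : ℝ) - 1) else 0) with hE
  set D : ℤ := ∑ i ∈ univ.filter (fun i => x i ≤ 1), ∑ v ∈ A i, δ i v with hDdef
  set F2 : ℝ := ∑ i ∈ univ.filter (fun i => ¬ x i ≤ 1), ((m : ℝ) + x i) * ((x i : ℝ) - 1) with hF2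
  set S2 : ℝ := ∑ i ∈ univ.filter (fun i => ¬ x i ≤ 1), ∑ v ∈ A i, (mu v : ℝ) with hS2
  set G : ℝ := ∑ i ∈ univ.filter (fun i => x i ≤ 1),
    ((m : ℝ) + x i) * (3 * (1 - (x i : ℝ)) * ((R - 1) * m + (r + 1) - x i)) with hG
  have hS2n : 0 ≤ S2 := sum_nonneg fun i _ => sum_nonneg fun v _ => by positivity
  have htv1 : G + E ≤ ∑ i ∈ univ.filter (fun i => x i ≤ 1), ∑ v ∈ A i,
      tv ((∑ k, ((A k).card : ℝ)) - 2 * (A i).card) (mu v) (ex v) := by
    rw [hG, hE, ← sum_add_distrib]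
    apply sum_le_sum
    intro i hi
    have hxi : x i ≤ 1 := (mem_filter.1 hi).2
    have h9 : ((m : ℝ) + x i) * (3 * (1 - (x i : ℝ)) * ((R - 1) * m + (r + 1) - x i)) =
        ∑ _v ∈ A i, 3 * (1 - (x i : ℝ)) * ((R - 1) * m + (r + 1) - x i) := by
      rw [sum_const, nsmul_eq_mul, hcr i]
    rw [h9, ← sum_add_distrib]
    apply sum_le_sum
    intro v hv
    have h10 := pv3 hp (x i) (hxs i) hxi (mu v) (ex v) (bb v) (hD.hmu i v hv) (hD.hex i v hv)
      (hrel i v hv)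
    have h11 : (∑ k, ((A k).card : ℝ)) - 2 * (A i).card = (R - 1) * m + (r + 1) - 2 * x i := by
      rw [hsumR, hcr i]
      ring
    have h12 : ((δ i v : ℤ) : ℝ) = (mu v : ℝ) - (1 - x i) := by
      show (((mu v : ℤ) - (1 - x i) : ℤ) : ℝ) = _
      push_cast
      ring
    rw [h11, h12]
    exact h10
  have htv2 : 5 / 2 * W * S2 - 1 / 10 * W * F2 ≤ ∑ i ∈ univ.filter (fun i => ¬ x i ≤ 1),
      ∑ v ∈ A i, tv ((∑ k, ((A k).card : ℝ)) - 2 * (A i).card) (mu v) (ex v) := by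
    rw [hS2, hF2, mul_sum, mul_sum, ← sum_sub_distrib]
    apply sum_le_sum
    intro i hi
    have hxi : ¬ x i ≤ 1 := (mem_filter.1 hi).2
    have hx2 : (2 : ℝ) ≤ x i := by
      have : (2 : ℤ) ≤ x i := by omega
      exact_mod_cast this
    have h9 : 1 / 10 * W * (((m : ℝ) + x i) * ((x i : ℝ) - 1)) =
        ∑ _v ∈ A i, 1 / 10 * W * ((x i : ℝ) - 1) := by
      rw [sum_const, nsmul_eq_mul, hcr i]
      ring
    rw [h9, mul_sum, ← sum_sub_distrib]
    apply sum_le_sum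
    intro v hv
    have hj0 : (jj v : ℤ) = 0 := by
      have h5 := hD.hjj i v hv
      rw [hJ] at h5
      have h6 : jj v = 0 := by omega
      rw [h6]
      rfl
    have h10 := pv2 hp ((r : ℤ) + 1) (x i) (by
        push_cast
        rw [abs_of_nonneg (by positivity)]
        refine hp3.trans ?_
        have h13 : (0 : ℝ) ≤ η * m := by positivity
        have h14 : (1 : ℝ) ≤ 5 * R * (R + 1) := by nlinarith
        nlinarith [mul_nonneg (sub_nonneg.2 h14) h13]) (hxs i)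
      (mu v) (ex v) 0 (bb v) (hD.hmu i v hv) (hD.hex i v hv) (by
        push_cast
        positivity) (by
        have := hrel i v hv
        push_cast
        linarith)
    have h11 : (∑ k, ((A k).card : ℝ)) - 2 * (A i).card = (R - 1) * m + (r + 1) - 2 * x i := by
      rw [hsumR, hcr i]
      ring
    rw [h11]
    have h15 : max ((x i : ℝ) - ((((r : ℤ) + 1 : ℤ) : ℝ) - r)) 0 = (x i : ℝ) - 1 := by
      push_cast
      rw [max_eq_left (by linarith)]
      ring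
    rw [h15] at h10
    push_cast at h10
    have h16 := abs_le.1 (hxm i)
    have h17 : 3 * ((x i : ℝ) - 1) * ((x i : ℝ) - 1 - 1) ≤ 1 / 10 * W * ((x i : ℝ) - 1) := by
      have h18 : 0 ≤ (x i : ℝ) - 1 := by linarith
      have h19 : 3 * ((x i : ℝ) - 1 - 1) ≤ 1 / 10 * W := by linarith
      nlinarith [mul_le_mul_of_nonneg_left h19 h18]
    have h20 : 5 / 2 * (((R : ℝ) - 1) * m) * (mu v : ℝ) = 5 / 2 * W * (mu v : ℝ) := by rw [hW]
    rw [h20] at h10
    linarith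
  -- numerical inequality
  have hnum := num_E R r m hR hs h3 C η P hη hη1 hm hP x hxs hX
  rw [← hF2, ← hG, ← hW] at hnum
  set par : ℝ := (if Even ((R - r) * m) then 0 else 3 * (W + r + 1) - 6) with hpar
  have hparle : par ≤ 3 * (W + r + 1) - 6 := by
    rw [hpar]
    split_ifs
    · linarith
    · exact le_rfl
  -- the value of CL
  have hCL : CL R r m γ P A mu ex J B U ≤ par - E - 14 / 5 * W * F2 - 5 / 2 * W * S2 +
      1 / 10 * W * F2 + ∑ b ∈ B, (3 * ((R - 1) / R) * U b ^ 2 -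
        (6 * P / (R * m + r) - 36 * γ * m) * U b) := by
    unfold CL
    rw [hJ0, sum_empty, add_zero]
    have h21 : (fun i => ((A i).card : ℝ)) = fun i => (m : ℝ) + x i := funext hcr
    have h22 : ∑ i, ∑ v ∈ A i, tv ((∑ k, ((A k).card : ℝ)) - 2 * (A i).card) (mu v) (ex v) =
        (∑ i ∈ univ.filter (fun i => x i ≤ 1), ∑ v ∈ A i,
          tv ((∑ k, ((A k).card : ℝ)) - 2 * (A i).card) (mu v) (ex v)) +
        (∑ i ∈ univ.filter (fun i => ¬ x i ≤ 1), ∑ v ∈ A i,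
          tv ((∑ k, ((A k).card : ℝ)) - 2 * (A i).card) (mu v) (ex v)) :=
      (sum_filter_add_sum_filter_not univ _ _).symm
    rw [h22]
    rw [hsumR] at htv1 htv2 ⊢
    rw [h21]
    linarith
  -- the sum over B
  have hBd : ∑ b ∈ B, U b ≤ (D : ℝ) + S2 + F2 := by
    rw [← hbb]
    have h22 : ∑ i, ∑ v ∈ A i, (bb v : ℝ) =
        (∑ i ∈ univ.filter (fun i => x i ≤ 1), ∑ v ∈ A i, (bb v : ℝ)) +
        (∑ i ∈ univ.filter (fun i => ¬ x i ≤ 1), ∑ v ∈ A i, (bb v : ℝ)) :=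
      (sum_filter_add_sum_filter_not univ _ _).symm
    rw [h22]
    have h23 : ∑ i ∈ univ.filter (fun i => x i ≤ 1), ∑ v ∈ A i, (bb v : ℝ) ≤ (D : ℝ) := by
      rw [hDdef]
      push_cast
      apply sum_le_sum
      intro i _
      apply sum_le_sum
      intro v hv
      have h24 := hrel i v hv
      have h25 : (bb v : ℤ) ≤ δ i v := by
        show (bb v : ℤ) ≤ (mu v : ℤ) - (1 - x i)
        have h7 : (0 : ℤ) ≤ ex v := by positivity
        linarith
      exact_mod_cast h25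
    have h26 : ∑ i ∈ univ.filter (fun i => ¬ x i ≤ 1), ∑ v ∈ A i, (bb v : ℝ) ≤ S2 + F2 := by
      rw [hS2, hF2, ← sum_add_distrib]
      apply sum_le_sum
      intro i _
      have h9 : ((m : ℝ) + x i) * ((x i : ℝ) - 1) = ∑ _v ∈ A i, ((x i : ℝ) - 1) := by
        rw [sum_const, nsmul_eq_mul, hcr i]
      rw [h9, ← sum_add_distrib]
      apply sum_le_sum
      intro v hv
      have h24 := hrel i v hv
      have h25 : (bb v : ℤ) ≤ mu v + (x i - 1) := by
        have h7 : (0 : ℤ) ≤ ex v := by positivity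
        linarith
      exact_mod_cast h25
    linarith
  have hF2n : 0 ≤ F2 := by
    apply sum_nonneg
    intro i hi
    have hxi : ¬ x i ≤ 1 := (mem_filter.1 hi).2
    have hx2 : (2 : ℝ) ≤ x i := by
      have : (2 : ℤ) ≤ x i := by omega
      exact_mod_cast this
    apply mul_nonneg <;> linarith
  have hDn : 0 ≤ D := sum_nonneg fun i hi => sum_nonneg fun v hv => hδ0 i hi v hv
  have hWF : 0 ≤ W * F2 := mul_nonneg (by linarith) hF2n
  have hWS : 0 ≤ W * S2 := mul_nonneg (by linarith) hS2n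
  -- - E + 7/10 W D ≤ 0
  have hED : -E + 7 / 10 * W * (D : ℝ) ≤ 0 ∧
      (1 ≤ D → -E + 7 / 10 * W * (D : ℝ) ≤ 6 - 13 / 10 * W * (D : ℝ)) := by
    rcases (show D = 0 ∨ 1 ≤ D by omega) with h0 | h1
    · constructor
      · rw [h0]
        simp only [Int.cast_zero, mul_zero, add_zero]
        linarith
      · intro h
        omega
    · have h27 := hE1 h1
      have h28 : (1 : ℝ) ≤ (D : ℝ) := by exact_mod_cast h1
      rw [hT] at h27
      have h29 : W ≤ W * (D : ℝ) := by nlinarith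
      constructor
      · linarith
      · intro _
        linarith
  have hkey : CL R r m γ P A mu ex J B U ≤ par - 2 * W * F2 +
      (if ∀ b ∈ B, U b ≤ ((R : ℝ) / 3 - 1 / 6) * m then -E else -E + 7 / 10 * W * (D : ℝ)) := by
    split_ifs with ha
    · have h30 : ∑ b ∈ B, (3 * ((R - 1) / R) * U b ^ 2 -
          (6 * P / (R * m + r) - 36 * γ * m) * U b) ≤ 0 := by
        apply sum_nonpos
        intro b hb
        have h31 := bl2 hp hP.p1 (U b) (hD.UB b hb).1 (hD.UB b hb).2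
        rw [max_eq_right (by linarith [ha b hb]), mul_zero] at h31
        exact h31
      linarith
    · have h30 : ∑ b ∈ B, (3 * ((R - 1) / R) * U b ^ 2 -
          (6 * P / (R * m + r) - 36 * γ * m) * U b) ≤ 7 / 10 * W * ∑ b ∈ B, U b := by
        rw [mul_sum]
        apply sum_le_sum
        intro b hb
        exact bl1 hp hP.p1 (U b) (hD.UB b hb).1 (hD.UB b hb).2
      have h31 : W * ∑ b ∈ B, U b ≤ W * ((D : ℝ) + S2 + F2) :=
        mul_le_mul_of_nonneg_left hBd (by linarith)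
      nlinarith
  by_cases hF : ∃ i, ¬ x i ≤ 1
  · -- F2 > 0
    obtain ⟨i0, hi0⟩ := hF
    have h32 : (m : ℝ) / 2 ≤ F2 := by
      have h33 : ((m : ℝ) + x i0) * ((x i0 : ℝ) - 1) ≤ F2 := by
        rw [hF2]
        apply single_le_sum (f := fun i => ((m : ℝ) + x i) * ((x i : ℝ) - 1))
        · intro i hi
          have hxi : ¬ x i ≤ 1 := (mem_filter.1 hi).2
          have hx2 : (2 : ℝ) ≤ x i := by
            have : (2 : ℤ) ≤ x i := by omega
            exact_mod_cast this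
          show 0 ≤ ((m : ℝ) + x i) * ((x i : ℝ) - 1)
          apply mul_nonneg <;> linarith
        · exact mem_filter.2 ⟨mem_univ _, hi0⟩
      have hx2 : (2 : ℝ) ≤ x i0 := by
        have : (2 : ℤ) ≤ x i0 := by omega
        exact_mod_cast this
      nlinarith
    have h34 : W * m ≤ 2 * W * F2 := by nlinarith
    have h35 : par ≤ W * m := by nlinarith
    split_ifs at hkey with ha
    · linarith
    · linarith [hED.1]
  · push Not at hF
    have hall : univ.filter (fun i => ¬ x i ≤ 1) = ∅ := by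
      rw [filter_eq_empty_iff]
      intro i _
      simpa using hF i
    have hF20 : F2 = 0 := by rw [hF2, hall, sum_empty]
    have hS20 : S2 = 0 := by rw [hS2, hall, sum_empty]
    rw [hF20] at hkey hBd
    rw [hS20] at hBd
    split_ifs at hkey with ha
    · -- case (a)
      by_cases hpe : Even ((R - r) * m)
      · have : par = 0 := by rw [hpar, if_pos hpe]
        rw [this] at hkey
        linarith
      · have hfull : univ.filter (fun i => x i ≤ 1) = univ := by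
          rw [filter_true_of_mem]
          intro i _
          exact hF i
        have hodd := cie_parity (by omega : r ≤ R) A mu x hcz hX hD.ev hpe
        have hD1 : 1 ≤ D := by
          rcases (show D = 0 ∨ 1 ≤ D by omega) with h0 | h1
          · exfalso
            apply hodd
            have h36 : ∑ i, ∑ v ∈ A i, ((mu v : ℤ) - (1 - x i)) = D := by
              rw [hDdef, hfull]
            rw [h36, h0]
            exact Even.zero
          · exact h1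
        have h27 := hE1 hD1
        have h28 : (1 : ℝ) ≤ (D : ℝ) := by exact_mod_cast hD1
        rw [hT] at h27
        have h29 : 0 ≤ 2 * W * ((D : ℝ) - 1) := by
          apply mul_nonneg <;> linarith
        linarith
    · -- case (b)
      push Not at ha
      obtain ⟨b0, hb0, hb1⟩ := ha
      have h37 : (m : ℝ) ≤ ∑ b ∈ B, U b := by
        have h38 : U b0 ≤ ∑ b ∈ B, U b :=
          single_le_sum (f := U) (fun b hb => (hD.UB b hb).1) hb0
        nlinarith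
      have h39 : (m : ℝ) ≤ (D : ℝ) := by linarith
      have hD1 : 1 ≤ D := by
        have : (1 : ℝ) ≤ (D : ℝ) := by linarith
        exact_mod_cast this
      have h40 := hED.2 hD1
      have h41 : W * m ≤ W * (D : ℝ) := mul_le_mul_of_nonneg_left h39 (by linarith)
      have h42 : par ≤ W * m / 10 := by nlinarith
      have h43 : 100 * W ≤ W * m := by nlinarith
      linarith

end Pool.Agent.H11.TD
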