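import Pool.Agent.H11.TD.S6x

/-!
# TD NumIIb: the numerical inequality in the case `c ≤ 0` with hubs in `B`

Notation as in `NumI`, `NumIIa` (`q = - c ≥ 0`).  By `sum_af`, `∑ a f = m (X - (R+1) c') + Q - c' X = m (r - R c') + Q - c' X`, so
the last term is `(42/25)(R-1) m (m (r - R c - R/3 + 1/6) + Q - c' X + Y)` (`c = c' + p`).  The coefficient of `m²` of
everything is
`(R-1)(- 2 R q - (3 r - R)⁺ + (42/25)(r + R q - R/3 + 1/6))
  = (R-1)(- (8/25) R q - (3 r - R)⁺ + (14/25)(3 r - R) + 7/25)`,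
which is `≤ (R-1)(- (8/25) R q - 4/25)`: if `3 r > R` then `- (11/25)(3 r - R) + 7/25 ≤ - 4/25`; if `3 r < R` then
`- 14/25 + 7/25`.
`Q` terms: `- 3 (R-1) m Q + 3.4 m Q + (42/25)(R-1) m Q + C_R η m Q = m Q (- (33/25)(R-1) + 3.4 + C_R η) ≤ 0` as
`(33/25) 3 = 3.96`.
`- (42/25)(R-1) m c' X`, `X = r + c'`: `c'² ≤ |c'| C_R η m`.  `Y`: `- 16/5 + 42/25 < 0`, and `Y ≥ κ m p`.
The other terms as in `NumIIa`.
-/

set_option autoImplicit false

open Finset

namespace Pool.Agent.H11.TD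

/-- the real inequality behind `num_IIb` -/
private theorem numIIb_core (R r m C κ η P X Q T p q Y F AF S pp e K K2 D : ℝ)
    (hR : 4 ≤ R) (hr0 : 0 ≤ r) (hrR : r ≤ R) (hm : 1 ≤ m) (hC : 0 < C) (_hη : 0 < η)
    (hp : 0 ≤ p) (hq : 0 ≤ q) (hQ : 0 ≤ Q)
    (hX : X = r - q - p)
    (hpp0 : 0 ≤ pp) (hpp : pp ≤ 3 * R)
    (hpp2 : - pp + 14 / 25 * (3 * r - R) + 7 / 25 ≤ - (4 / 25))
    (hK : K = 5 * R * (R + 1) + 1) (_hK2 : K2 = (R + 1) ^ 2 + 3 * (R + 1) + 2)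
    (hD : D = 6 * (R - 1) * K + 66 * (R + 1) * K)
    (hS : S = R * (R + 1) * (R - 1) * m ^ 3 + 3 * R * (R - 1) * m ^ 2 * X +
      3 * (R - 1) * m * (X ^ 2 - Q) + (X ^ 3 - 3 * X * Q + 2 * T))
    (hAF : AF = m * (X - (R + 1) * (X - r)) + Q - (X - r) * X)
    (hF : F ≤ (m + 5 * R * η * m) * (11 / 10 * Q + 11 * (R + 1) * (X - r) ^ 2))
    (hP : 6 * (R + 1) * P = R * (R + 1) * (R - 1) * m ^ 2 +
      (2 * R * (R - 1) * r + (R - 1) * pp) * m + e) (he : |e| ≤ C)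
    (hU : X ^ 3 - 3 * X * Q + 2 * T ≤ K2 * (5 * R * η * m) * Q)
    (hc : (X - r) ^ 2 ≤ K * η * m * (q + p))
    (hY : κ * m * p ≤ Y)
    (h1 : η * (5 * R) ≤ 1)
    (h2 : η * (5 * R * K2 + 33 / 2 * R) ≤ 66 / 100)
    (h3 : η * D ≤ 4 / 25 * ((R - 1) * R))
    (h4 : η * D ≤ 19 / 25 * ((R - 1) * κ))
    (h5 : (5 * R ^ 3 + C) + 2 * R ^ 2 ≤ 4 / 25 * ((R - 1) * R) * m)
    (h6 : 42 / 25 * R ≤ 19 / 25 * κ * m)
    (h7 : C + (5 * R ^ 3 + C) * R + 6 * (R - 1) * R ^ 2 ≤ 4 / 25 * (R - 1) * m) :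
    S - 6 * P * ((R + 1) * m + X + p) + 3 * R * ((R - 1) * m) * m * p + 3 * F -
      16 / 5 * ((R - 1) * m) * Y +
      42 / 25 * ((R - 1) * m) * (AF - p * (R * m) + Y - (R / 3 - 1 / 6) * m) ≤ 0 := by
  have hR1 : 0 < R + 1 := by linarith
  have hRm : 0 < R - 1 := by linarith
  have hm0 : 0 < m := by linarith
  have hK0 : 0 < K := by rw [hK]; positivity
  have hcc : X - r = -(q + p) := by rw [hX]; ring
  obtain ⟨he1, he2⟩ := abs_le.mp he
  -- the number w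
  obtain ⟨w, hw⟩ : ∃ w, 6 * P = R * (R - 1) * m ^ 2 + w := ⟨6 * P - R * (R - 1) * m ^ 2, by ring⟩
  have hw1 : (R + 1) * w = (2 * R * (R - 1) * r + (R - 1) * pp) * m + e := by
    have : (R + 1) * (6 * P) = (R + 1) * (R * (R - 1) * m ^ 2 + w) := by rw [hw]
    linarith only [this, hP]
  have hπ0 : 0 ≤ 2 * R * (R - 1) * r + (R - 1) * pp := by positivity
  have hπ1 : 2 * R * (R - 1) * r + (R - 1) * pp ≤ 5 * R ^ 3 := by
    have a1 : 2 * R * (R - 1) * r ≤ 2 * R * R * R := by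
      apply mul_le_mul (mul_le_mul_of_nonneg_left (by linarith) (by positivity)) hrR hr0
        (by positivity)
    have a2 : (R - 1) * pp ≤ R * (3 * R) := mul_le_mul (by linarith) hpp hpp0 (by linarith)
    have a3 := mul_nonneg (mul_nonneg (by linarith : (0 : ℝ) ≤ R) (by linarith : (0 : ℝ) ≤ R))
      (by linarith : (0 : ℝ) ≤ R - 1)
    linarith only [a1, a2, a3]
  have hwabs : |w| ≤ (5 * R ^ 3 + C) * m := by
    have b1 : |(R + 1) * w| ≤ (5 * R ^ 3 + C) * m := by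
      rw [hw1]
      calc |(2 * R * (R - 1) * r + (R - 1) * pp) * m + e|
          ≤ |(2 * R * (R - 1) * r + (R - 1) * pp) * m| + |e| := abs_add_le _ _
        _ = (2 * R * (R - 1) * r + (R - 1) * pp) * m + |e| := by
            rw [abs_of_nonneg (by positivity)]
        _ ≤ 5 * R ^ 3 * m + C * m := by
            apply add_le_add (mul_le_mul_of_nonneg_right hπ1 hm0.le)
            exact he.trans (le_mul_of_one_le_right hC.le hm)
        _ = (5 * R ^ 3 + C) * m := by ring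
    rw [abs_mul, abs_of_pos hR1] at b1
    have b2 : 1 * |w| ≤ (R + 1) * |w| := mul_le_mul_of_nonneg_right (by linarith) (abs_nonneg w)
    linarith
  -- the exact form
  have hexact : S - 6 * P * ((R + 1) * m + X + p) + 3 * R * ((R - 1) * m) * m * p + 3 * F -
      16 / 5 * ((R - 1) * m) * Y +
      42 / 25 * ((R - 1) * m) * (AF - p * (R * m) + Y - (R / 3 - 1 / 6) * m)
      = (R - 1) * m ^ 2 * (- (8 / 25) * R * q + (- pp + 14 / 25 * (3 * r - R) + 7 / 25))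
        - e * m - w * (r - q) + 3 * (R - 1) * m * (X ^ 2 - Q) + (X ^ 3 - 3 * X * Q + 2 * T)
        + 3 * F + 42 / 25 * ((R - 1) * m) * (Q - (X - r) * X) - 38 / 25 * ((R - 1) * m) * Y := by
    rw [hS, hAF, hw]
    have e1 : (R * (R - 1) * m ^ 2 + w) * ((R + 1) * m + X + p)
        = R * (R - 1) * m ^ 2 * ((R + 1) * m + X + p) + m * ((R + 1) * w) + w * (X + p) := by ring
    rw [e1, hw1, hX]
    ring
  rw [hexact]
  -- bounds
  have g1 : - e * m ≤ C * m := mul_le_mul_of_nonneg_right (by linarith only [he1]) hm0.le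
  have g2 : - w * (r - q) ≤ (5 * R ^ 3 + C) * m * (R + q) := by
    have c1 : - w * (r - q) ≤ |w| * |r - q| := by
      rw [← abs_mul]
      have := neg_abs_le (w * (r - q))
      linarith only [this]
    have c2 : |r - q| ≤ R + q := by
      rw [abs_le]; constructor <;> linarith only [hr0, hrR, hq]
    exact c1.trans (mul_le_mul hwabs c2 (abs_nonneg _) (by positivity))
  have g3 : X ^ 2 ≤ 2 * R ^ 2 + 2 * (K * η * m * (q + p)) := by
    have c1 : X ^ 2 ≤ 2 * r ^ 2 + 2 * (X - r) ^ 2 := by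
      have := sq_nonneg (X - 2 * r)
      linarith only [this]
    have c2 : r ^ 2 ≤ R ^ 2 := pow_le_pow_left₀ hr0 hrR 2
    linarith only [c1, c2, hc]
  have g4 : - ((X - r) * X) ≤ R * (q + p) := by
    have c1 : - ((X - r) * X) = - ((X - r) ^ 2) - r * (X - r) := by ring
    rw [c1]
    have c2 : - (r * (X - r)) = r * (q + p) := by rw [hcc]; ring
    have c3 : r * (q + p) ≤ R * (q + p) := mul_le_mul_of_nonneg_right hrR (by linarith)
    linarith only [sq_nonneg (X - r), c2, c3]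
  have hMm : 5 * R * η * m ≤ m := by
    have := mul_le_mul_of_nonneg_right h1 hm0.le
    linarith only [this]
  have g5 : F ≤ (m + 5 * R * η * m) * (11 / 10 * Q) + 2 * m * (11 * (R + 1) * (K * η * m * (q + p))) := by
    refine hF.trans ?_
    have c1 : 0 ≤ 11 * (R + 1) * (X - r) ^ 2 := by positivity
    have c2 : 11 * (R + 1) * (X - r) ^ 2 ≤ 11 * (R + 1) * (K * η * m * (q + p)) :=
      mul_le_mul_of_nonneg_left hc (by positivity)
    have c3 : (m + 5 * R * η * m) * (11 * (R + 1) * (X - r) ^ 2)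
        ≤ (2 * m) * (11 * (R + 1) * (K * η * m * (q + p))) :=
      mul_le_mul (by linarith only [hMm]) c2 c1 (by positivity)
    have c4 := mul_add (m + 5 * R * η * m) (11 / 10 * Q) (11 * (R + 1) * (X - r) ^ 2)
    linarith only [c3, c4]
  have g6 : (R - 1) * m * (κ * m * p) ≤ (R - 1) * m * Y :=
    mul_le_mul_of_nonneg_left hY (by positivity)
  -- groups
  have G1 : (R - 1) * m ^ 2 * (- pp + 14 / 25 * (3 * r - R) + 7 / 25)
      ≤ (R - 1) * m ^ 2 * (- (4 / 25)) := mul_le_mul_of_nonneg_left hpp2 (by positivity)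
  have GQ : (K2 * (5 * R * η * m) + 3 * (m + 5 * R * η * m) * (11 / 10) + 42 / 25 * ((R - 1) * m)
      - 3 * (R - 1) * m) * Q ≤ 0 := by
    apply mul_nonpos_of_nonpos_of_nonneg _ hQ
    have c1 : K2 * (5 * R * η * m) + 3 * (m + 5 * R * η * m) * (11 / 10) + 42 / 25 * ((R - 1) * m)
      - 3 * (R - 1) * m = (η * (5 * R * K2 + 33 / 2 * R) + 33 / 10 - 33 / 25 * (R - 1)) * m := by
      ring
    rw [c1]
    apply mul_nonpos_of_nonpos_of_nonneg _ hm0.le
    linarith only [h2, hR]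
  have Gq : q * (m * (η * D * m + ((5 * R ^ 3 + C) + 2 * R ^ 2) - 8 / 25 * ((R - 1) * R) * m)) ≤ 0 := by
    apply mul_nonpos_of_nonneg_of_nonpos hq
    apply mul_nonpos_of_nonneg_of_nonpos hm0.le
    have := mul_le_mul_of_nonneg_right h3 hm0.le
    linarith only [this, h5]
  have Gp : p * (m * (R - 1) * (19 / 25 * κ * m + 42 / 25 * R - 38 / 25 * κ * m)) ≤ 0 := by
    apply mul_nonpos_of_nonneg_of_nonpos hp
    apply mul_nonpos_of_nonneg_of_nonpos (by positivity)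
    linarith only [h6]
  have Gp2 : p * (m ^ 2 * (η * D)) ≤ p * (m ^ 2 * (19 / 25 * ((R - 1) * κ))) := by
    apply mul_le_mul_of_nonneg_left _ hp
    exact mul_le_mul_of_nonneg_left h4 (by positivity)
  have G0 : m * (C + (5 * R ^ 3 + C) * R + 6 * (R - 1) * R ^ 2) ≤ m * (4 / 25 * (R - 1) * m) :=
    mul_le_mul_of_nonneg_left h7 hm0.le
  have i3 : 3 * (R - 1) * m * X ^ 2 ≤ 3 * (R - 1) * m * (2 * R ^ 2 + 2 * (K * η * m * (q + p))) :=
    mul_le_mul_of_nonneg_left g3 (by positivity)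
  have i4 : 42 / 25 * ((R - 1) * m) * (- ((X - r) * X)) ≤ 42 / 25 * ((R - 1) * m) * (R * (q + p)) :=
    mul_le_mul_of_nonneg_left g4 (by positivity)
  have i5 : 42 / 25 * ((R - 1) * m) * (R * q) ≤ 2 * R ^ 2 * m * q := by
    have c1 : 42 / 25 * (R - 1) ≤ 2 * R := by linarith
    have c2 : (42 / 25 * (R - 1)) * (m * R * q) ≤ (2 * R) * (m * R * q) :=
      mul_le_mul_of_nonneg_right c1 (by positivity)
    have c3 : 0 ≤ m * R * q := by positivity
    linarith only [c2, c3]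
  have hD' : η * D * (m ^ 2 * (q + p)) = 3 * (R - 1) * m * (2 * (K * η * m * (q + p))) +
      3 * (2 * m * (11 * (R + 1) * (K * η * m * (q + p)))) := by
    rw [hD]; ring
  linarith only [g1, g2, g5, g6, G1, GQ, Gq, Gp, Gp2, G0, i3, i4, i5, hD', hU]

/-- the six largeness conditions -/
private theorem numIIb_big (R r C κ η : ℝ) (hR : 4 ≤ R) (hr0 : 0 ≤ r) (hC : 0 < C) (hκ : 0 < κ)
    (hη : 0 < η) : ∃ m0 : ℕ, ∀ m : ℝ, (m0 : ℝ) ≤ m → 1 ≤ m ∧ r ≤ η * m ∧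
      (5 * R ^ 3 + C) + 2 * R ^ 2 ≤ 4 / 25 * ((R - 1) * R) * m ∧
      42 / 25 * R ≤ 19 / 25 * κ * m ∧
      C + (5 * R ^ 3 + C) * R + 6 * (R - 1) * R ^ 2 ≤ 4 / 25 * (R - 1) * m := by
  have hR1 : 0 ≤ R - 1 := by linarith
  set B1 := r / η with hB1
  set B2 := (5 * R ^ 3 + C) + 2 * R ^ 2 with hB2
  set B3 := 42 / 25 * R / (19 / 25 * κ) with hB3
  set B4 := (C + (5 * R ^ 3 + C) * R + 6 * (R - 1) * R ^ 2) / (4 / 25 * (R - 1)) with hB4
  have p1 : 0 ≤ B1 := by rw [hB1]; positivity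
  have p2 : 0 ≤ B2 := by rw [hB2]; positivity
  have p3 : 0 ≤ B3 := by rw [hB3]; positivity
  have p4 : 0 ≤ B4 := by rw [hB4]; positivity
  refine ⟨⌈1 + B1 + B2 + B3 + B4⌉₊, fun m hm => ?_⟩
  have hm1 : 1 + B1 + B2 + B3 + B4 ≤ m := le_trans (Nat.le_ceil _) hm
  refine ⟨by linarith, ?_, ?_, ?_, ?_⟩
  · have : B1 ≤ m := by linarith
    rw [hB1, div_le_iff₀ hη] at this
    linarith
  · have h1 : B2 ≤ m := by linarith
    have h2 : 1 ≤ 4 / 25 * ((R - 1) * R) := by nlinarith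
    have h3 : 1 * m ≤ 4 / 25 * ((R - 1) * R) * m := mul_le_mul_of_nonneg_right h2 (by linarith)
    linarith
  · have : B3 ≤ m := by linarith
    rw [hB3, div_le_iff₀ (by positivity)] at this
    linarith
  · have : B4 ≤ m := by linarith
    rw [hB4, div_le_iff₀ (by nlinarith)] at this
    linarith

theorem num_IIb (R r : ℕ) (hR : 4 ≤ R) (hr : 1 ≤ r) (hs : r + 2 ≤ R) (h3 : 3 * r ≠ R) (C κ : ℝ)
    (hC : 0 < C) (hκ : 0 < κ) : ∃ η0 : ℝ, 0 < η0 ∧ ∀ η : ℝ, 0 < η → η ≤ η0 → ∃ m0 : ℕ,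
      ∀ m : ℕ, m0 ≤ m → ∀ P : ℝ, PSpec R r m C P → ∀ x : Fin (R + 1) → ℤ,
        (∀ i, |(x i : ℝ)| ≤ 5 * R * η * m) → ∀ p : ℕ, (p : ℝ) ≤ 4 * R * η * m →
          (∑ i, x i) - r + p ≤ 0 → ∀ Y : ℝ, κ * m * p ≤ Y →
          S6 (fun i => (m : ℝ) + x i) - 6 * P * ((R + 1) * m + ∑ i, (x i : ℝ) + p) +
            3 * R * ((R - 1) * m) * m * p +
            3 * ∑ i, ((m : ℝ) + x i) * (max ((x i : ℝ) - (∑ j, (x j : ℝ) - r)) 0 *
              (max ((x i : ℝ) - (∑ j, (x j : ℝ) - r)) 0 - 1)) -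
            16 / 5 * ((R - 1) * m) * Y +
            42 / 25 * ((R - 1) * m) *
              (∑ i, ((m : ℝ) + x i) * ((x i : ℝ) - (∑ j, (x j : ℝ) - r)) - p * (R * m) + Y -
                ((R : ℝ) / 3 - 1 / 6) * m) ≤ 0 := by
  have hR4 : (4 : ℝ) ≤ R := by exact_mod_cast hR
  have hr0 : (0 : ℝ) ≤ r := Nat.cast_nonneg r
  have hrR : (r : ℝ) ≤ R := by exact_mod_cast (by omega : r ≤ R)
  have hR1 : (0 : ℝ) < (R : ℝ) - 1 := by linarith
  have hR0 : (0 : ℝ) < R := by linarith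
  obtain ⟨K, hK⟩ : ∃ K : ℝ, K = 5 * R * (R + 1) + 1 := ⟨_, rfl⟩
  obtain ⟨K2, hK2⟩ : ∃ K2 : ℝ, K2 = ((R : ℝ) + 1) ^ 2 + 3 * (R + 1) + 2 := ⟨_, rfl⟩
  obtain ⟨D, hD⟩ : ∃ D : ℝ, D = 6 * (R - 1) * K + 66 * (R + 1) * K := ⟨_, rfl⟩
  have hK0 : 0 < K := by rw [hK]; positivity
  have hK20 : 0 < K2 := by rw [hK2]; positivity
  have hD0 : 0 < D := by rw [hD]; positivity
  set η1 : ℝ := 1 / (5 * R) with hη1
  set η2 : ℝ := (66 / 100) / (5 * R * K2 + 33 / 2 * R) with hη2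
  set η3 : ℝ := (4 / 25 * (((R : ℝ) - 1) * R)) / D with hη3
  set η4 : ℝ := (19 / 25 * (((R : ℝ) - 1) * κ)) / D with hη4
  have q1 : 0 < η1 := by rw [hη1]; positivity
  have q2 : 0 < η2 := by rw [hη2]; positivity
  have q3 : 0 < η3 := by rw [hη3]; positivity
  have q4 : 0 < η4 := by rw [hη4]; positivity
  refine ⟨min (min η1 η2) (min η3 η4), lt_min (lt_min q1 q2) (lt_min q3 q4), ?_⟩
  intro η hη hη0
  have f1 : η ≤ η1 := hη0.trans ((min_le_left _ _).trans (min_le_left _ _))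
  have f2 : η ≤ η2 := hη0.trans ((min_le_left _ _).trans (min_le_right _ _))
  have f3 : η ≤ η3 := hη0.trans ((min_le_right _ _).trans (min_le_left _ _))
  have f4 : η ≤ η4 := hη0.trans ((min_le_right _ _).trans (min_le_right _ _))
  rw [hη1, le_div_iff₀ (by positivity)] at f1
  rw [hη2, le_div_iff₀ (by positivity)] at f2
  rw [hη3, le_div_iff₀ hD0] at f3
  rw [hη4, le_div_iff₀ hD0] at f4
  obtain ⟨m0, hm0⟩ := numIIb_big (R : ℝ) (r : ℝ) C κ η hR4 hr0 hC hκ hη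
  refine ⟨m0, fun mn hmn P hP x hx p _ hcp Y hY => ?_⟩
  set m : ℝ := (mn : ℝ) with hmdef
  obtain ⟨b1, b2, b3, b4, b5⟩ := hm0 m (by rw [hmdef]; exact_mod_cast hmn)
  have hm0' : 0 < m := by linarith
  set X : ℝ := ∑ i, (x i : ℝ) with hXdef
  set Q : ℝ := ∑ i, (x i : ℝ) ^ 2 with hQdef
  set T : ℝ := ∑ i, (x i : ℝ) ^ 3 with hTdef
  set M : ℝ := 5 * R * η * m with hMdef
  have hM0 : 0 < M := by rw [hMdef]; positivity
  have hQ0 : 0 ≤ Q := Finset.sum_nonneg fun i _ => sq_nonneg _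
  have hMm : M ≤ m := by
    have := mul_le_mul_of_nonneg_right f1 hm0'.le
    rw [hMdef]; linarith
  -- X
  have hXabs : |X| ≤ (R + 1) * M := by
    calc |X| ≤ ∑ i, |(x i : ℝ)| := Finset.abs_sum_le_sum_abs _ _
      _ ≤ ∑ _i : Fin (R + 1), M := Finset.sum_le_sum fun i _ => hx i
      _ = (R + 1) * M := by simp
  have hX2 : X ^ 2 ≤ (R + 1) * Q := by
    have := sq_sum_le_card_mul_sum_sq (s := (Finset.univ : Finset (Fin (R + 1))))
      (f := fun i => (x i : ℝ))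
    simpa using this
  have hT := t_le x M hx
  -- U
  have hU : X ^ 3 - 3 * X * Q + 2 * T ≤ K2 * M * Q := by
    have c1 : X ^ 3 ≤ (R + 1) * Q * ((R + 1) * M) := by
      calc X ^ 3 = X ^ 2 * X := by ring
        _ ≤ X ^ 2 * |X| := mul_le_mul_of_nonneg_left (le_abs_self X) (sq_nonneg X)
        _ ≤ (R + 1) * Q * ((R + 1) * M) :=
            mul_le_mul hX2 hXabs (abs_nonneg _) (by positivity)
    have c2 : - (X * Q) ≤ (R + 1) * M * Q := by
      have : - X ≤ (R + 1) * M := (neg_le_abs X).trans hXabs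
      have := mul_le_mul_of_nonneg_right this hQ0
      linarith
    have c3 : T ≤ M * Q := (le_abs_self T).trans hT
    rw [hK2]
    linarith
  -- c'
  obtain ⟨qn, hqn⟩ : ∃ qn : ℝ, qn = - (X - r + p) := ⟨_, rfl⟩
  have hq0 : 0 ≤ qn := by
    have : ((∑ i, x i : ℤ) : ℝ) - r + p ≤ 0 := by exact_mod_cast hcp
    rw [Int.cast_sum] at this
    rw [hqn]; linarith
  have hp0 : (0 : ℝ) ≤ p := Nat.cast_nonneg p
  have hc : (X - r) ^ 2 ≤ K * η * m * (qn + p) := by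
    have c1 : |X - r| ≤ K * η * m := by
      calc |X - r| ≤ |X| + |(r : ℝ)| := abs_sub _ _
        _ ≤ (R + 1) * M + η * m := by
            apply add_le_add hXabs
            rw [abs_of_nonneg hr0]; exact b2
        _ = K * η * m := by rw [hK, hMdef]; ring
    have c2 : |X - r| = qn + p := by
      have : X - r = - (qn + p) := by rw [hqn]; ring
      rw [this, abs_neg, abs_of_nonneg (by linarith)]
    calc (X - r) ^ 2 = |X - r| * |X - r| := by rw [← sq_abs]; ring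
      _ ≤ K * η * m * (qn + p) := mul_le_mul c1 c2.le (abs_nonneg _) (by positivity)
  -- F
  have hF : ∑ i, (m + x i) * (max ((x i : ℝ) - (X - r)) 0 *
              (max ((x i : ℝ) - (X - r)) 0 - 1))
      ≤ (m + 5 * R * η * m) * (11 / 10 * Q + 11 * (R + 1) * (X - r) ^ 2) := by
    have c1 : ∀ i, (m + x i) * (max ((x i : ℝ) - (X - r)) 0 *
              (max ((x i : ℝ) - (X - r)) 0 - 1))
        ≤ (m + M) * (11 / 10 * (x i : ℝ) ^ 2 + 11 * (X - r) ^ 2) := by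
      intro i
      obtain ⟨x1, x2⟩ := abs_le.mp (hx i)
      set g := max ((x i : ℝ) - (X - r)) 0 with hg
      have d0 : 0 ≤ g := le_max_right _ _
      have d1 : g ^ 2 ≤ ((x i : ℝ) - (X - r)) ^ 2 := by
        rcases max_cases ((x i : ℝ) - (X - r)) 0 with ⟨h, _⟩ | ⟨h, _⟩
        · rw [hg, h]
        · rw [hg, h, zero_pow two_ne_zero]; exact sq_nonneg _
      have d2 : ((x i : ℝ) - (X - r)) ^ 2 ≤ 11 / 10 * (x i : ℝ) ^ 2 + 11 * (X - r) ^ 2 := by
        have := sq_nonneg ((x i : ℝ) + 10 * (X - r))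
        linarith only [this]
      have d3 : 0 ≤ m + x i := by linarith only [x1, hMm]
      calc (m + x i) * (g * (g - 1)) ≤ (m + x i) * g ^ 2 :=
            mul_le_mul_of_nonneg_left (by
              have : g * (g - 1) = g ^ 2 - g := by ring
              linarith only [this, d0]) d3
        _ ≤ (m + M) * (11 / 10 * (x i : ℝ) ^ 2 + 11 * (X - r) ^ 2) :=
            mul_le_mul (by linarith only [x2]) (d1.trans d2) (sq_nonneg _)
              (by linarith only [hM0, hm0'])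
    refine (Finset.sum_le_sum fun i _ => c1 i).trans (le_of_eq ?_)
    rw [← Finset.mul_sum, Finset.sum_add_distrib, ← Finset.mul_sum, Finset.sum_const,
      Finset.card_univ, Fintype.card_fin, nsmul_eq_mul]
    push_cast
    ring
  -- P
  have hP2 := hP.p2
  set pp : ℝ := max (3 * (r : ℝ) - R) 0 with hppdef
  obtain ⟨e, he⟩ : ∃ e : ℝ, e = 6 * (R + 1) * P - R * (R + 1) * (R - 1) * m ^ 2 -
    (2 * R * (R - 1) * r + (R - 1) * pp) * m := ⟨_, rfl⟩
  rw [← he] at hP2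
  have hpp2 : - pp + 14 / 25 * (3 * r - R) + 7 / 25 ≤ - (4 / 25) := by
    rcases lt_or_gt_of_ne h3 with h | h
    · have h4 : 3 * (r : ℝ) + 1 ≤ R := by exact_mod_cast h
      have h5 : 0 ≤ pp := le_max_right _ _
      linarith
    · have h4 : (R : ℝ) + 1 ≤ 3 * r := by exact_mod_cast h
      have h5 : 3 * (r : ℝ) - R ≤ pp := le_max_left _ _
      linarith
  have hpp3 : pp ≤ 3 * R := by
    rw [hppdef]
    apply max_le <;> linarith
  have hcore := numIIb_core (R : ℝ) (r : ℝ) m C κ η P X Q T p qn Y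
    (∑ i, (m + x i) * (max ((x i : ℝ) - (X - r)) 0 * (max ((x i : ℝ) - (X - r)) 0 - 1)))
    (∑ i, (m + x i) * ((x i : ℝ) - (X - r))) (S6 (fun i => m + x i)) pp e K K2 D
    hR4 hr0 hrR b1 hC hη hp0 hq0 hQ0 (by rw [hqn]; ring) (le_max_right _ _) hpp3 hpp2 hK hK2 hD
    (s6_exp R m (fun i => (x i : ℝ))) (sum_af R m (X - r) (fun i => (x i : ℝ))) hF
    (by rw [he]; ring) hP2 hU hc hY f1 f2 f3 f4 b3 b4 b5
  exact hcore

end Pool.Agent.H11.TD
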