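import Pool.Agent.H11.TD.S6x

/-!
# TD NumIIe: the exact inequality in the case `c = 0`, `p = 0`, `3 r < R`

`X = ∑ x i = r`, so `6 P ((R+1) m + r)` is given by p3, and by `s6_exp`
`S6 - 6 P ((R+1) m + r) = - 3 (R-1) m (Q - r) + (- 3 r (Q - r) + 2 (T - r))` (`T - r = ∑ (x i³ - x i)`,
`Q - r = ∑ x i (x i - 1) ≥ 0`); `|T - r| ≤ (M + 1)(Q - r)`, `M = 5 R η m` (`tx_le`, `qx_le`).
`3 ∑ a (x⁺)(x⁺ - 1) ≤ 3 (1 + 5 R η) m ∑ x i (x i - 1) = 3 (1 + 5 R η) m (Q - r)`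
(for an integer `x ≤ 0`: `x⁺ (x⁺ - 1) = 0 ≤ x (x - 1)`).
Total `≤ (Q - r)(- 3 (R-1) m + 3 (1 + 5 R η) m + 2 (5 R η m + 1)) ≤ 0`, as `3 (R - 1) ≥ 9`, `R η ≤ 1/100`, `m ≥ 2`.
-/

set_option autoImplicit false

open Finset

namespace Pool.Agent.H11.TD

theorem num_IIe (R r m : ℕ) (hR : 4 ≤ R) (h3 : 3 * r < R) (C η P : ℝ) (hη : 0 < η)
    (hη1 : 100 * R * η ≤ 1) (hm : 2 ≤ m) (hP : PSpec R r m C P) (x : Fin (R + 1) → ℤ)
    (hx : ∀ i, |(x i : ℝ)| ≤ 5 * R * η * m) (hX : ∑ i, x i = r) :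
    S6 (fun i => (m : ℝ) + x i) - 6 * P * ((R + 1) * m + r) +
      3 * ∑ i, ((m : ℝ) + x i) * (max (x i : ℝ) 0 * (max (x i : ℝ) 0 - 1)) ≤ 0 := by
  set M : ℝ := 5 * R * η * m with hM
  have hmR : (2 : ℝ) ≤ m := by exact_mod_cast hm
  have hRR : (4 : ℝ) ≤ R := by exact_mod_cast hR
  have hr0 : (0 : ℝ) ≤ r := Nat.cast_nonneg r
  have hM0 : 0 ≤ M := by positivity
  have hM1 : M ≤ m / 20 := by
    rw [hM]
    have h1 : 5 * (R : ℝ) * η ≤ 1 / 20 := by linarith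
    have h2 := mul_le_mul_of_nonneg_right h1 (by linarith : (0 : ℝ) ≤ m)
    linarith
  have hXr : ∑ i, (x i : ℝ) = r := by exact_mod_cast hX
  have hs := s6_exp R (m : ℝ) (fun i => (x i : ℝ))
  have hp3 := hP.p3 h3
  have hq := qx_le x
  have ht := (abs_le.mp (tx_le x M hx)).2
  set Q : ℝ := ∑ i, (x i : ℝ) ^ 2 with hQ
  set T : ℝ := ∑ i, (x i : ℝ) ^ 3 with hT
  rw [hXr] at hs hq ht
  have hthird : ∑ i, ((m : ℝ) + x i) * (max (x i : ℝ) 0 * (max (x i : ℝ) 0 - 1))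
      ≤ (m + M) * (Q - r) := by
    have h1 : ∀ i ∈ (univ : Finset (Fin (R + 1))),
        ((m : ℝ) + x i) * (max (x i : ℝ) 0 * (max (x i : ℝ) 0 - 1))
          ≤ (m + M) * ((x i : ℝ) ^ 2 - x i) := by
      intro i _
      have hxi := abs_le.mp (hx i)
      rcases le_or_gt (x i) 0 with h | h
      · have h' : (x i : ℝ) ≤ 0 := by exact_mod_cast h
        rw [max_eq_right h']
        have : 0 ≤ (x i : ℝ) ^ 2 - x i := by nlinarith
        have h2 : 0 ≤ (m + M) * ((x i : ℝ) ^ 2 - x i) := mul_nonneg (by linarith) this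
        linarith
      · have h' : (1 : ℝ) ≤ x i := by exact_mod_cast h
        rw [max_eq_left (by linarith)]
        have h2 : 0 ≤ (x i : ℝ) * (x i - 1) := mul_nonneg (by linarith) (by linarith)
        have h3 := mul_le_mul_of_nonneg_right (by linarith [hxi.2] : (m : ℝ) + x i ≤ m + M) h2
        nlinarith
    refine (sum_le_sum h1).trans (le_of_eq ?_)
    rw [← mul_sum, sum_sub_distrib, hXr]
  have hfac : (Q - r) * (-3 * (R - 1) * m - 3 * r + 2 * (M + 1) + 3 * (m + M)) ≤ 0 := by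
    refine mul_nonpos_of_nonneg_of_nonpos (by linarith) ?_
    nlinarith
  rw [hs, hp3]
  nlinarith

end Pool.Agent.H11.TD
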