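import Pool.Agent.H11.TD.NumIIa
import Pool.Agent.H11.TD.NumIIb
import Pool.Agent.H11.TD.NumIIe
import Pool.Agent.H11.TD.PvA
import Pool.Agent.H11.TD.JB

/-!
# TD CiII: the cluster inequality for `cc ≤ 0`

Notation as in `CiI`; `Sμ = ∑∑ mu`, `Y = ∑_J (R m - U_j) ≥ (γ/2) m p`, `K = (R/3 - 1/6) m`.
* `pv2`: `∑∑ tv ≥ (5/2) W0 Sμ - 3 ∑ a f⁺ (f⁺ - 1)`.
* `jl2`: `J` sum `≤ 3 R W0 m p - (16/5) W0 Y - 6 P p`.
* `bl2`, `sum_pos_part`: `B` sum `≤ (42/25) W0 (∑_B U - K)⁺`, and by `rel`, `sB`, `sJ`: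
  `∑_B U = ∑∑ bb ≤ ∑∑ (mu + f - jj) = Sμ + ∑ a f - (p R m - Y)`, so
  `(∑_B U - K)⁺ ≤ Sμ + (∑ a f - p R m + Y - K)⁺`; `(42/25 - 5/2) W0 Sμ ≤ 0`.
So `CL ≤ S6 - 6 P (N + p) + 3 R W0 m p + 3 ∑ a f⁺ (f⁺ - 1) - (16/5) W0 Y + (42/25) W0 (∑ a f - p R m + Y - K)⁺`.
If the positive part is attained: `num_IIb`; if it is `0`: `num_IIa` (`κ = γ/2`), and in the exceptional case
(`cc = 0`, `p = 0`, `3 r < R`, then `X = r`, `f i = x i`, `Y = 0`) `num_IIe`.
-/

set_option autoImplicit false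

open Finset

namespace Pool.Agent.H11.TD

/-- the arithmetic of the final case distinction -/
private theorem ciii_arith (S P6N SP3 JT BT Smu af Y K W0 V E3 p6 : ℝ) (hW : 0 ≤ W0) (hS : 0 ≤ Smu)
    (hSP : 5 / 2 * W0 * Smu - E3 ≤ SP3) (hJ : JT ≤ V - 16 / 5 * W0 * Y - p6)
    (hB : BT ≤ 42 / 25 * W0 * max (Smu + (af + Y - K)) 0)
    (h1 : S - P6N - p6 + V + E3 - 16 / 5 * W0 * Y + 42 / 25 * W0 * (af + Y - K) ≤ 0)
    (h2 : af + Y - K ≤ 0 → S - P6N - p6 + V + E3 - 16 / 5 * W0 * Y ≤ 0) :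
    S - SP3 - P6N + JT + BT ≤ 0 := by
  have hWS : 0 ≤ W0 * Smu := mul_nonneg hW hS
  by_cases h : af + Y - K ≤ 0
  · have h3 := h2 h
    have h4 : max (Smu + (af + Y - K)) 0 ≤ Smu := max_le (by linarith) hS
    have h5 : 42 / 25 * W0 * max (Smu + (af + Y - K)) 0 ≤ 42 / 25 * W0 * Smu :=
      mul_le_mul_of_nonneg_left h4 (by positivity)
    nlinarith
  · push Not at h
    have h4 : max (Smu + (af + Y - K)) 0 = Smu + (af + Y - K) := max_eq_left (by linarith)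
    rw [h4] at hB
    nlinarith

private theorem ciii_eta {R r m : ℕ} {γ η : ℝ} (hp : Par R r m γ η) : 100 * R * η ≤ 1 := by
  have hRr : (4 : ℝ) ≤ R := by exact_mod_cast hp.hR
  have h1 := hp.hγ'
  have h2 := hp.hη'
  have h0 := hp.hη
  have hg := hp.hγ
  have h3 : 0 ≤ (R : ℝ) * η := by positivity
  have h5 : (4000 : ℝ) * (R * η) ≤ 1000 * R ^ 2 * η := by
    have := mul_le_mul_of_nonneg_right hRr h3
    linarith [this, (by ring : (1000 : ℝ) * R ^ 2 * η = 1000 * (R * (R * η)))]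
  have h4 : γ ≤ 1 := by
    have : (4000 : ℝ) * γ ≤ 1000 * R * γ := by
      have := mul_le_mul_of_nonneg_right hRr hg.le
      linarith
    linarith
  linarith

theorem ci_II (R r : ℕ) (hR : 4 ≤ R) (hr : 1 ≤ r) (hs : r + 2 ≤ R) (h3 : 3 * r ≠ R) (C γ : ℝ)
    (hC : 0 < C) (hγ : 0 < γ) : ∃ η0 : ℝ, 0 < η0 ∧ ∀ η : ℝ, 0 < η → η ≤ η0 → ∃ m0 : ℕ,
      ∀ m : ℕ, m0 ≤ m → Par R r m γ η → ∀ P : ℝ, PSpec R r m C P →
        ∀ (α : Type) [DecidableEq α] (A : Fin (R + 1) → Finset α) (mu ex jj bb : α → ℕ)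
          (J B : Finset α) (U : α → ℝ), CD R r m γ η A mu ex jj bb J B U →
          cc R r m A J ≤ 0 → CL R r m γ P A mu ex J B U ≤ 0 := by
  obtain ⟨ηa, ha, Ha⟩ := num_IIa R r hR hr hs h3 C (γ / 2) hC (by positivity)
  obtain ⟨ηb, hb, Hb⟩ := num_IIb R r hR hr hs h3 C (γ / 2) hC (by positivity)
  refine ⟨min ηa ηb, lt_min ha hb, fun η hη hle => ?_⟩
  obtain ⟨ma, Ha⟩ := Ha η hη (hle.trans (min_le_left _ _))
  obtain ⟨mb, Hb⟩ := Hb η hη (hle.trans (min_le_right _ _))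
  refine ⟨max (max ma mb) 2, fun m hm hp P hP α _ A mu ex jj bb J B U hD hcc => ?_⟩
  have hma : ma ≤ m := ((le_max_left _ _).trans (le_max_left _ _)).trans hm
  have hmb : mb ≤ m := ((le_max_right _ _).trans (le_max_left _ _)).trans hm
  have hm2 : 2 ≤ m := (le_max_right _ _).trans hm
  have hRr : (4 : ℝ) ≤ R := by exact_mod_cast hR
  have hmr : (2 : ℝ) ≤ m := by exact_mod_cast hm2
  obtain ⟨xx, hxx⟩ : ∃ xx : Fin (R + 1) → ℤ, ∀ i, ((A i).card : ℤ) = m + xx i :=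
    ⟨fun i => ((A i).card : ℤ) - m, fun i => by ring⟩
  have hcard : ∀ i, ((A i).card : ℝ) = m + (xx i : ℝ) := fun i => by exact_mod_cast hxx i
  have hsumZ : (∑ k, ((A k).card : ℤ)) = (R + 1) * m + ∑ i, xx i := by
    rw [Finset.sum_congr rfl fun i _ => hxx i, Finset.sum_add_distrib, Finset.sum_const,
      Finset.card_univ, Fintype.card_fin]
    simp
  have hsumR : (∑ k, ((A k).card : ℝ)) = (R + 1) * m + ∑ i, (xx i : ℝ) := by
    exact_mod_cast hsumZ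
  have hx : ∀ i, |(xx i : ℝ)| ≤ 5 * R * η * m := by
    intro i
    have h := hD.size i
    rw [hcard i] at h
    have e : (m : ℝ) + (xx i : ℝ) - m = xx i := by ring
    rwa [e] at h
  set X : ℤ := ∑ i, xx i with hXdef
  have hXr : (X : ℝ) = ∑ i, (xx i : ℝ) := by rw [hXdef]; push_cast; rfl
  have hX : |(X : ℝ)| ≤ 5 * R * (R + 1) * η * m := by
    rw [hXr]
    refine (Finset.abs_sum_le_sum_abs _ _).trans ?_
    refine (Finset.sum_le_sum fun i _ => hx i).trans ?_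
    rw [Finset.sum_const, Finset.card_univ, Fintype.card_fin, nsmul_eq_mul]
    push_cast
    exact le_of_eq (by ring)
  set W0 : ℝ := (R - 1) * (m : ℝ) with hW0
  have hW0p : 0 ≤ W0 := mul_nonneg (by linarith) (by linarith)
  -- the contribution of one vertex
  have hpv : ∀ i, ∀ v ∈ A i, 5 / 2 * W0 * mu v -
      3 * max ((xx i : ℝ) - (X - r)) 0 * (max ((xx i : ℝ) - (X - r)) 0 - 1) ≤
      tv ((∑ k, ((A k).card : ℝ)) - 2 * (A i).card) (mu v) (ex v) := by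
    intro i v hv
    have hjr : (jj v : ℝ) ≤ 4 * R * η * m :=
      le_trans (by exact_mod_cast hD.hjj i v hv) hD.hJ
    have hrel := hD.rel i v hv
    rw [hsumZ, hxx i] at hrel
    have h := pv2 hp X (xx i) hX (hx i) (mu v) (ex v) (jj v) (bb v) (hD.hmu i v hv)
      (hD.hex i v hv) hjr (by linarith)
    have e : (∑ k, ((A k).card : ℝ)) - 2 * (A i).card = (R - 1) * (m : ℝ) + X - 2 * xx i := by
      rw [hsumR, hcard i, hXr]; ring
    rw [e]
    exact h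
  set Smu : ℝ := ∑ i, ∑ v ∈ A i, (mu v : ℝ) with hSmu
  have hSmu0 : 0 ≤ Smu := Finset.sum_nonneg fun i _ => Finset.sum_nonneg fun v _ => Nat.cast_nonneg _
  set E3 : ℝ := 3 * ∑ i, ((m : ℝ) + xx i) * (max ((xx i : ℝ) - (∑ j, (xx j : ℝ) - r)) 0 *
      (max ((xx i : ℝ) - (∑ j, (xx j : ℝ) - r)) 0 - 1)) with hE3
  have hSP : 5 / 2 * W0 * Smu - E3 ≤
      ∑ i, ∑ v ∈ A i, tv ((∑ k, ((A k).card : ℝ)) - 2 * (A i).card) (mu v) (ex v) := by
    have h1 : ∀ i, ∑ v ∈ A i, (5 / 2 * W0 * (mu v : ℝ) -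
        3 * max ((xx i : ℝ) - (X - r)) 0 * (max ((xx i : ℝ) - (X - r)) 0 - 1)) =
        5 / 2 * W0 * ∑ v ∈ A i, (mu v : ℝ) - 3 * (((m : ℝ) + xx i) *
          (max ((xx i : ℝ) - (X - r)) 0 * (max ((xx i : ℝ) - (X - r)) 0 - 1))) := by
      intro i
      rw [Finset.sum_sub_distrib, ← Finset.mul_sum, Finset.sum_const, nsmul_eq_mul, hcard i]
      ring
    have h2 : ∑ i, ∑ v ∈ A i, (5 / 2 * W0 * (mu v : ℝ) -
        3 * max ((xx i : ℝ) - (X - r)) 0 * (max ((xx i : ℝ) - (X - r)) 0 - 1)) =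
        5 / 2 * W0 * Smu - E3 := by
      rw [Finset.sum_congr rfl fun i _ => h1 i, Finset.sum_sub_distrib, ← Finset.mul_sum,
        ← Finset.mul_sum, hE3, hXr]
    rw [← h2]
    exact Finset.sum_le_sum fun i _ => Finset.sum_le_sum fun v hv => hpv i v hv
  set Y : ℝ := ∑ j ∈ J, ((R : ℝ) * m - U j) with hY
  have hYs : Y = J.card * (R * m) - ∑ j ∈ J, U j := by
    rw [hY, Finset.sum_sub_distrib, Finset.sum_const, nsmul_eq_mul]
  have hYl : γ / 2 * m * J.card ≤ Y := by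
    have h : ∑ _j ∈ J, (γ / 2 * m : ℝ) ≤ Y := by
      rw [hY]
      refine Finset.sum_le_sum fun j hj => ?_
      have := (hD.UJ j hj).2
      linarith
    rw [Finset.sum_const, nsmul_eq_mul] at h
    linarith
  set V : ℝ := 3 * R * ((R - 1) * m) * m * (J.card : ℝ) with hV
  have hJT : ∑ j ∈ J, (3 * (((R : ℝ) - 1) / R) * (U j ^ 2 + (R * m + r - U j) ^ 2) - 6 * P +
      (R - 1) * γ / 40 * m ^ 2) ≤ V - 16 / 5 * W0 * Y - 6 * P * J.card := by
    have h : ∀ j ∈ J, 3 * (((R : ℝ) - 1) / R) * (U j ^ 2 + (R * m + r - U j) ^ 2) - 6 * P +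
        (R - 1) * γ / 40 * m ^ 2 ≤
        (3 * R * ((R - 1) * m) * m - 6 * P) - 16 / 5 * W0 * ((R : ℝ) * m - U j) := by
      intro j hj
      have h4 := jl2 hp (U j) (hD.UJ j hj).1 (hD.UJ j hj).2
      rw [← hW0] at h4 ⊢
      linarith
    refine (Finset.sum_le_sum h).trans (le_of_eq ?_)
    rw [Finset.sum_sub_distrib, Finset.sum_const, nsmul_eq_mul, ← Finset.mul_sum, ← hY, hV]
    ring
  set K : ℝ := ((R : ℝ) / 3 - 1 / 6) * m with hK
  have hK0 : 0 ≤ K := mul_nonneg (by linarith) (by linarith)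
  set af : ℝ := ∑ i, ((m : ℝ) + xx i) * ((xx i : ℝ) - (∑ j, (xx j : ℝ) - r)) -
      J.card * (R * m) with haf
  have hbb : ∑ b ∈ B, U b ≤ Smu + (af + Y) := by
    rw [← hD.sB]
    have h1 : ∀ i, ∀ v ∈ A i, (bb v : ℝ) ≤ (mu v : ℝ) + ((xx i : ℝ) - (X - r)) - jj v := by
      intro i v hv
      have hrel := hD.rel i v hv
      rw [hsumZ, hxx i] at hrel
      have h2 : ((bb v : ℤ)) ≤ (mu v : ℤ) + (xx i - (X - r)) - jj v := by
        have : (0 : ℤ) ≤ ex v := Int.natCast_nonneg _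
        linarith
      exact_mod_cast h2
    have h2 : ∑ i, ∑ v ∈ A i, (bb v : ℝ) ≤
        ∑ i, ∑ v ∈ A i, ((mu v : ℝ) + ((xx i : ℝ) - (X - r)) - jj v) :=
      Finset.sum_le_sum fun i _ => Finset.sum_le_sum fun v hv => h1 i v hv
    refine h2.trans (le_of_eq ?_)
    have h3' : ∀ i, ∑ v ∈ A i, ((mu v : ℝ) + ((xx i : ℝ) - (X - r)) - jj v) =
        ∑ v ∈ A i, (mu v : ℝ) + ((m : ℝ) + xx i) * ((xx i : ℝ) - (X - r)) -
          ∑ v ∈ A i, (jj v : ℝ) := by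
      intro i
      rw [Finset.sum_sub_distrib, Finset.sum_add_distrib, Finset.sum_const, nsmul_eq_mul, hcard i]
    rw [Finset.sum_congr rfl fun i _ => h3' i, Finset.sum_sub_distrib, Finset.sum_add_distrib,
      hD.sJ, haf, hYs, hXr]
    ring
  have hBT : ∑ b ∈ B, (3 * (((R : ℝ) - 1) / R) * U b ^ 2 -
      (6 * P / (R * m + r) - 36 * γ * m) * U b) ≤
      42 / 25 * W0 * max (Smu + (af + Y - K)) 0 := by
    have h1 : ∀ b ∈ B, 3 * (((R : ℝ) - 1) / R) * U b ^ 2 -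
        (6 * P / (R * m + r) - 36 * γ * m) * U b ≤ 42 / 25 * W0 * max (U b - K) 0 :=
      fun b hb' => bl2 hp hP.p1 (U b) (hD.UB b hb').1 (hD.UB b hb').2
    refine (Finset.sum_le_sum h1).trans ?_
    rw [← Finset.mul_sum]
    refine mul_le_mul_of_nonneg_left ?_ (by positivity)
    refine (sum_pos_part B U K hK0 fun b hb' => (hD.UB b hb').1).trans ?_
    exact max_le_max (by linarith) le_rfl
  have hccX : X - r + J.card ≤ 0 := by
    have h := hcc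
    unfold cc at h
    rw [hsumZ] at h
    linarith
  have hcc' : (∑ i, xx i) - r + (J.card : ℕ) ≤ 0 := hccX
  have hb' := Hb m hmb P hP xx hx J.card hD.hJ hcc' Y hYl
  have hfun : (fun i => ((A i).card : ℝ)) = (fun i => (m : ℝ) + xx i) := funext hcard
  have hS6 : S6 (fun i => ((A i).card : ℝ)) = S6 (fun i => (m : ℝ) + xx i) := by rw [hfun]
  unfold CL
  rw [hS6]
  rw [hsumR] at hSP ⊢
  refine ciii_arith _ _ _ _ _ Smu af Y K W0 V E3 (6 * P * J.card) hW0p hSmu0 hSP hJT hBT ?_ ?_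
  · rw [hE3, hV, hK, haf, hW0]
    refine le_of_eq_of_le ?_ hb'
    ring
  · intro _
    by_cases hexc : (∑ i, xx i) - r + (J.card : ℕ) = 0 ∧ J.card = 0 ∧ 3 * r < R
    · obtain ⟨he1, he2, he3⟩ := hexc
      have hJe : J = ∅ := Finset.card_eq_zero.mp he2
      have hXr' : ∑ i, xx i = r := by
        rw [he2] at he1
        push_cast at he1
        linarith
      have hη1 : 100 * R * η ≤ 1 := ciii_eta hp
      have he := num_IIe R r m hR he3 C η P hη hη1 hm2 hP xx hx hXr'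
      have hXR : ∑ j, (xx j : ℝ) = r := by exact_mod_cast hXr'
      have hY0 : Y = 0 := by rw [hY, hJe]; simp
      rw [hE3, hV, hY0, he2, hXR]
      refine le_of_eq_of_le ?_ he
      simp only [sub_self, sub_zero, Nat.cast_zero, mul_zero, add_zero]
    · have ha' := Ha m hma P hP xx hx J.card hD.hJ hcc' hexc Y hYl
      rw [hE3, hV, hW0]
      refine le_of_eq_of_le ?_ ha'
      ring

end Pool.Agent.H11.TD
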