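import Pool.Agent.H11.TD.CiI
import Pool.Agent.H11.TD.CiII
import Pool.Agent.H11.TD.CiE

/-!
# TD Ci: the cluster inequality (assembly, proved)
-/

set_option autoImplicit false

open Finset

namespace Pool.Agent.H11.TD

theorem cluster_num (R r : ℕ) (hR : 4 ≤ R) (hr : 1 ≤ r) (hs : r + 2 ≤ R) (h3 : 3 * r ≠ R)
    (C γ : ℝ) (hC : 0 < C) (hγ : 0 < γ) :
    ∃ η0 : ℝ, 0 < η0 ∧ ∀ η : ℝ, 0 < η → η ≤ η0 → ∃ m0 : ℕ,
      ∀ m : ℕ, m0 ≤ m → Par R r m γ η → ∀ P : ℝ, PSpec R r m C P →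
        ∀ (α : Type) [DecidableEq α] (A : Fin (R + 1) → Finset α) (mu ex jj bb : α → ℕ)
          (J B : Finset α) (U : α → ℝ), CD R r m γ η A mu ex jj bb J B U →
          CL R r m γ P A mu ex J B U ≤ 0 := by
  obtain ⟨η1, h1, H1⟩ := ci_I R r hR hr hs h3 C γ hC hγ
  obtain ⟨η2, h2, H2⟩ := ci_II R r hR hr hs h3 C γ hC hγ
  by_cases h4 : R < 3 * r
  · obtain ⟨η3, h5, H3⟩ := ci_E R r hR hr hs h4 C γ hC hγ
    refine ⟨min η1 (min η2 η3), lt_min h1 (lt_min h2 h5), fun η hη hle => ?_⟩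
    obtain ⟨m1, H1⟩ := H1 η hη (hle.trans (min_le_left _ _))
    obtain ⟨m2, H2⟩ := H2 η hη (hle.trans ((min_le_right _ _).trans (min_le_left _ _)))
    obtain ⟨m3, H3⟩ := H3 η hη (hle.trans ((min_le_right _ _).trans (min_le_right _ _)))
    refine ⟨max m1 (max m2 m3), fun m hm hp P hP α _ A mu ex jj bb J B U hD => ?_⟩
    have hm1 : m1 ≤ m := (le_max_left _ _).trans hm
    have hm2 : m2 ≤ m := (le_max_left _ _).trans ((le_max_right _ _).trans hm)
    have hm3 : m3 ≤ m := (le_max_right _ _).trans ((le_max_right _ _).trans hm)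
    by_cases hc : cc R r m A J ≤ 0
    · exact H2 m hm2 hp P hP α A mu ex jj bb J B U hD hc
    · by_cases he : cc R r m A J = 1 ∧ J.card = 0 ∧ R < 3 * r
      · exact H3 m hm3 hp P hP α A mu ex jj bb J B U hD he.1 he.2.1
      · exact H1 m hm1 hp P hP α A mu ex jj bb J B U hD (by omega) he
  · refine ⟨min η1 η2, lt_min h1 h2, fun η hη hle => ?_⟩
    obtain ⟨m1, H1⟩ := H1 η hη (hle.trans (min_le_left _ _))
    obtain ⟨m2, H2⟩ := H2 η hη (hle.trans (min_le_right _ _))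
    refine ⟨max m1 m2, fun m hm hp P hP α _ A mu ex jj bb J B U hD => ?_⟩
    have hm1 : m1 ≤ m := (le_max_left _ _).trans hm
    have hm2 : m2 ≤ m := (le_max_right _ _).trans hm
    by_cases hc : cc R r m A J ≤ 0
    · exact H2 m hm2 hp P hP α A mu ex jj bb J B U hD hc
    · exact H1 m hm1 hp P hP α A mu ex jj bb J B U hD (by omega) (fun h => h4 h.2.2)

end Pool.Agent.H11.TD
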