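import Pool.Agent.H11.TD.NumI
import Pool.Agent.H11.TD.PvA
import Pool.Agent.H11.TD.JB

/-!
# TD CiI: the cluster inequality for `cc ≥ 1` (not exact)

`x i = |A i| - m`, `X = ∑ x i`, `N = ∑ |A i| = (R+1) m + X`, `p = |J|`, `f i = x i - (X - r)`, `W0 = (R - 1) m`.
`N - 2 |A i| = W0 + X - 2 x i`.  `|X| ≤ 5 R (R+1) η m`.  Sum `pv1` over `v ∈ A i` and `i`; with `sJ`, `sB` (`∑ jj = ∑_J U`,
`∑ bb = ∑_B U`) and `∑ ex ≥ 0`:
`∑∑ tv ≥ W0 (3 (∑_J U - ∑ a f) + √η ∑ a f⁺ + 2 ∑_B U) - 2 R √η m ∑_J U - 63 R² η m ∑ a f⁻`.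
`B` sum: `bl1`: `≤ (7/10) W0 ∑_B U ≤ 2 W0 ∑_B U`.
`J` sum: `jl1`: each term is `≤ 3 W0 U_j - 2 R √η m U_j - (γ/10) W0 m - 6 P`.
So `CL ≤ S6 - 6 P (N + p) + 3 W0 ∑ a f - √η W0 ∑ a f⁺ + 63 R² η m ∑ a f⁻ - (γ/10) W0 m p ≤ 0` by `num_I` with
`κ = γ/10`.  (`η0 ≤ (γ/(200 R))²`.)
-/

set_option autoImplicit false

open Finset

namespace Pool.Agent.H11.TD

private theorem cii_lin {α : Type} (s : Finset α) (f g h : α → ℝ) (c1 c2 c3 c4 : ℝ) :
    ∑ v ∈ s, (c1 * f v + c2 * g v + c3 * h v + c4) =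
      c1 * ∑ v ∈ s, f v + c2 * ∑ v ∈ s, g v + c3 * ∑ v ∈ s, h v + s.card * c4 := by
  rw [Finset.sum_add_distrib, Finset.sum_add_distrib, Finset.sum_add_distrib, Finset.mul_sum,
    Finset.mul_sum, Finset.mul_sum, Finset.sum_const, nsmul_eq_mul]

private theorem cii_lin2 {k : ℕ} (F G H a f g h : Fin k → ℝ) (c1 c2 c3 c4 c5 c6 : ℝ) :
    ∑ i, (c1 * F i + c2 * G i + c3 * H i + a i * (c4 * f i + c5 * g i + c6 * h i)) =
      c1 * ∑ i, F i + c2 * ∑ i, G i + c3 * ∑ i, H i + c4 * ∑ i, a i * f i +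
        c5 * ∑ i, a i * g i + c6 * ∑ i, a i * h i := by
  simp only [Finset.mul_sum, ← Finset.sum_add_distrib]
  apply Finset.sum_congr rfl
  intro i _
  ring

private theorem cii_core (R r m : ℕ) (hR : 4 ≤ R) (γ η P : ℝ) (hη : 0 < η)
    (hη2 : 200 * R * Real.sqrt η ≤ γ) (hpar : Par R r m γ η)
    (hP : (R : ℝ) * (R - 1) * m ^ 2 ≤ 6 * P)
    (α : Type) [DecidableEq α] (A : Fin (R + 1) → Finset α) (mu ex jj bb : α → ℕ)
    (J B : Finset α) (U : α → ℝ) (hcd : CD R r m γ η A mu ex jj bb J B U)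
    (x : Fin (R + 1) → ℤ) (hx : ∀ i, x i = ((A i).card : ℤ) - m)
    (hnum : S6 (fun i => (m : ℝ) + x i) - 6 * P * ((R + 1) * m + ∑ i, (x i : ℝ) + (J.card : ℝ)) +
            3 * ((R - 1) * m) * ∑ i, ((m : ℝ) + x i) * ((x i : ℝ) - (∑ j, (x j : ℝ) - r)) -
            Real.sqrt η * ((R - 1) * m) *
              ∑ i, ((m : ℝ) + x i) * max ((x i : ℝ) - (∑ j, (x j : ℝ) - r)) 0 +
            63 * (R : ℝ) ^ 2 * η * m *
              ∑ i, ((m : ℝ) + x i) * max (-((x i : ℝ) - (∑ j, (x j : ℝ) - r))) 0 -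
            γ / 10 * ((R - 1) * m) * m * (J.card : ℝ) ≤ 0) :
    CL R r m γ P A mu ex J B U ≤ 0 := by
  have hxr : ∀ i, (x i : ℝ) = ((A i).card : ℝ) - m := by
    intro i
    rw [hx i]
    push_cast
    ring
  have hcard : ∀ i, ((A i).card : ℝ) = (m : ℝ) + x i := by
    intro i
    rw [hxr i]
    ring
  have hsize : ∀ i, |(x i : ℝ)| ≤ 5 * R * η * m := by
    intro i
    rw [hxr i]
    exact hcd.size i
  have hXz : (∑ i, x i) = (∑ k, ((A k).card : ℤ)) - (R + 1) * m := by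
    rw [Finset.sum_congr rfl fun i _ => hx i, Finset.sum_sub_distrib, Finset.sum_const,
      Finset.card_univ, Fintype.card_fin]
    simp
  have hXr : ((∑ i, x i : ℤ) : ℝ) = ∑ i, (x i : ℝ) := by push_cast; rfl
  have hN : (∑ k, ((A k).card : ℝ)) = (R + 1) * m + ∑ i, (x i : ℝ) := by
    rw [Finset.sum_congr rfl fun i _ => hcard i, Finset.sum_add_distrib, Finset.sum_const,
      Finset.card_univ, Fintype.card_fin]
    simp
  have hXabs : |((∑ i, x i : ℤ) : ℝ)| ≤ 5 * R * (R + 1) * η * m := by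
    rw [hXr]
    refine (Finset.abs_sum_le_sum_abs _ _).trans ?_
    refine (Finset.sum_le_sum fun i _ => hsize i).trans ?_
    rw [Finset.sum_const, Finset.card_univ, Fintype.card_fin, nsmul_eq_mul]
    push_cast
    apply le_of_eq
    ring
  have hR' : (4 : ℝ) ≤ R := by exact_mod_cast hR
  have hm0 : (0 : ℝ) ≤ m := Nat.cast_nonneg m
  have hs0 : 0 ≤ Real.sqrt η := Real.sqrt_nonneg η
  -- sum of pv1 over each part
  have hpart : ∀ i, (3 * ((R - 1) * (m : ℝ)) - 2 * R * Real.sqrt η * m) * (∑ v ∈ A i, (jj v : ℝ)) +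
      2 * ((R - 1) * (m : ℝ)) * (∑ v ∈ A i, (ex v : ℝ)) +
      2 * ((R - 1) * (m : ℝ)) * (∑ v ∈ A i, (bb v : ℝ)) +
      ((m : ℝ) + x i) * (-(3 * ((R - 1) * (m : ℝ))) * ((x i : ℝ) - (∑ j, (x j : ℝ) - r)) +
        Real.sqrt η * ((R - 1) * m) * max ((x i : ℝ) - (∑ j, (x j : ℝ) - r)) 0 +
        -(63 * (R : ℝ) ^ 2 * η * m) * max (-((x i : ℝ) - (∑ j, (x j : ℝ) - r))) 0) ≤
      ∑ v ∈ A i, tv ((∑ k, ((A k).card : ℝ)) - 2 * (A i).card) (mu v) (ex v) := by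
    intro i
    rw [← hcard i, ← cii_lin]
    apply Finset.sum_le_sum
    intro v hv
    have hjv : (jj v : ℝ) ≤ 4 * R * η * m := by
      have h1 : (jj v : ℝ) ≤ J.card := by exact_mod_cast hcd.hjj i v hv
      exact h1.trans hcd.hJ
    have hrel := hcd.rel i v hv
    have hrel' : ((ex v : ℤ) + jj v + bb v) + ((∑ i, x i) - r) - x i ≤ mu v := by
      rw [hXz, hx i]
      linarith
    have h := pv1 hpar (∑ i, x i) (x i) hXabs (hsize i) (mu v) (ex v) (jj v) (bb v)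
      (hcd.hmu i v hv) (hcd.hex i v hv) hjv hrel'
    rw [hXr] at h
    have hW : (∑ k, ((A k).card : ℝ)) - 2 * (A i).card =
        (R - 1) * m + (∑ i, (x i : ℝ)) - 2 * x i := by
      rw [hN, hcard i]
      ring
    rw [hW]
    refine le_trans (le_of_eq ?_) h
    ring
  have hTV := Finset.sum_le_sum fun (i : Fin (R + 1)) (_ : i ∈ Finset.univ) => hpart i
  rw [cii_lin2, hcd.sJ, hcd.sB] at hTV
  have hEX : 0 ≤ ∑ i, ∑ v ∈ A i, (ex v : ℝ) :=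
    Finset.sum_nonneg fun i _ => Finset.sum_nonneg fun v _ => Nat.cast_nonneg _
  have hW0 : 0 ≤ (R - 1) * (m : ℝ) := mul_nonneg (by linarith) hm0
  have hEX2 : 0 ≤ 2 * ((R - 1) * (m : ℝ)) * ∑ i, ∑ v ∈ A i, (ex v : ℝ) :=
    mul_nonneg (mul_nonneg two_pos.le hW0) hEX
  have hSB : 0 ≤ ∑ b ∈ B, U b := Finset.sum_nonneg fun b hb => (hcd.UB b hb).1
  have hSB2 : 0 ≤ ((R - 1) * (m : ℝ)) * ∑ b ∈ B, U b := mul_nonneg hW0 hSB
  -- the J sum
  have hJsum : ∑ j ∈ J, (3 * ((R - 1) / R) * (U j ^ 2 + (R * m + r - U j) ^ 2) - 6 * P +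
      (R - 1) * γ / 40 * m ^ 2) ≤
      (3 * ((R - 1) * (m : ℝ)) - 2 * R * Real.sqrt η * m) * (∑ j ∈ J, U j) +
        (J.card : ℝ) * (-(γ / 10) * ((R - 1) * m) * m - 6 * P) := by
    have h0 := cii_lin J U (fun _ => 0) (fun _ => 0)
      (3 * ((R - 1) * (m : ℝ)) - 2 * R * Real.sqrt η * m) 0 0 (-(γ / 10) * ((R - 1) * m) * m - 6 * P)
    rw [zero_mul, zero_mul, add_zero, add_zero] at h0
    rw [← h0]
    apply Finset.sum_le_sum
    intro j hj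
    have h := jl1 hpar hη2 (U j) (hcd.UJ j hj).1 (hcd.UJ j hj).2
    linarith
  -- the B sum
  have hBsum : ∑ b ∈ B, (3 * ((R - 1) / R) * U b ^ 2 -
      (6 * P / (R * m + r) - 36 * γ * m) * U b) ≤ 7 / 10 * ((R - 1) * (m : ℝ)) * ∑ b ∈ B, U b := by
    rw [Finset.mul_sum]
    apply Finset.sum_le_sum
    intro b hb
    exact bl1 hpar hP (U b) (hcd.UB b hb).1 (hcd.UB b hb).2
  have hS6 : S6 (fun i => ((A i).card : ℝ)) = S6 (fun i => (m : ℝ) + x i) := by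
    congr 1
    funext i
    exact hcard i
  unfold CL
  rw [hS6, hN] at *
  linarith

theorem ci_I (R r : ℕ) (hR : 4 ≤ R) (hr : 1 ≤ r) (hs : r + 2 ≤ R) (h3 : 3 * r ≠ R) (C γ : ℝ)
    (hC : 0 < C) (hγ : 0 < γ) : ∃ η0 : ℝ, 0 < η0 ∧ ∀ η : ℝ, 0 < η → η ≤ η0 → ∃ m0 : ℕ,
      ∀ m : ℕ, m0 ≤ m → Par R r m γ η → ∀ P : ℝ, PSpec R r m C P →
        ∀ (α : Type) [DecidableEq α] (A : Fin (R + 1) → Finset α) (mu ex jj bb : α → ℕ)
          (J B : Finset α) (U : α → ℝ), CD R r m γ η A mu ex jj bb J B U →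
          1 ≤ cc R r m A J → ¬ (cc R r m A J = 1 ∧ J.card = 0 ∧ R < 3 * r) →
          CL R r m γ P A mu ex J B U ≤ 0 := by
  obtain ⟨η1, hη1, hI⟩ := num_I R r hR hr hs h3 C (γ / 10) hC (by positivity)
  have hRpos : (0 : ℝ) < R := by
    have : (4 : ℝ) ≤ R := by exact_mod_cast hR
    linarith
  have hδ : 0 < γ / (200 * R) := by positivity
  refine ⟨min η1 ((γ / (200 * R)) ^ 2), lt_min hη1 (by positivity), fun η hη hle => ?_⟩
  obtain ⟨m0, hm0⟩ := hI η hη (hle.trans (min_le_left _ _))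
  refine ⟨m0, fun m hm hpar P hP α _ A mu ex jj bb J B U hcd hcc hnot => ?_⟩
  have hsq : Real.sqrt η ≤ γ / (200 * R) := by
    have h1 := Real.sqrt_le_sqrt (hle.trans (min_le_right _ _))
    rwa [Real.sqrt_sq hδ.le] at h1
  have hη2 : 200 * R * Real.sqrt η ≤ γ := by
    rw [le_div_iff₀ (by positivity)] at hsq
    linarith
  have hXz : (∑ i, (((A i).card : ℤ) - (m : ℤ))) = (∑ k, ((A k).card : ℤ)) - (R + 1) * m := by
    rw [Finset.sum_sub_distrib, Finset.sum_const, Finset.card_univ, Fintype.card_fin]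
    simp
  have hcceq : (∑ i, (((A i).card : ℤ) - (m : ℤ))) - r + (J.card : ℤ) = cc R r m A J := by
    rw [hXz]
    rfl
  refine cii_core R r m hR γ η P hη hη2 hpar hP.p1 α A mu ex jj bb J B U hcd
    (fun i => ((A i).card : ℤ) - m) (fun i => rfl) ?_
  refine hm0 m hm P hP (fun i => ((A i).card : ℤ) - m) ?_ J.card hcd.hJ ?_ ?_
  · intro i
    have := hcd.size i
    push_cast
    exact this
  · show 1 ≤ (∑ i, (((A i).card : ℤ) - (m : ℤ))) - r + (J.card : ℤ)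
    rw [hcceq]
    exact hcc
  · show ¬ ((∑ i, (((A i).card : ℤ) - (m : ℤ))) - r + (J.card : ℤ) = 1 ∧ J.card = 0 ∧ R < 3 * r)
    rw [hcceq]
    exact hnot

end Pool.Agent.H11.TD
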