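import Pool.Agent.H11.TD.Cod

/-!
# TD Clq: a clique of `R + 1` good vertices with large codegrees

Take `ε` and `m0` from `cod` for `ζ` (and `ε ≤ ζ`; by `Good.mono` every smaller `ε` also works).
Construct `w 0 = v, w 1, ..., w R` one after the other, such that each `w k` is good, adjacent to all
`w i`, `i < k`, and has codegree `≥ (R - 1 - ζ) m` with each of them.
Put `C k = ⋂_{i < k} NN (w i)`, so `C 1 = NN v`, `|C 1| ≥ (R - ζ) m`, and
`C k \ C (k+1) ⊆ NN v \ NN (w k)`, which has at most `R m + r - (R - 1 - ζ) m = (1 + ζ) m + r ≤ (1 + 2 ζ) m` elements.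
So for `1 ≤ k ≤ R`: `|C k| ≥ (R - ζ) m - (k - 1)(1 + 2 ζ) m ≥ (1 - 2 R ζ) m ≥ (3/4) m`.
The elements of `C k` which are bad (at most `ε m` in `NN v`) or have a small codegree with some `w i`, `i < k`
(at most `ζ m` for each `i` by `cod`) are at most `ε m + R ζ m ≤ m/4`, so there is a possible `w k`.
(A convenient form of the induction: for every `k ≤ R` there is such a family indexed by `Fin (k + 1)`.)
The codegree of `a, b` is `|NN a ∩ NN b| = |nb G a (NN G b)| = |nb G b (NN G a)|`.
-/

set_option autoImplicit false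

open Finset

namespace Pool.Agent.H11.TD

private theorem clq_comm {α : Type} [Fintype α] [DecidableEq α] (G : SimpleGraph α) (a b : α) :
    (nb G a (NN G b)).card = (nb G b (NN G a)).card := by
  rw [nb_eq_inter, nb_eq_inter, Finset.inter_comm]

open scoped Classical in
/-- the common neighbours of `w 0, ..., w j` -/
private noncomputable def clq_C {α : Type} [Fintype α] (G : SimpleGraph α) (w : ℕ → α)
    (j : ℕ) : Finset α := univ.filter (fun u => ∀ i ≤ j, G.Adj (w i) u)

private theorem clq_mem_bad {α : Type} [Fintype α] {G : SimpleGraph α} {R m : ℕ} {ε : ℝ}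
    {u : α} : u ∈ Bad G R m ε ↔ ¬ Good G R m ε u := by
  unfold Bad
  simp

private theorem clq_mem_C {α : Type} [Fintype α] {G : SimpleGraph α} {w : ℕ → α}
    {j : ℕ} {u : α} : u ∈ clq_C G w j ↔ ∀ i ≤ j, G.Adj (w i) u := by
  unfold clq_C
  simp

private theorem clq_common {α : Type} [Fintype α] [DecidableEq α] (G : SimpleGraph α)
    (R r m : ℕ) (ζ : ℝ) (hG : Ctx G R r m) (hr : (r : ℝ) ≤ ζ * m) (w : ℕ → α) (k : ℕ)
    (h0 : (R - ζ) * m ≤ ((NN G (w 0)).card : ℝ))
    (h : ∀ i, 1 ≤ i → i ≤ k → (R - 1 - ζ) * m ≤ ((nb G (w i) (NN G (w 0))).card : ℝ)) :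
    ∀ j ≤ k, (R - ζ - j * (1 + 2 * ζ)) * m ≤ ((clq_C G w j).card : ℝ) := by
  intro j
  induction j with
  | zero =>
    intro _
    have : clq_C G w 0 = NN G (w 0) := by
      ext u
      rw [clq_mem_C, mem_NN]
      simp
    rw [this]
    simpa using h0
  | succ j ih =>
    intro hj
    have h1 := ih (by omega)
    have h2 := h (j + 1) (by omega) hj
    have hsub : clq_C G w j ⊆
        clq_C G w (j + 1) ∪ (NN G (w 0) \ nb G (w (j + 1)) (NN G (w 0))) := by
      intro u hu
      rw [clq_mem_C] at hu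
      rw [mem_union, mem_sdiff, mem_nb, mem_NN, clq_mem_C]
      by_cases hadj : G.Adj (w (j + 1)) u
      · left
        intro i hi
        rcases Nat.lt_or_ge i (j + 1) with h3 | h3
        · exact hu i (by omega)
        · have : i = j + 1 := by omega
          rw [this]
          exact hadj
      · right
        exact ⟨hu 0 (Nat.zero_le _), fun h3 => hadj h3.2⟩
    have hsub2 : nb G (w (j + 1)) (NN G (w 0)) ⊆ NN G (w 0) := by
      intro u hu
      exact ((mem_nb G).1 hu).1
    have h3 := (Finset.card_le_card hsub).trans (Finset.card_union_le _ _)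
    rw [Finset.card_sdiff_of_subset hsub2] at h3
    have h4 := Finset.card_le_card hsub2
    have h5 := hG.deg (w 0)
    have h3' : ((clq_C G w j).card : ℝ) ≤ (clq_C G w (j + 1)).card +
        ((NN G (w 0)).card - (nb G (w (j + 1)) (NN G (w 0))).card) := by
      have := h3
      zify [h4] at this
      exact_mod_cast this
    have h5' : ((NN G (w 0)).card : ℝ) ≤ R * m + r := by exact_mod_cast h5
    push_cast
    nlinarith

theorem clq (R r : ℕ) (hR : 2 ≤ R) (ζ : ℝ) (hζ : 0 < ζ) (hζ1 : 8 * R * ζ ≤ 1) :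
    ∃ ε : ℝ, 0 < ε ∧ ε ≤ ζ ∧ ∃ m0 : ℕ, ∀ m : ℕ, m0 ≤ m →
      ∀ (α : Type) [Fintype α] [DecidableEq α] (G : SimpleGraph α), Ctx G R r m →
        ∀ v, Good G R m ε v → ((nb G v (Bad G R m ε)).card : ℝ) ≤ ε * m →
          ∃ w : Fin (R + 1) → α, w 0 = v ∧ (∀ i, Good G R m ε (w i)) ∧
            (∀ i j, i ≠ j → G.Adj (w i) (w j)) ∧
            ∀ i j, i ≠ j → (R - 1 - ζ) * m ≤ ((nb G (w i) (NN G (w j))).card : ℝ) := by
  have hRr : (2 : ℝ) ≤ R := by exact_mod_cast hR
  have hζ2 : ζ ≤ 1 := by nlinarith
  obtain ⟨ε0, hε0, m0, hcod⟩ := cod R r hR ζ hζ hζ2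
  refine ⟨min ε0 ζ, lt_min hε0 hζ, min_le_right _ _, max m0 (⌈(r : ℝ) / ζ⌉₊ + 1), ?_⟩
  intro m hm α _ _ G hG v hv hbad
  have hm1 : m0 ≤ m := le_trans (le_max_left _ _) hm
  have hm2 : ⌈(r : ℝ) / ζ⌉₊ + 1 ≤ m := le_trans (le_max_right _ _) hm
  have hm3 : 1 ≤ m := by omega
  have hmr : (1 : ℝ) ≤ m := by exact_mod_cast hm3
  have hr : (r : ℝ) ≤ ζ * m := by
    have h1 : (r : ℝ) / ζ ≤ m := by
      have h2 : (r : ℝ) / ζ ≤ ⌈(r : ℝ) / ζ⌉₊ := Nat.le_ceil _
      have h3 : ((⌈(r : ℝ) / ζ⌉₊ : ℕ) : ℝ) ≤ m := by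
        exact_mod_cast (by omega : ⌈(r : ℝ) / ζ⌉₊ ≤ m)
      linarith
    rw [div_le_iff₀ hζ] at h1
    linarith
  set ε := min ε0 ζ with hε
  have hεζ : ε ≤ ζ := min_le_right _ _
  have hcod' : ∀ y, Good G R m ε y → (R - ζ) * m ≤ ((NN G y).card : ℝ) ∧
      ((((NN G y).filter (fun z => ((nb G z (NN G y)).card : ℝ) < (R - 1 - ζ) * m)).card : ℝ))
            ≤ ζ * m :=
    fun y hy => hcod m hm1 α G hG y (Good.mono (min_le_left _ _) hy)
  have hind : ∀ k : ℕ, k ≤ R → ∃ w : ℕ → α, w 0 = v ∧ (∀ i ≤ k, Good G R m ε (w i)) ∧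
      (∀ i ≤ k, ∀ j ≤ k, i ≠ j → G.Adj (w i) (w j)) ∧
      ∀ i ≤ k, ∀ j ≤ k, i ≠ j → (R - 1 - ζ) * m ≤ ((nb G (w i) (NN G (w j))).card : ℝ) := by
    intro k
    induction k with
    | zero =>
      intro _
      refine ⟨fun _ => v, rfl, fun _ _ => hv, ?_, ?_⟩
      · intro i hi j hj hij
        omega
      · intro i hi j hj hij
        omega
    | succ k ih =>
      intro hk
      obtain ⟨w, hw0, hgood, hadj, hcd⟩ := ih (by omega)
      have hC := clq_common G R r m ζ hG hr w k (by rw [hw0]; exact (hcod' v hv).1)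
        (fun i hi hi2 => hcd i hi2 0 (Nat.zero_le _) (by omega)) k le_rfl
      have hkR : (k : ℝ) ≤ R - 1 := by
        have : (k : ℝ) + 1 ≤ R := by exact_mod_cast hk
        linarith
      have hC2 : (3 / 4 : ℝ) * m ≤ ((clq_C G w k).card : ℝ) := by
        refine le_trans ?_ hC
        have h1 : (k : ℝ) * (1 + 2 * ζ) ≤ (R - 1) * (1 + 2 * ζ) := by
          gcongr
        have h2 : (3 / 4 : ℝ) ≤ R - ζ - k * (1 + 2 * ζ) := by nlinarith
        gcongr
      set X : Finset α := nb G v (Bad G R m ε) ∪ (range (k + 1)).biUnion (fun i =>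
        (NN G (w i)).filter (fun z => ((nb G z (NN G (w i))).card : ℝ) < (R - 1 - ζ) * m)) with hX
      have hXc : ((X.card : ℕ) : ℝ) ≤ (1 / 4 : ℝ) * m := by
        have h1 : X.card ≤ (nb G v (Bad G R m ε)).card + ∑ i ∈ range (k + 1),
            ((NN G (w i)).filter
              (fun z => ((nb G z (NN G (w i))).card : ℝ) < (R - 1 - ζ) * m)).card :=
          (Finset.card_union_le _ _).trans (by gcongr; exact Finset.card_biUnion_le)
        have h2 : ((X.card : ℕ) : ℝ) ≤ ((nb G v (Bad G R m ε)).card : ℝ) + ∑ i ∈ range (k + 1),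
            ((((NN G (w i)).filter
              (fun z => ((nb G z (NN G (w i))).card : ℝ) < (R - 1 - ζ) * m)).card : ℕ) : ℝ) := by
          exact_mod_cast h1
        have h3 : ∑ i ∈ range (k + 1),
            ((((NN G (w i)).filter
              (fun z => ((nb G z (NN G (w i))).card : ℝ) < (R - 1 - ζ) * m)).card : ℕ) : ℝ)
            ≤ ∑ i ∈ range (k + 1), ζ * m :=
          Finset.sum_le_sum fun i hi =>
            (hcod' (w i) (hgood i (by have := mem_range.1 hi; omega))).2
        rw [Finset.sum_const, card_range, nsmul_eq_mul] at h3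
        push_cast at h3
        have h4 : ((k : ℝ) + 1) * (ζ * m) ≤ R * (ζ * m) := by
          gcongr
          linarith
        have h5 : ε * (m : ℝ) ≤ ζ * m := by gcongr
        have h6 : ζ * m ≤ R * (ζ * m) := by nlinarith [mul_pos hζ (show (0 : ℝ) < m by linarith)]
        have h7 : R * (ζ * m) ≤ (1 / 8 : ℝ) * m := by nlinarith
        linarith
      have hex : ∃ u ∈ clq_C G w k, u ∉ X := by
        by_contra hcon
        push Not at hcon
        have h1 : ((clq_C G w k).card : ℝ) ≤ X.card := by
          exact_mod_cast Finset.card_le_card (show clq_C G w k ⊆ X from fun u hu => hcon u hu)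
        linarith
      obtain ⟨u, huC, huX⟩ := hex
      rw [clq_mem_C] at huC
      rw [hX, mem_union, mem_biUnion] at huX
      push Not at huX
      obtain ⟨hu1, hu2⟩ := huX
      have hugood : Good G R m ε u := by
        by_contra hb
        apply hu1
        rw [mem_nb]
        refine ⟨?_, ?_⟩
        · exact clq_mem_bad.2 hb
        · rw [← hw0]
          exact huC 0 (Nat.zero_le _)
      have hucd : ∀ i ≤ k, (R - 1 - ζ) * m ≤ ((nb G u (NN G (w i))).card : ℝ) := by
        intro i hi
        have h1 := hu2 i (mem_range.2 (by omega))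
        rw [mem_filter] at h1
        push Not at h1
        exact h1 ((mem_NN G).2 (huC i hi))
      have hupd : ∀ i ≤ k, Function.update w (k + 1) u i = w i := fun i hi =>
        Function.update_of_ne (by omega) _ _
      have hupd1 : Function.update w (k + 1) u (k + 1) = u := Function.update_self _ _ _
      refine ⟨Function.update w (k + 1) u, ?_, ?_, ?_, ?_⟩
      · rw [hupd 0 (Nat.zero_le _), hw0]
      · intro i hi
        rcases Nat.lt_or_ge i (k + 1) with h1 | h1
        · rw [hupd i (by omega)]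
          exact hgood i (by omega)
        · have : i = k + 1 := by omega
          rw [this, hupd1]
          exact hugood
      · intro i hi j hj hij
        rcases Nat.lt_or_ge i (k + 1) with h1 | h1
        · rcases Nat.lt_or_ge j (k + 1) with h2 | h2
          · rw [hupd i (by omega), hupd j (by omega)]
            exact hadj i (by omega) j (by omega) hij
          · have : j = k + 1 := by omega
            rw [this, hupd1, hupd i (by omega)]
            exact huC i (by omega)
        · have h3 : i = k + 1 := by omega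
          rw [h3, hupd1, hupd j (by omega)]
          exact (huC j (by omega)).symm
      · intro i hi j hj hij
        rcases Nat.lt_or_ge i (k + 1) with h1 | h1
        · rcases Nat.lt_or_ge j (k + 1) with h2 | h2
          · rw [hupd i (by omega), hupd j (by omega)]
            exact hcd i (by omega) j (by omega) hij
          · have : j = k + 1 := by omega
            rw [this, hupd1, hupd i (by omega), clq_comm]
            exact hucd i (by omega)
        · have h3 : i = k + 1 := by omega
          rw [h3, hupd1, hupd j (by omega)]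
          exact hucd j (by omega)
  obtain ⟨w, hw0, hgood, hadj, hcd⟩ := hind R le_rfl
  refine ⟨fun i => w i, hw0, fun i => hgood i (by omega), ?_, ?_⟩
  · intro i j hij
    exact hadj i (by omega) j (by omega) (fun h => hij (Fin.ext h))
  · intro i j hij
    exact hcd i (by omega) j (by omega) (fun h => hij (Fin.ext h))

end Pool.Agent.H11.TD
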