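import Pool.Agent.H11.TD.Bas

/-!
# TD Cls: the extremal function of the problem and the limit

`Cls p Δ ω`: the graphs on `p` vertices with maximum degree at most `Δ` (no star `K_{1,Δ+1}`) and no clique of size
`ω + 1`; `tri G` the number of triangles, `exT p Δ ω` its maximum.

`lim_of`: `tri G ≤ P p` for all graphs in the class gives `exT p ≤ P p`.  For the lower bound take `q = p / n0` disjoint copies
of `G0` (the graph on `Fin q × Fin n0` with `(i, a) ~ (j, b)` iff `i = j` and `a ~ b`, mapped into `Fin p` by an embedding,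
`SimpleGraph.map`): maximum degree and clique number do not increase, and there are `q tri G0 ≥ q P n0` triangles.
So `P (q n0) ≤ exT p ≤ P p` with `p - n0 < q n0 ≤ p`, and `exT p / p → P` (note `P ≥ 0`; squeeze).
(`exT` is a supremum of a bounded set of natural numbers: `tri G ≤ 2^p`.)

`ctx_of_cls`: translation between `Cls` and `Ctx`; `t3 G univ = 6 tri G` (`t3_cliques`).
-/

set_option autoImplicit false

open Finset Filter Topology

namespace Pool.Agent.H11.TD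

/-- the number of triangles -/
noncomputable def tri {V : Type} (G : SimpleGraph V) : ℕ := {s : Finset V | G.IsNClique 3 s}.ncard

/-- graphs on `p` vertices with maximum degree at most `Δ` and clique number at most `ω` -/
def Cls (p Δ ω : ℕ) : Set (SimpleGraph (Fin p)) :=
  {G | (∀ v, (G.neighborSet v).ncard ≤ Δ) ∧ G.CliqueFree (ω + 1)}

/-- the maximum number of triangles -/
noncomputable def exT (p Δ ω : ℕ) : ℕ := sSup (tri '' Cls p Δ ω)

theorem ctx_of_cls {p R r m : ℕ} (G : SimpleGraph (Fin p)) (h : G ∈ Cls p (R * m + r) (R + 1)) :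
    Ctx G R r m := by
  refine ⟨fun v => ?_, h.2⟩
  have h1 : G.neighborSet v = ((NN G v : Finset (Fin p)) : Set (Fin p)) := by
    ext u
    rw [SimpleGraph.mem_neighborSet, mem_coe, mem_NN]
  have h2 := h.1 v
  rwa [h1, Set.ncard_coe_finset] at h2

/-- disjoint copies of a graph -/
private def cls_cp {n0 : ℕ} (hn0 : 0 < n0) (G0 : SimpleGraph (Fin n0)) (p : ℕ) :
    SimpleGraph (Fin p) where
  Adj u v := (u : ℕ) / n0 = (v : ℕ) / n0 ∧
    G0.Adj ⟨(u : ℕ) % n0, Nat.mod_lt _ hn0⟩ ⟨(v : ℕ) % n0, Nat.mod_lt _ hn0⟩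
  symm := ⟨fun _ _ h => ⟨h.1.symm, h.2.symm⟩⟩
  loopless := ⟨fun _ h => h.2.ne rfl⟩

private theorem cls_cp_mem {n0 Δ ω : ℕ} (hn0 : 0 < n0) {G0 : SimpleGraph (Fin n0)}
    (h0 : G0 ∈ Cls n0 Δ ω) (p : ℕ) : cls_cp hn0 G0 p ∈ Cls p Δ ω := by
  classical
  constructor
  · intro v
    refine le_trans (Set.ncard_le_ncard_of_injOn
      (fun u : Fin p => (⟨(u : ℕ) % n0, Nat.mod_lt _ hn0⟩ : Fin n0)) ?_ ?_ (Set.toFinite _))
      (h0.1 ⟨(v : ℕ) % n0, Nat.mod_lt _ hn0⟩)
    · intro u hu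
      exact hu.2
    · intro u hu u' hu' he
      have h1 : (u : ℕ) / n0 = (u' : ℕ) / n0 := hu.1.symm.trans hu'.1
      have h2 : (u : ℕ) % n0 = (u' : ℕ) % n0 := congrArg Fin.val he
      apply Fin.ext
      rw [← Nat.div_add_mod (u : ℕ) n0, ← Nat.div_add_mod (u' : ℕ) n0, h1, h2]
  · intro s hs
    refine h0.2 (s.image fun u : Fin p => (⟨(u : ℕ) % n0, Nat.mod_lt _ hn0⟩ : Fin n0)) ?_
    rw [SimpleGraph.isNClique_iff] at hs ⊢
    constructor
    · intro a ha b hb hab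
      rw [mem_coe, mem_image] at ha hb
      obtain ⟨u, hu, rfl⟩ := ha
      obtain ⟨v, hv, rfl⟩ := hb
      exact (hs.1 hu hv fun h => hab (by rw [h])).2
    · rw [card_image_of_injOn, hs.2]
      intro u hu v hv he
      by_contra hne
      exact (hs.1 hu hv hne).2.ne he

private theorem cls_cp_tri {n0 : ℕ} (hn0 : 0 < n0) (G0 : SimpleGraph (Fin n0)) (p : ℕ) :
    p / n0 * tri G0 ≤ tri (cls_cp hn0 G0 p) := by
  classical
  have hlt : ∀ (i : Fin (p / n0)) (a : Fin n0), (a : ℕ) + n0 * i < p := by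
    intro i a
    have h1 : n0 * ((i : ℕ) + 1) ≤ n0 * (p / n0) := Nat.mul_le_mul_left _ i.2
    have h2 := Nat.mul_div_le p n0
    have h3 := a.2
    have h4 : n0 * ((i : ℕ) + 1) = n0 * i + n0 := by ring
    omega
  have hmod : ∀ (i : Fin (p / n0)) (a : Fin n0), ((a : ℕ) + n0 * i) % n0 = a := by
    intro i a
    rw [Nat.add_mul_mod_self_left, Nat.mod_eq_of_lt a.2]
  have hdiv : ∀ (i : Fin (p / n0)) (a : Fin n0), ((a : ℕ) + n0 * i) / n0 = i := by
    intro i a
    rw [Nat.add_mul_div_left _ _ hn0, Nat.div_eq_of_lt a.2, zero_add]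
  let g : Fin (p / n0) → Fin n0 → Fin p := fun i a => ⟨(a : ℕ) + n0 * i, hlt i a⟩
  have hginj : ∀ i, Function.Injective (g i) := by
    intro i a b h
    have h1 : (a : ℕ) + n0 * i = (b : ℕ) + n0 * i := congrArg Fin.val h
    exact Fin.ext (by omega)
  have hgg : ∀ i a j b, g i a = g j b → i = j ∧ a = b := by
    intro i a j b h
    have h1 : (a : ℕ) + n0 * i = (b : ℕ) + n0 * j := congrArg Fin.val h
    have h2 := hdiv i a
    have h3 := hmod i a
    rw [h1, hdiv] at h2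
    rw [h1, hmod] at h3
    exact ⟨(Fin.ext h2).symm, (Fin.ext h3).symm⟩
  have h1 : ((Set.univ : Set (Fin (p / n0))) ×ˢ {s : Finset (Fin n0) | G0.IsNClique 3 s}).ncard =
      p / n0 * tri G0 := by
    rw [Set.ncard_prod, Set.ncard_univ, Nat.card_eq_fintype_card, Fintype.card_fin]
    rfl
  rw [← h1]
  unfold tri
  refine Set.ncard_le_ncard_of_injOn (fun x => x.2.image (g x.1)) ?_ ?_ (Set.toFinite _)
  · rintro ⟨i, s⟩ hs
    have hs' : G0.IsNClique 3 s := hs.2
    show (cls_cp hn0 G0 p).IsNClique 3 (s.image (g i))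
    rw [SimpleGraph.isNClique_iff] at hs' ⊢
    constructor
    · intro u hu v hv huv
      rw [mem_coe, mem_image] at hu hv
      obtain ⟨a, ha, rfl⟩ := hu
      obtain ⟨b, hb, rfl⟩ := hv
      refine ⟨?_, ?_⟩
      · show ((a : ℕ) + n0 * i) / n0 = ((b : ℕ) + n0 * i) / n0
        rw [hdiv, hdiv]
      · have h2 := hs'.1 ha hb fun h => huv (by rw [h])
        have h3 : (⟨((g i a : Fin p) : ℕ) % n0, Nat.mod_lt _ hn0⟩ : Fin n0) = a :=
          Fin.ext (hmod i a)
        have h4 : (⟨((g i b : Fin p) : ℕ) % n0, Nat.mod_lt _ hn0⟩ : Fin n0) = b :=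
          Fin.ext (hmod i b)
        rw [h3, h4]
        exact h2
    · rw [card_image_of_injective _ (hginj i), hs'.2]
  · rintro ⟨i, s⟩ hs ⟨j, t⟩ ht he
    have hs' : G0.IsNClique 3 s := hs.2
    have he' : s.image (g i) = t.image (g j) := he
    have hne : s.Nonempty := card_pos.1 (by rw [hs'.card_eq]; norm_num)
    obtain ⟨a, ha⟩ := hne
    have h2 : g i a ∈ t.image (g j) := by
      rw [← he']
      exact mem_image_of_mem _ ha
    obtain ⟨b, _, hb⟩ := mem_image.1 h2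
    obtain ⟨hij, _⟩ := hgg j b i a hb
    subst hij
    have h3 : s = t := image_injective (hginj j) he'
    rw [h3]

theorem lim_of (Δ ω n0 : ℕ) (P : ℝ) (hn0 : 0 < n0) (hP : 0 ≤ P)
    (hup : ∀ p (G : SimpleGraph (Fin p)), G ∈ Cls p Δ ω → (tri G : ℝ) ≤ P * p)
    (hlo : ∃ G0 ∈ Cls n0 Δ ω, P * n0 ≤ (tri G0 : ℝ)) :
    Tendsto (fun p : ℕ => (exT p Δ ω : ℝ) / p) atTop (𝓝 P) := by
  obtain ⟨G0, hG0, hG0P⟩ := hlo
  have hbdd : ∀ p, BddAbove (tri '' Cls p Δ ω) := by
    intro p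
    refine ⟨⌊P * p⌋₊, ?_⟩
    rintro _ ⟨G, hG, rfl⟩
    exact Nat.le_floor (hup p G hG)
  have hne : ∀ p, (tri '' Cls p Δ ω).Nonempty := fun p => ⟨_, _, cls_cp_mem hn0 hG0 p, rfl⟩
  have h1 : ∀ p : ℕ, (exT p Δ ω : ℝ) ≤ P * p := by
    intro p
    obtain ⟨G, hG, he⟩ := Nat.sSup_mem (hne p) (hbdd p)
    have h2 := hup p G hG
    rw [he] at h2
    exact h2
  have h2 : ∀ p : ℕ, P * ((p : ℝ) - n0) ≤ exT p Δ ω := by
    intro p
    have h3 : tri (cls_cp hn0 G0 p) ≤ exT p Δ ω :=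
      le_csSup (hbdd p) ⟨_, cls_cp_mem hn0 hG0 p, rfl⟩
    have h4 := (cls_cp_tri hn0 G0 p).trans h3
    have h5 : ((p / n0 : ℕ) : ℝ) * (tri G0 : ℝ) ≤ exT p Δ ω := by exact_mod_cast h4
    refine le_trans ?_ h5
    have h6 : (p : ℝ) - n0 ≤ ((p / n0 : ℕ) : ℝ) * n0 := by
      have h7 := Nat.div_add_mod p n0
      have h8 := Nat.mod_lt p hn0
      have h9 : p ≤ p / n0 * n0 + n0 := by
        rw [mul_comm]
        omega
      have h10 : (p : ℝ) ≤ ((p / n0 : ℕ) : ℝ) * n0 + n0 := by exact_mod_cast h9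
      linarith
    calc P * ((p : ℝ) - n0) ≤ P * (((p / n0 : ℕ) : ℝ) * n0) := by gcongr
      _ = ((p / n0 : ℕ) : ℝ) * (P * n0) := by ring
      _ ≤ ((p / n0 : ℕ) : ℝ) * (tri G0 : ℝ) := by gcongr
  have h3 : Tendsto (fun p : ℕ => P * (1 - (n0 : ℝ) / p)) atTop (𝓝 P) := by
    have h4 : Tendsto (fun p : ℕ => (n0 : ℝ) / p) atTop (𝓝 0) :=
      tendsto_const_div_atTop_nhds_zero_nat _
    have h5 := (tendsto_const_nhds (x := (1 : ℝ)).sub h4).const_mul P
    simpa using h5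
  refine tendsto_of_tendsto_of_tendsto_of_le_of_le' h3 tendsto_const_nhds ?_ ?_
  · filter_upwards [eventually_gt_atTop 0] with p hp
    have hp' : (0 : ℝ) < p := by exact_mod_cast hp
    rw [le_div_iff₀ hp']
    have h6 : P * (1 - (n0 : ℝ) / p) * p = P * ((p : ℝ) - n0) := by
      field_simp
    rw [h6]
    exact h2 p
  · filter_upwards [eventually_gt_atTop 0] with p hp
    have hp' : (0 : ℝ) < p := by exact_mod_cast hp
    rw [div_le_iff₀ hp']
    exact h1 p

end Pool.Agent.H11.TD
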