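import Pool.Agent.H11.TD.Dat
import Pool.Agent.H11.TD.Ci

/-!
# TD Clus: the cluster inequality in the graph

From `CL ≤ 0` (`cluster_num` applied to `cluster_data`):
* `des` for `A = hpt V` (`hpt_disj`, `hpt_indep`; `tot A = hull V`):
  `t3 (hull V) ≤ S6 - ∑∑ (3 ms (N - 2 a i) - 3 ms (ms - 1))`;
* `ee (nb v C) (nb v C) ≤ ex v (ex v - 1)` (`ee_self_le`), `C = HH L \ hull V`; sum over `v ∈ hull V = tot A`
  is the sum over `i` and `v ∈ A i`;
* so `t3 (hull V) + 3 ∑ ee ≤ S6 - ∑∑ tv (N - 2 a i) (mu v) (ex v)`, `|hull V| = ∑ |A k|` (`tot_card`).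
-/

set_option autoImplicit false

open Finset

namespace Pool.Agent.H11.TD

theorem clus_sum_tot {α : Type} [DecidableEq α] {k : ℕ} (A : Fin k → Finset α)
    (hd : ∀ i j, i ≠ j → Disjoint (A i) (A j)) (f : α → ℝ) :
    ∑ v ∈ tot A, f v = ∑ i, ∑ v ∈ A i, f v := by
  unfold tot
  rw [Finset.sum_biUnion]
  intro i _ j _ hij
  exact hd i j hij

theorem clus_ee_le {α : Type} [Fintype α] [DecidableEq α] (G : SimpleGraph α) (S : Finset α) :
    (ee G S S : ℝ) ≤ (S.card : ℝ) * ((S.card : ℝ) - 1) := by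
  have h1 := ee_self_le G S
  have h2 : (ee G S S : ℝ) ≤ ((S.card * (S.card - 1) : ℕ) : ℝ) := by exact_mod_cast h1
  refine h2.trans (le_of_eq ?_)
  rcases Nat.eq_zero_or_pos S.card with h | h
  · rw [h]
    simp
  · rw [Nat.cast_mul, Nat.cast_sub h]
    simp

theorem cluster_ineq (R r : ℕ) (hR : 4 ≤ R) (hr : 1 ≤ r) (hs : r + 2 ≤ R) (h3 : 3 * r ≠ R)
    (C γ : ℝ) (hC : 0 < C) (hγ : 0 < γ) :
    ∃ η0 : ℝ, 0 < η0 ∧ ∀ η : ℝ, 0 < η → η ≤ η0 → ∃ m0 : ℕ,
      ∀ m : ℕ, m0 ≤ m → Par R r m γ η → ∀ P : ℝ, PSpec R r m C P →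
        ∀ (α : Type) [Fintype α] [DecidableEq α] (G : SimpleGraph α), Ctx G R r m →
          ∀ L : Finset (Fin (R + 1) → Finset α), Fam G R m γ η L → ∀ V ∈ L,
            (t3 G (hull G m γ V) : ℝ) + 3 * ∑ v ∈ hull G m γ V,
                (ee G (nb G v (HH G m γ L \ hull G m γ V)) (nb G v (HH G m γ L \ hull G m γ V)) : ℝ)
              ≤ 6 * P * ((hull G m γ V).card : ℝ) -
              ∑ j ∈ JJ G R m γ L V, (3 * ((R - 1) / R) *
                (((nb G j (hull G m γ V)).card : ℝ) ^ 2 +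
                  (R * m + r - ((nb G j (hull G m γ V)).card : ℝ)) ^ 2) - 6 * P +
                (R - 1) * γ / 40 * m ^ 2) -
              ∑ b ∈ BP G R m γ L, (3 * ((R - 1) / R) * ((nb G b (hull G m γ V)).card : ℝ) ^ 2 -
                (6 * P / (R * m + r) - 36 * γ * m) * ((nb G b (hull G m γ V)).card : ℝ)) := by
  obtain ⟨η0, h0, H⟩ := cluster_num R r hR hr hs h3 C γ hC hγ
  refine ⟨η0, h0, fun η hη hle => ?_⟩
  obtain ⟨m0, H⟩ := H η hη hle
  refine ⟨m0, fun m hm hp P hP α _ _ G hG L hL V hV => ?_⟩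
  have hcore := hL.core V hV
  have hdj : ∀ i j, i ≠ j → Disjoint (hpt G m γ V i) (hpt G m γ V j) :=
    fun i j hij => hpt_disj G hp hG hcore i j hij
  have hind : ∀ i, ∀ u ∈ hpt G m γ V i, ∀ v ∈ hpt G m γ V i, ¬ G.Adj u v :=
    fun i u hu v hv => hpt_indep G hp hG hcore i u v hu hv
  have hD := cluster_data G hp hG L hL V hV
  have hN := H m hm hp P hP α (hpt G m γ V) _ _ _ _ _ _ _ hD
  have hdes := des G (hpt G m γ V) hdj hind
  have htot : hull G m γ V = tot (hpt G m γ V) := rfl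
  have hcard : ((hull G m γ V).card : ℝ) = ∑ k, ((hpt G m γ V k).card : ℝ) := by
    rw [htot, tot_card (hpt G m γ V) hdj]
    push_cast
    rfl
  have hee : ∑ v ∈ hull G m γ V,
      (ee G (nb G v (HH G m γ L \ hull G m γ V)) (nb G v (HH G m γ L \ hull G m γ V)) : ℝ) ≤
      ∑ i, ∑ v ∈ hpt G m γ V i, (((nb G v (HH G m γ L \ hull G m γ V)).card : ℝ) *
        (((nb G v (HH G m γ L \ hull G m γ V)).card : ℝ) - 1)) := by
    rw [← clus_sum_tot (hpt G m γ V) hdj]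
    exact Finset.sum_le_sum fun v _ => clus_ee_le G _
  have htv : ∑ i, ∑ v ∈ hpt G m γ V i,
      tv ((∑ k, ((hpt G m γ V k).card : ℝ)) - 2 * (hpt G m γ V i).card)
        (muV G (hpt G m γ V) v) ((nb G v (HH G m γ L \ hull G m γ V)).card) =
      ∑ i, ∑ v ∈ hpt G m γ V i, (3 * (ms G (hpt G m γ V) i v : ℝ) *
        ((∑ j, ((hpt G m γ V j).card : ℝ)) - 2 * (hpt G m γ V i).card) -
        3 * (ms G (hpt G m γ V) i v : ℝ) * ((ms G (hpt G m γ V) i v : ℝ) - 1)) -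
      3 * ∑ i, ∑ v ∈ hpt G m γ V i, (((nb G v (HH G m γ L \ hull G m γ V)).card : ℝ) *
        (((nb G v (HH G m γ L \ hull G m γ V)).card : ℝ) - 1)) := by
    rw [Finset.mul_sum, ← Finset.sum_sub_distrib]
    apply Finset.sum_congr rfl
    intro i _
    rw [Finset.mul_sum, ← Finset.sum_sub_distrib]
    apply Finset.sum_congr rfl
    intro v hv
    rw [muV_eq G (hpt G m γ V) hdj i v hv]
    unfold tv
    ring
  unfold CL at hN
  rw [htv] at hN
  rw [hcard]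
  rw [← htot] at hdes
  simp only at hN
  linarith

end Pool.Agent.H11.TD
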