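import Pool.Agent.H11.TD.Tu

/-!
# TD Cod: almost all neighbours of a good vertex have large codegree

Let `y` be `ε`-good.  `card_NN_good`: by `turan_nb` with `S = NN y`,
`(R-1)/R |NN y|² ≥ (R(R-1) - ε) m²`, so `|NN y| ≥ (R - ζ) m` if `ε` is small.
`low_codeg`: let `S` be the set of the `z ∈ NN y` with `|nb z (NN y)| < (R - 1 - ζ) m` and suppose `|S| > ζ m`.
Choose `S' ⊆ S` with `|S'| = t := ⌊ζ m⌋ + 1`.  With `N' = NN y \ S'`:
`ee N' N' ≥ ee (NN y) (NN y) - 2 ∑_{z ∈ S'} |nb z (NN y)| ≥ (R(R-1) - ε) m² - 2 t (R - 1 - ζ) m`, while by Turan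
`ee N' N' ≤ (R-1)/R (R m + r - t)²`.  Expanding: `2 t ζ m - ε m² ≤ 2 (R-1) m r + (R-1)/R (t - r)²`, and with
`ζ m ≤ t ≤ ζ m + 1` this gives `ζ² (1 + 1/R) ≤ ε + O(1/m)`, which is false if `ε ≤ ζ²/2` and `m` is large.
(Choose `ε = ζ²/4`, or smaller, and `m0` large depending on `R, r, ζ`.)
-/

set_option autoImplicit false

open Finset

namespace Pool.Agent.H11.TD

private lemma cod_num1 (R ζ ε m n : ℝ) (hR : 2 ≤ R) (hζ : 0 < ζ) (hζ1 : ζ ≤ 1) (hε : ε = ζ ^ 2 / 4)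
    (hm : 0 < m) (hn0 : 0 ≤ n)
    (h : R * ((R * (R - 1) - ε) * m ^ 2) ≤ (R - 1) * n ^ 2) : (R - ζ) * m ≤ n := by
  by_contra hcon
  push Not at hcon
  have h1 : n ^ 2 ≤ ((R - ζ) * m) ^ 2 := by
    apply pow_le_pow_left₀ hn0 hcon.le
  have h2 : (R - 1) * n ^ 2 ≤ (R - 1) * ((R - ζ) * m) ^ 2 :=
    mul_le_mul_of_nonneg_left h1 (by linarith)
  have h3 : R * ((R * (R - 1) - ε) * m ^ 2) - (R - 1) * ((R - ζ) * m) ^ 2
      = ((R - 1) * (2 * R * ζ - ζ ^ 2) - R * ε) * m ^ 2 := by ring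
  have hm2 : 0 < m ^ 2 := by positivity
  have h4 : 0 < (R - 1) * (2 * R * ζ - ζ ^ 2) - R * ε := by
    rw [hε]
    have h5 : R * ζ ≤ 2 * R * ζ - ζ ^ 2 := by nlinarith
    have h6 : R * ζ ≤ (R - 1) * (2 * R * ζ - ζ ^ 2) := by
      have : 0 ≤ R * ζ := by positivity
      nlinarith
    have h7 : ζ ^ 2 ≤ ζ := by nlinarith
    have h8 : R * (ζ ^ 2 / 4) ≤ R * ζ / 4 := by nlinarith
    have : 0 < R * ζ := by positivity
    linarith
  nlinarith

private lemma cod_num2 (R r ζ ε m n t E E' : ℝ) (hR : 2 ≤ R) (hr : 0 ≤ r) (hζ : 0 < ζ) (hζ1 : ζ ≤ 1)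
    (hε : ε = ζ ^ 2 / 4) (hm : 2 * (1 + 2 * R * r + r ^ 2) < ζ ^ 2 * m) (hm1 : 1 ≤ m)
    (hn : n ≤ R * m + r) (hnt : 0 ≤ n - t) (ht : ζ * m < t) (ht' : t ≤ ζ * m + 1)
    (hE : (R * (R - 1) - ε) * m ^ 2 ≤ E)
    (hE' : E ≤ E' + 2 * (t * ((R - 1 - ζ) * m)))
    (hT : R * E' ≤ (R - 1) * (n - t) ^ 2) : False := by
  have hm0 : 0 < m := by linarith
  have hR0 : 0 < R := by linarith
  have ht0 : 0 < t := lt_of_le_of_lt (by positivity) ht
  have h1 : (n - t) ^ 2 ≤ (R * m + r - t) ^ 2 := pow_le_pow_left₀ hnt (by linarith) 2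
  have h2 : (R - 1) * (n - t) ^ 2 ≤ (R - 1) * (R * m + r - t) ^ 2 :=
    mul_le_mul_of_nonneg_left h1 (by linarith)
  have h3 : R * ((R * (R - 1) - ε) * m ^ 2 - 2 * (t * ((R - 1 - ζ) * m))) ≤
      (R - 1) * (R * m + r - t) ^ 2 := by
    have : R * ((R * (R - 1) - ε) * m ^ 2 - 2 * (t * ((R - 1 - ζ) * m))) ≤ R * E' :=
      mul_le_mul_of_nonneg_left (by linarith) hR0.le
    linarith
  have h4 : 2 * t * R * ζ * m - R * ε * m ^ 2 ≤
      2 * R * (R - 1) * m * r + (R - 1) * (t - r) ^ 2 := by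
    have e1 : R * ((R * (R - 1) - ε) * m ^ 2 - 2 * (t * ((R - 1 - ζ) * m))) =
        R ^ 2 * (R - 1) * m ^ 2 - R * ε * m ^ 2 - 2 * t * R * (R - 1) * m + 2 * t * R * ζ * m := by
      ring
    have e2 : (R - 1) * (R * m + r - t) ^ 2 =
        R ^ 2 * (R - 1) * m ^ 2 + 2 * R * (R - 1) * m * r - 2 * t * R * (R - 1) * m +
          (R - 1) * (t - r) ^ 2 := by ring
    rw [e1, e2] at h3
    linarith
  have h5 : (R - 1) * (t - r) ^ 2 ≤ (R - 1) * (t ^ 2 + r ^ 2) := by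
    apply mul_le_mul_of_nonneg_left _ (by linarith)
    have q1 := mul_nonneg ht0.le hr
    have e1 : (t - r) ^ 2 = t ^ 2 + r ^ 2 - 2 * (t * r) := by ring
    rw [e1]
    linarith
  have h6 : t ^ 2 ≤ t * (ζ * m + 1) := by
    rw [pow_two]
    exact mul_le_mul_of_nonneg_left ht' ht0.le
  have h7 : (R - 1) * t ^ 2 ≤ (R - 1) * (t * (ζ * m + 1)) :=
    mul_le_mul_of_nonneg_left h6 (by linarith)
  have hrr : 0 ≤ R * r := by positivity
  have hζm : 1 ≤ ζ * m := by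
    have q1 : ζ ^ 2 ≤ ζ := by
      rw [pow_two]
      calc ζ * ζ ≤ ζ * 1 := mul_le_mul_of_nonneg_left hζ1 hζ.le
        _ = ζ := mul_one _
    have h8 : ζ ^ 2 * m ≤ ζ * m := mul_le_mul_of_nonneg_right q1 hm0.le
    have q2 := sq_nonneg r
    linarith
  have h9 : 0 ≤ (R + 1) * (ζ * m) - (R - 1) := by
    have q1 : (R + 1) * 1 ≤ (R + 1) * (ζ * m) := mul_le_mul_of_nonneg_left hζm (by linarith)
    linarith
  have h10 : ζ * m * ((R + 1) * (ζ * m) - (R - 1)) ≤ t * ((R + 1) * (ζ * m) - (R - 1)) :=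
    mul_le_mul_of_nonneg_right ht.le h9
  have h11 : t * ((R + 1) * (ζ * m) - (R - 1)) - R * ε * m ^ 2 ≤
      2 * R * (R - 1) * m * r + (R - 1) * r ^ 2 := by
    have e1 : t * ((R + 1) * (ζ * m) - (R - 1)) =
        2 * t * R * ζ * m - (R - 1) * (t * (ζ * m + 1)) := by ring
    have e2 : (R - 1) * (t ^ 2 + r ^ 2) = (R - 1) * t ^ 2 + (R - 1) * r ^ 2 := by ring
    rw [e1]
    linarith
  have h12 : ζ * m * ((R + 1) * (ζ * m) - (R - 1)) - R * (ζ ^ 2 / 4) * m ^ 2 ≤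
      2 * R * (R - 1) * m * r + (R - 1) * r ^ 2 := by
    rw [hε] at h11
    linarith
  have h13 : ζ * m * (R - 1) ≤ R * m := by
    have q1 : ζ * (R - 1) ≤ 1 * (R - 1) := mul_le_mul_of_nonneg_right hζ1 (by linarith)
    have q2 : ζ * (R - 1) ≤ R := by linarith
    have q3 := mul_le_mul_of_nonneg_right q2 hm0.le
    calc ζ * m * (R - 1) = ζ * (R - 1) * m := by ring
      _ ≤ R * m := q3
  have h14 : (R - 1) * r ^ 2 ≤ R * m * r ^ 2 := by
    apply mul_le_mul_of_nonneg_right _ (sq_nonneg r)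
    have : R * 1 ≤ R * m := mul_le_mul_of_nonneg_left hm1 hR0.le
    linarith
  have h15 : 2 * R * (R - 1) * m * r ≤ R * m * (2 * R * r) := by
    have q1 : 0 ≤ R * m * r := by positivity
    have e1 : R * m * (2 * R * r) = 2 * R * (R - 1) * m * r + 2 * (R * m * r) := by ring
    rw [e1]
    linarith
  have h16 : R * m * (ζ ^ 2 * m / 2) ≤ R * m * (1 + 2 * R * r + r ^ 2) := by
    have p1 : 0 ≤ R * ζ ^ 2 * m ^ 2 := by positivity
    have p2 : 0 ≤ ζ ^ 2 * m ^ 2 := by positivity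
    have e1 : ζ * m * ((R + 1) * (ζ * m) - (R - 1)) - R * (ζ ^ 2 / 4) * m ^ 2 =
        3 / 4 * (R * ζ ^ 2 * m ^ 2) + ζ ^ 2 * m ^ 2 - ζ * m * (R - 1) := by ring
    have e2 : R * m * (ζ ^ 2 * m / 2) = 1 / 2 * (R * ζ ^ 2 * m ^ 2) := by ring
    have e3 : R * m * (1 + 2 * R * r + r ^ 2) = R * m + R * m * (2 * R * r) + R * m * r ^ 2 := by
      ring
    rw [e1] at h12
    rw [e2, e3]
    linarith
  have hRm : 0 < R * m := by positivity
  have h17 : ζ ^ 2 * m / 2 ≤ 1 + 2 * R * r + r ^ 2 := le_of_mul_le_mul_left h16 hRm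
  linarith

theorem cod (R r : ℕ) (hR : 2 ≤ R) (ζ : ℝ) (hζ : 0 < ζ) (hζ1 : ζ ≤ 1) :
    ∃ ε : ℝ, 0 < ε ∧ ∃ m0 : ℕ, ∀ m : ℕ, m0 ≤ m →
      ∀ (α : Type) [Fintype α] [DecidableEq α] (G : SimpleGraph α), Ctx G R r m →
        ∀ y, Good G R m ε y →
          (R - ζ) * m ≤ ((NN G y).card : ℝ) ∧
          ((((NN G y).filter (fun z => ((nb G z (NN G y)).card : ℝ) < (R - 1 - ζ) * m)).card : ℝ))
            ≤ ζ * m := by
  refine ⟨ζ ^ 2 / 4, by positivity, ⌈2 * (1 + 2 * (R : ℝ) * r + (r : ℝ) ^ 2) / ζ ^ 2⌉₊ + 1, ?_⟩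
  intro m hm α _ _ G hG y hy
  have hRR : (2 : ℝ) ≤ R := by exact_mod_cast hR
  have hR1 : 1 ≤ R := by omega
  have hm1 : (1 : ℝ) ≤ m := by
    have : 1 ≤ m := by omega
    exact_mod_cast this
  have hm2 : 2 * (1 + 2 * (R : ℝ) * r + (r : ℝ) ^ 2) < ζ ^ 2 * m := by
    have h1 : 2 * (1 + 2 * (R : ℝ) * r + (r : ℝ) ^ 2) / ζ ^ 2 < m := by
      have h2 := Nat.le_ceil (2 * (1 + 2 * (R : ℝ) * r + (r : ℝ) ^ 2) / ζ ^ 2)
      have h3 : ⌈2 * (1 + 2 * (R : ℝ) * r + (r : ℝ) ^ 2) / ζ ^ 2⌉₊ < m := by omega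
      have h4 : ((⌈2 * (1 + 2 * (R : ℝ) * r + (r : ℝ) ^ 2) / ζ ^ 2⌉₊ : ℕ) : ℝ) < m := by
        exact_mod_cast h3
      linarith
    rw [div_lt_iff₀ (by positivity)] at h1
    linarith
  have hE : ((R : ℝ) * (R - 1) - ζ ^ 2 / 4) * (m : ℝ) ^ 2 ≤ (ee G (NN G y) (NN G y) : ℝ) := hy
  have hn : ((NN G y).card : ℝ) ≤ R * m + r := by exact_mod_cast hG.deg y
  refine ⟨?_, ?_⟩
  · have hT := turan_nb G hR1 hG.cf y (NN G y) (Finset.Subset.refl _)
    refine cod_num1 R ζ _ m _ hRR hζ hζ1 rfl (by linarith) (Nat.cast_nonneg _) ?_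
    refine le_trans ?_ hT
    exact mul_le_mul_of_nonneg_left hE (by linarith)
  · by_contra hcon
    push Not at hcon
    set N := NN G y with hN
    set S := N.filter (fun z => ((nb G z N).card : ℝ) < (R - 1 - ζ) * m) with hS
    have hζm : 0 ≤ ζ * m := by positivity
    have ht1 : ⌊ζ * m⌋₊ + 1 ≤ S.card := by
      have h1 : (⌊ζ * m⌋₊ : ℝ) ≤ ζ * m := Nat.floor_le hζm
      have h2 : (⌊ζ * m⌋₊ : ℝ) < S.card := lt_of_le_of_lt h1 hcon
      have h3 : ⌊ζ * m⌋₊ < S.card := by exact_mod_cast h2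
      omega
    obtain ⟨S', hS'S, hS'c⟩ := Finset.exists_subset_card_eq ht1
    have hS'N : S' ⊆ N := hS'S.trans (Finset.filter_subset _ _)
    have hdis : Disjoint (N \ S') S' := Finset.sdiff_disjoint
    have hun : (N \ S') ∪ S' = N := Finset.sdiff_union_of_subset hS'N
    have h1 : ee G N N = ee G (N \ S') (N \ S') + 2 * ee G (N \ S') S' + ee G S' S' := by
      have := ee_union_self G hdis
      rwa [hun] at this
    have h2 : ee G S' N = ee G S' (N \ S') + ee G S' S' := by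
      have := ee_union_right G (S := S') hdis
      rwa [hun] at this
    have h3 : ee G (N \ S') S' = ee G S' (N \ S') := ee_comm G _ _
    have h4 : ee G N N ≤ ee G (N \ S') (N \ S') + 2 * ee G S' N := by omega
    have h5 : (ee G S' N : ℝ) ≤ S'.card * ((R - 1 - ζ) * m) := by
      unfold ee
      push_cast
      rw [← nsmul_eq_mul]
      apply Finset.sum_le_card_nsmul
      intro z hz
      have := hS'S hz
      rw [hS, Finset.mem_filter] at this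
      exact this.2.le
    have h6 : (ee G N N : ℝ) ≤ ee G (N \ S') (N \ S') + 2 * ((S'.card : ℝ) * ((R - 1 - ζ) * m)) := by
      have h7 : (ee G N N : ℝ) ≤ ee G (N \ S') (N \ S') + 2 * (ee G S' N : ℝ) := by
        exact_mod_cast h4
      linarith
    have hT := turan_nb G hR1 hG.cf y (N \ S') (Finset.sdiff_subset)
    have hc : ((N \ S').card : ℝ) = (N.card : ℝ) - S'.card := by
      rw [Finset.card_sdiff_of_subset hS'N, Nat.cast_sub (Finset.card_le_card hS'N)]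
    rw [hc] at hT
    have hc0 : (0 : ℝ) ≤ (N.card : ℝ) - S'.card := by
      rw [← hc]; exact Nat.cast_nonneg _
    have ht2 : ζ * m < (S'.card : ℝ) := by
      rw [hS'c]
      push_cast
      exact Nat.lt_floor_add_one _
    have ht3 : (S'.card : ℝ) ≤ ζ * m + 1 := by
      rw [hS'c]
      push_cast
      linarith [Nat.floor_le hζm]
    exact cod_num2 R r ζ _ m N.card S'.card (ee G N N) (ee G (N \ S') (N \ S')) hRR
      (Nat.cast_nonneg _) hζ hζ1 rfl hm2 hm1 hn hc0 ht2 ht3 hE h6 hT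

/-- goodness is monotone in `ε` -/
theorem Good.mono {α : Type} [Fintype α] [DecidableEq α] {G : SimpleGraph α} {R m : ℕ} {ε ε' : ℝ}
    (h : ε ≤ ε') {v : α} (hv : Good G R m ε v) : Good G R m ε' v := by
  unfold Good at *
  have : (0 : ℝ) ≤ (m : ℝ) ^ 2 := by positivity
  nlinarith

end Pool.Agent.H11.TD
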