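import Pool.Agent.H11.TD.Clq

/-!
# TD CoreA: the `R + 1` classes of an almost complete multipartite cluster around a good vertex

Apply `clq` with a small `ζ` (depending on `ζ'` and `R`), giving `w`.  Let
`S i = {z | ∀ j ≠ i, G.Adj z (w j)}` (common neighbours of the `R` vertices `w j`, `j ≠ i`).
* `v = w 0 ∈ S 0`, and `S j ⊆ NN (w i)` for `j ≠ i`; so `v = w 0` is adjacent to all of `rest S 0`.
* Disjoint: an element of `S i ∩ S j` is adjacent to all `w k`, which gives a clique of size `R + 2`.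
* Independent: if `z, z' ∈ S i` are adjacent then `z, z'` and the `w j`, `j ≠ i`, are a clique of size `R + 2`.
* `|S i| ≥ (1 - 2 R ζ) m - ...`: fix `l ≠ i`; `S i = NN (w l) \ ⋃_{j ≠ i, l} (NN (w l) \ NN (w j))`,
  `|NN (w l)| ≥ (R - ζ) m` (`cod`, first part, or directly from goodness by Turan) and
  `|NN (w l) \ NN (w j)| ≤ R m + r - (R - 1 - ζ) m ≤ (1 + 2 ζ) m`; there are `R - 1` such `j`:
  `|S i| ≥ (R - ζ) m - (R - 1)(1 + 2 ζ) m ≥ (1 - 2 R ζ) m`.
* `|S j| ≤ R m + r - (R - 1)(1 - 2 R ζ) m ≤ (1 + 3 R² ζ) m`, because the `R` disjoint sets `S k`, `k ≠ i`, are in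
  `NN (w i)` (`i ≠ j`).
* Missing pairs: for each `i` let `W = rest S i ⊆ NN (w i)`; `|NN (w i) \ W| ≤ R m + r - R (1 - 2 R ζ) m ≤ 3 R² ζ m`,
  so `ee W W ≥ (R (R-1) - ε) m² - 2 * 3 R² ζ m (R m + r) ≥ (R (R - 1) - 13 R³ ζ) m²`, and as the `S k` are independent
  `∑_{k ≠ i} ∑_{z ∈ S k} #{u ∈ W \ S k : not adjacent to z} = |W|² - ∑_{k ≠ i} |S k|² - ee W W
   ≤ R (R - 1)(1 + 3 R² ζ)² m² - (R (R-1) - 13 R³ ζ) m² ≤ 20 R⁴ ζ m²`.
  Sum over `i`: each pair of classes is counted for `R - 1 ≥ 1` values of `i`, so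
  `∑ i, ∑ z ∈ S i, ms G S i z ≤ (R + 1) 20 R⁴ ζ m² ≤ ζ' m²`.
-/

set_option autoImplicit false

open Finset

namespace Pool.Agent.H11.TD


section corea

variable {α : Type} [Fintype α] [DecidableEq α] (G : SimpleGraph α)

private theorem corea_clq {n : ℕ} (c : Fin n → α) (h : ∀ i j, i ≠ j → G.Adj (c i) (c j)) :
    ¬ G.CliqueFree n := by
  intro hcf
  have hinj : Function.Injective c := by
    intro i j hij
    by_contra hne
    have := h i j hne
    rw [hij] at this
    exact G.loopless.irrefl _ this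
  refine hcf (univ.image c) ⟨?_, ?_⟩
  · intro x hx y hy hxy
    simp only [Finset.coe_image, Finset.coe_univ, Set.image_univ, Set.mem_range] at hx hy
    obtain ⟨i, rfl⟩ := hx
    obtain ⟨j, rfl⟩ := hy
    exact h i j fun hij => hxy (by rw [hij])
  · rw [Finset.card_image_of_injective _ hinj, Finset.card_univ, Fintype.card_fin]

open scoped Classical in
private noncomputable def coreaS {k : ℕ} (w : Fin k → α) (i : Fin k) : Finset α :=
  univ.filter (fun z => ∀ j, j ≠ i → G.Adj z (w j))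

private theorem mem_coreaS {k : ℕ} {w : Fin k → α} {i : Fin k} {z : α} :
    z ∈ coreaS G w i ↔ ∀ j, j ≠ i → G.Adj z (w j) := by
  simp [coreaS]

variable {R : ℕ} {w : Fin (R + 1) → α}

private theorem corea_cons (hcf : G.CliqueFree (R + 2)) {w : Fin (R + 1) → α}
    (hw : ∀ i j, i ≠ j → G.Adj (w i) (w j)) (z : α) (hz : ∀ j, G.Adj z (w j)) : False := by
  refine corea_clq G (Fin.cons z w : Fin (R + 2) → α) (fun i j hij => ?_) hcf
  refine Fin.cases (fun hij => ?_) (fun i hij => ?_) i hij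
  · refine Fin.cases (fun hij => ?_) (fun j hij => ?_) j hij
    · exact absurd rfl hij
    · simpa using hz j
  · refine Fin.cases (fun hij => ?_) (fun j hij => ?_) j hij
    · simpa using (hz i).symm
    · have : i ≠ j := fun h => hij (by rw [h])
      simpa using hw i j this

private theorem corea_disj (hcf : G.CliqueFree (R + 2)) (hw : ∀ i j, i ≠ j → G.Adj (w i) (w j))
    (i j : Fin (R + 1)) (hij : i ≠ j) : Disjoint (coreaS G w i) (coreaS G w j) := by
  rw [Finset.disjoint_left]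
  intro z hz hz'
  rw [mem_coreaS] at hz hz'
  refine corea_cons G hcf hw z fun k => ?_
  by_cases hk : k = i
  · subst hk
    exact hz' k hij
  · exact hz k hk

private theorem corea_indep (hcf : G.CliqueFree (R + 2)) (hw : ∀ i j, i ≠ j → G.Adj (w i) (w j))
    (i : Fin (R + 1)) (z z' : α) (hz : z ∈ coreaS G w i) (hz' : z' ∈ coreaS G w i) :
    ¬ G.Adj z z' := by
  intro hadj
  rw [mem_coreaS] at hz hz'
  refine corea_cons G hcf (w := Function.update w i z) (fun j k hjk => ?_) z' fun j => ?_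
  · by_cases hj : j = i
    · subst hj
      rw [Function.update_self, Function.update_of_ne hjk.symm]
      exact hz k hjk.symm
    · rw [Function.update_of_ne hj]
      by_cases hk : k = i
      · subst hk
        rw [Function.update_self]
        exact (hz j hj).symm
      · rw [Function.update_of_ne hk]
        exact hw j k hjk
  · by_cases hj : j = i
    · subst hj
      rw [Function.update_self]
      exact hadj.symm
    · rw [Function.update_of_ne hj]
      exact hz' j hj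

private theorem corea_sub (i k : Fin (R + 1)) (hki : k ≠ i) : coreaS G w k ⊆ NN G (w i) := by
  intro z hz
  rw [mem_coreaS] at hz
  rw [mem_NN]
  exact (hz i hki.symm).symm

private theorem corea_rest_sub (i : Fin (R + 1)) : rest (coreaS G w) i ⊆ NN G (w i) := by
  intro z hz
  obtain ⟨k, hk, hz⟩ := (mem_rest _).1 hz
  exact corea_sub G i k hk hz

/-- lower bound for the size of the neighbourhood of a good vertex -/
private theorem corea_NN_lower {r m : ℕ} (hR : 2 ≤ R) (hG : Ctx G R r m) {ε ζ : ℝ}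
    (hε : ε ≤ ζ) (hζ : 0 < ζ) (hζ1 : ζ ≤ 1) (y : α) (hy : Good G R m ε y) :
    (R - ζ) * m ≤ ((NN G y).card : ℝ) := by
  have h1 := turan_nb G (by omega : 1 ≤ R) hG.cf y (NN G y) (Finset.Subset.refl _)
  have hR' : (2 : ℝ) ≤ R := by exact_mod_cast hR
  unfold Good at hy
  have hm : (0 : ℝ) ≤ m := Nat.cast_nonneg m
  have hc : (0 : ℝ) ≤ ((NN G y).card : ℝ) := Nat.cast_nonneg _
  by_contra hlt
  push Not at hlt
  have h2 : ((NN G y).card : ℝ) ^ 2 < ((R - ζ) * m) ^ 2 := pow_lt_pow_left₀ hlt hc two_ne_zero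
  have hm0 : 0 < (m : ℝ) := by
    rcases hm.lt_or_eq with h | h
    · exact h
    · rw [← h, mul_zero] at hlt
      linarith
  have h3 : (R : ℝ) * (((R : ℝ) * (R - 1) - ε) * (m : ℝ) ^ 2) < (R - 1) * ((R - ζ) * m) ^ 2 := by
    calc (R : ℝ) * (((R : ℝ) * (R - 1) - ε) * (m : ℝ) ^ 2)
        ≤ R * (ee G (NN G y) (NN G y) : ℝ) := mul_le_mul_of_nonneg_left hy (by linarith)
      _ ≤ (R - 1) * ((NN G y).card : ℝ) ^ 2 := h1
      _ < _ := mul_lt_mul_of_pos_left h2 (by linarith)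
  have hm2 : 0 < (m : ℝ) ^ 2 := by positivity
  have h4 : (R : ℝ) * ((R : ℝ) * (R - 1) - ε) < (R - 1) * (R - ζ) ^ 2 := by
    have : (R : ℝ) * ((R : ℝ) * (R - 1) - ε) * (m : ℝ) ^ 2 < (R - 1) * (R - ζ) ^ 2 * (m : ℝ) ^ 2 := by
      nlinarith
    exact lt_of_mul_lt_mul_right this hm2.le
  nlinarith [mul_nonneg (sub_nonneg.2 hR') hζ.le, mul_nonneg hζ.le (sub_nonneg.2 hζ1),
    mul_nonneg (by linarith : (0 : ℝ) ≤ R) (sub_nonneg.2 hε), mul_nonneg (mul_nonneg (sub_nonneg.2 hR') hζ.le) (sub_nonneg.2 hζ1), mul_nonneg (mul_nonneg (sub_nonneg.2 hR') hζ.le) (sub_nonneg.2 hR')]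

/-- difference of two neighbourhoods -/
private theorem corea_diff {r m : ℕ} (hG : Ctx G R r m) {ζ : ℝ} (hr : (r : ℝ) ≤ ζ * m)
    (l j : Fin (R + 1)) (hlj : (R - 1 - ζ) * m ≤ ((nb G (w l) (NN G (w j))).card : ℝ)) :
    ((NN G (w l) \ NN G (w j)).card : ℝ) ≤ (1 + 2 * ζ) * m := by
  rw [nb_eq_inter] at hlj
  have h1 : ((NN G (w l)) \ (NN G (w j))).card + (NN G (w l) ∩ NN G (w j)).card =
      (NN G (w l)).card := Finset.card_sdiff_add_card_inter _ _
  have h2 := hG.deg (w l)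
  have h1' : (((NN G (w l)) \ (NN G (w j))).card : ℝ) + ((NN G (w l) ∩ NN G (w j)).card : ℝ) =
      ((NN G (w l)).card : ℝ) := by exact_mod_cast h1
  have h2' : ((NN G (w l)).card : ℝ) ≤ R * m + r := by exact_mod_cast h2
  linarith

private theorem corea_lower {r m : ℕ} (hR : 2 ≤ R) (hG : Ctx G R r m) {ζ : ℝ}
    (hr : (r : ℝ) ≤ ζ * m) (hζ : 0 < ζ)
    (hN : ∀ l, (R - ζ) * m ≤ ((NN G (w l)).card : ℝ))
    (hc : ∀ i j, i ≠ j → (R - 1 - ζ) * m ≤ ((nb G (w i) (NN G (w j))).card : ℝ)) (i : Fin (R + 1)) :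
    (1 - 2 * R * ζ) * m ≤ ((coreaS G w i).card : ℝ) := by
  classical
  obtain ⟨l, hl⟩ : ∃ l : Fin (R + 1), l ≠ i := by
    have : Nontrivial (Fin (R + 1)) := Fin.nontrivial_iff_two_le.2 (by omega)
    exact exists_ne i
  have hcov : NN G (w l) ⊆ coreaS G w i ∪
      ((univ.erase i).erase l).biUnion (fun j => NN G (w l) \ NN G (w j)) := by
    intro z hz
    rw [Finset.mem_union]
    by_cases h : z ∈ coreaS G w i
    · exact Or.inl h
    · right
      rw [mem_coreaS] at h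
      push Not at h
      obtain ⟨j, hj, hzj⟩ := h
      rw [Finset.mem_biUnion]
      refine ⟨j, ?_, ?_⟩
      · rw [Finset.mem_erase, Finset.mem_erase]
        refine ⟨?_, hj, Finset.mem_univ _⟩
        rintro rfl
        rw [mem_NN] at hz
        exact hzj hz.symm
      · rw [Finset.mem_sdiff, mem_NN, mem_NN]
        rw [mem_NN] at hz
        exact ⟨hz, fun h => hzj h.symm⟩
  have h1 := (Finset.card_le_card hcov).trans (Finset.card_union_le _ _)
  have h2 : ((((univ.erase i).erase l).biUnion (fun j => NN G (w l) \ NN G (w j))).card : ℝ) ≤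
      (R - 1) * ((1 + 2 * ζ) * m) := by
    have h3 : ((((univ.erase i).erase l).biUnion (fun j => NN G (w l) \ NN G (w j))).card : ℝ) ≤
        ∑ j ∈ (univ.erase i).erase l, ((NN G (w l) \ NN G (w j)).card : ℝ) := by
      exact_mod_cast Finset.card_biUnion_le
    refine h3.trans ((Finset.sum_le_card_nsmul _ _ ((1 + 2 * ζ) * m) fun j hj => ?_).trans ?_)
    · rw [Finset.mem_erase] at hj
      exact corea_diff G hG hr l j (hc l j hj.1.symm)
    · rw [nsmul_eq_mul, Finset.card_erase_of_mem (Finset.mem_erase.2 ⟨hl, Finset.mem_univ _⟩),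
        Finset.card_erase_of_mem (Finset.mem_univ _), Finset.card_univ, Fintype.card_fin]
      have : ((R + 1 - 1 - 1 : ℕ) : ℝ) = R - 1 := by
        rw [Nat.add_sub_cancel, Nat.cast_sub (by omega)]
        simp
      rw [this]
  have h1' : ((NN G (w l)).card : ℝ) ≤ ((coreaS G w i).card : ℝ) +
      ((((univ.erase i).erase l).biUnion (fun j => NN G (w l) \ NN G (w j))).card : ℝ) := by
    exact_mod_cast h1
  have h4 := hN l
  have hm : (0 : ℝ) ≤ m := Nat.cast_nonneg m
  nlinarith [mul_nonneg hζ.le hm]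

private theorem corea_rest_card (hcf : G.CliqueFree (R + 2))
    (hw : ∀ i j, i ≠ j → G.Adj (w i) (w j)) (i : Fin (R + 1)) :
    ((rest (coreaS G w) i).card : ℝ) = ∑ k ∈ univ.erase i, ((coreaS G w k).card : ℝ) := by
  unfold rest
  rw [Finset.card_biUnion]
  · push_cast
    rfl
  · intro a _ b _ hab
    exact corea_disj G hcf hw a b hab

private theorem corea_rest_le {r m : ℕ} (hG : Ctx G R r m) (i : Fin (R + 1)) :
    ((rest (coreaS G w) i).card : ℝ) ≤ R * m + r := by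
  have h1 := (Finset.card_le_card (corea_rest_sub G (w := w) i)).trans (hG.deg (w i))
  exact_mod_cast h1

private theorem corea_upper {r m : ℕ} (hR : 2 ≤ R) (hG : Ctx G R r m)
    (hw : ∀ i j, i ≠ j → G.Adj (w i) (w j)) {ζ : ℝ}
    (hr : (r : ℝ) ≤ ζ * m) (hζ : 0 < ζ)
    (hlow : ∀ i, (1 - 2 * R * ζ) * m ≤ ((coreaS G w i).card : ℝ)) (j : Fin (R + 1)) :
    ((coreaS G w j).card : ℝ) ≤ (1 + 2 * R ^ 2 * ζ) * m := by
  obtain ⟨i, hi⟩ : ∃ i : Fin (R + 1), i ≠ j := by
    have : Nontrivial (Fin (R + 1)) := Fin.nontrivial_iff_two_le.2 (by omega)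
    exact exists_ne j
  have h1 := corea_rest_card G hG.cf hw i
  have h2 := corea_rest_le G hG (w := w) i
  have hj : j ∈ univ.erase i := Finset.mem_erase.2 ⟨hi.symm, Finset.mem_univ _⟩
  rw [h1, ← Finset.add_sum_erase _ _ hj] at h2
  have h3 : (R - 1) * ((1 - 2 * R * ζ) * m) ≤
      ∑ k ∈ (univ.erase i).erase j, ((coreaS G w k).card : ℝ) := by
    have h4 := Finset.card_nsmul_le_sum ((univ.erase i).erase j)
      (fun k => ((coreaS G w k).card : ℝ)) ((1 - 2 * R * ζ) * m) fun k _ => hlow k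
    rw [nsmul_eq_mul, Finset.card_erase_of_mem hj,
        Finset.card_erase_of_mem (Finset.mem_univ _), Finset.card_univ, Fintype.card_fin] at h4
    have : ((R + 1 - 1 - 1 : ℕ) : ℝ) = R - 1 := by
      rw [Nat.add_sub_cancel, Nat.cast_sub (by omega)]
      simp
    rw [this] at h4
    exact h4
  have hm : (0 : ℝ) ≤ m := Nat.cast_nonneg m
  have hR' : (2 : ℝ) ≤ R := by exact_mod_cast hR
  nlinarith [mul_nonneg hζ.le hm, mul_nonneg (mul_nonneg hζ.le hm) (sub_nonneg.2 hR')]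

/-- the number of non-adjacent pairs between two classes -/
private noncomputable def coreaM (w : Fin (R + 1) → α) (k l : Fin (R + 1)) : ℝ :=
  ∑ z ∈ coreaS G w k, ((coreaS G w l \ nb G z (coreaS G w l)).card : ℝ)

private theorem corea_ee_lower {r m : ℕ} (hR : 2 ≤ R) (hG : Ctx G R r m)
    (hw : ∀ i j, i ≠ j → G.Adj (w i) (w j)) {ε ζ : ℝ}
    (hr : (r : ℝ) ≤ ζ * m) (hζ : 0 < ζ) (hζ1 : ζ ≤ 1) (hε : ε ≤ ζ)
    (hgood : ∀ i, Good G R m ε (w i))
    (hlow : ∀ i, (1 - 2 * R * ζ) * m ≤ ((coreaS G w i).card : ℝ)) (i : Fin (R + 1)) :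
    ((R : ℝ) * (R - 1) - ζ) * m ^ 2 - 6 * R ^ 2 * ζ * (R + ζ) * m ^ 2 ≤
      (ee G (rest (coreaS G w) i) (rest (coreaS G w) i) : ℝ) := by
  set W := rest (coreaS G w) i with hW
  set D := NN G (w i) \ W with hD
  have hWs : W ⊆ NN G (w i) := corea_rest_sub G i
  have hdis : Disjoint W D := Finset.disjoint_sdiff
  have hun : W ∪ D = NN G (w i) := Finset.union_sdiff_of_subset hWs
  have h1 : ee G (NN G (w i)) (NN G (w i)) = ee G W W + 2 * ee G W D + ee G D D := by
    rw [← ee_union_self G hdis, hun]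
  have h2 : ∀ T : Finset α, (ee G D T : ℝ) ≤ D.card * (R * m + r) := by
    intro T
    unfold ee
    push_cast
    refine (Finset.sum_le_card_nsmul _ _ ((R : ℝ) * m + r) fun v _ => ?_).trans ?_
    · have := (nb_card_le G v T).trans (hG.deg v)
      exact_mod_cast this
    · rw [nsmul_eq_mul]
  have h3 : (ee G D W : ℝ) + ee G D D ≤ D.card * (R * m + r) := by
    have h4 := h2 (W ∪ D)
    rw [ee_union_right G hdis] at h4
    push_cast at h4
    exact h4
  have h4 : (ee G W D : ℝ) ≤ D.card * (R * m + r) := by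
    rw [ee_comm]
    exact h2 W
  have hm : (0 : ℝ) ≤ m := Nat.cast_nonneg m
  have hR' : (2 : ℝ) ≤ R := by exact_mod_cast hR
  have h5 : (D.card : ℝ) ≤ 3 * R ^ 2 * ζ * m := by
    have h6 : D.card + W.card = (NN G (w i)).card := by
      rw [hD]
      exact Finset.card_sdiff_add_card_eq_card hWs
    have h6' : (D.card : ℝ) + W.card = ((NN G (w i)).card : ℝ) := by exact_mod_cast h6
    have h7 : ((NN G (w i)).card : ℝ) ≤ R * m + r := by exact_mod_cast hG.deg (w i)
    have h8 : (R : ℝ) * ((1 - 2 * R * ζ) * m) ≤ (W.card : ℝ) := by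
      rw [hW, corea_rest_card G hG.cf hw i]
      have h9 := Finset.card_nsmul_le_sum (univ.erase i)
        (fun k => ((coreaS G w k).card : ℝ)) ((1 - 2 * R * ζ) * m) fun k _ => hlow k
      rw [nsmul_eq_mul, Finset.card_erase_of_mem (Finset.mem_univ _), Finset.card_univ,
        Fintype.card_fin, Nat.add_sub_cancel] at h9
      exact h9
    nlinarith [mul_nonneg hζ.le hm, mul_nonneg (mul_nonneg hζ.le hm) (sub_nonneg.2 hR')]
  have h6 := hgood i
  unfold Good at h6
  rw [h1] at h6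
  push_cast at h6
  have hRr : (R : ℝ) * m + r ≤ (R + ζ) * m := by linarith
  have hD0 : (0 : ℝ) ≤ D.card := Nat.cast_nonneg _
  have h7 : (D.card : ℝ) * (R * m + r) ≤ 3 * R ^ 2 * ζ * m * ((R + ζ) * m) :=
    mul_le_mul h5 hRr (by positivity) (by positivity)
  have h8 : (ee G W D : ℝ) + (ee G D W : ℝ) + ee G D D ≤ 2 * (3 * R ^ 2 * ζ * m * ((R + ζ) * m)) := by
    linarith
  have h9 : ee G D W = ee G W D := ee_comm G D W
  rw [h9] at h8
  have h10 : ε * (m : ℝ) ^ 2 ≤ ζ * m ^ 2 := mul_le_mul_of_nonneg_right hε (by positivity)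
  nlinarith

private theorem corea_M_le {r m : ℕ} (hR : 2 ≤ R) (hG : Ctx G R r m)
    (hw : ∀ i j, i ≠ j → G.Adj (w i) (w j)) {ε ζ : ℝ}
    (hr : (r : ℝ) ≤ ζ * m) (hζ : 0 < ζ) (hζ1 : ζ ≤ 1) (hε : ε ≤ ζ)
    (hgood : ∀ i, Good G R m ε (w i))
    (hlow : ∀ i, (1 - 2 * R * ζ) * m ≤ ((coreaS G w i).card : ℝ)) (k l : Fin (R + 1))
    (hkl : k ≠ l) : coreaM G w k l ≤ 15 * R ^ 3 * ζ * m ^ 2 := by
  obtain ⟨i, hi⟩ : ((univ.erase k).erase l).Nonempty := by
    rw [← Finset.card_pos, Finset.card_erase_of_mem (Finset.mem_erase.2 ⟨hkl.symm, Finset.mem_univ _⟩),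
      Finset.card_erase_of_mem (Finset.mem_univ _), Finset.card_univ, Fintype.card_fin]
    omega
  rw [Finset.mem_erase, Finset.mem_erase] at hi
  obtain ⟨hil, hik, -⟩ := hi
  set W := rest (coreaS G w) i with hW
  have hsub : ∀ k', k' ≠ i → coreaS G w k' ⊆ W := by
    intro k' hk' z hz
    exact (mem_rest _).2 ⟨k', hk', hz⟩
  -- the pointwise bound
  have hpt : ∀ k' ∈ univ.erase i, ∀ z ∈ coreaS G w k',
      ((nb G z W).card : ℝ) + (coreaS G w k').card +
        (if k' = k then ((coreaS G w l \ nb G z (coreaS G w l)).card : ℝ) else 0) ≤ W.card := by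
    intro k' hk' z hz
    have hk'i : k' ≠ i := (Finset.mem_erase.1 hk').1
    by_cases hkk : k' = k
    · subst hkk
      rw [if_pos rfl]
      have h1 : Disjoint (nb G z W ∪ coreaS G w k') (coreaS G w l \ nb G z (coreaS G w l)) := by
        rw [Finset.disjoint_left]
        intro x hx hx'
        rw [Finset.mem_sdiff, mem_nb] at hx'
        rw [Finset.mem_union, mem_nb] at hx
        rcases hx with hx | hx
        · exact hx'.2 ⟨hx'.1, hx.2⟩
        · exact Finset.disjoint_left.1 (corea_disj G hG.cf hw k' l hkl) hx hx'.1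
      have h2 : Disjoint (nb G z W) (coreaS G w k') := by
        rw [Finset.disjoint_left]
        intro x hx hx'
        rw [mem_nb] at hx
        exact corea_indep G hG.cf hw k' z x hz hx' hx.2
      have h3 : (nb G z W ∪ coreaS G w k') ∪ (coreaS G w l \ nb G z (coreaS G w l)) ⊆ W := by
        refine Finset.union_subset (Finset.union_subset ?_ (hsub k' hk'i)) ?_
        · intro x hx
          exact ((mem_nb G).1 hx).1
        · exact (Finset.sdiff_subset).trans (hsub l hil.symm)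
      have h4 := Finset.card_le_card h3
      rw [Finset.card_union_of_disjoint h1, Finset.card_union_of_disjoint h2] at h4
      exact_mod_cast h4
    · rw [if_neg hkk, add_zero]
      have h2 : Disjoint (nb G z W) (coreaS G w k') := by
        rw [Finset.disjoint_left]
        intro x hx hx'
        rw [mem_nb] at hx
        exact corea_indep G hG.cf hw k' z x hz hx' hx.2
      have h3 : nb G z W ∪ coreaS G w k' ⊆ W := by
        refine Finset.union_subset ?_ (hsub k' hk'i)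
        intro x hx
        exact ((mem_nb G).1 hx).1
      have h4 := Finset.card_le_card h3
      rw [Finset.card_union_of_disjoint h2] at h4
      exact_mod_cast h4
  -- summing up
  have hsum : (ee G W W : ℝ) + ∑ k' ∈ univ.erase i, ((coreaS G w k').card : ℝ) ^ 2 +
      coreaM G w k l ≤ (W.card : ℝ) ^ 2 := by
    have hdd : (↑(univ.erase i) : Set (Fin (R + 1))).PairwiseDisjoint (coreaS G w) :=
      fun a _ b _ hab => corea_disj G hG.cf hw a b hab
    have e1 : (ee G W W : ℝ) = ∑ k' ∈ univ.erase i, ∑ z ∈ coreaS G w k', ((nb G z W).card : ℝ) := by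
      unfold ee
      push_cast
      rw [hW]
      conv_lhs => rw [rest]
      rw [Finset.sum_biUnion hdd]
      rfl
    have e2 : coreaM G w k l = ∑ k' ∈ univ.erase i, ∑ z ∈ coreaS G w k',
        (if k' = k then ((coreaS G w l \ nb G z (coreaS G w l)).card : ℝ) else 0) := by
      rw [Finset.sum_eq_single_of_mem k (Finset.mem_erase.2 ⟨hik.symm, Finset.mem_univ _⟩)]
      · simp only [if_true]
        rfl
      · intro b _ hb
        simp only [if_neg hb, Finset.sum_const_zero]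
    have e3 : ∑ k' ∈ univ.erase i, ((coreaS G w k').card : ℝ) ^ 2 =
        ∑ k' ∈ univ.erase i, ∑ z ∈ coreaS G w k', ((coreaS G w k').card : ℝ) := by
      refine Finset.sum_congr rfl fun k' _ => ?_
      rw [Finset.sum_const, nsmul_eq_mul, sq]
    rw [e1, e2, e3, ← Finset.sum_add_distrib, ← Finset.sum_add_distrib]
    calc _ ≤ ∑ k' ∈ univ.erase i, ((coreaS G w k').card : ℝ) * W.card := by
          refine Finset.sum_le_sum fun k' hk' => ?_
          rw [← Finset.sum_add_distrib, ← Finset.sum_add_distrib]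
          refine (Finset.sum_le_card_nsmul _ _ (W.card : ℝ) fun z hz => hpt k' hk' z hz).trans ?_
          rw [nsmul_eq_mul]
      _ = (W.card : ℝ) ^ 2 := by
          rw [← Finset.sum_mul, ← corea_rest_card G hG.cf hw i, sq]
  have hcs : ((W.card : ℝ)) ^ 2 ≤ R * ∑ k' ∈ univ.erase i, ((coreaS G w k').card : ℝ) ^ 2 := by
    have h1 := sq_sum_le_card_mul_sum_sq (s := univ.erase i)
      (f := fun k' => ((coreaS G w k').card : ℝ))
    rw [Finset.card_erase_of_mem (Finset.mem_univ _), Finset.card_univ,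
        Fintype.card_fin, Nat.add_sub_cancel] at h1
    rw [corea_rest_card G hG.cf hw i]
    exact h1
  have hee := corea_ee_lower G hR hG hw hr hζ hζ1 hε hgood hlow i
  rw [← hW] at hee
  have hWle : (W.card : ℝ) ≤ (R + ζ) * m := by
    have := corea_rest_le G hG (w := w) i
    linarith
  have hW0 : (0 : ℝ) ≤ W.card := Nat.cast_nonneg _
  have hm : (0 : ℝ) ≤ m := Nat.cast_nonneg m
  have hR' : (2 : ℝ) ≤ R := by exact_mod_cast hR
  have hW2 : (W.card : ℝ) ^ 2 ≤ (R + ζ) ^ 2 * m ^ 2 := by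
    rw [← mul_pow]
    exact pow_le_pow_left₀ hW0 hWle 2
  -- R * M ≤ (R-1) |W|^2 - R ee
  have hfin : (R : ℝ) * coreaM G w k l ≤ R * (15 * R ^ 3 * ζ * m ^ 2) := by
    have h1 : (R : ℝ) * coreaM G w k l ≤ (R - 1) * (W.card : ℝ) ^ 2 - R * (ee G W W : ℝ) := by
      nlinarith
    have h2 : (R - 1) * (W.card : ℝ) ^ 2 ≤ (R - 1) * ((R + ζ) ^ 2 * m ^ 2) :=
      mul_le_mul_of_nonneg_left hW2 (by linarith)
    have h3 : (R : ℝ) * (((R : ℝ) * (R - 1) - ζ) * m ^ 2 - 6 * R ^ 2 * ζ * (R + ζ) * m ^ 2) ≤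
        R * (ee G W W : ℝ) := mul_le_mul_of_nonneg_left hee (by linarith)
    have h4 : (R - 1) * ((R + ζ) ^ 2) - (R : ℝ) * (((R : ℝ) * (R - 1) - ζ) - 6 * R ^ 2 * ζ * (R + ζ))
        ≤ R * (15 * R ^ 3 * ζ) := by
      have e : (R - 1) * (((R : ℝ) + ζ) ^ 2) -
          (R : ℝ) * (((R : ℝ) * (R - 1) - ζ) - 6 * R ^ 2 * ζ * (R + ζ)) =
          ζ * ((R - 1) * (2 * R + ζ) + R + 6 * R ^ 3 * (R + ζ)) := by ring
      rw [e]
      have : (R - 1) * (2 * R + ζ) + R + 6 * R ^ 3 * (R + ζ) ≤ 15 * (R : ℝ) ^ 4 := by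
        have hz1 : (R - 1) * (2 * R + ζ) ≤ (R - 1) * (2 * R + 1) :=
          mul_le_mul_of_nonneg_left (by linarith) (by linarith)
        have hz2 : 6 * (R : ℝ) ^ 3 * (R + ζ) ≤ 6 * R ^ 3 * (R + 1) :=
          mul_le_mul_of_nonneg_left (by linarith) (by positivity)
        have hR2 : (4 : ℝ) ≤ R ^ 2 := by nlinarith
        have hR3 : 2 * (R : ℝ) ^ 3 ≤ R ^ 4 := by
          have : (0 : ℝ) ≤ R ^ 3 := by positivity
          nlinarith
        have hR4 : 4 * (R : ℝ) ^ 2 ≤ R ^ 4 := by nlinarith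
        nlinarith
      nlinarith
    have h5 := mul_le_mul_of_nonneg_right h4 (by positivity : (0 : ℝ) ≤ (m : ℝ) ^ 2)
    nlinarith
  exact le_of_mul_le_mul_left hfin (by linarith)

private theorem corea_ms {B : ℝ} (hM : ∀ k l : Fin (R + 1), k ≠ l → coreaM G w k l ≤ B) :
    ((∑ i, ∑ z ∈ coreaS G w i, ms G (coreaS G w) i z : ℕ) : ℝ) ≤ (R + 1) * (R * B) := by
  have h1 : ∀ k : Fin (R + 1), ((∑ z ∈ coreaS G w k, ms G (coreaS G w) k z : ℕ) : ℝ) ≤ R * B := by
    intro k
    have h2 : ∀ z, (ms G (coreaS G w) k z : ℝ) ≤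
        ∑ l ∈ univ.erase k, ((coreaS G w l \ nb G z (coreaS G w l)).card : ℝ) := by
      intro z
      have h3 : rest (coreaS G w) k \ nb G z (rest (coreaS G w) k) ⊆
          (univ.erase k).biUnion (fun l => coreaS G w l \ nb G z (coreaS G w l)) := by
        intro x hx
        rw [Finset.mem_sdiff, mem_nb] at hx
        obtain ⟨l, hl, hxl⟩ := (mem_rest _).1 hx.1
        rw [Finset.mem_biUnion]
        refine ⟨l, Finset.mem_erase.2 ⟨hl, Finset.mem_univ _⟩, ?_⟩
        rw [Finset.mem_sdiff, mem_nb]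
        exact ⟨hxl, fun h => hx.2 ⟨hx.1, h.2⟩⟩
      have h4 := (Finset.card_le_card h3).trans Finset.card_biUnion_le
      unfold ms
      exact_mod_cast h4
    push_cast
    calc ∑ z ∈ coreaS G w k, (ms G (coreaS G w) k z : ℝ)
        ≤ ∑ z ∈ coreaS G w k, ∑ l ∈ univ.erase k,
          ((coreaS G w l \ nb G z (coreaS G w l)).card : ℝ) :=
          Finset.sum_le_sum fun z _ => h2 z
      _ = ∑ l ∈ univ.erase k, coreaM G w k l := by
          rw [Finset.sum_comm]
          rfl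
      _ ≤ R * B := by
          refine (Finset.sum_le_card_nsmul _ _ B fun l hl => ?_).trans ?_
          · exact hM k l (Finset.mem_erase.1 hl).1.symm
          · rw [nsmul_eq_mul, Finset.card_erase_of_mem (Finset.mem_univ _), Finset.card_univ,
              Fintype.card_fin, Nat.add_sub_cancel]
  rw [Nat.cast_sum]
  refine (Finset.sum_le_card_nsmul _ _ (R * B) fun k _ => h1 k).trans ?_
  rw [nsmul_eq_mul, Finset.card_univ, Fintype.card_fin]
  push_cast
  exact le_rfl

end corea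

theorem coreA (R r : ℕ) (hR : 2 ≤ R) (ζ : ℝ) (hζ : 0 < ζ) :
    ∃ ε : ℝ, 0 < ε ∧ ∃ m0 : ℕ, ∀ m : ℕ, m0 ≤ m →
      ∀ (α : Type) [Fintype α] [DecidableEq α] (G : SimpleGraph α), Ctx G R r m →
        ∀ v, Good G R m ε v → ((nb G v (Bad G R m ε)).card : ℝ) ≤ ε * m →
          ∃ S : Fin (R + 1) → Finset α, (∀ i j, i ≠ j → Disjoint (S i) (S j)) ∧
            v ∈ S 0 ∧ (∀ u ∈ rest S 0, G.Adj v u) ∧
            (∀ i, (1 - ζ) * m ≤ ((S i).card : ℝ) ∧ ((S i).card : ℝ) ≤ (1 + ζ) * m) ∧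
            ((∑ i, ∑ z ∈ S i, ms G S i z : ℕ) : ℝ) ≤ ζ * m ^ 2 := by
  have hR' : (2 : ℝ) ≤ R := by exact_mod_cast hR
  set δ : ℝ := min 1 ζ / (100 * R ^ 5) with hδdef
  have hR5 : (0 : ℝ) < 100 * R ^ 5 := by positivity
  have hmin : 0 < min 1 ζ := lt_min one_pos hζ
  have hδ : 0 < δ := div_pos hmin hR5
  have hδ5 : 100 * (R : ℝ) ^ 5 * δ = min 1 ζ := by
    rw [hδdef]; field_simp
  have hRpow : ∀ n : ℕ, n ≤ 5 → (R : ℝ) ^ n ≤ R ^ 5 := fun n hn =>
    pow_le_pow_right₀ (by linarith) hn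
  have hb : ∀ n : ℕ, n ≤ 5 → 100 * ((R : ℝ) ^ n * δ) ≤ min 1 ζ := by
    intro n hn
    rw [← hδ5]
    have := mul_le_mul_of_nonneg_right (hRpow n hn) hδ.le
    linarith
  have hb0 := hb 0 (by norm_num)
  have hb1 := hb 1 (by norm_num)
  have hb2 := hb 2 (by norm_num)
  rw [pow_zero, one_mul] at hb0
  rw [pow_one] at hb1
  have hm1 : min 1 ζ ≤ 1 := min_le_left _ _
  have hmζ : min 1 ζ ≤ ζ := min_le_right _ _
  obtain ⟨ε, hε, hεδ, m0, H⟩ := clq R r hR δ hδ (by linarith)
  refine ⟨ε, hε, max m0 (⌈(r : ℝ) / δ⌉₊), fun m hm α _ _ G hG v hv hbad => ?_⟩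
  obtain ⟨w, hw0, hgood, hadj, hcod⟩ := H m (le_trans (le_max_left _ _) hm) α G hG v hv hbad
  have hr : (r : ℝ) ≤ δ * m := by
    have h1 : ((⌈(r : ℝ) / δ⌉₊ : ℕ) : ℝ) ≤ m := by
      exact_mod_cast le_trans (le_max_right _ _) hm
    have h2 := (Nat.le_ceil ((r : ℝ) / δ)).trans h1
    rw [div_le_iff₀ hδ] at h2
    linarith
  have hδ1 : δ ≤ 1 := by linarith
  have hN : ∀ l, (R - δ) * m ≤ ((NN G (w l)).card : ℝ) := fun l =>
    corea_NN_lower G hR hG hεδ hδ hδ1 (w l) (hgood l)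
  have hlow := corea_lower G hR hG hr hδ hN hcod
  have hup := corea_upper G hR hG hadj hr hδ hlow
  have hM := corea_M_le G hR hG hadj hr hδ hδ1 hεδ hgood hlow
  have hms := corea_ms G hM
  have hm0 : (0 : ℝ) ≤ m := Nat.cast_nonneg m
  refine ⟨coreaS G w, corea_disj G hG.cf hadj, ?_, ?_, fun i => ⟨?_, ?_⟩, ?_⟩
  · rw [mem_coreaS, ← hw0]
    exact fun j hj => hadj 0 j hj.symm
  · intro u hu
    obtain ⟨j, hj, huj⟩ := (mem_rest _).1 hu
    rw [mem_coreaS] at huj
    rw [← hw0]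
    exact (huj 0 hj.symm).symm
  · refine le_trans (mul_le_mul_of_nonneg_right ?_ hm0) (hlow i)
    linarith
  · refine (hup i).trans (mul_le_mul_of_nonneg_right ?_ hm0)
    linarith
  · refine hms.trans ?_
    have h1 : ((R : ℝ) + 1) * (R * (15 * R ^ 3 * δ * m ^ 2)) ≤ 100 * (R : ℝ) ^ 5 * δ * m ^ 2 := by
      have h2 : ((R : ℝ) + 1) ≤ 2 * R := by linarith
      have h3 : (0 : ℝ) ≤ R * (15 * R ^ 3 * δ * m ^ 2) := by positivity
      have h4 := mul_le_mul_of_nonneg_right h2 h3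
      have h5 : (0 : ℝ) ≤ (R : ℝ) ^ 5 * δ * m ^ 2 := by positivity
      nlinarith
    rw [hδ5] at h1
    exact h1.trans (mul_le_mul_of_nonneg_right hmζ (by positivity))

end Pool.Agent.H11.TD
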