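import Pool.Agent.H11.TD.CoreA

/-!
# TD CoreB: every good vertex with few bad neighbours is in a core

`core_ex`: apply `coreA` with `ζ = η² / 4` (so `ζ ≤ η/4`), and put `V i = {z ∈ S i | ms G S i z ≤ √ζ m}`, `√ζ = η/2`.
The number of removed vertices (of all `S i` together) is at most `√ζ m` by Markov, so
`|V i| ≥ (1 - ζ - √ζ) m ≥ (1 - η) m`; `|V i| ≤ (1 + ζ) m`; `ms G V i z ≤ ms G S i z ≤ √ζ m ≤ η m` because
`rest V i ⊆ rest S i`; `v ∈ V 0` because `ms G S 0 v = 0`.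
-/

set_option autoImplicit false

open Finset

namespace Pool.Agent.H11.TD

theorem coreb_rest {α : Type} [DecidableEq α] {k : ℕ} {V S : Fin k → Finset α}
    (h : ∀ i, V i ⊆ S i) (i : Fin k) : rest V i ⊆ rest S i := by
  intro u hu
  unfold rest at hu ⊢
  rw [mem_biUnion] at hu ⊢
  obtain ⟨j, hj, hu⟩ := hu
  exact ⟨j, hj, h j hu⟩

theorem coreb_ms {α : Type} [Fintype α] [DecidableEq α] (G : SimpleGraph α) {k : ℕ}
    {V S : Fin k → Finset α} (h : ∀ i, V i ⊆ S i) (i : Fin k) (z : α) : ms G V i z ≤ ms G S i z := by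
  classical
  unfold ms
  apply card_le_card
  intro u hu
  rw [mem_sdiff] at hu ⊢
  refine ⟨coreb_rest h i hu.1, fun h2 => hu.2 ?_⟩
  unfold nb at h2 ⊢
  rw [mem_filter] at h2 ⊢
  exact ⟨hu.1, h2.2⟩

theorem core_ex (R r : ℕ) (hR : 2 ≤ R) (η : ℝ) (hη : 0 < η) (hη1 : η ≤ 1) :
    ∃ ε : ℝ, 0 < ε ∧ ∃ m0 : ℕ, ∀ m : ℕ, m0 ≤ m →
      ∀ (α : Type) [Fintype α] [DecidableEq α] (G : SimpleGraph α), Ctx G R r m →
        ∀ v, Good G R m ε v → ((nb G v (Bad G R m ε)).card : ℝ) ≤ ε * m →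
          ∃ V : Fin (R + 1) → Finset α, Core G R m η V ∧ v ∈ tot V := by
  classical
  obtain ⟨ε, hε, m0, h⟩ := coreA R r hR (η ^ 2 / 4) (by positivity)
  refine ⟨ε, hε, max m0 1, ?_⟩
  intro m hm α _ _ G hG v hv hb
  obtain ⟨S, hdisj, hv0, hadj, hcard, hsum⟩ := h m (le_trans (le_max_left _ _) hm) α G hG v hv hb
  have hm1 : (0 : ℝ) < m := by
    have : 0 < m := lt_of_lt_of_le Nat.one_pos (le_trans (le_max_right _ _) hm)
    exact_mod_cast this
  set V : Fin (R + 1) → Finset α := fun i => (S i).filter (fun z => (ms G S i z : ℝ) ≤ η / 2 * m)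
    with hV
  have hVS : ∀ i, V i ⊆ S i := fun i => filter_subset _ _
  -- the number of removed vertices
  have hrem : ∀ i, (((S i).filter (fun z => ¬ (ms G S i z : ℝ) ≤ η / 2 * m)).card : ℝ) ≤ η / 2 * m := by
    intro i
    have h1 : (((S i).filter (fun z => ¬ (ms G S i z : ℝ) ≤ η / 2 * m)).card : ℝ) * (η / 2 * m) ≤
        η ^ 2 / 4 * m ^ 2 := by
      calc (((S i).filter (fun z => ¬ (ms G S i z : ℝ) ≤ η / 2 * m)).card : ℝ) * (η / 2 * m)
          = ∑ z ∈ (S i).filter (fun z => ¬ (ms G S i z : ℝ) ≤ η / 2 * m), (η / 2 * m) := by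
            rw [sum_const, nsmul_eq_mul]
        _ ≤ ∑ z ∈ (S i).filter (fun z => ¬ (ms G S i z : ℝ) ≤ η / 2 * m), (ms G S i z : ℝ) := by
            refine sum_le_sum fun z hz => ?_
            rw [mem_filter, not_le] at hz
            exact hz.2.le
        _ ≤ ∑ z ∈ S i, (ms G S i z : ℝ) :=
            sum_le_sum_of_subset_of_nonneg (filter_subset _ _) fun _ _ _ => Nat.cast_nonneg _
        _ ≤ ∑ i, ∑ z ∈ S i, (ms G S i z : ℝ) :=
            single_le_sum (f := fun i => ∑ z ∈ S i, (ms G S i z : ℝ))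
              (fun j _ => sum_nonneg fun _ _ => Nat.cast_nonneg _) (mem_univ i)
        _ = ((∑ i, ∑ z ∈ S i, ms G S i z : ℕ) : ℝ) := by push_cast; rfl
        _ ≤ η ^ 2 / 4 * m ^ 2 := hsum
    have h2 : η ^ 2 / 4 * (m : ℝ) ^ 2 = (η / 2 * m) * (η / 2 * m) := by ring
    rw [h2] at h1
    exact le_of_mul_le_mul_right h1 (by positivity)
  have hsplit : ∀ i, ((V i).card : ℝ) +
      (((S i).filter (fun z => ¬ (ms G S i z : ℝ) ≤ η / 2 * m)).card : ℝ) = ((S i).card : ℝ) := by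
    intro i
    have := card_filter_add_card_filter_not (s := S i) (fun z => (ms G S i z : ℝ) ≤ η / 2 * m)
    exact_mod_cast this
  have hη2 : η ^ 2 / 4 ≤ η / 4 := by nlinarith
  refine ⟨V, ⟨?_, ?_, ?_, ?_⟩, ?_⟩
  · intro i j hij
    exact Disjoint.mono (hVS i) (hVS j) (hdisj i j hij)
  · intro i
    have h1 := hrem i
    have h2 := hsplit i
    have h3 := (hcard i).1
    nlinarith
  · intro i
    have h1 : ((V i).card : ℝ) ≤ ((S i).card : ℝ) := by exact_mod_cast card_le_card (hVS i)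
    have h3 := (hcard i).2
    nlinarith
  · intro i z hz
    have h1 : (ms G V i z : ℝ) ≤ (ms G S i z : ℝ) := by exact_mod_cast coreb_ms G hVS i z
    have h2 : (ms G S i z : ℝ) ≤ η / 2 * m := by
      rw [hV] at hz
      simp only [mem_filter] at hz
      exact hz.2
    nlinarith
  · unfold tot
    rw [mem_biUnion]
    refine ⟨0, mem_univ _, ?_⟩
    rw [hV]
    simp only [mem_filter]
    refine ⟨hv0, ?_⟩
    have h1 : ms G S 0 v = 0 := by
      unfold ms
      rw [card_eq_zero, sdiff_eq_empty_iff_subset]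
      intro u hu
      unfold nb
      rw [mem_filter]
      exact ⟨hu, hadj u hu⟩
    rw [h1]
    push_cast
    positivity

end Pool.Agent.H11.TD
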