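import Pool.Agent.H11.TD.Bas

/-!
# TD Des: ordered triangles of an almost complete multipartite graph; parity

`A i` disjoint independent sets.  `des`: a triangle in `tot A` has its vertices in three different parts.  For an
ordered triple `(a, b, c)` of vertices in three different parts let `x, y, z ∈ {0, 1}` be the indicators of
`ab, bc, ac` not adjacent; the triple is a triangle iff `(1-x)(1-y)(1-z) = 1`, and
`(1-x)(1-y)(1-z) ≤ 1 - x - y - z + x y + y z + x z`.  Sum over all triples, `N = ∑ |A i|`: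
* number of triples in different parts: `S6 (|A i|)`;
* `∑ x` = (ordered nonadjacent pairs `(a, b)` in different parts, times the number `N - a_i - a_j` of possible `c`)
  `= ∑_i ∑_{v ∈ A i} ms v (N - 2 a_i)`, the same for `y` and `z`;
* `∑ x z` (centre `a`): at most `∑_v ms v (ms v - 1)` (ordered pairs `b ≠ c` of non-neighbours), the same for `x y`, `y z`.

`ms_even`: `∑_i ∑_{v ∈ A i} ms G A i v` is the number of ordered nonadjacent pairs of vertices in different parts; the
involution `(a, b) ↦ (b, a)` has no fixed points, so the number is even.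
-/

set_option autoImplicit false

open Finset

namespace Pool.Agent.H11.TD

variable {α : Type} [Fintype α] [DecidableEq α] (G : SimpleGraph α) {k : ℕ}

open scoped Classical in
/-- same part -/
private noncomputable def desE (A : Fin k → Finset α) (v w : α) : ℝ :=
  if ∃ i, v ∈ A i ∧ w ∈ A i then 1 else 0

open scoped Classical in
/-- different parts, not adjacent -/
private noncomputable def desX (A : Fin k → Finset α) (v w : α) : ℝ :=
  if (¬ ∃ i, v ∈ A i ∧ w ∈ A i) ∧ ¬ G.Adj v w then 1 else 0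

open scoped Classical in
private noncomputable def desA (v w : α) : ℝ := if G.Adj v w then 1 else 0

private noncomputable def desD (v w : α) : ℝ := if v = w then 1 else 0

private lemma des_same {A : Fin k → Finset α} (hd : ∀ i j, i ≠ j → Disjoint (A i) (A j))
    {i j : Fin k} {v w : α} (hv : v ∈ A i) (hw : w ∈ A j) :
    (∃ i, v ∈ A i ∧ w ∈ A i) ↔ i = j := by
  have key : ∀ {i j : Fin k} {v : α}, v ∈ A i → v ∈ A j → i = j := by
    intro i j v h1 h2
    by_contra h
    exact Finset.disjoint_left.1 (hd i j h) h1 h2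
  constructor
  · rintro ⟨l, h1, h2⟩
    rw [key hv h1, key hw h2]
  · rintro rfl
    exact ⟨i, hv, hw⟩

open scoped Classical in
private lemma desE_eq {A : Fin k → Finset α} (hd : ∀ i j, i ≠ j → Disjoint (A i) (A j))
    {i j : Fin k} {v w : α} (hv : v ∈ A i) (hw : w ∈ A j) :
    desE A v w = if i = j then 1 else 0 := by
  unfold desE
  simp only [des_same hd hv hw]

open scoped Classical in
private lemma desX_eq {A : Fin k → Finset α} (hd : ∀ i j, i ≠ j → Disjoint (A i) (A j))
    {i j : Fin k} {v w : α} (hv : v ∈ A i) (hw : w ∈ A j) :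
    desX G A v w = if i ≠ j ∧ ¬ G.Adj v w then 1 else 0 := by
  unfold desX
  simp only [des_same hd hv hw, ne_eq]

private lemma des_pt {A : Fin k → Finset α} (hd : ∀ i j, i ≠ j → Disjoint (A i) (A j))
    (hi : ∀ i, ∀ u ∈ A i, ∀ v ∈ A i, ¬ G.Adj u v) {i j l : Fin k} {a b c : α}
    (ha : a ∈ A i) (hb : b ∈ A j) (hc : c ∈ A l) :
    desA G a b * (desA G a c * desA G b c) ≤
      1 - desE A a b - desE A b c - desE A a c + 2 * (desE A a b * desE A a c)
      - desX G A a b * (1 - desE A a c - desE A b c)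
      - desX G A b c * (1 - desE A b a - desE A c a)
      - desX G A a c * (1 - desE A a b - desE A c b)
      + desX G A a b * desX G A a c * (1 - desD b c)
      + desX G A b a * desX G A b c * (1 - desD a c)
      + desX G A c a * desX G A c b * (1 - desD a b) := by
  classical
  have hab : G.Adj a b → i ≠ j := fun h e => by subst e; exact hi i a ha b hb h
  have hac : G.Adj a c → i ≠ l := fun h e => by subst e; exact hi i a ha c hc h
  have hbc : G.Adj b c → j ≠ l := fun h e => by subst e; exact hi j b hb c hc h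
  have dab : a = b → i = j := fun e => by
    subst e; exact (des_same hd ha hb).1 ⟨i, ha, ha⟩
  have dac : a = c → i = l := fun e => by
    subst e; exact (des_same hd ha hc).1 ⟨i, ha, ha⟩
  have dbc : b = c → j = l := fun e => by
    subst e; exact (des_same hd hb hc).1 ⟨j, hb, hb⟩
  rw [desE_eq hd ha hb, desE_eq hd hb hc, desE_eq hd ha hc, desE_eq hd hb ha, desE_eq hd hc ha,
    desE_eq hd hc hb, desX_eq G hd ha hb, desX_eq G hd hb hc, desX_eq G hd ha hc,
    desX_eq G hd hb ha, desX_eq G hd hc ha, desX_eq G hd hc hb]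
  unfold desA desD
  rw [G.adj_comm b a, G.adj_comm c a, G.adj_comm c b]
  by_cases h1 : i = j
  · subst h1
    have n1 : ¬ G.Adj a b := fun h => hab h rfl
    by_cases h2 : i = l
    · subst h2
      have n2 : ¬ G.Adj a c := fun h => hac h rfl
      have n3 : ¬ G.Adj b c := fun h => hbc h rfl
      simp [n1, n2, n3]
      norm_num
    · have h2' : ¬ l = i := fun h => h2 h.symm
      simp [n1, h2, h2']
      split_ifs <;> norm_num
  · have h1' : ¬ j = i := fun h => h1 h.symm
    have m1 : ¬ a = b := fun h => h1 (dab h)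
    by_cases h2 : i = l
    · subst h2
      have n2 : ¬ G.Adj a c := fun h => hac h rfl
      simp [n2, h1, h1', m1]
      split_ifs <;> norm_num
    · have h2' : ¬ l = i := fun h => h2 h.symm
      have m2 : ¬ a = c := fun h => h2 (dac h)
      by_cases h3 : j = l
      · subst h3
        have n3 : ¬ G.Adj b c := fun h => hbc h rfl
        simp [n3, h1, h1', m1, m2]
        split_ifs <;> norm_num
      · have h3' : ¬ l = j := fun h => h3 h.symm
        have m3 : ¬ b = c := fun h => h3 (dbc h)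
        simp only [h1, h1', h2, h2', h3, h3', m1, m2, m3, if_false, ne_eq, not_false_eq_true,
          true_and]
        split_ifs <;> norm_num

private lemma des_perm1 (S : Finset α) (F : α → α → α → ℝ) :
    ∑ a ∈ S, ∑ b ∈ S, ∑ c ∈ S, F a c b = ∑ a ∈ S, ∑ b ∈ S, ∑ c ∈ S, F a b c :=
  sum_congr rfl fun _ _ => sum_comm

private lemma des_perm2 (S : Finset α) (F : α → α → α → ℝ) :
    ∑ a ∈ S, ∑ b ∈ S, ∑ c ∈ S, F b a c = ∑ a ∈ S, ∑ b ∈ S, ∑ c ∈ S, F a b c := sum_comm

private lemma des_perm3 (S : Finset α) (F : α → α → α → ℝ) :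
    ∑ a ∈ S, ∑ b ∈ S, ∑ c ∈ S, F b c a = ∑ a ∈ S, ∑ b ∈ S, ∑ c ∈ S, F a b c := by
  rw [des_perm2 S (fun b a c => F b c a), des_perm1 S F]

private lemma des_perm4 (S : Finset α) (F : α → α → α → ℝ) :
    ∑ a ∈ S, ∑ b ∈ S, ∑ c ∈ S, F c a b = ∑ a ∈ S, ∑ b ∈ S, ∑ c ∈ S, F a b c := by
  rw [des_perm1 S (fun a c b => F c a b), des_perm2 S F]

private lemma des_t3 (S : Finset α) : (t3 G S : ℝ) =
    ∑ a ∈ S, ∑ b ∈ S, ∑ c ∈ S, desA G a b * (desA G a c * desA G b c) := by
  classical
  unfold t3 ee nb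
  push_cast
  refine sum_congr rfl fun a _ => ?_
  rw [sum_filter]
  refine sum_congr rfl fun b _ => ?_
  rw [card_filter, sum_filter]
  push_cast
  unfold desA
  by_cases h : G.Adj a b
  · rw [if_pos h]
    refine sum_congr rfl fun c _ => ?_
    rw [if_pos h, one_mul]
    split_ifs <;> simp
  · rw [if_neg h]
    refine (sum_eq_zero fun c _ => ?_).symm
    rw [if_neg h, zero_mul]

private lemma des_sum {A : Fin k → Finset α} (hd : ∀ i j, i ≠ j → Disjoint (A i) (A j))
    (f : α → ℝ) : ∑ v ∈ tot A, f v = ∑ i, ∑ v ∈ A i, f v := by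
  unfold tot
  exact sum_biUnion fun i _ j _ hij => hd i j hij

private lemma des_sE {A : Fin k → Finset α} (hd : ∀ i j, i ≠ j → Disjoint (A i) (A j))
    {i : Fin k} {a : α} (ha : a ∈ A i) : ∑ b ∈ tot A, desE A a b = (A i).card := by
  rw [des_sum hd, sum_eq_single i]
  · rw [sum_congr rfl fun b hb => desE_eq hd ha hb]
    simp
  · intro j _ hj
    refine sum_eq_zero fun b hb => ?_
    rw [desE_eq hd ha hb, if_neg (Ne.symm hj)]
  · intro h
    exact absurd (mem_univ i) h

private lemma des_sX {A : Fin k → Finset α} (hd : ∀ i j, i ≠ j → Disjoint (A i) (A j))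
    {i : Fin k} {a : α} (ha : a ∈ A i) : ∑ b ∈ tot A, desX G A a b = ms G A i a := by
  classical
  have h1 : ∀ b ∈ tot A, desX G A a b =
      if b ∈ rest A i \ nb G a (rest A i) then (1 : ℝ) else 0 := by
    intro b hb
    obtain ⟨j, hj⟩ := (mem_tot A).1 hb
    rw [desX_eq G hd ha hj]
    have h2 : (i ≠ j ∧ ¬ G.Adj a b) ↔ b ∈ rest A i \ nb G a (rest A i) := by
      rw [mem_sdiff, mem_nb, mem_rest]
      constructor
      · rintro ⟨h3, h4⟩
        exact ⟨⟨j, Ne.symm h3, hj⟩, fun h5 => h4 h5.2⟩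
      · rintro ⟨⟨l, hl, hbl⟩, h4⟩
        have hlj : l = j := by
          by_contra h
          exact Finset.disjoint_left.1 (hd l j h) hbl hj
        subst hlj
        exact ⟨Ne.symm hl, fun h5 => h4 ⟨⟨l, hl, hbl⟩, h5⟩⟩
    simp only [h2]
  rw [sum_congr rfl h1, ← sum_filter]
  unfold ms
  have h3 : (tot A).filter (fun b => b ∈ rest A i \ nb G a (rest A i)) =
      rest A i \ nb G a (rest A i) := by
    ext b
    rw [mem_filter]
    constructor
    · exact fun h => h.2
    · intro h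
      refine ⟨?_, h⟩
      rw [mem_sdiff, mem_rest] at h
      obtain ⟨⟨j, _, hj⟩, _⟩ := h
      exact (mem_tot A).2 ⟨j, hj⟩
  rw [h3, sum_const, nsmul_eq_mul, mul_one]

private lemma desX_symm (A : Fin k → Finset α) (a b : α) : desX G A a b = desX G A b a := by
  classical
  have h1 : (∃ i, a ∈ A i ∧ b ∈ A i) ↔ ∃ i, b ∈ A i ∧ a ∈ A i := by
    constructor <;> rintro ⟨i, h, h'⟩ <;> exact ⟨i, h', h⟩
  have h2 : ((¬ ∃ i, a ∈ A i ∧ b ∈ A i) ∧ ¬ G.Adj a b) ↔
      ((¬ ∃ i, b ∈ A i ∧ a ∈ A i) ∧ ¬ G.Adj b a) := by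
    rw [h1, G.adj_comm a b]
  unfold desX
  by_cases h : (¬ ∃ i, a ∈ A i ∧ b ∈ A i) ∧ ¬ G.Adj a b
  · rw [if_pos h, if_pos (h2.1 h)]
  · rw [if_neg h, if_neg (fun h' => h (h2.2 h'))]

private lemma desX_sq (A : Fin k → Finset α) (a b : α) :
    desX G A a b * desX G A a b = desX G A a b := by
  unfold desX
  split_ifs <;> simp

theorem des (A : Fin k → Finset α) (hd : ∀ i j, i ≠ j → Disjoint (A i) (A j))
    (hi : ∀ i, ∀ u ∈ A i, ∀ v ∈ A i, ¬ G.Adj u v) :
    (t3 G (tot A) : ℝ) ≤ S6 (fun i => ((A i).card : ℝ)) -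
      ∑ i, ∑ v ∈ A i, (3 * (ms G A i v : ℝ) * ((∑ j, ((A j).card : ℝ)) - 2 * (A i).card) -
        3 * (ms G A i v : ℝ) * ((ms G A i v : ℝ) - 1)) := by
  classical
  set S := tot A with hS
  set N : ℝ := ∑ j, ((A j).card : ℝ) with hN
  have hNS : ∑ _a ∈ S, (1 : ℝ) = N := by
    rw [hS, des_sum hd, hN]
    simp
  set s : α → ℝ := fun a => ∑ c ∈ S, desE A a c with hs
  set μ : α → ℝ := fun a => ∑ b ∈ S, desX G A a b with hμ
  -- basic sums
  have hE2 : ∑ a ∈ S, s a = ∑ i, ((A i).card : ℝ) ^ 2 := by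
    rw [hS, des_sum hd]
    refine sum_congr rfl fun i _ => ?_
    rw [sum_congr rfl fun a ha => des_sE hd ha, sum_const, nsmul_eq_mul, sq]
  have hE3 : ∑ a ∈ S, s a ^ 2 = ∑ i, ((A i).card : ℝ) ^ 3 := by
    rw [hS, des_sum hd]
    refine sum_congr rfl fun i _ => ?_
    have h1 : ∀ a ∈ A i, s a ^ 2 = ((A i).card : ℝ) ^ 2 := fun a ha => by
      simp only [hs]
      rw [des_sE hd ha]
    rw [sum_congr rfl h1, sum_const, nsmul_eq_mul]
    ring
  have T1 : ∑ _a ∈ S, ∑ _b ∈ S, ∑ _c ∈ S, (1 : ℝ) = N ^ 3 := by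
    have h1 : ∀ x : ℝ, ∑ _a ∈ S, x = N * x := by
      intro x
      rw [← hNS, sum_mul]
      simp
    rw [hNS, h1, h1]
    ring
  have hconst : ∀ x : ℝ, ∑ _a ∈ S, x = N * x := by
    intro x
    rw [← hNS, sum_mul]
    simp
  have T2 : ∑ a ∈ S, ∑ b ∈ S, ∑ _c ∈ S, desE A a b = N * ∑ i, ((A i).card : ℝ) ^ 2 := by
    rw [← hE2, mul_sum]
    refine sum_congr rfl fun a _ => ?_
    simp only [hs]
    rw [mul_sum]
    exact sum_congr rfl fun b _ => hconst _
  have T3 : ∑ a ∈ S, ∑ b ∈ S, ∑ c ∈ S, desE A b c = N * ∑ i, ((A i).card : ℝ) ^ 2 := by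
    rw [des_perm3 S (fun a b _ => desE A a b), T2]
  have T4 : ∑ a ∈ S, ∑ _b ∈ S, ∑ c ∈ S, desE A a c = N * ∑ i, ((A i).card : ℝ) ^ 2 := by
    rw [des_perm1 S (fun a b _ => desE A a b), T2]
  have T5 : ∑ a ∈ S, ∑ b ∈ S, ∑ c ∈ S, desE A a b * desE A a c = ∑ i, ((A i).card : ℝ) ^ 3 := by
    rw [← hE3]
    refine sum_congr rfl fun a _ => ?_
    simp only [hs]
    rw [sq, sum_mul_sum]
  have T6 : ∑ a ∈ S, ∑ b ∈ S, ∑ c ∈ S, desX G A a b * (1 - desE A a c - desE A b c) =
      ∑ a ∈ S, μ a * (N - 2 * s a) := by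
    have h1 : ∀ a ∈ S, ∀ b ∈ S, ∑ c ∈ S, desX G A a b * (1 - desE A a c - desE A b c) =
        desX G A a b * (N - s a) - desX G A a b * s b := by
      intro a _ b _
      rw [← mul_sum, sum_sub_distrib, sum_sub_distrib, hNS]
      simp only [hs]
      ring
    rw [sum_congr rfl fun a ha => sum_congr rfl (h1 a ha)]
    simp_rw [sum_sub_distrib]
    have h2 : ∑ a ∈ S, ∑ b ∈ S, desX G A a b * (N - s a) = ∑ a ∈ S, μ a * (N - s a) := by
      refine sum_congr rfl fun a _ => ?_
      simp only [hμ]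
      rw [sum_mul]
    have h3 : ∑ a ∈ S, ∑ b ∈ S, desX G A a b * s b = ∑ a ∈ S, μ a * s a := by
      rw [sum_comm]
      refine sum_congr rfl fun b _ => ?_
      simp only [hμ]
      rw [sum_mul]
      exact sum_congr rfl fun a _ => by rw [desX_symm G A a b]
    rw [h2, h3, ← sum_sub_distrib]
    refine sum_congr rfl fun a _ => ?_
    ring
  have T7 : ∑ a ∈ S, ∑ b ∈ S, ∑ c ∈ S, desX G A b c * (1 - desE A b a - desE A c a) =
      ∑ a ∈ S, μ a * (N - 2 * s a) := by
    rw [des_perm3 S (fun a b c => desX G A a b * (1 - desE A a c - desE A b c)), T6]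
  have T8 : ∑ a ∈ S, ∑ b ∈ S, ∑ c ∈ S, desX G A a c * (1 - desE A a b - desE A c b) =
      ∑ a ∈ S, μ a * (N - 2 * s a) := by
    rw [des_perm1 S (fun a b c => desX G A a b * (1 - desE A a c - desE A b c)), T6]
  have T9 : ∑ a ∈ S, ∑ b ∈ S, ∑ c ∈ S, desX G A a b * desX G A a c * (1 - desD b c) =
      ∑ a ∈ S, μ a * (μ a - 1) := by
    refine sum_congr rfl fun a _ => ?_
    have h1 : ∀ b ∈ S, ∑ c ∈ S, desX G A a b * desX G A a c * (1 - desD b c) =
        desX G A a b * μ a - desX G A a b := by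
      intro b hb
      have h2 : ∀ c ∈ S, desX G A a b * desX G A a c * (1 - desD b c) =
          desX G A a b * desX G A a c - (if b = c then desX G A a b else 0) := by
        intro c _
        unfold desD
        by_cases hbc : b = c
        · subst hbc
          rw [if_pos rfl, if_pos rfl, desX_sq]
          ring
        · rw [if_neg hbc, if_neg hbc]
          ring
      rw [sum_congr rfl h2, sum_sub_distrib, ← mul_sum, sum_ite_eq, if_pos hb]
    rw [sum_congr rfl h1, sum_sub_distrib, ← sum_mul]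
    simp only [hμ]
    ring
  have T10 : ∑ a ∈ S, ∑ b ∈ S, ∑ c ∈ S, desX G A b a * desX G A b c * (1 - desD a c) =
      ∑ a ∈ S, μ a * (μ a - 1) := by
    rw [des_perm2 S (fun a b c => desX G A a b * desX G A a c * (1 - desD b c)), T9]
  have T11 : ∑ a ∈ S, ∑ b ∈ S, ∑ c ∈ S, desX G A c a * desX G A c b * (1 - desD a b) =
      ∑ a ∈ S, μ a * (μ a - 1) := by
    rw [des_perm4 S (fun a b c => desX G A a b * desX G A a c * (1 - desD b c)), T9]
  have hmain : (t3 G S : ℝ) ≤ N ^ 3 - 3 * (N * ∑ i, ((A i).card : ℝ) ^ 2) +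
      2 * ∑ i, ((A i).card : ℝ) ^ 3 - 3 * (∑ a ∈ S, μ a * (N - 2 * s a)) +
      3 * (∑ a ∈ S, μ a * (μ a - 1)) := by
    rw [des_t3]
    have h1 : ∀ a ∈ S, ∀ b ∈ S, ∀ c ∈ S, desA G a b * (desA G a c * desA G b c) ≤
        1 - desE A a b - desE A b c - desE A a c + 2 * (desE A a b * desE A a c)
        - desX G A a b * (1 - desE A a c - desE A b c)
        - desX G A b c * (1 - desE A b a - desE A c a)
        - desX G A a c * (1 - desE A a b - desE A c b)
        + desX G A a b * desX G A a c * (1 - desD b c)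
        + desX G A b a * desX G A b c * (1 - desD a c)
        + desX G A c a * desX G A c b * (1 - desD a b) := by
      intro a ha b hb c hc
      obtain ⟨i, hai⟩ := (mem_tot A).1 ha
      obtain ⟨j, hbj⟩ := (mem_tot A).1 hb
      obtain ⟨l, hcl⟩ := (mem_tot A).1 hc
      exact des_pt G hd hi hai hbj hcl
    refine (sum_le_sum fun a ha => sum_le_sum fun b hb => sum_le_sum fun c hc =>
      h1 a ha b hb c hc).trans (le_of_eq ?_)
    simp_rw [sum_add_distrib, sum_sub_distrib, sum_add_distrib, sum_sub_distrib]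
    rw [T1, T2, T3, T4, T6, T7, T8, T9, T10, T11]
    have T5' : ∑ a ∈ S, ∑ b ∈ S, ∑ c ∈ S, 2 * (desE A a b * desE A a c) =
        2 * ∑ i, ((A i).card : ℝ) ^ 3 := by
      rw [← T5, mul_sum]
      refine sum_congr rfl fun a _ => ?_
      rw [mul_sum]
      refine sum_congr rfl fun b _ => ?_
      rw [mul_sum]
    rw [T5']
    ring
  have hF : ∑ i, ∑ v ∈ A i, (3 * (ms G A i v : ℝ) * (N - 2 * (A i).card) -
        3 * (ms G A i v : ℝ) * ((ms G A i v : ℝ) - 1)) =
      3 * (∑ a ∈ S, μ a * (N - 2 * s a)) - 3 * (∑ a ∈ S, μ a * (μ a - 1)) := by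
    rw [mul_sum, mul_sum, ← sum_sub_distrib]
    rw [hS, des_sum hd]
    refine sum_congr rfl fun i _ => sum_congr rfl fun v hv => ?_
    have e1 : μ v = ms G A i v := des_sX G hd hv
    have e2 : s v = (A i).card := des_sE hd hv
    rw [e1, e2]
    ring
  rw [hF]
  unfold S6
  linarith

theorem ms_even (A : Fin k → Finset α) (hd : ∀ i j, i ≠ j → Disjoint (A i) (A j)) :
    Even (∑ i, ∑ v ∈ A i, ms G A i v) := by
  classical
  set P : Finset (α × α) := (tot A ×ˢ tot A).filter
    (fun p => (¬ ∃ i, p.1 ∈ A i ∧ p.2 ∈ A i) ∧ ¬ G.Adj p.1 p.2) with hP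
  have h1 : ∑ i, ∑ v ∈ A i, ms G A i v = P.card := by
    have h2 : ((∑ i, ∑ v ∈ A i, ms G A i v : ℕ) : ℝ) = (P.card : ℝ) := by
      push_cast
      have h3 : ∀ i, ∀ v ∈ A i, (ms G A i v : ℝ) = ∑ b ∈ tot A, desX G A v b := fun i v hv =>
        (des_sX G hd hv).symm
      rw [sum_congr rfl fun i _ => sum_congr rfl (h3 i),
        ← des_sum hd (fun v => ∑ b ∈ tot A, desX G A v b), hP, card_filter, sum_product]
      push_cast
      rfl
    exact_mod_cast h2
  rw [h1]
  have h4 : ((P.card : ℕ) : ZMod 2) = 0 := by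
    have h5 : ∑ _p ∈ P, (1 : ZMod 2) = 0 := by
      refine Finset.sum_involution (fun p _ => (p.2, p.1)) ?_ ?_ ?_ ?_
      · intro p _
        decide
      · intro p hp _ h6
        rw [hP, mem_filter, mem_product] at hp
        obtain ⟨⟨h7, _⟩, h8, _⟩ := hp
        obtain ⟨i, hi⟩ := (mem_tot A).1 h7
        have h9 : p.2 = p.1 := congrArg Prod.fst h6
        exact h8 ⟨i, hi, by rw [h9]; exact hi⟩
      · intro p hp
        rw [hP, mem_filter, mem_product] at hp ⊢
        obtain ⟨⟨h7, h7'⟩, h8, h8'⟩ := hp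
        refine ⟨⟨h7', h7⟩, fun h9 => h8 ?_, fun h9 => h8' h9.symm⟩
        obtain ⟨i, h10, h11⟩ := h9
        exact ⟨i, h11, h10⟩
      · intro p _
        rfl
    rw [sum_const, nsmul_eq_mul, mul_one] at h5
    exact h5
  exact (ZMod.natCast_eq_zero_iff_even).1 h4

end Pool.Agent.H11.TD
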