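import Pool.Agent.H11.TD.Fami
import Pool.Agent.H11.TD.Des

/-!
# TD Dat: the numerical data of a cluster

`muV G A v = ∑ i, if v ∈ A i then ms G A i v else 0`, so `muV G A v = ms G A i v` for `v ∈ A i` (`A` disjoint).
`cluster_data`: for `V ∈ L` the data `A = hpt G m γ V`, `mu = muV G A`, `ex v = |nb v (HH L \ hull V)|`,
`jj v = |nb v (JJ L V)|`, `bb v = |nb v (BP L)|`, `J = JJ L V`, `B = BP L`, `U y = |nb y (hull V)|` satisfy `CD`:
* `size`: `hpt_size` (`(1 - η) m ≤ |A i| ≤ (1 + 5 R η) m`); `hmu`: `hpt_ms`;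
* `hex`: `HH L \ hull V` is disjoint from `hull V`, `hpt_ext`; `hJ`: `outer_J` (elements of `JJ` are outside `HH`);
* `rel`: `v ∈ A i`: `|NN v| ≥ |nb v (hull V)| + ex v + jj v + bb v` (the four sets `hull V`, `HH \ hull V`, `JJ V`, `BP` are
  disjoint: elements of `BP` have `< (11/20) R m` neighbours in `hull V`), `|nb v (hull V)| = |rest A i| - ms`
  (`hpt_indep`: no neighbour in `A i`; `nb_rest_card`), `|rest A i| = ∑ |A k| - |A i|` (`rest_card`), `|NN v| ≤ R m + r`;
* `sJ`, `sB`: double counting (`sum_nb_comm`), `hull V = tot A` is the disjoint union of the `A i`;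
* `UJ`: definition of `JJ`, `not_hull_deg`; `UB`: definition of `BP`; `ev`: `ms_even`.
-/

set_option autoImplicit false

open Finset

namespace Pool.Agent.H11.TD

variable {α : Type} [Fintype α] [DecidableEq α] (G : SimpleGraph α) {R r m : ℕ} {γ η : ℝ}

noncomputable def muV {k : ℕ} (A : Fin k → Finset α) (v : α) : ℕ :=
  ∑ i, if v ∈ A i then ms G A i v else 0

theorem muV_eq {k : ℕ} (A : Fin k → Finset α) (hd : ∀ i j, i ≠ j → Disjoint (A i) (A j))
    (i : Fin k) (v : α) (hv : v ∈ A i) : muV G A v = ms G A i v := by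
  unfold muV
  rw [Finset.sum_eq_single i]
  · rw [if_pos hv]
  · intro j _ hj
    rw [if_neg]
    intro hvj
    exact Finset.disjoint_left.1 (hd j i hj) hvj hv
  · intro h
    exact absurd (Finset.mem_univ i) h

private theorem dat_sum_tot {k : ℕ} (A : Fin k → Finset α)
    (hd : ∀ i j, i ≠ j → Disjoint (A i) (A j)) (f : α → ℝ) :
    ∑ i, ∑ v ∈ A i, f v = ∑ v ∈ tot A, f v := by
  unfold tot
  rw [Finset.sum_biUnion]
  intro i _ j _ hij
  exact hd i j hij

private theorem dat_comm {k : ℕ} (A : Fin k → Finset α)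
    (hd : ∀ i j, i ≠ j → Disjoint (A i) (A j)) (T : Finset α) :
    ∑ i, ∑ v ∈ A i, (((nb G v T).card : ℕ) : ℝ) = ∑ j ∈ T, ((nb G j (tot A)).card : ℝ) := by
  rw [dat_sum_tot A hd]
  have := sum_nb_comm G (tot A) T
  exact_mod_cast this

private theorem dat_four (v : α) (S1 S2 S3 S4 : Finset α) (h12 : Disjoint S1 S2)
    (h13 : Disjoint S1 S3) (h14 : Disjoint S1 S4) (h23 : Disjoint S2 S3) (h24 : Disjoint S2 S4)
    (h34 : Disjoint S3 S4) :
    (nb G v S1).card + (nb G v S2).card + (nb G v S3).card + (nb G v S4).card ≤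
      (NN G v).card := by
  have e : ∀ S T : Finset α, Disjoint S T → (nb G v S).card + (nb G v T).card =
      (nb G v (S ∪ T)).card := by
    intro S T h
    rw [nb_union, Finset.card_union_of_disjoint]
    rw [Finset.disjoint_left]
    intro a ha hb
    rw [mem_nb] at ha hb
    exact Finset.disjoint_left.1 h ha.1 hb.1
  rw [e S1 S2 h12, e (S1 ∪ S2) S3 (Finset.disjoint_union_left.2 ⟨h13, h23⟩),
    e (S1 ∪ S2 ∪ S3) S4 (Finset.disjoint_union_left.2 ⟨Finset.disjoint_union_left.2 ⟨h14, h24⟩, h34⟩)]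
  exact nb_card_le G v _

private theorem dat_rest_sub {k : ℕ} (A : Fin k → Finset α) (i : Fin k) : rest A i ⊆ tot A := by
  rw [← rest_union A i]
  exact Finset.subset_union_left

theorem cluster_data (hp : Par R r m γ η) (hG : Ctx G R r m)
    (L : Finset (Fin (R + 1) → Finset α)) (hL : Fam G R m γ η L) (V : Fin (R + 1) → Finset α)
    (hV : V ∈ L) : CD R r m γ η (hpt G m γ V) (muV G (hpt G m γ V))
      (fun v => (nb G v (HH G m γ L \ hull G m γ V)).card)
      (fun v => (nb G v (JJ G R m γ L V)).card) (fun v => (nb G v (BP G R m γ L)).card)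
      (JJ G R m γ L V) (BP G R m γ L) (fun y => ((nb G y (hull G m γ V)).card : ℝ)) := by
  have hC : Core G R m η V := hL.core V hV
  have hd : ∀ i j, i ≠ j → Disjoint (hpt G m γ V i) (hpt G m γ V j) :=
    fun i j hij => hpt_disj G hp hG hC i j hij
  have hm0 : (0 : ℝ) ≤ m := Nat.cast_nonneg m
  have hη := hp.hη
  have hR4 : (4 : ℝ) ≤ R := by exact_mod_cast hp.hR
  have hsub : hull G m γ V ⊆ HH G m γ L := by
    intro y hy
    unfold HH
    rw [Finset.mem_biUnion]
    exact ⟨V, hV, hy⟩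
  have hJmem : ∀ y ∈ JJ G R m γ L V, y ∉ HH G m γ L ∧
      (11 / 20 : ℝ) * R * m ≤ ((nb G y (hull G m γ V)).card : ℝ) := by
    intro y hy
    unfold JJ at hy
    rw [Finset.mem_filter, Finset.mem_sdiff] at hy
    exact ⟨hy.1.2, hy.2⟩
  have hBmem : ∀ y ∈ BP G R m γ L, y ∉ HH G m γ L ∧
      ∀ V ∈ L, ((nb G y (hull G m γ V)).card : ℝ) < (11 / 20 : ℝ) * R * m := by
    intro y hy
    unfold BP at hy
    rw [Finset.mem_filter, Finset.mem_sdiff] at hy
    exact ⟨hy.1.2, hy.2⟩
  have hhull : ∀ i, ∀ v ∈ hpt G m γ V i, v ∈ hull G m γ V := by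
    intro i v hv
    unfold hull
    rw [mem_tot]
    exact ⟨i, hv⟩
  refine
    { size := ?_
      hmu := ?_
      hex := ?_
      hJ := ?_
      hjj := ?_
      rel := ?_
      sJ := ?_
      sB := ?_
      UJ := ?_
      UB := ?_
      ev := ?_ }
  · intro i
    obtain ⟨h1, h2⟩ := hpt_size G hp hG hC i
    have h3 : 0 ≤ η * m := mul_nonneg hη.le hm0
    rw [abs_le]
    constructor
    · nlinarith
    · linarith
  · intro i v hv
    rw [muV_eq G _ hd i v hv]
    exact hpt_ms G hp hG hC i v hv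
  · intro i v hv
    refine le_trans ?_ (hpt_ext G hp hG hC v (hhull i v hv))
    have : nb G v (HH G m γ L \ hull G m γ V) ⊆ NN G v \ hull G m γ V := by
      intro u hu
      rw [mem_nb, Finset.mem_sdiff] at hu
      rw [Finset.mem_sdiff, mem_NN]
      exact ⟨hu.2, hu.1.2⟩
    exact_mod_cast Finset.card_le_card this
  · exact outer_J G hp hG hC _ (fun y hy => ⟨fun h => (hJmem y hy).1 (hsub h), (hJmem y hy).2⟩)
  · intro i v _
    exact nb_card_le' G v _
  · intro i v hv
    rw [muV_eq G _ hd i v hv]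
    have h1 := nb_rest_card G (hpt G m γ V) i v
    have h2 := rest_card (hpt G m γ V) hd i
    have h3 := hG.deg v
    have hrs : rest (hpt G m γ V) i ⊆ hull G m γ V := dat_rest_sub _ i
    have h4 := dat_four G v (rest (hpt G m γ V) i) (HH G m γ L \ hull G m γ V)
      (JJ G R m γ L V) (BP G R m γ L)
      (Finset.disjoint_left.2 fun y hy hy' => (Finset.mem_sdiff.1 hy').2 (hrs hy))
      (Finset.disjoint_left.2 fun y hy hy' => (hJmem y hy').1 (hsub (hrs hy)))
      (Finset.disjoint_left.2 fun y hy hy' => (hBmem y hy').1 (hsub (hrs hy)))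
      (Finset.disjoint_left.2 fun y hy hy' => (hJmem y hy').1 (Finset.mem_sdiff.1 hy).1)
      (Finset.disjoint_left.2 fun y hy hy' => (hBmem y hy').1 (Finset.mem_sdiff.1 hy).1)
      (Finset.disjoint_left.2 fun y hy hy' => absurd (hJmem y hy).2
        (not_le.2 ((hBmem y hy').2 V hV)))
    have h5 : (∑ k, ((hpt G m γ V k).card : ℤ)) =
        ((rest (hpt G m γ V) i).card : ℤ) + (hpt G m γ V i).card := by
      exact_mod_cast h2.symm
    rw [h5]
    have h6 : (((rest (hpt G m γ V) i).card : ℕ) : ℤ) =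
        (nb G v (rest (hpt G m γ V) i)).card + ms G (hpt G m γ V) i v := by
      exact_mod_cast h1.symm
    rw [h6]
    have h7 : ((nb G v (rest (hpt G m γ V) i)).card : ℤ) +
        (nb G v (HH G m γ L \ hull G m γ V)).card + (nb G v (JJ G R m γ L V)).card +
        (nb G v (BP G R m γ L)).card ≤ R * m + r := by
      exact_mod_cast h4.trans h3
    have h8 : ((R : ℤ) + 1) * m = R * m + m := by ring
    rw [h8]
    linarith
  · exact dat_comm G _ hd _
  · exact dat_comm G _ hd _
  · intro y hy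
    exact ⟨(hJmem y hy).2, not_hull_deg G hp hG hC y fun h => (hJmem y hy).1 (hsub h)⟩
  · intro y hy
    exact ⟨Nat.cast_nonneg _, ((hBmem y hy).2 V hV).le⟩
  · have h1 : ∑ i, ∑ v ∈ hpt G m γ V i, muV G (hpt G m γ V) v =
        ∑ i, ∑ v ∈ hpt G m γ V i, ms G (hpt G m γ V) i v :=
      Finset.sum_congr rfl fun i _ => Finset.sum_congr rfl fun v hv => muV_eq G _ hd i v hv
    rw [h1]
    exact ms_even G _ hd

end Pool.Agent.H11.TD
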