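import Mathlib

/-!
# PROJECT TD (MP_e32fce_co, helper11): triangles in graphs of bounded degree and clique number

`ω = R + 1`, `Δ = R m + r`.  All counts are of ordered objects: `ee G S T` is the number of ordered pairs
`(a, b) ∈ S × T` with `a` adjacent to `b`, `t3 G S` the number of ordered triangles in `S` (six times the number
of triangles).  See README for the overview.
-/

set_option autoImplicit false

open Finset

namespace Pool.Agent.H11.TD

section graphs

variable {α : Type} [Fintype α] [DecidableEq α]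

open scoped Classical in
/-- the neighbours of `v` in `S` -/
noncomputable def nb (G : SimpleGraph α) (v : α) (S : Finset α) : Finset α :=
  S.filter (fun u => G.Adj v u)

/-- the neighbours of `v` -/
noncomputable def NN (G : SimpleGraph α) (v : α) : Finset α := nb G v univ

/-- the number of ordered pairs `(a, b) ∈ S × T` with `a` adjacent to `b` -/
noncomputable def ee (G : SimpleGraph α) (S T : Finset α) : ℕ := ∑ v ∈ S, (nb G v T).card

/-- the number of ordered triangles in `S` -/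
noncomputable def t3 (G : SimpleGraph α) (S : Finset α) : ℕ :=
  ∑ v ∈ S, ee G (nb G v S) (nb G v S)

/-- the class of graphs: maximum degree at most `R m + r`, no clique of size `R + 2` -/
structure Ctx (G : SimpleGraph α) (R r m : ℕ) : Prop where
  deg : ∀ v, (NN G v).card ≤ R * m + r
  cf : G.CliqueFree (R + 2)

/-- vertices whose neighbourhood spans almost as many edges as possible -/
def Good (G : SimpleGraph α) (R m : ℕ) (ε : ℝ) (v : α) : Prop :=
  ((R : ℝ) * (R - 1) - ε) * (m : ℝ) ^ 2 ≤ (ee G (NN G v) (NN G v) : ℝ)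

open scoped Classical in
/-- the vertices which are not good -/
noncomputable def Bad (G : SimpleGraph α) (R m : ℕ) (ε : ℝ) : Finset α :=
  univ.filter (fun v => ¬ Good G R m ε v)

/-- union of all parts -/
def tot {k : ℕ} (V : Fin k → Finset α) : Finset α := univ.biUnion V

/-- union of the parts different from `V i` -/
def rest {k : ℕ} (V : Fin k → Finset α) (i : Fin k) : Finset α := (univ.erase i).biUnion V

/-- the number of vertices of the other parts not adjacent to `v` -/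
noncomputable def ms {k : ℕ} (G : SimpleGraph α) (V : Fin k → Finset α) (i : Fin k) (v : α) : ℕ :=
  (rest V i \ nb G v (rest V i)).card

/-- `R + 1` disjoint sets of size about `m` which are almost completely joined to each other -/
structure Core (G : SimpleGraph α) (R m : ℕ) (η : ℝ) (V : Fin (R + 1) → Finset α) : Prop where
  disj : ∀ i j, i ≠ j → Disjoint (V i) (V j)
  lo : ∀ i, (1 - η) * m ≤ ((V i).card : ℝ)
  hi : ∀ i, ((V i).card : ℝ) ≤ (1 + η) * m
  miss : ∀ i, ∀ v ∈ V i, (ms G V i v : ℝ) ≤ η * m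

open scoped Classical in
/-- the vertices which fit to the part `V i` up to `γ m` missing edges -/
noncomputable def hpt (G : SimpleGraph α) (m : ℕ) (γ : ℝ) {k : ℕ} (V : Fin k → Finset α)
    (i : Fin k) : Finset α :=
  univ.filter (fun v => (ms G V i v : ℝ) ≤ γ * m)

/-- the hull of a core -/
noncomputable def hull (G : SimpleGraph α) (m : ℕ) (γ : ℝ) {k : ℕ} (V : Fin k → Finset α) :
    Finset α := tot (hpt G m γ V)

/-- the union of the hulls of a family of cores -/
noncomputable def HH (G : SimpleGraph α) (m : ℕ) (γ : ℝ) {k : ℕ}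
    (L : Finset (Fin k → Finset α)) : Finset α := L.biUnion (fun V => hull G m γ V)

open scoped Classical in
/-- the vertices outside all hulls with more than half of their edges going to the hull of `V` -/
noncomputable def JJ (G : SimpleGraph α) (R m : ℕ) (γ : ℝ) {k : ℕ}
    (L : Finset (Fin k → Finset α)) (V : Fin k → Finset α) : Finset α :=
  (univ \ HH G m γ L).filter
    (fun v => (11 / 20 : ℝ) * R * m ≤ ((nb G v (hull G m γ V)).card : ℝ))

open scoped Classical in
/-- the remaining vertices outside all hulls -/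
noncomputable def BP (G : SimpleGraph α) (R m : ℕ) (γ : ℝ) {k : ℕ}
    (L : Finset (Fin k → Finset α)) : Finset α :=
  (univ \ HH G m γ L).filter
    (fun v => ∀ V ∈ L, ((nb G v (hull G m γ V)).card : ℝ) < (11 / 20 : ℝ) * R * m)

/-- a family of cores with disjoint hulls which cover all cores -/
structure Fam (G : SimpleGraph α) (R m : ℕ) (γ η : ℝ) (L : Finset (Fin (R + 1) → Finset α)) :
    Prop where
  core : ∀ V ∈ L, Core G R m η V
  disj : ∀ V ∈ L, ∀ V' ∈ L, V ≠ V' → Disjoint (hull G m γ V) (hull G m γ V')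
  cover : ∀ V' : Fin (R + 1) → Finset α, Core G R m η V' → ∀ v ∈ tot V',
    ∃ V ∈ L, v ∈ hull G m γ V

end graphs

/-- the standing assumptions on the parameters -/
structure Par (R r m : ℕ) (γ η : ℝ) : Prop where
  hR : 4 ≤ R
  hr : r < R
  hγ : 0 < γ
  hγ' : 1000 * R * γ ≤ 1
  hη : 0 < η
  hη' : 1000 * (R : ℝ) ^ 2 * η ≤ γ
  hm : (r : ℝ) + 1 ≤ η * m

/-- six times the third elementary symmetric polynomial -/
def S6 {k : ℕ} (a : Fin k → ℝ) : ℝ :=
  (∑ i, a i) ^ 3 - 3 * (∑ i, a i) * ∑ i, a i ^ 2 + 2 * ∑ i, a i ^ 3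

/-- contribution of a vertex with `μ` missing and `e` external neighbours, `W` common neighbours -/
def tv (W μ e : ℝ) : ℝ := 3 * μ * W - 3 * μ * (μ - 1) - 3 * e * (e - 1)

/-- number of triangles of the Turan graph `L` with `R + 1` parts, `r` of them of size `m + 1` -/
def kL (R r m : ℕ) : ℝ :=
  (r.choose 3 : ℝ) * (m + 1) ^ 3 + (r.choose 2 : ℝ) * ((R + 1 - r : ℕ) : ℝ) * (m + 1) ^ 2 * m +
    r * ((R + 1 - r).choose 2 : ℝ) * (m + 1) * m ^ 2 + ((R + 1 - r).choose 3 : ℝ) * m ^ 3

/-- number of triangles of the graph with `r + 1` parts of size `m + 1` and `R - r` parts of size `m`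
minus an (almost) perfect matching of the small parts -/
def kG (R r m : ℕ) : ℝ :=
  kL R (r + 1) m - ((((R - r) * m + 1) / 2 : ℕ) : ℝ) * ((R - 1) * m + r + 1) +
    ((((R - r) * m) % 2 : ℕ) : ℝ)

/-- the extremal density -/
noncomputable def PP (R r m : ℕ) : ℝ :=
  if 3 * r < R then kL R r m / ((R + 1) * m + r) else kG R r m / ((R + 1) * m + r + 1)

/-- what is used about the extremal density `P` -/
structure PSpec (R r m : ℕ) (C P : ℝ) : Prop where
  p1 : (R : ℝ) * (R - 1) * m ^ 2 ≤ 6 * P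
  p2 : |6 * (R + 1) * P - R * (R + 1) * (R - 1) * (m : ℝ) ^ 2 -
    (2 * R * (R - 1) * r + (R - 1) * max (3 * (r : ℝ) - R) 0) * m| ≤ C
  p3 : 3 * r < R → 6 * P * ((R + 1) * m + r) = R * (R + 1) * (R - 1) * (m : ℝ) ^ 3 +
    3 * R * (R - 1) * m ^ 2 * r + 3 * (R - 1) * m * ((r : ℝ) ^ 2 - r) + (r ^ 3 - 3 * r ^ 2 + 2 * r)
  p4 : R < 3 * r → 6 * P * ((R + 1) * m + r + 1) = R * (R + 1) * (R - 1) * (m : ℝ) ^ 3 +
    3 * R * (R - 1) * m ^ 2 * (r + 1) + 3 * (R - 1) * m * (((r : ℝ) + 1) ^ 2 - (r + 1)) +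
    (((r : ℝ) + 1) ^ 3 - 3 * (r + 1) ^ 2 + 2 * (r + 1)) -
    3 * (R - r) * m * ((R - 1) * m + r + 1) -
    (if Even ((R - r) * m) then 0 else 3 * ((R - 1) * (m : ℝ) + r + 1) - 6)

/-- the numerical data of a cluster: parts `A i`, for each vertex `v` the numbers `mu v` of missing,
`ex v` of external, `jj v` and `bb v` of neighbours in `J` and `B`, and for each element of `J ∪ B` the number
`U` of neighbours in the cluster -/
structure CD (R r m : ℕ) (γ η : ℝ) {α : Type} [DecidableEq α] (A : Fin (R + 1) → Finset α)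
    (mu ex jj bb : α → ℕ) (J B : Finset α) (U : α → ℝ) : Prop where
  size : ∀ i, |((A i).card : ℝ) - m| ≤ 5 * R * η * m
  hmu : ∀ i, ∀ v ∈ A i, (mu v : ℝ) ≤ 2 * γ * m
  hex : ∀ i, ∀ v ∈ A i, (ex v : ℝ) ≤ 3 * γ * m
  hJ : (J.card : ℝ) ≤ 4 * R * η * m
  hjj : ∀ i, ∀ v ∈ A i, jj v ≤ J.card
  rel : ∀ i, ∀ v ∈ A i, ((ex v : ℤ) + jj v + bb v) + ((∑ k, ((A k).card : ℤ)) - (R + 1) * m - r) -
    ((A i).card - m) ≤ mu v
  sJ : ∑ i, ∑ v ∈ A i, (jj v : ℝ) = ∑ j ∈ J, U j
  sB : ∑ i, ∑ v ∈ A i, (bb v : ℝ) = ∑ b ∈ B, U b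
  UJ : ∀ j ∈ J, (11 / 20 : ℝ) * R * m ≤ U j ∧ U j ≤ (R - γ / 2) * m
  UB : ∀ b ∈ B, 0 ≤ U b ∧ U b ≤ (11 / 20 : ℝ) * R * m
  ev : Even (∑ i, ∑ v ∈ A i, mu v)

/-- the quantity to be estimated for a cluster -/
noncomputable def CL (R r m : ℕ) (γ P : ℝ) {α : Type} [DecidableEq α] (A : Fin (R + 1) → Finset α)
    (mu ex : α → ℕ) (J B : Finset α) (U : α → ℝ) : ℝ :=
  S6 (fun i => ((A i).card : ℝ)) -
    ∑ i, ∑ v ∈ A i, tv ((∑ k, ((A k).card : ℝ)) - 2 * (A i).card) (mu v) (ex v) -
    6 * P * ∑ k, ((A k).card : ℝ) +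
    ∑ j ∈ J, (3 * ((R - 1) / R) * (U j ^ 2 + (R * m + r - U j) ^ 2) - 6 * P +
      (R - 1) * γ / 40 * m ^ 2) +
    ∑ b ∈ B, (3 * ((R - 1) / R) * U b ^ 2 - (6 * P / (R * m + r) - 36 * γ * m) * U b)

/-- the excess of a cluster: `X - r + |J|`, where `X = ∑ |A i| - (R + 1) m` -/
def cc (R r m : ℕ) {α : Type} [DecidableEq α] (A : Fin (R + 1) → Finset α) (J : Finset α) : ℤ :=
  (∑ k, ((A k).card : ℤ)) - (R + 1) * m - r + J.card

end Pool.Agent.H11.TD
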