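import Pool.Agent.H11.TD.Ovl

/-!
# TD Fami: a maximal family of cores with disjoint hulls

Among the finite sets `L` (subsets of the finite type `Fin (R+1) → Finset α`) of cores with pairwise disjoint hulls take one of maximal
cardinality.  Let `V'` be a core, `v ∈ tot V'`.  If `V' ∈ L` then `v ∈ tot V' ⊆ hull V'` (`core_sub_hpt`).  Otherwise `insert V' L`
violates the disjointness, so the hull of `V'` meets the hull of some `V ∈ L`, and `core_overlap` gives
`tot V' ⊆ hull V`.
-/

set_option autoImplicit false

open Finset

namespace Pool.Agent.H11.TD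

variable {α : Type} [Fintype α] [DecidableEq α] (G : SimpleGraph α) {R r m : ℕ} {γ η : ℝ}

theorem exists_fam (hp : Par R r m γ η) (hG : Ctx G R r m) :
    ∃ L : Finset (Fin (R + 1) → Finset α), Fam G R m γ η L := by
  classical
  set Q : Finset (Finset (Fin (R + 1) → Finset α)) := univ.filter (fun L =>
    (∀ V ∈ L, Core G R m η V) ∧
      ∀ V ∈ L, ∀ V' ∈ L, V ≠ V' → Disjoint (hull G m γ V) (hull G m γ V')) with hQ
  have hne : Q.Nonempty := by
    refine ⟨∅, ?_⟩
    rw [hQ, mem_filter]
    exact ⟨mem_univ _, fun V hV => absurd hV (notMem_empty V),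
      fun V hV => absurd hV (notMem_empty V)⟩
  obtain ⟨L, hL, hmax⟩ := exists_max_image Q card hne
  have hL' := hL
  rw [hQ, mem_filter] at hL'
  obtain ⟨-, hcore, hdisj⟩ := hL'
  refine ⟨L, hcore, hdisj, ?_⟩
  intro V' hV' v hv
  by_cases hmem : V' ∈ L
  · refine ⟨V', hmem, ?_⟩
    unfold tot at hv
    rw [mem_biUnion] at hv
    obtain ⟨i, -, hi⟩ := hv
    unfold hull tot
    rw [mem_biUnion]
    exact ⟨i, mem_univ i, core_sub_hpt G hp hV' i hi⟩
  · by_cases hex : ∃ V ∈ L, ¬ Disjoint (hull G m γ V) (hull G m γ V')
    · obtain ⟨V, hV, hd⟩ := hex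
      exact ⟨V, hV, core_overlap G hp hG (hcore V hV) hV' hd hv⟩
    · exfalso
      have hall : ∀ V ∈ L, Disjoint (hull G m γ V) (hull G m γ V') := by
        intro V hV
        by_contra hc
        exact hex ⟨V, hV, hc⟩
      have hins : insert V' L ∈ Q := by
        rw [hQ, mem_filter]
        refine ⟨mem_univ _, ?_, ?_⟩
        · intro V hV
          rw [mem_insert] at hV
          rcases hV with rfl | hV
          · exact hV'
          · exact hcore V hV
        · intro V hV W hW hVW
          rw [mem_insert] at hV hW
          rcases hV with rfl | hV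
          · rcases hW with rfl | hW
            · exact absurd rfl hVW
            · exact (hall W hW).symm
          · rcases hW with rfl | hW
            · exact hall V hV
            · exact hdisj V hV W hW hVW
      have h1 := hmax _ hins
      rw [card_insert_of_notMem hmem] at h1
      omega

end Pool.Agent.H11.TD
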