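import Pool.Agent.H11.TD.Pick

/-!
# TD HulA: degrees out of a core, disjointness of the hull parts

Assumptions `Par R r m γ η` (so `r ≤ η m`), `Ctx G R r m`, `Core G R m η V`.
* `core_out`: for `v ∈ V i`: `|NN v| ≤ R m + r ≤ (R + η) m` and
  `|nb v (rest V i)| = |rest V i| - ms ≥ R (1 - η) m - η m`, so `|NN v \ tot V| ≤ (R + 2) η m`.
* `outer_count`: double counting the edges between `tot V` and its complement:
  `θ m #{y ∉ tot V : |nb y (tot V)| ≥ θ m} ≤ |tot V| (R + 2) η m ≤ (R + 1)(1 + η) m (R + 2) η m ≤ 2 R² η m²`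
  (`(R + 1)(R + 2)(1 + η) ≤ 2 R²` for `R ≥ 4`, `η ≤ 1/15`).
* `hpt_disj`: `v ∈ hpt i ∩ hpt j` would have at most `2 γ m` non-neighbours in `tot V = rest V i ∪ rest V j`,
  so `|NN v| ≥ (R + 1)(1 - η) m - 2 γ m > R m + r`.
* `core_sub_hpt`: `η ≤ γ`.
* `hpt_indep`: for adjacent `u, v ∈ hpt i` and `j ≠ i`, the number of common neighbours in `V j` is
  `≥ (1 - η) m - 2 γ m > (R + 1) η m`; use `indep_of_common`.
-/

set_option autoImplicit false

open Finset

namespace Pool.Agent.H11.TD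

variable {α : Type} [Fintype α] [DecidableEq α] (G : SimpleGraph α) {R r m : ℕ} {γ η : ℝ}
  {V : Fin (R + 1) → Finset α}

/-- numerical consequences of the parameter assumptions -/
private theorem hula_num (hp : Par R r m γ η) :
    (4 : ℝ) ≤ R ∧ 0 < (m : ℝ) ∧ η ≤ γ ∧ 4000 * γ ≤ 1 ∧ 16000 * η ≤ γ ∧
      4000 * ((R : ℝ) * η) ≤ γ ∧ (r : ℝ) + 1 ≤ η * m := by
  have hR : (4 : ℝ) ≤ R := by exact_mod_cast hp.hR
  have h1 := hp.hγ
  have h2 := hp.hγ'
  have h3 := hp.hη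
  have h4 := hp.hη'
  have h5 := hp.hm
  have hm0 : 0 < (m : ℝ) := by
    have hr0 : (0 : ℝ) ≤ r := Nat.cast_nonneg r
    by_contra hcon
    have : (m : ℝ) ≤ 0 := not_lt.mp hcon
    nlinarith
  have hg : 4000 * γ ≤ 1 := by nlinarith
  have he : 4000 * ((R : ℝ) * η) ≤ γ := by
    have : 0 ≤ (R : ℝ) * η := by positivity
    nlinarith
  have he2 : 16000 * η ≤ γ := by nlinarith
  exact ⟨hR, hm0, by linarith, hg, he2, he, h5⟩

private theorem hula_rest_lo (hV : Core G R m η V) (i : Fin (R + 1)) :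
    (R : ℝ) * ((1 - η) * m) ≤ ((rest V i).card : ℝ) := by
  have h1 : ((rest V i).card : ℝ) = ∑ j ∈ univ.erase i, ((V j).card : ℝ) := by
    rw [rest, Finset.card_biUnion, Nat.cast_sum]
    intro a _ b _ hab
    exact hV.disj a b hab
  rw [h1]
  calc (R : ℝ) * ((1 - η) * m) = ∑ _j ∈ (univ : Finset (Fin (R + 1))).erase i, ((1 - η) * m : ℝ) := by
        rw [Finset.sum_const, Finset.card_erase_of_mem (Finset.mem_univ i), Finset.card_univ,
          Fintype.card_fin, nsmul_eq_mul]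
        simp
    _ ≤ _ := Finset.sum_le_sum (fun j _ => hV.lo j)

private theorem hula_tot_lo (hV : Core G R m η V) :
    ((R : ℝ) + 1) * ((1 - η) * m) ≤ ((tot V).card : ℝ) := by
  rw [tot_card V hV.disj, Nat.cast_sum]
  calc ((R : ℝ) + 1) * ((1 - η) * m) = ∑ _j : Fin (R + 1), ((1 - η) * m : ℝ) := by
        rw [Finset.sum_const, Finset.card_univ, Fintype.card_fin, nsmul_eq_mul]
        push_cast
        ring
    _ ≤ _ := Finset.sum_le_sum (fun j _ => hV.lo j)

private theorem hula_tot_hi (hV : Core G R m η V) :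
    ((tot V).card : ℝ) ≤ ((R : ℝ) + 1) * ((1 + η) * m) := by
  rw [tot_card V hV.disj, Nat.cast_sum]
  calc _ ≤ ∑ _j : Fin (R + 1), ((1 + η) * m : ℝ) := Finset.sum_le_sum (fun j _ => hV.hi j)
    _ = ((R : ℝ) + 1) * ((1 + η) * m) := by
        rw [Finset.sum_const, Finset.card_univ, Fintype.card_fin, nsmul_eq_mul]
        push_cast
        ring

theorem core_out (hp : Par R r m γ η) (hG : Ctx G R r m) (hV : Core G R m η V) (v : α)
    (hv : v ∈ tot V) : ((NN G v \ tot V).card : ℝ) ≤ (R + 2) * η * m := by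
  obtain ⟨i, hi⟩ := (mem_tot V).1 hv
  obtain ⟨hR, hm, _, _, _, _, hr⟩ := hula_num hp
  have hdeg : ((NN G v).card : ℝ) ≤ R * m + r := by exact_mod_cast hG.deg v
  have hsub : nb G v (rest V i) ⊆ NN G v ∩ tot V := by
    intro u hu
    rw [mem_nb, mem_rest] at hu
    obtain ⟨⟨j, _, hj⟩, hadj⟩ := hu
    rw [Finset.mem_inter, mem_NN, mem_tot]
    exact ⟨hadj, j, hj⟩
  have h1 : (nb G v (rest V i)).card ≤ (NN G v ∩ tot V).card := Finset.card_le_card hsub
  have h2 : (NN G v \ tot V).card + (NN G v ∩ tot V).card = (NN G v).card :=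
    Finset.card_sdiff_add_card_inter _ _
  have h3 := nb_rest_card G V i v
  have h4 := hV.miss i v hi
  have h5 := hula_rest_lo G hV i
  have h1' : ((nb G v (rest V i)).card : ℝ) ≤ ((NN G v ∩ tot V).card : ℝ) := by exact_mod_cast h1
  have h2' : ((NN G v \ tot V).card : ℝ) + ((NN G v ∩ tot V).card : ℝ) = ((NN G v).card : ℝ) := by
    exact_mod_cast h2
  have h3' : ((nb G v (rest V i)).card : ℝ) + (ms G V i v : ℝ) = ((rest V i).card : ℝ) := by
    exact_mod_cast h3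
  nlinarith

theorem outer_count (hp : Par R r m γ η) (hG : Ctx G R r m) (hV : Core G R m η V) (θ : ℝ)
    (Y : Finset α) (hY : ∀ y ∈ Y, y ∉ tot V ∧ θ * m ≤ ((nb G y (tot V)).card : ℝ)) :
    θ * (Y.card : ℝ) ≤ 2 * (R : ℝ) ^ 2 * η * m := by
  obtain ⟨hR, hm, heg, hg, he, _, hr⟩ := hula_num hp
  have hη := hp.hη
  have h1 : (Y.card : ℝ) * (θ * m) ≤ ∑ y ∈ Y, ((nb G y (tot V)).card : ℝ) := by
    rw [← nsmul_eq_mul]
    exact Finset.card_nsmul_le_sum _ _ _ (fun y hy => (hY y hy).2)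
  have h2 : ∑ y ∈ Y, ((nb G y (tot V)).card : ℝ) = ∑ v ∈ tot V, ((nb G v Y).card : ℝ) := by
    exact_mod_cast sum_nb_comm G Y (tot V)
  have h3 : ∑ v ∈ tot V, ((nb G v Y).card : ℝ) ≤ ∑ _v ∈ tot V, (((R : ℝ) + 2) * η * m) := by
    refine Finset.sum_le_sum (fun v hv => ?_)
    refine le_trans ?_ (core_out G hp hG hV v hv)
    have : nb G v Y ⊆ NN G v \ tot V := by
      intro u hu
      rw [mem_nb] at hu
      rw [Finset.mem_sdiff, mem_NN]
      exact ⟨hu.2, (hY u hu.1).1⟩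
    exact_mod_cast Finset.card_le_card this
  rw [Finset.sum_const, nsmul_eq_mul] at h3
  have h4 := hula_tot_hi G hV
  have hpos : 0 ≤ ((R : ℝ) + 2) * η * m := by positivity
  have h5 : (Y.card : ℝ) * (θ * m) ≤ (((R : ℝ) + 1) * ((1 + η) * m)) * (((R : ℝ) + 2) * η * m) := by
    calc _ ≤ _ := h1
      _ = _ := h2
      _ ≤ _ := h3
      _ ≤ _ := mul_le_mul_of_nonneg_right h4 hpos
  have h6 : (((R : ℝ) + 1) * (1 + η)) * ((R : ℝ) + 2) ≤ 2 * (R : ℝ) ^ 2 := by
    have ha : ((R : ℝ) + 1) * ((R : ℝ) + 2) ≤ 15 / 8 * (R : ℝ) ^ 2 := by nlinarith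
    have hb : (1 : ℝ) + η ≤ 16 / 15 := by linarith
    have hc : 0 ≤ ((R : ℝ) + 1) * ((R : ℝ) + 2) := by positivity
    calc (((R : ℝ) + 1) * (1 + η)) * ((R : ℝ) + 2) = (((R : ℝ) + 1) * ((R : ℝ) + 2)) * (1 + η) := by
          ring
      _ ≤ (((R : ℝ) + 1) * ((R : ℝ) + 2)) * (16 / 15) := mul_le_mul_of_nonneg_left hb hc
      _ ≤ 15 / 8 * (R : ℝ) ^ 2 * (16 / 15) := by nlinarith
      _ = 2 * (R : ℝ) ^ 2 := by ring
  have h7 : (θ * (Y.card : ℝ)) * m ≤ (2 * (R : ℝ) ^ 2 * η * m) * m := by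
    have hpos2 : 0 ≤ η * m * m := by positivity
    calc (θ * (Y.card : ℝ)) * m = (Y.card : ℝ) * (θ * m) := by ring
      _ ≤ _ := h5
      _ = ((((R : ℝ) + 1) * (1 + η)) * ((R : ℝ) + 2)) * (η * m * m) := by ring
      _ ≤ (2 * (R : ℝ) ^ 2) * (η * m * m) := mul_le_mul_of_nonneg_right h6 hpos2
      _ = (2 * (R : ℝ) ^ 2 * η * m) * m := by ring
  exact le_of_mul_le_mul_right h7 hm

theorem hpt_disj (hp : Par R r m γ η) (hG : Ctx G R r m) (hV : Core G R m η V)
    (i j : Fin (R + 1)) (hij : i ≠ j) : Disjoint (hpt G m γ V i) (hpt G m γ V j) := by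
  obtain ⟨hR, hm, heg, hg, he, heR, hr⟩ := hula_num hp
  have hη := hp.hη
  have hγ := hp.hγ
  rw [Finset.disjoint_left]
  intro v hvi hvj
  simp only [hpt, Finset.mem_filter, Finset.mem_univ, true_and] at hvi hvj
  have hsub : tot V ⊆ NN G v ∪ ((rest V i \ nb G v (rest V i)) ∪ (rest V j \ nb G v (rest V j))) := by
    intro u hu
    by_cases hadj : G.Adj v u
    · rw [Finset.mem_union, mem_NN]
      exact Or.inl hadj
    · rw [Finset.mem_union, Finset.mem_union, Finset.mem_sdiff, Finset.mem_sdiff, mem_nb, mem_nb]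
      right
      obtain ⟨k, hk⟩ := (mem_tot V).1 hu
      by_cases hki : k = i
      · right
        refine ⟨(mem_rest V).2 ⟨k, ?_, hk⟩, fun h => hadj h.2⟩
        rw [hki]; exact hij
      · left
        exact ⟨(mem_rest V).2 ⟨k, hki, hk⟩, fun h => hadj h.2⟩
  have h1 : (tot V).card ≤ (NN G v).card + (ms G V i v + ms G V j v) := by
    refine le_trans (Finset.card_le_card hsub) (le_trans (Finset.card_union_le _ _) ?_)
    exact Nat.add_le_add_left (Finset.card_union_le _ _) _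
  have h1' : ((tot V).card : ℝ) ≤ ((NN G v).card : ℝ) + ((ms G V i v : ℝ) + (ms G V j v : ℝ)) := by
    exact_mod_cast h1
  have hdeg : ((NN G v).card : ℝ) ≤ R * m + r := by exact_mod_cast hG.deg v
  have h2 := hula_tot_lo G hV
  have h3 : ((R : ℝ) + 1) * ((1 - η) * m) ≤ R * m + r + 2 * (γ * m) := by linarith
  have h4 : (1 : ℝ) * m ≤ (((R : ℝ) * η) + η + 2 * γ) * m + r := by nlinarith
  have h5 : (((R : ℝ) * η) + 2 * η + 2 * γ) * m < (1 : ℝ) * m := by
    apply mul_lt_mul_of_pos_right _ hm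
    linarith
  nlinarith

theorem core_sub_hpt (hp : Par R r m γ η) (hV : Core G R m η V) (i : Fin (R + 1)) :
    V i ⊆ hpt G m γ V i := by
  obtain ⟨hR, hm, heg, hg, he, heR, hr⟩ := hula_num hp
  intro v hv
  simp only [hpt, Finset.mem_filter, Finset.mem_univ, true_and]
  exact le_trans (hV.miss i v hv) (mul_le_mul_of_nonneg_right heg hm.le)

theorem hpt_indep (hp : Par R r m γ η) (hG : Ctx G R r m) (hV : Core G R m η V)
    (i : Fin (R + 1)) (u v : α) (hu : u ∈ hpt G m γ V i) (hv : v ∈ hpt G m γ V i) :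
    ¬ G.Adj u v := by
  obtain ⟨hR, hm, heg, hg, he, heR, hr⟩ := hula_num hp
  have hη := hp.hη
  have hγ := hp.hγ
  simp only [hpt, Finset.mem_filter, Finset.mem_univ, true_and] at hu hv
  refine indep_of_common G hG.cf hη hV i u v (fun j hj => ?_)
  have hsub : V j ⊆ nb G u (nb G v (V j)) ∪
      ((rest V i \ nb G u (rest V i)) ∪ (rest V i \ nb G v (rest V i))) := by
    intro w hw
    have hwr : w ∈ rest V i := (mem_rest V).2 ⟨j, hj, hw⟩
    rw [Finset.mem_union, Finset.mem_union, Finset.mem_sdiff, Finset.mem_sdiff, mem_nb, mem_nb,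
      mem_nb, mem_nb]
    by_cases h1 : G.Adj u w
    · by_cases h2 : G.Adj v w
      · left; exact ⟨⟨hw, h2⟩, h1⟩
      · right; right; exact ⟨hwr, fun h => h2 h.2⟩
    · right; left; exact ⟨hwr, fun h => h1 h.2⟩
  have h1 : (V j).card ≤ (nb G u (nb G v (V j))).card + (ms G V i u + ms G V i v) := by
    refine le_trans (Finset.card_le_card hsub) (le_trans (Finset.card_union_le _ _) ?_)
    exact Nat.add_le_add_left (Finset.card_union_le _ _) _
  have h1' : ((V j).card : ℝ) ≤ ((nb G u (nb G v (V j))).card : ℝ) +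
      ((ms G V i u : ℝ) + (ms G V i v : ℝ)) := by exact_mod_cast h1
  have h2 := hV.lo j
  have h3 : (((R : ℝ) + 1) * η) * m < (1 - η - 2 * γ) * m := by
    apply mul_lt_mul_of_pos_right _ hm
    linarith
  nlinarith

end Pool.Agent.H11.TD
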