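import Pool.Agent.H11.TD.HulA

/-!
# TD HulB: sizes of the hull parts, missing and external edges

* `hull_out_card`: a vertex `y ∈ hpt i`, `y ∉ V i`, is not in `tot V` (by `core_sub_hpt`, `hpt_disj`) and has
  `≥ |rest V i| - γ m ≥ (R (1 - η) - γ) m ≥ (R/2) m` neighbours in `tot V`; `outer_count` with `θ = R/2` gives
  `|hull \ tot V| ≤ 4 R η m`.
* `hpt_size`: `(1 - η) m ≤ |V i| ≤ |hpt i| ≤ (1 + η) m + 4 R η m ≤ (1 + 5 R η) m`.
* `hpt_ms`: non-neighbours of `v ∈ hpt i` in `rest hpt i`: at most `γ m` in `rest V i` and at most `4 R η m` others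
  (`rest hpt i \ rest V i ⊆ hull \ tot V` by `hpt_disj`); `4 R η ≤ γ`.
* `hpt_ext`: `|nb v (rest hpt i)| = |rest hpt i| - ms ≥ R (1 - η) m - 2 γ m`, `|NN v| ≤ (R + η) m`.
* `outer_J`: a vertex `y ∉ hull` with `≥ (11/20) R m` neighbours in `hull` is not in `tot V` and has
  `≥ (11/20) R m - 4 R η m ≥ (R/2) m` neighbours in `tot V`; `outer_count`.
* `not_hull_deg`: suppose `y ∉ hull` and `|nb y hull| > (R - γ/2) m`.  Then
  `|nb y (tot V)| > (R - γ/2 - 4 R η) m`; by `no_clique_nb` some `|nb y (V i)| ≤ (R + 1) η m`, so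
  `|nb y (rest V i)| ≥ (R - γ/2 - 4 R η - (R + 1) η) m`, and `|rest V i| ≤ R (1 + η) m`, so
  `ms G V i y ≤ (γ/2 + (6 R + 1) η) m ≤ γ m`, i.e. `y ∈ hpt i`, contradiction.
-/

set_option autoImplicit false

open Finset

namespace Pool.Agent.H11.TD

variable {α : Type} [Fintype α] [DecidableEq α] (G : SimpleGraph α) {R r m : ℕ} {γ η : ℝ}
  {V : Fin (R + 1) → Finset α}

theorem hulb_R (hp : Par R r m γ η) : (4 : ℝ) ≤ R := by exact_mod_cast hp.hR

theorem hulb_m (hp : Par R r m γ η) : (0 : ℝ) < m := by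
  have h1 := hp.hm
  have h2 : (0 : ℝ) ≤ r := Nat.cast_nonneg r
  have h3 := hp.hη
  by_contra h
  have h4 : (m : ℝ) ≤ 0 := not_lt.1 h
  nlinarith

/-- `7 R η ≤ γ / 100` -/
theorem hulb_eta (hp : Par R r m γ η) : 400 * (R : ℝ) * η ≤ γ := by
  have h1 := hulb_R hp
  have h2 := hp.hη'
  have h3 := hp.hη
  nlinarith [mul_pos (show (0 : ℝ) < R by linarith) h3]

theorem hulb_eta2 (hp : Par R r m γ η) : 1600 * η ≤ γ := by
  have h1 := hulb_R hp
  have h2 := hulb_eta hp
  have h3 := hp.hη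
  nlinarith

theorem hulb_gam (hp : Par R r m γ η) : 4000 * γ ≤ 1 := by
  have h1 := hulb_R hp
  have h2 := hp.hγ'
  have h3 := hp.hγ
  nlinarith

theorem hulb_rest_eq (hV : Core G R m η V) (i : Fin (R + 1)) :
    ((rest V i).card : ℝ) = ∑ j ∈ univ.erase i, ((V j).card : ℝ) := by
  have h1 := rest_card V hV.disj i
  have h2 : ((V i).card : ℝ) + ∑ j ∈ univ.erase i, ((V j).card : ℝ) = ∑ j, ((V j).card : ℝ) :=
    Finset.add_sum_erase univ (fun j => ((V j).card : ℝ)) (Finset.mem_univ i)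
  have h3 : ((rest V i).card : ℝ) + ((V i).card : ℝ) = ∑ j, ((V j).card : ℝ) := by
    exact_mod_cast h1
  linarith

theorem hulb_card_erase (i : Fin (R + 1)) : (univ.erase i).card = R := by
  rw [Finset.card_erase_of_mem (Finset.mem_univ i), Finset.card_univ, Fintype.card_fin]
  rfl

theorem hulb_rest_lo (hV : Core G R m η V) (i : Fin (R + 1)) :
    R * ((1 - η) * m) ≤ ((rest V i).card : ℝ) := by
  rw [hulb_rest_eq G hV i]
  have h1 : ∑ _j ∈ univ.erase i, ((1 - η) * (m : ℝ)) ≤ ∑ j ∈ univ.erase i, ((V j).card : ℝ) :=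
    Finset.sum_le_sum fun j _ => hV.lo j
  rw [Finset.sum_const, hulb_card_erase, nsmul_eq_mul] at h1
  exact h1

theorem hulb_rest_hi (hV : Core G R m η V) (i : Fin (R + 1)) :
    ((rest V i).card : ℝ) ≤ R * ((1 + η) * m) := by
  rw [hulb_rest_eq G hV i]
  have h1 : ∑ j ∈ univ.erase i, ((V j).card : ℝ) ≤ ∑ _j ∈ univ.erase i, ((1 + η) * (m : ℝ)) :=
    Finset.sum_le_sum fun j _ => hV.hi j
  rw [Finset.sum_const, hulb_card_erase, nsmul_eq_mul] at h1
  exact h1

theorem hulb_nb_rest (W : Fin (R + 1) → Finset α) (i : Fin (R + 1)) (v : α) :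
    ((nb G v (rest W i)).card : ℝ) + (ms G W i v : ℝ) = ((rest W i).card : ℝ) := by
  exact_mod_cast nb_rest_card G W i v

theorem hulb_rest_sub_tot (W : Fin (R + 1) → Finset α) (i : Fin (R + 1)) : rest W i ⊆ tot W := by
  rw [← rest_union W i]
  exact Finset.subset_union_left

theorem hulb_mem_hull {v : α} : v ∈ hull G m γ V ↔ ∃ i, v ∈ hpt G m γ V i := by
  unfold hull
  exact mem_tot _

theorem hulb_mem_hpt {v : α} {i : Fin (R + 1)} :
    v ∈ hpt G m γ V i ↔ (ms G V i v : ℝ) ≤ γ * m := by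
  unfold hpt
  simp

/-- an element of a core part in `hpt i` is in `V i` -/
theorem hulb_eq (hp : Par R r m γ η) (hG : Ctx G R r m) (hV : Core G R m η V)
    {i j : Fin (R + 1)} {x : α} (hx : x ∈ hpt G m γ V i) (hj : x ∈ V j) : i = j := by
  by_contra h
  have h1 := hpt_disj G hp hG hV i j h
  exact (Finset.disjoint_left.1 h1) hx (core_sub_hpt G hp hV j hj)

theorem hulb_tot_sub (hp : Par R r m γ η) (hV : Core G R m η V) : tot V ⊆ hull G m γ V := by
  intro x hx
  obtain ⟨i, hi⟩ := (mem_tot V).1 hx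
  exact (hulb_mem_hull G).2 ⟨i, core_sub_hpt G hp hV i hi⟩

theorem hull_out_card (hp : Par R r m γ η) (hG : Ctx G R r m) (hV : Core G R m η V) :
    ((hull G m γ V \ tot V).card : ℝ) ≤ 4 * R * η * m := by
  have hR := hulb_R hp
  have hm := hulb_m hp
  have he := hulb_eta hp
  have he2 := hulb_eta2 hp
  have hg := hulb_gam hp
  have hη := hp.hη
  have hγ := hp.hγ
  have key := outer_count G hp hG hV ((R : ℝ) / 2) (hull G m γ V \ tot V) (by
    intro y hy
    rw [Finset.mem_sdiff] at hy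
    refine ⟨hy.2, ?_⟩
    obtain ⟨i, hi⟩ := (hulb_mem_hull G).1 hy.1
    have h1 := (hulb_mem_hpt G).1 hi
    have h2 := hulb_nb_rest G V i y
    have h3 := hulb_rest_lo G hV i
    have h4 : ((nb G y (rest V i)).card : ℝ) ≤ ((nb G y (tot V)).card : ℝ) := by
      exact_mod_cast Finset.card_le_card (nb_mono G (hulb_rest_sub_tot V i))
    have h5 : (R : ℝ) / 2 * m ≤ R * ((1 - η) * m) - γ * m := by
      have h6 : (R : ℝ) / 2 ≤ R * (1 - η) - γ := by nlinarith
      nlinarith
    linarith)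
  have hR0 : (0 : ℝ) < R := by linarith
  have h7 : (R : ℝ) / 2 * ((hull G m γ V \ tot V).card : ℝ) ≤ R / 2 * (4 * R * η * m) := by
    refine key.trans (le_of_eq ?_)
    ring
  exact le_of_mul_le_mul_left h7 (by positivity)

theorem hpt_size (hp : Par R r m γ η) (hG : Ctx G R r m) (hV : Core G R m η V)
    (i : Fin (R + 1)) : (1 - η) * m ≤ ((hpt G m γ V i).card : ℝ) ∧
      ((hpt G m γ V i).card : ℝ) ≤ (1 + 5 * R * η) * m := by
  have hR := hulb_R hp
  have hm := hulb_m hp
  have hη := hp.hη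
  constructor
  · refine (hV.lo i).trans ?_
    exact_mod_cast Finset.card_le_card (core_sub_hpt G hp hV i)
  · have hsub : hpt G m γ V i ⊆ V i ∪ (hull G m γ V \ tot V) := by
      intro x hx
      rw [Finset.mem_union, Finset.mem_sdiff]
      by_cases hx2 : x ∈ tot V
      · left
        obtain ⟨j, hj⟩ := (mem_tot V).1 hx2
        have := hulb_eq G hp hG hV hx hj
        rw [this]
        exact hj
      · right
        exact ⟨(hulb_mem_hull G).2 ⟨i, hx⟩, hx2⟩
    have h1 : ((hpt G m γ V i).card : ℝ) ≤ ((V i).card : ℝ) + ((hull G m γ V \ tot V).card : ℝ) := by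
      exact_mod_cast (Finset.card_le_card hsub).trans (Finset.card_union_le _ _)
    have h2 := hV.hi i
    have h3 := hull_out_card G hp hG hV
    have h4 : η * (m : ℝ) ≤ R * η * m := by
      have : 0 < η * (m : ℝ) := by positivity
      nlinarith
    nlinarith

theorem hpt_ms (hp : Par R r m γ η) (hG : Ctx G R r m) (hV : Core G R m η V)
    (i : Fin (R + 1)) (v : α) (hv : v ∈ hpt G m γ V i) :
    (ms G (hpt G m γ V) i v : ℝ) ≤ 2 * γ * m := by
  have hR := hulb_R hp
  have hm := hulb_m hp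
  have hη := hp.hη
  have hγ := hp.hγ
  have he := hulb_eta hp
  have hsub : rest (hpt G m γ V) i \ nb G v (rest (hpt G m γ V) i)
      ⊆ (rest V i \ nb G v (rest V i)) ∪ (hull G m γ V \ tot V) := by
    intro x hx
    rw [Finset.mem_sdiff] at hx
    obtain ⟨hxr, hn⟩ := hx
    have hna : ¬ G.Adj v x := fun h => hn ((mem_nb G).2 ⟨hxr, h⟩)
    obtain ⟨j, hji, hxj⟩ := (mem_rest (hpt G m γ V)).1 hxr
    rw [Finset.mem_union, Finset.mem_sdiff, Finset.mem_sdiff]
    by_cases hx2 : x ∈ tot V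
    · left
      obtain ⟨k, hk⟩ := (mem_tot V).1 hx2
      have hjk := hulb_eq G hp hG hV hxj hk
      refine ⟨(mem_rest V).2 ⟨k, by rw [← hjk]; exact hji, hk⟩, ?_⟩
      intro h
      exact hna ((mem_nb G).1 h).2
    · right
      exact ⟨(hulb_mem_hull G).2 ⟨j, hxj⟩, hx2⟩
  have h1 : (ms G (hpt G m γ V) i v : ℝ)
      ≤ (ms G V i v : ℝ) + ((hull G m γ V \ tot V).card : ℝ) := by
    have := (Finset.card_le_card hsub).trans (Finset.card_union_le _ _)
    unfold ms
    exact_mod_cast this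
  have h2 := (hulb_mem_hpt G).1 hv
  have h3 := hull_out_card G hp hG hV
  have h4 : 4 * (R : ℝ) * η * m ≤ γ * m := by
    have : 4 * (R : ℝ) * η ≤ γ := by
      have : 0 ≤ (R : ℝ) * η := by positivity
      linarith
    nlinarith
  linarith

theorem hpt_ext (hp : Par R r m γ η) (hG : Ctx G R r m) (hV : Core G R m η V)
    (v : α) (hv : v ∈ hull G m γ V) :
    ((NN G v \ hull G m γ V).card : ℝ) ≤ 3 * γ * m := by
  have hR := hulb_R hp
  have hm := hulb_m hp
  have hη := hp.hη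
  have hγ := hp.hγ
  have he := hulb_eta hp
  have he2 := hulb_eta2 hp
  have hr := hp.hm
  obtain ⟨i, hi⟩ := (hulb_mem_hull G).1 hv
  have h1 := hpt_ms G hp hG hV i v hi
  have h2 := hulb_nb_rest G (hpt G m γ V) i v
  have hsub : rest V i ⊆ rest (hpt G m γ V) i := by
    intro x hx
    obtain ⟨j, hji, hxj⟩ := (mem_rest V).1 hx
    exact (mem_rest (hpt G m γ V)).2 ⟨j, hji, core_sub_hpt G hp hV j hxj⟩
  have h3 : ((rest V i).card : ℝ) ≤ ((rest (hpt G m γ V) i).card : ℝ) := by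
    exact_mod_cast Finset.card_le_card hsub
  have h4 := hulb_rest_lo G hV i
  have h5 : ((nb G v (rest (hpt G m γ V) i)).card : ℝ) ≤ ((nb G v (hull G m γ V)).card : ℝ) := by
    exact_mod_cast Finset.card_le_card (nb_mono G (hulb_rest_sub_tot (hpt G m γ V) i))
  have h6 : ((NN G v \ hull G m γ V).card : ℝ) + ((nb G v (hull G m γ V)).card : ℝ)
      = ((NN G v).card : ℝ) := by
    rw [nb_eq_inter]
    exact_mod_cast Finset.card_sdiff_add_card_inter (NN G v) (hull G m γ V)
  have h7 : ((NN G v).card : ℝ) ≤ R * m + r := by exact_mod_cast hG.deg v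
  have h8 : (R : ℝ) * m + η * m - (R * ((1 - η) * m) - 2 * γ * m) ≤ 3 * γ * m := by
    have h9 : η + R * η ≤ γ := by
      have : 0 ≤ (R : ℝ) * η := by positivity
      linarith
    nlinarith
  linarith

theorem hulb_split_card (y : α) :
    ((nb G y (hull G m γ V)).card : ℝ)
      ≤ ((nb G y (tot V)).card : ℝ) + ((hull G m γ V \ tot V).card : ℝ) := by
  have hsub : nb G y (hull G m γ V) ⊆ nb G y (tot V) ∪ (hull G m γ V \ tot V) := by
    intro x hx
    rw [mem_nb] at hx
    rw [Finset.mem_union, Finset.mem_sdiff, mem_nb]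
    by_cases h : x ∈ tot V
    · exact Or.inl ⟨h, hx.2⟩
    · exact Or.inr ⟨hx.1, h⟩
  exact_mod_cast (Finset.card_le_card hsub).trans (Finset.card_union_le _ _)

theorem outer_J (hp : Par R r m γ η) (hG : Ctx G R r m) (hV : Core G R m η V)
    (Y : Finset α) (hY : ∀ y ∈ Y, y ∉ hull G m γ V ∧
      (11 / 20 : ℝ) * R * m ≤ ((nb G y (hull G m γ V)).card : ℝ)) :
    (Y.card : ℝ) ≤ 4 * R * η * m := by
  have hR := hulb_R hp
  have hm := hulb_m hp
  have he := hulb_eta hp
  have he2 := hulb_eta2 hp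
  have hg := hulb_gam hp
  have hη := hp.hη
  have hγ := hp.hγ
  have h0 := hull_out_card G hp hG hV
  have key := outer_count G hp hG hV ((R : ℝ) / 2) Y (by
    intro y hy
    obtain ⟨h1, h2⟩ := hY y hy
    refine ⟨fun h => h1 (hulb_tot_sub G hp hV h), ?_⟩
    have h3 := hulb_split_card G (γ := γ) (m := m) (V := V) y
    have h4 : 4 * (R : ℝ) * η * m ≤ (1 / 20 : ℝ) * R * m := by
      have : 4 * η ≤ 1 / 20 := by linarith
      have h5 : 0 < (R : ℝ) * m := by
        have : (0 : ℝ) < R := by linarith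
        positivity
      nlinarith
    linarith)
  have hR0 : (0 : ℝ) < R := by linarith
  have h7 : (R : ℝ) / 2 * (Y.card : ℝ) ≤ R / 2 * (4 * R * η * m) := by
    refine key.trans (le_of_eq ?_)
    ring
  exact le_of_mul_le_mul_left h7 (by positivity)

theorem not_hull_deg (hp : Par R r m γ η) (hG : Ctx G R r m) (hV : Core G R m η V)
    (y : α) (hy : y ∉ hull G m γ V) :
    ((nb G y (hull G m γ V)).card : ℝ) ≤ (R - γ / 2) * m := by
  have hR := hulb_R hp
  have hm := hulb_m hp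
  have he := hulb_eta hp
  have he2 := hulb_eta2 hp
  have hη := hp.hη
  have hγ := hp.hγ
  by_contra hcon
  have hlt : (R - γ / 2) * m < ((nb G y (hull G m γ V)).card : ℝ) := not_le.1 hcon
  apply hy
  obtain ⟨i, hi⟩ := no_clique_nb G hG.cf hp.hη hV y
  refine (hulb_mem_hull G).2 ⟨i, (hulb_mem_hpt G).2 ?_⟩
  have h0 := hull_out_card G hp hG hV
  have h1 := hulb_split_card G (γ := γ) (m := m) (V := V) y
  have h2 : ((nb G y (tot V)).card : ℝ)
      ≤ ((nb G y (rest V i)).card : ℝ) + ((nb G y (V i)).card : ℝ) := by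
    rw [← rest_union V i, nb_union]
    exact_mod_cast Finset.card_union_le _ _
  have h3 := hulb_nb_rest G V i y
  have h4 := hulb_rest_hi G hV i
  have h5 : (R : ℝ) * ((1 + η) * m) - ((R - γ / 2) * m - 4 * R * η * m - (R + 1) * (η * m))
      ≤ γ * m := by
    have h6 : 6 * (R : ℝ) * η + η ≤ γ / 2 := by
      have : 0 ≤ (R : ℝ) * η := by positivity
      linarith
    nlinarith
  linarith

end Pool.Agent.H11.TD
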