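import Pool.Agent.H11.TD.Bas

/-!
# TD Mpc: complete multipartite graphs and deletion of an edge

* `mp_t3`: in the complete multipartite graph with classes the fibres of `c`, the ordered triangles are the triples of
  vertices in three different classes: their number is `N³ - 3 N ∑ a² + 2 ∑ a³` (inclusion-exclusion: for a vertex `v` of
  class `i`, `nb v univ` is the complement of the class, and `ee` of it is `(N - a_i)² - ∑_{j ≠ i} a_j²`).
* `mp_cf`: a clique meets each class at most once.
* `t3_delete`: the ordered triangles of `G` which are not in `G - uv` are the `6 |NN u ∩ NN v|` orderings of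
  `{u, v, z}` with `z` a common neighbour.
-/

set_option autoImplicit false

open Finset

namespace Pool.Agent.H11.TD

variable {α : Type} [Fintype α] [DecidableEq α] (G : SimpleGraph α)

private theorem mpc_sum_cls {k : ℕ} (c : α → Fin k) (f : Fin k → ℝ) :
    ∑ v, f (c v) = ∑ i, ((univ.filter (fun v => c v = i)).card : ℝ) * f i := by
  rw [← Finset.sum_fiberwise univ c (fun v => f (c v))]
  refine Finset.sum_congr rfl fun i _ => ?_
  rw [Finset.sum_congr rfl (g := fun _ => f i), Finset.sum_const, nsmul_eq_mul]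
  intro v hv
  rw [(Finset.mem_filter.mp hv).2]

theorem mp_t3 {k : ℕ} (c : α → Fin k) (h : ∀ u v, G.Adj u v ↔ c u ≠ c v) :
    (t3 G univ : ℝ) = S6 (fun i => ((univ.filter (fun v => c v = i)).card : ℝ)) := by
  classical
  set a : Fin k → ℝ := fun i => ((univ.filter (fun v => c v = i)).card : ℝ) with ha
  set N : ℝ := ∑ i, a i with hN
  have hNc : (Fintype.card α : ℝ) = N := by
    have := mpc_sum_cls c (fun _ => (1 : ℝ))
    simp only [Finset.sum_const, nsmul_eq_mul, mul_one, Finset.card_univ] at this
    rw [this]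
  -- cardinality of the common neighbourhood
  have hcard : ∀ v u, c u ≠ c v → ((nb G u (nb G v univ)).card : ℝ) = N - a (c v) - a (c u) := by
    intro v u huv
    have h1 : nb G u (nb G v univ) =
        univ \ ((univ.filter (fun w => c w = c v)) ∪ (univ.filter (fun w => c w = c u))) := by
      ext w
      rw [mem_nb, mem_nb, h, h]
      simp only [mem_univ, true_and, mem_sdiff, mem_union, mem_filter, not_or]
      constructor
      · rintro ⟨h1, h2⟩; exact ⟨fun h => h1 h.symm, fun h => h2 h.symm⟩
      · rintro ⟨h1, h2⟩; exact ⟨fun h => h1 h.symm, fun h => h2 h.symm⟩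
    have hd : Disjoint (univ.filter (fun w => c w = c v)) (univ.filter (fun w => c w = c u)) := by
      rw [disjoint_left]
      intro w hw hw'
      rw [mem_filter] at hw hw'
      exact huv (hw'.2.symm.trans hw.2)
    have h2 := card_sdiff_add_card_eq_card
      (subset_univ ((univ.filter (fun w => c w = c v)) ∪ (univ.filter (fun w => c w = c u))))
    rw [← h1, card_union_of_disjoint hd, card_univ] at h2
    have h3 : ((nb G u (nb G v univ)).card : ℝ) + (a (c v) + a (c u)) = Fintype.card α := by
      simp only [ha]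
      exact_mod_cast h2
    rw [hNc] at h3
    linarith
  have hee : ∀ v, (ee G (nb G v univ) (nb G v univ) : ℝ) =
      ∑ j, a j * (if j ≠ c v then N - a (c v) - a j else 0) := by
    intro v
    rw [← mpc_sum_cls c (fun j => if j ≠ c v then N - a (c v) - a j else 0)]
    unfold ee
    push_cast
    have h1 : nb G v univ = univ.filter (fun u => c u ≠ c v) := by
      ext w
      rw [mem_nb, h, mem_filter]
      simp only [mem_univ, true_and]
      exact ⟨fun h => h.symm, fun h => h.symm⟩
    conv_lhs => rw [h1]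
    rw [sum_filter]
    refine Finset.sum_congr rfl fun u _ => ?_
    split_ifs with hu
    · rw [← h1, hcard v u hu]
    · rfl
  have hee2 : ∀ i, ∑ j, a j * (if j ≠ i then N - a i - a j else 0) =
      (N - a i) ^ 2 - ∑ j, a j ^ 2 + a i ^ 2 := by
    intro i
    have h1 : ∀ j, a j * (if j ≠ i then N - a i - a j else 0) =
        a j * (N - a i) - a j ^ 2 - (if j = i then a j * (N - a i) - a j ^ 2 else 0) := by
      intro j
      by_cases hj : j = i
      · simp [hj]
      · simp [hj]; ring
    simp only [h1]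
    rw [Finset.sum_sub_distrib, Finset.sum_sub_distrib, ← Finset.sum_mul, ← hN,
      Finset.sum_ite_eq' univ i]
    simp only [mem_univ, if_true]
    ring
  unfold t3
  push_cast
  rw [Finset.sum_congr rfl (fun v _ => (hee v).trans (hee2 (c v)))]
  rw [mpc_sum_cls c (fun i => (N - a i) ^ 2 - ∑ j, a j ^ 2 + a i ^ 2)]
  have h4 : ∀ i, a i * ((N - a i) ^ 2 - ∑ j, a j ^ 2 + a i ^ 2) =
      a i * (N ^ 2 - ∑ j, a j ^ 2) - 2 * N * a i ^ 2 + 2 * a i ^ 3 := by
    intro i; ring
  have h5 : ∑ i, a i * ((N - a i) ^ 2 - ∑ j, a j ^ 2 + a i ^ 2) =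
      N * (N ^ 2 - ∑ j, a j ^ 2) - 2 * N * ∑ i, a i ^ 2 + 2 * ∑ i, a i ^ 3 := by
    simp only [h4]
    rw [Finset.sum_add_distrib, Finset.sum_sub_distrib, ← Finset.sum_mul, ← Finset.mul_sum,
      ← Finset.mul_sum, ← hN]
  have h6 : ∑ i, ((univ.filter (fun v => c v = i)).card : ℝ) *
      ((N - a i) ^ 2 - ∑ j, a j ^ 2 + a i ^ 2) =
      ∑ i, a i * ((N - a i) ^ 2 - ∑ j, a j ^ 2 + a i ^ 2) := rfl
  rw [h6, h5]
  unfold S6
  rw [← hN]
  ring

theorem mp_cf {k : ℕ} (c : α → Fin k) (h : ∀ u v, G.Adj u v → c u ≠ c v) :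
    G.CliqueFree (k + 1) := by
  have hc : G.Colorable k := ⟨SimpleGraph.Coloring.mk c (fun {u v} huv => h u v huv)⟩
  exact hc.cliqueFree (Nat.lt_succ_self k)

open scoped Classical in
private theorem mpc_t3_card : t3 G univ = (univ.filter (fun p : α × α × α =>
    G.Adj p.1 p.2.1 ∧ G.Adj p.1 p.2.2 ∧ G.Adj p.2.1 p.2.2)).card := by
  rw [card_filter, Fintype.sum_prod_type]
  unfold t3
  refine Finset.sum_congr rfl fun v _ => ?_
  rw [Fintype.sum_prod_type]
  unfold ee
  have h1 : nb G v univ = univ.filter (fun u => G.Adj v u) := rfl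
  conv_lhs => rw [h1]
  rw [sum_filter]
  refine Finset.sum_congr rfl fun u _ => ?_
  split_ifs with hu
  · unfold nb
    rw [filter_filter, card_filter]
    refine Finset.sum_congr rfl fun w _ => ?_
    simp [hu]
  · symm
    apply Finset.sum_eq_zero
    intro w _
    simp [hu]

theorem t3_delete (u v : α) : (t3 G univ : ℝ) ≤
    t3 (G.deleteEdges {s(u, v)}) univ + 6 * ((nb G u (NN G v)).card : ℝ) := by
  classical
  have hmain : t3 G univ ≤ t3 (G.deleteEdges {s(u, v)}) univ + 6 * (nb G u (NN G v)).card := by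
    rw [mpc_t3_card G]
    set K := nb G u (NN G v) with hK
    set T := (univ.filter (fun p : α × α × α =>
      (G.deleteEdges {s(u, v)}).Adj p.1 p.2.1 ∧ (G.deleteEdges {s(u, v)}).Adj p.1 p.2.2 ∧
        (G.deleteEdges {s(u, v)}).Adj p.2.1 p.2.2)) with hT
    have hTc : T.card = t3 (G.deleteEdges {s(u, v)}) univ := by
      rw [mpc_t3_card, hT]
      congr
    have hmemK : ∀ z, G.Adj u z → G.Adj v z → z ∈ K := by
      intro z h1 h2
      rw [hK, mem_nb, mem_NN]
      exact ⟨h2, h1⟩
    have hsub : (univ.filter (fun p : α × α × α =>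
        G.Adj p.1 p.2.1 ∧ G.Adj p.1 p.2.2 ∧ G.Adj p.2.1 p.2.2)) ⊆
        T ∪ (K.image (fun z => (u, v, z)) ∪ (K.image (fun z => (v, u, z)) ∪
          (K.image (fun z => (u, z, v)) ∪ (K.image (fun z => (v, z, u)) ∪
            (K.image (fun z => (z, u, v)) ∪ K.image (fun z => (z, v, u))))))) := by
      rintro ⟨x, y, z⟩ hp
      rw [mem_filter] at hp
      obtain ⟨_, hxy, hxz, hyz⟩ := hp
      simp only at hxy hxz hyz
      simp only [mem_union, mem_image, hT, mem_filter, mem_univ, true_and,
        SimpleGraph.deleteEdges_adj, Set.mem_singleton_iff, Sym2.eq_iff, Prod.mk.injEq]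
      by_cases h1 : (x = u ∧ y = v) ∨ (x = v ∧ y = u)
      · right
        rcases h1 with ⟨rfl, rfl⟩ | ⟨rfl, rfl⟩
        · left; exact ⟨z, hmemK z hxz hyz, rfl, rfl, rfl⟩
        · right; left; exact ⟨z, hmemK z hyz hxz, rfl, rfl, rfl⟩
      by_cases h2 : (x = u ∧ z = v) ∨ (x = v ∧ z = u)
      · right
        rcases h2 with ⟨rfl, rfl⟩ | ⟨rfl, rfl⟩
        · right; right; left; exact ⟨y, hmemK y hxy hyz.symm, rfl, rfl, rfl⟩
        · right; right; right; left; exact ⟨y, hmemK y hyz.symm hxy, rfl, rfl, rfl⟩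
      by_cases h3 : (y = u ∧ z = v) ∨ (y = v ∧ z = u)
      · right
        rcases h3 with ⟨rfl, rfl⟩ | ⟨rfl, rfl⟩
        · right; right; right; right; left
          exact ⟨x, hmemK x hxy.symm hxz.symm, rfl, rfl, rfl⟩
        · right; right; right; right; right
          exact ⟨x, hmemK x hxz.symm hxy.symm, rfl, rfl, rfl⟩
      left
      exact ⟨⟨hxy, h1⟩, ⟨hxz, h2⟩, ⟨hyz, h3⟩⟩
    refine (card_le_card hsub).trans ?_
    have hi : ∀ f : α → α × α × α, (K.image f).card ≤ K.card := fun f => card_image_le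
    refine (card_union_le _ _).trans ?_
    have hj : (K.image (fun z => (u, v, z)) ∪ (K.image (fun z => (v, u, z)) ∪
          (K.image (fun z => (u, z, v)) ∪ (K.image (fun z => (v, z, u)) ∪
            (K.image (fun z => (z, u, v)) ∪ K.image (fun z => (z, v, u))))))).card ≤
        K.card + (K.card + (K.card + (K.card + (K.card + K.card)))) :=
      (card_union_le _ _).trans (Nat.add_le_add (hi _) ((card_union_le _ _).trans
        (Nat.add_le_add (hi _) ((card_union_le _ _).trans (Nat.add_le_add (hi _)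
          ((card_union_le _ _).trans (Nat.add_le_add (hi _) ((card_union_le _ _).trans
            (Nat.add_le_add (hi _) (hi _))))))))))
    omega
  exact_mod_cast hmain

end Pool.Agent.H11.TD
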