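import Pool.Agent.H11.TD.S6x

/-!
# TD Pb: the properties of the extremal density

* `kL_six`: `6 kL R r m = R (R²-1) m³ + 3 R (R-1) m² r + 3 (R-1) m (r² - r) + (r³ - 3 r² + 2 r)` for `r ≤ R + 1`: expand
  (`Nat.cast_choose_two`, `Nat.choose` of 3: write `6 choose(n,3) = n (n-1)(n-2)` in `ℝ`), with
  `s = R + 1 - r` as real number `R + 1 - r`.  (Or: it is `s6_exp` for the vector with `r` ones and zeros otherwise.)
* `kG`: `⌊(s m + 1)/2⌋ = s m / 2` if `s m` is even and `(s m + 1)/2` if it is odd, `s = R - r`.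
* `pspec`: p3 and p4 are `kL_six` and its analogue; p2: `6 (R+1) P` is a quotient by `(R+1) m + r` (resp.
  `(R+1) m + r + 1`), multiply out; the error is bounded by a constant (e.g. `C = 100 R⁴`);
  p1: `6 P - R (R-1) m² ≥ 0`: for `L`: `6 kL - R (R-1) m² ((R+1) m + r) = 2 R (R-1) m² r + 3 (R-1) m (r² - r) + ... ≥ 0`; for
  `G` (`3 r > R`) the difference is `(R - 1) m² (2 R (r + 1) - 3 (R - r)) + O(m) > 0` for large `m`
  (`2 R (r+1) - 3 (R - r) > 0` because `3 r > R`).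
-/

set_option autoImplicit false

open Finset

namespace Pool.Agent.H11.TD

private theorem pb_choose3 (n : ℕ) : 6 * (n.choose 3 : ℝ) = n * (n - 1) * (n - 2) := by
  induction n with
  | zero => simp
  | succ n ih =>
    rw [Nat.choose_succ_succ' n 2]
    push_cast
    rw [Nat.cast_choose_two]
    linear_combination ih

theorem kL_six (R r m : ℕ) (hr : r ≤ R + 1) : 6 * kL R r m =
    R * (R + 1) * (R - 1) * (m : ℝ) ^ 3 + 3 * R * (R - 1) * m ^ 2 * r +
      3 * (R - 1) * m * ((r : ℝ) ^ 2 - r) + (r ^ 3 - 3 * r ^ 2 + 2 * r) := by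
  obtain ⟨s, hs⟩ := Nat.exists_eq_add_of_le hr
  have hR : (R : ℝ) = r + s - 1 := by
    have : ((R + 1 : ℕ) : ℝ) = ((r + s : ℕ) : ℝ) := by rw [hs]
    push_cast at this
    linarith
  have hs2 : R + 1 - r = s := by omega
  unfold kL
  rw [hs2]
  have c3 := pb_choose3 r
  have c3' := pb_choose3 s
  rw [Nat.cast_choose_two, Nat.cast_choose_two, hR]
  linear_combination (m + 1 : ℝ) ^ 3 * c3 + (m : ℝ) ^ 3 * c3'

private theorem pb_bd (X D a b m : ℝ) (hm : 1 ≤ m) (hD : m ≤ D) (h : X * D = a * m + b) :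
    |X| ≤ |a| + |b| := by
  have hD0 : 0 < D := by linarith
  have h1 : |X| * D = |a * m + b| := by rw [← h, abs_mul, abs_of_pos hD0]
  have h2 : |a * m + b| ≤ |a| * m + |b| := by
    refine (abs_add_le _ _).trans ?_
    rw [abs_mul, abs_of_nonneg (by linarith : (0 : ℝ) ≤ m)]
  have h3 : |X| * D ≤ (|a| + |b|) * D := by
    rw [h1]
    refine h2.trans ?_
    nlinarith [abs_nonneg a, abs_nonneg b]
  exact le_of_mul_le_mul_right h3 hD0

private theorem pb_kG (R r m : ℕ) (hs : r + 2 ≤ R) : 6 * kG R r m =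
    R * (R + 1) * (R - 1) * (m : ℝ) ^ 3 +
    3 * R * (R - 1) * m ^ 2 * (r + 1) + 3 * (R - 1) * m * (((r : ℝ) + 1) ^ 2 - (r + 1)) +
    (((r : ℝ) + 1) ^ 3 - 3 * (r + 1) ^ 2 + 2 * (r + 1)) -
    3 * (R - r) * m * ((R - 1) * m + r + 1) -
    (if Even ((R - r) * m) then 0 else 3 * ((R - 1) * (m : ℝ) + r + 1) - 6) := by
  have h := kL_six R (r + 1) m (by omega)
  unfold kG
  have hsub : ((R - r : ℕ) : ℝ) = R - r := by rw [Nat.cast_sub (by omega)]
  by_cases he : Even ((R - r) * m)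
  · rw [if_pos he]
    obtain ⟨c, hc⟩ := he
    have h1 : ((R - r) * m + 1) / 2 = c := by omega
    have h2 : ((R - r) * m) % 2 = 0 := by omega
    have h3 : ((R : ℝ) - r) * m = c + c := by
      rw [← hsub]
      exact_mod_cast hc
    rw [h1, h2]
    push_cast at h ⊢
    linear_combination h + 3 * ((R - 1) * (m : ℝ) + r + 1) * h3
  · rw [if_neg he]
    rw [Nat.not_even_iff_odd] at he
    obtain ⟨c, hc⟩ := he
    have h1 : ((R - r) * m + 1) / 2 = c + 1 := by omega
    have h2 : ((R - r) * m) % 2 = 1 := by omega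
    have h3 : ((R : ℝ) - r) * m = 2 * c + 1 := by
      rw [← hsub]
      exact_mod_cast hc
    rw [h1, h2]
    push_cast at h ⊢
    linear_combination h + 3 * ((R - 1) * (m : ℝ) + r + 1) * h3

private theorem pb_p1 (R r m od : ℝ) (hRR : 4 ≤ R) (hrR : 1 ≤ r) (hsR : r + 2 ≤ R)
    (hgtR : R + 1 ≤ 3 * r) (hmR' : 10 * R ^ 2 ≤ m) (hmR : 1 ≤ m) (hodd : od ≤ 6 * R * m) :
    R * (R - 1) * m ^ 2 * ((R + 1) * m + r + 1) ≤
      R * (R + 1) * (R - 1) * m ^ 3 +
            3 * R * (R - 1) * m ^ 2 * (r + 1) + 3 * (R - 1) * m * ((r + 1) ^ 2 - (r + 1)) +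
            ((r + 1) ^ 3 - 3 * (r + 1) ^ 2 + 2 * (r + 1)) -
            3 * (R - r) * m * ((R - 1) * m + r + 1) - od := by
  have hm0 : 0 ≤ m := by linarith
  have hR1 : 0 ≤ R - 1 := by linarith
  have e1 : 0 ≤ r * (r + 1) * (r - 1) := by
    have : 0 ≤ r - 1 := by linarith
    positivity
  have e2 : 3 * (R - r) * (r + 1) * m ≤ 3 * R ^ 2 * m := by
    have h1 : (R - r) * (r + 1) ≤ R * R :=
      mul_le_mul (by linarith) (by linarith) (by linarith) (by linarith)
    have h2 : 3 * (R - r) * (r + 1) ≤ 3 * R ^ 2 := by linarith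
    exact mul_le_mul_of_nonneg_right h2 hm0
  have e3 : m * m ≤ (R - 1) * m ^ 2 * (2 * R * (r + 1) - 3 * (R - r)) := by
    have h8 : 1 ≤ 2 * R * (r + 1) - 3 * (R - r) := by
      have : R * 1 ≤ R * r := mul_le_mul_of_nonneg_left hrR (by linarith)
      linarith
    have h9 : 1 * 1 ≤ (R - 1) * (2 * R * (r + 1) - 3 * (R - r)) :=
      mul_le_mul (by linarith) h8 (by norm_num) hR1
    have h10 := mul_le_mul_of_nonneg_right h9 (mul_nonneg hm0 hm0)
    calc m * m = 1 * 1 * (m * m) := by ring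
      _ ≤ _ := h10
      _ = _ := by ring
  have e4 : 3 * R ^ 2 * m + 6 * R * m ≤ m * m := by
    have h1 : 3 * R ^ 2 + 6 * R ≤ m := by nlinarith
    calc 3 * R ^ 2 * m + 6 * R * m = (3 * R ^ 2 + 6 * R) * m := by ring
      _ ≤ m * m := mul_le_mul_of_nonneg_right h1 hm0
  have e5 : 0 ≤ 3 * (R - 1) * m * (r * (r + 1)) := by positivity
  have key : R * (R + 1) * (R - 1) * m ^ 3 +
            3 * R * (R - 1) * m ^ 2 * (r + 1) + 3 * (R - 1) * m * ((r + 1) ^ 2 - (r + 1)) +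
            ((r + 1) ^ 3 - 3 * (r + 1) ^ 2 + 2 * (r + 1)) -
            3 * (R - r) * m * ((R - 1) * m + r + 1) - od
            - R * (R - 1) * m ^ 2 * ((R + 1) * m + r + 1)
            = (R - 1) * m ^ 2 * (2 * R * (r + 1) - 3 * (R - r)) + 3 * (R - 1) * m * (r * (r + 1))
              - 3 * (R - r) * (r + 1) * m + r * (r + 1) * (r - 1) - od := by ring
  linarith

theorem pspec (R r : ℕ) (hR : 4 ≤ R) (hr : 1 ≤ r) (hs : r + 2 ≤ R) (h3 : 3 * r ≠ R) :
    ∃ C : ℝ, 0 < C ∧ ∃ m0 : ℕ, ∀ m : ℕ, m0 ≤ m → PSpec R r m C (PP R r m) := by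
  have hRR : (4 : ℝ) ≤ R := by exact_mod_cast hR
  have hrR : (1 : ℝ) ≤ r := by exact_mod_cast hr
  have hsR : (r : ℝ) + 2 ≤ R := by exact_mod_cast hs
  rcases Nat.lt_or_ge (3 * r) R with hlt | hge
  · -- case L
    have hltR : 3 * (r : ℝ) < R := by exact_mod_cast hlt
    set c1 : ℝ := (R - 1) * (3 * (R + 1) * ((r : ℝ) ^ 2 - r) - 2 * R * r ^ 2) with hc1
    set c0 : ℝ := (R + 1) * ((r : ℝ) ^ 3 - 3 * r ^ 2 + 2 * r) with hc0
    refine ⟨|c1| + |c0| + 1, by positivity, 1, ?_⟩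
    intro m hm
    have hmR : (1 : ℝ) ≤ m := by exact_mod_cast hm
    have hD : (0 : ℝ) < (R + 1) * m + r := by positivity
    have hP : PP R r m = kL R r m / ((R + 1) * m + r) := by
      unfold PP
      rw [if_pos hlt]
    have h6 : 6 * PP R r m * ((R + 1) * m + r) = R * (R + 1) * (R - 1) * (m : ℝ) ^ 3 +
        3 * R * (R - 1) * m ^ 2 * r + 3 * (R - 1) * m * ((r : ℝ) ^ 2 - r) +
        (r ^ 3 - 3 * r ^ 2 + 2 * r) := by
      rw [← kL_six R r m (by omega), hP]
      field_simp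
    have hr2 : (0 : ℝ) ≤ (r : ℝ) ^ 2 - r := by nlinarith
    have hr3 : (0 : ℝ) ≤ (r : ℝ) ^ 3 - 3 * r ^ 2 + 2 * r := by
      rcases Nat.lt_or_ge r 2 with h | h
      · have : r = 1 := by omega
        rw [this]
        norm_num
      · have h2 : (2 : ℝ) ≤ r := by exact_mod_cast h
        have : (r : ℝ) ^ 3 - 3 * r ^ 2 + 2 * r = r * (r - 1) * (r - 2) := by ring
        rw [this]
        have e1 : (0 : ℝ) ≤ r - 1 := by linarith
        have e2 : (0 : ℝ) ≤ r - 2 := by linarith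
        positivity
    have hR1 : (0 : ℝ) ≤ (R : ℝ) - 1 := by linarith
    constructor
    · -- p1
      have h7 : (R : ℝ) * (R - 1) * m ^ 2 * ((R + 1) * m + r) ≤
          6 * PP R r m * ((R + 1) * m + r) := by
        rw [h6]
        have h8 : 0 ≤ 2 * (R : ℝ) * (R - 1) * m ^ 2 * r + 3 * (R - 1) * m * ((r : ℝ) ^ 2 - r) +
            (r ^ 3 - 3 * r ^ 2 + 2 * r) := by positivity
        linarith
      exact le_of_mul_le_mul_right h7 hD
    · -- p2
      have hmax : max (3 * (r : ℝ) - R) 0 = 0 := max_eq_right (by linarith)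
      rw [hmax]
      have hX := pb_bd (6 * (R + 1) * PP R r m - R * (R + 1) * (R - 1) * (m : ℝ) ^ 2 -
        (2 * R * (R - 1) * r + (R - 1) * 0) * m) ((R + 1) * m + r) c1 c0 m hmR
        (by nlinarith) (by rw [hc1, hc0]; linear_combination (R + 1 : ℝ) * h6)
      linarith
    · intro _
      exact h6
    · intro h
      omega
  · -- case G
    have hgt : R < 3 * r := by omega
    have hgtR : (R : ℝ) + 1 ≤ 3 * r := by exact_mod_cast hgt
    set c1 : ℝ := (R + 1) * (3 * (R - 1) * (((r : ℝ) + 1) ^ 2 - (r + 1)) - 3 * (R - r) * (r + 1))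
      - (2 * R * (R - 1) * r + (R - 1) * (3 * r - R)) * (r + 1) with hc1
    set c0 : ℝ := (R + 1) * (((r : ℝ) + 1) ^ 3 - 3 * (r + 1) ^ 2 + 2 * (r + 1)) with hc0
    set d1 : ℝ := 3 * (R + 1) * (R - 1) with hd1
    set d0 : ℝ := (R + 1) * (3 * ((r : ℝ) + 1) - 6) with hd0
    refine ⟨|c1| + |c0| + |c1 - d1| + |c0 - d0| + 1, by positivity, 10 * R ^ 2, ?_⟩
    intro m hm
    have hmR' : (10 * R ^ 2 : ℝ) ≤ m := by exact_mod_cast hm
    have hmR : (1 : ℝ) ≤ m := by
      have : (1 : ℝ) ≤ 10 * R ^ 2 := by nlinarith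
      linarith
    have hD : (0 : ℝ) < (R + 1) * m + r + 1 := by positivity
    have hP : PP R r m = kG R r m / ((R + 1) * m + r + 1) := by
      unfold PP
      rw [if_neg (by omega)]
    have h6 : 6 * PP R r m * ((R + 1) * m + r + 1) = R * (R + 1) * (R - 1) * (m : ℝ) ^ 3 +
        3 * R * (R - 1) * m ^ 2 * (r + 1) + 3 * (R - 1) * m * (((r : ℝ) + 1) ^ 2 - (r + 1)) +
        (((r : ℝ) + 1) ^ 3 - 3 * (r + 1) ^ 2 + 2 * (r + 1)) -
        3 * (R - r) * m * ((R - 1) * m + r + 1) -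
        (if Even ((R - r) * m) then 0 else 3 * ((R - 1) * (m : ℝ) + r + 1) - 6) := by
      rw [← pb_kG R r m hs, hP]
      field_simp
    have hR1 : (0 : ℝ) ≤ (R : ℝ) - 1 := by linarith
    constructor
    · -- p1
      have hodd : (if Even ((R - r) * m) then (0 : ℝ) else 3 * ((R - 1) * (m : ℝ) + r + 1) - 6)
          ≤ 6 * R * m := by
        split_ifs
        · positivity
        · have : (r : ℝ) + 1 ≤ R * m := by
            have : (R : ℝ) * 1 ≤ R * m := mul_le_mul_of_nonneg_left hmR (by linarith)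
            linarith
          linarith
      have h7 : (R : ℝ) * (R - 1) * m ^ 2 * ((R + 1) * m + r + 1) ≤
          6 * PP R r m * ((R + 1) * m + r + 1) := by
        rw [h6]
        exact pb_p1 R r m _ hRR hrR hsR hgtR hmR' hmR hodd
      exact le_of_mul_le_mul_right h7 hD
    · -- p2
      have hmax : max (3 * (r : ℝ) - R) 0 = 3 * (r : ℝ) - R := max_eq_left (by linarith)
      rw [hmax]
      have hDm : (m : ℝ) ≤ (R + 1) * m + r + 1 := by nlinarith
      by_cases he : Even ((R - r) * m)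
      · rw [if_pos he] at h6
        have hX := pb_bd (6 * (R + 1) * PP R r m - R * (R + 1) * (R - 1) * (m : ℝ) ^ 2 -
          (2 * R * (R - 1) * r + (R - 1) * (3 * r - R)) * m) ((R + 1) * m + r + 1) c1 c0 m hmR
          hDm (by rw [hc1, hc0]; linear_combination (R + 1 : ℝ) * h6)
        linarith [abs_nonneg (c1 - d1), abs_nonneg (c0 - d0)]
      · rw [if_neg he] at h6
        have hX := pb_bd (6 * (R + 1) * PP R r m - R * (R + 1) * (R - 1) * (m : ℝ) ^ 2 -
          (2 * R * (R - 1) * r + (R - 1) * (3 * r - R)) * m) ((R + 1) * m + r + 1) (c1 - d1)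
          (c0 - d0) m hmR
          hDm (by rw [hc1, hc0, hd1, hd0]; linear_combination (R + 1 : ℝ) * h6)
        linarith [abs_nonneg c1, abs_nonneg c0]
    · intro h
      omega
    · intro _
      exact h6

end Pool.Agent.H11.TD
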