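import Pool.Agent.H11.TD.Cls
import Pool.Agent.H11.TD.Mpc
import Pool.Agent.H11.TD.Pb

/-!
# TD LowG: the graph `G*`

`s = R - r ≥ 2`, `n = (R + 1) m + r + 1`, vertices `Fin n`.  The `s m` vertices `v < s m` form the small classes,
`c v = v % s` (size `m` each), the other `(r + 1)(m + 1)` vertices the big classes, `c v = s + (v - s m) % (r + 1)`
(size `m + 1` each).  `G_0` = complete multipartite graph, `t3 G_0 = S6 = 6 kL R (r + 1) m` (`mp_t3`, `s6_exp`, `kL_six`).
Delete the edges `{2 j, 2 j + 1}`, `j < ⌊s m / 2⌋`, one after the other (the classes differ as `s ≥ 2`): each time the codegree is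
at most the codegree `n - 2 m` in `G_0`, so by `t3_delete` `t3` drops by at most `6 (n - 2 m)`.
If `s m` is odd (so `s ≥ 3`, `m` odd; `s m ≥ 3`) delete also `{s m - 2, s m - 1}`: the vertex `s m - 3` is in a class different from
those of `s m - 2` and `s m - 1` (`s ≥ 3`) and is no longer adjacent to `s m - 2`, so the codegree is at most `n - 2 m - 1`.
Result: `t3 G* ≥ 6 kL R (r+1) m - 6 ⌈s m / 2⌉ (n - 2 m) + 6 (s m % 2) = 6 kG R r m` (`n - 2 m = (R - 1) m + r + 1`).
Degrees: a big vertex has `n - (m + 1) = R m + r` neighbours; a small vertex has at most `n - m - 1 = R m + r`, because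
each small vertex is in a deleted pair.
-/

set_option autoImplicit false

open Finset

namespace Pool.Agent.H11.TD

/-- successive deletion of the edges `p i, q i` -/
def lowg_H {α : Type} (G : SimpleGraph α) (p q : ℕ → α) : ℕ → SimpleGraph α
  | 0 => G
  | j + 1 => (lowg_H G p q j).deleteEdges {s(p j, q j)}

theorem lowg_adj {α : Type} (G : SimpleGraph α) (p q : ℕ → α) (j : ℕ) (a b : α) :
    (lowg_H G p q j).Adj a b ↔ G.Adj a b ∧ ∀ i < j, s(a, b) ≠ s(p i, q i) := by
  induction j with
  | zero => simp [lowg_H]
  | succ j ih =>
    rw [lowg_H, SimpleGraph.deleteEdges_adj, ih]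
    constructor
    · rintro ⟨⟨h1, h2⟩, h3⟩
      refine ⟨h1, fun i hi => ?_⟩
      rcases Nat.lt_succ_iff_lt_or_eq.mp hi with h | h
      · exact h2 i h
      · subst h
        simpa using h3
    · rintro ⟨h1, h2⟩
      refine ⟨⟨h1, fun i hi => h2 i (by omega)⟩, ?_⟩
      have := h2 j (by omega)
      simpa using this

theorem lowg_t3 {α : Type} [Fintype α] [DecidableEq α] (G : SimpleGraph α) (p q : ℕ → α)
    (N : ℕ → ℝ) (j : ℕ)
    (h : ∀ i < j, ((nb (lowg_H G p q i) (p i) (NN (lowg_H G p q i) (q i))).card : ℝ) ≤ N i) :
    (t3 G univ : ℝ) ≤ t3 (lowg_H G p q j) univ + 6 * ∑ i ∈ range j, N i := by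
  induction j with
  | zero => simp [lowg_H]
  | succ j ih =>
    have h1 := ih (fun i hi => h i (by omega))
    have h2 := t3_delete (lowg_H G p q j) (p j) (q j)
    have h3 := h j (by omega)
    rw [Finset.sum_range_succ]
    rw [lowg_H]
    linarith

/-- the class of a vertex, as a natural number -/
def lowg_c (s r m v : ℕ) : ℕ := if v < s * m then v % s else s + (v - s * m) % (r + 1)

theorem lowg_c_lt (s r m v : ℕ) (hs : 2 ≤ s) : lowg_c s r m v < r + s + 1 := by
  unfold lowg_c
  split_ifs with h
  · have := Nat.mod_lt v (show 0 < s by omega)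
    omega
  · have := Nat.mod_lt (v - s * m) (show 0 < r + 1 by omega)
    omega

theorem lowg_c_small (s r m v : ℕ) (hs : 2 ≤ s) : lowg_c s r m v < s ↔ v < s * m := by
  unfold lowg_c
  split_ifs with h
  · have := Nat.mod_lt v (show 0 < s by omega)
    simp [h, this]
  · constructor
    · intro h'; omega
    · intro h'; omega

theorem lowg_card_small (s r m n i : ℕ) (hs : 2 ≤ s) (hn : n = s * m + (r + 1) * (m + 1))
    (hi : i < s) : (univ.filter (fun v : Fin n => lowg_c s r m v.val = i)).card = m := by
  rw [← Finset.card_map Fin.valEmbedding]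
  have : (univ.filter (fun v : Fin n => lowg_c s r m v.val = i)).map Fin.valEmbedding =
      (range m).image (fun k => s * k + i) := by
    ext v
    simp only [Finset.mem_map, Finset.mem_filter, Finset.mem_univ, true_and,
      Fin.valEmbedding_apply, Finset.mem_image, Finset.mem_range]
    constructor
    · rintro ⟨w, hw, rfl⟩
      have h1 : w.val < s * m := by
        rw [← lowg_c_small s r m w.val hs]; omega
      unfold lowg_c at hw
      rw [if_pos h1] at hw
      refine ⟨w.val / s, Nat.div_lt_of_lt_mul h1, ?_⟩
      rw [← hw]
      exact Nat.div_add_mod _ _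
    · rintro ⟨k, hk, rfl⟩
      have h1 : s * k + i < s * m := by
        calc s * k + i < s * k + s := by omega
          _ = s * (k + 1) := by ring
          _ ≤ s * m := Nat.mul_le_mul_left s hk
      have h2 : s * k + i < n := by rw [hn]; omega
      refine ⟨⟨s * k + i, h2⟩, ?_, rfl⟩
      unfold lowg_c
      simp only
      rw [if_pos h1, Nat.mul_add_mod, Nat.mod_eq_of_lt hi]
  rw [this, Finset.card_image_of_injective, Finset.card_range]
  intro a b hab
  have : s * a = s * b := by
    simp only at hab
    omega
  exact Nat.eq_of_mul_eq_mul_left (by omega) this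

theorem lowg_card_big (s r m n i : ℕ) (hs : 2 ≤ s) (hn : n = s * m + (r + 1) * (m + 1))
    (hi : s ≤ i) (hi' : i < r + s + 1) :
    (univ.filter (fun v : Fin n => lowg_c s r m v.val = i)).card = m + 1 := by
  rw [← Finset.card_map Fin.valEmbedding]
  have : (univ.filter (fun v : Fin n => lowg_c s r m v.val = i)).map Fin.valEmbedding =
      (range (m + 1)).image (fun k => s * m + ((r + 1) * k + (i - s))) := by
    ext v
    simp only [Finset.mem_map, Finset.mem_filter, Finset.mem_univ, true_and,
      Fin.valEmbedding_apply, Finset.mem_image, Finset.mem_range]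
    constructor
    · rintro ⟨w, hw, rfl⟩
      have h1 : ¬ w.val < s * m := by
        rw [← lowg_c_small s r m w.val hs]; omega
      unfold lowg_c at hw
      rw [if_neg h1] at hw
      have hw2 : w.val < s * m + (r + 1) * (m + 1) := by rw [← hn]; exact w.isLt
      refine ⟨(w.val - s * m) / (r + 1), Nat.div_lt_of_lt_mul (by omega), ?_⟩
      have h3 : i - s = (w.val - s * m) % (r + 1) := by omega
      rw [h3, Nat.div_add_mod]
      omega
    · rintro ⟨k, hk, rfl⟩
      have h1 : (r + 1) * k + (i - s) < (r + 1) * (m + 1) := by
        calc (r + 1) * k + (i - s) < (r + 1) * k + (r + 1) := by omega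
          _ = (r + 1) * (k + 1) := by ring
          _ ≤ (r + 1) * (m + 1) := Nat.mul_le_mul_left _ hk
      have h2 : s * m + ((r + 1) * k + (i - s)) < n := by rw [hn]; omega
      refine ⟨⟨s * m + ((r + 1) * k + (i - s)), h2⟩, ?_, rfl⟩
      unfold lowg_c
      simp only
      rw [if_neg (by omega), Nat.add_sub_cancel_left, Nat.mul_add_mod,
        Nat.mod_eq_of_lt (by omega)]
      omega
  rw [this, Finset.card_image_of_injective, Finset.card_range]
  intro a b hab
  have : (r + 1) * a = (r + 1) * b := by
    simp only at hab
    omega
  exact Nat.eq_of_mul_eq_mul_left (by omega) this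

theorem lowg_c_ne (s r m a d : ℕ) (hs : 2 ≤ s) (hd : 1 ≤ d) (hds : d < s) (h : a + d < s * m) :
    lowg_c s r m a ≠ lowg_c s r m (a + d) := by
  unfold lowg_c
  rw [if_pos (by omega), if_pos h]
  intro h'
  have h1 : a ≡ a + d [MOD s] := h'
  have h2 : s ∣ a + d - a := (Nat.modEq_iff_dvd' (by omega)).mp h1
  rw [Nat.add_sub_cancel_left] at h2
  exact absurd (Nat.le_of_dvd (by omega) h2) (by omega)

theorem low_G (R r m : ℕ) (hr : r + 2 ≤ R) (hm : 1 ≤ m) :
    ∃ G0 ∈ Cls ((R + 1) * m + r + 1) (R * m + r) (R + 1), kG R r m ≤ (tri G0 : ℝ) := by
  classical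
  obtain ⟨s, rfl⟩ : ∃ s, R = r + s := ⟨R - r, by omega⟩
  have hs : 2 ≤ s := by omega
  generalize hn' : (r + s + 1) * m + r + 1 = n
  have hn : n = s * m + (r + 1) * (m + 1) := by rw [← hn']; ring
  have hsm : 2 ≤ s * m := by
    calc 2 ≤ s := hs
      _ = s * 1 := by ring
      _ ≤ s * m := Nat.mul_le_mul_left _ hm
  have hsmn : s * m < n := by
    rw [hn]; have : 0 < (r + 1) * (m + 1) := by positivity
    omega
  -- the classes
  let c : Fin n → Fin (r + s + 1) := fun v => ⟨lowg_c s r m v.val, lowg_c_lt s r m v.val hs⟩
  have hc : ∀ v, (c v).val = lowg_c s r m v.val := fun v => rfl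
  have hcard : ∀ i : Fin (r + s + 1), (univ.filter (fun v => c v = i)).card =
      if i.val < s then m else m + 1 := by
    intro i
    have h1 : (univ.filter (fun v => c v = i)) =
        univ.filter (fun v : Fin n => lowg_c s r m v.val = i.val) := by
      ext v
      simp only [Finset.mem_filter, Finset.mem_univ, true_and, ← hc, Fin.ext_iff]
    rw [h1]
    split_ifs with h
    · exact lowg_card_small s r m n i.val hs hn h
    · exact lowg_card_big s r m n i.val hs hn (by omega) i.isLt
  -- the pairs
  let p : ℕ → Fin n := fun j => ⟨min (2 * j) (s * m - 2), by omega⟩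
  let q : ℕ → Fin n := fun j => ⟨min (2 * j) (s * m - 2) + 1, by omega⟩
  have hpq : ∀ j, c (p j) ≠ c (q j) := by
    intro j hj
    have : lowg_c s r m (p j).val = lowg_c s r m (q j).val := by
      rw [← hc, ← hc, hj]
    exact lowg_c_ne s r m (min (2 * j) (s * m - 2)) 1 hs le_rfl (by omega) (by omega) this
  have hps : ∀ j, (c (p j)).val < s := by
    intro j
    rw [hc, lowg_c_small s r m _ hs]
    show min (2 * j) (s * m - 2) < s * m
    omega
  have hqs : ∀ j, (c (q j)).val < s := by
    intro j
    rw [hc, lowg_c_small s r m _ hs]
    show min (2 * j) (s * m - 2) + 1 < s * m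
    omega
  -- the complete multipartite graph
  let G : SimpleGraph (Fin n) :=
    { Adj := fun u v => c u ≠ c v
      symm := ⟨fun u v h => Ne.symm h⟩
      loopless := ⟨fun u h => h rfl⟩ }
  have hG : ∀ u v, G.Adj u v ↔ c u ≠ c v := fun u v => Iff.rfl
  have hHc : ∀ j u v, (lowg_H G p q j).Adj u v → c u ≠ c v := by
    intro j u v h
    exact ((lowg_adj G p q j u v).mp h).1
  set K := (s * m + 1) / 2 with hK
  refine ⟨lowg_H G p q K, ⟨?_, ?_⟩, ?_⟩
  · -- degrees
    intro v
    by_cases hv : v.val < s * m
    · -- small vertex
      obtain ⟨w, hw1, hw2⟩ : ∃ w, c w ≠ c v ∧ ¬ (lowg_H G p q K).Adj v w := by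
        have hi : v.val / 2 < K := by omega
        have h1 : v = p (v.val / 2) ∨ v = q (v.val / 2) := by
          rcases Nat.even_or_odd' v.val with ⟨k, hk | hk⟩
          · by_cases h2 : v.val ≤ s * m - 2
            · left
              apply Fin.ext
              show v.val = min (2 * (v.val / 2)) (s * m - 2)
              omega
            · right
              apply Fin.ext
              show v.val = min (2 * (v.val / 2)) (s * m - 2) + 1
              omega
          · right
            apply Fin.ext
            show v.val = min (2 * (v.val / 2)) (s * m - 2) + 1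
            omega
        rcases h1 with h1 | h1
        · refine ⟨q (v.val / 2), ?_, ?_⟩
          · conv_rhs => rw [h1]
            exact (hpq _).symm
          · intro hadj
            have := ((lowg_adj G p q K _ _).mp hadj).2 (v.val / 2) hi
            apply this
            rw [← h1]
        · refine ⟨p (v.val / 2), ?_, ?_⟩
          · conv_rhs => rw [h1]
            exact hpq _
          · intro hadj
            have := ((lowg_adj G p q K _ _).mp hadj).2 (v.val / 2) hi
            apply this
            rw [← h1, Sym2.eq_swap]
      have h1 : (lowg_H G p q K).neighborSet v ⊆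
          ((univ \ univ.filter (fun u => c u = c v)).erase w : Finset (Fin n)) := by
        intro u hu
        rw [SimpleGraph.mem_neighborSet] at hu
        simp only [Finset.coe_erase, Set.mem_sdiff, Finset.mem_coe, Finset.mem_sdiff,
          Finset.mem_univ, Finset.mem_filter, true_and, Set.mem_singleton_iff]
        refine ⟨fun h => hHc K v u hu h.symm, ?_⟩
        rintro rfl
        exact hw2 hu
      have h2 := Set.ncard_le_ncard h1 (Finset.finite_toSet _)
      rw [Set.ncard_coe_finset, Finset.card_erase_of_mem (by simp [hw1]),
        Finset.card_sdiff_of_subset (Finset.subset_univ _), hcard, if_pos (by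
          rw [hc, lowg_c_small s r m _ hs]; exact hv), Finset.card_univ, Fintype.card_fin] at h2
      refine h2.trans (le_of_eq ?_)
      have : n = (r + s) * m + r + m + 1 := by rw [hn]; ring
      omega
    · have h1 : (lowg_H G p q K).neighborSet v ⊆
          ((univ \ univ.filter (fun u => c u = c v)) : Finset (Fin n)) := by
        intro u hu
        rw [SimpleGraph.mem_neighborSet] at hu
        simp only [Finset.mem_coe, Finset.mem_sdiff,
          Finset.mem_univ, Finset.mem_filter, true_and]
        exact fun h => hHc K v u hu h.symm
      have h2 := Set.ncard_le_ncard h1 (Finset.finite_toSet _)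
      rw [Set.ncard_coe_finset,
        Finset.card_sdiff_of_subset (Finset.subset_univ _), hcard, if_neg (by
          rw [hc, lowg_c_small s r m _ hs]; exact hv), Finset.card_univ, Fintype.card_fin] at h2
      refine h2.trans (le_of_eq ?_)
      have : n = (r + s) * m + r + m + 1 := by rw [hn]; ring
      omega
  · exact mp_cf _ c (hHc K)
  · -- triangles
    have hcod : ∀ u v, c u ≠ c v → (c u).val < s → (c v).val < s →
        (univ.filter (fun w => c w ≠ c u ∧ c w ≠ c v)).card = n - 2 * m := by
      intro u v huv hu hv
      have h1 : univ.filter (fun w => c w ≠ c u ∧ c w ≠ c v) =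
          univ \ (univ.filter (fun w => c w = c u) ∪ univ.filter (fun w => c w = c v)) := by
        ext w
        simp [not_or]
      have h2 : Disjoint (univ.filter (fun w => c w = c u)) (univ.filter (fun w => c w = c v)) := by
        rw [Finset.disjoint_left]
        intro w hw hw'
        rw [Finset.mem_filter] at hw hw'
        exact huv (hw.2.symm.trans hw'.2)
      rw [h1, Finset.card_sdiff_of_subset (Finset.subset_univ _), Finset.card_union_of_disjoint h2,
        hcard, hcard, if_pos hu, if_pos hv, Finset.card_univ, Fintype.card_fin]
      omega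
    have hsub : ∀ j u v, nb (lowg_H G p q j) u (NN (lowg_H G p q j) v) ⊆
        univ.filter (fun w => c w ≠ c u ∧ c w ≠ c v) := by
      intro j u v w hw
      rw [mem_nb, mem_NN] at hw
      simp only [Finset.mem_filter, Finset.mem_univ, true_and]
      exact ⟨(hHc j u w hw.2).symm, (hHc j v w hw.1).symm⟩
    have hnm : 2 * m + ((r + s - 1) * m + r + 1) = n := by
      rw [hn]
      obtain ⟨s', rfl⟩ : ∃ s', s = s' + 1 := ⟨s - 1, by omega⟩
      rw [show r + (s' + 1) - 1 = r + s' by omega]
      ring
    have hmain : (t3 G univ : ℝ) ≤ t3 (lowg_H G p q K) univ +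
        6 * ((K : ℝ) * ((n : ℝ) - 2 * m) - ((s * m % 2 : ℕ) : ℝ)) := by
      by_cases hev : s * m % 2 = 0
      · have h := lowg_t3 G p q (fun _ => (n : ℝ) - 2 * m) K (by
          intro i hi
          have h1 := Finset.card_le_card (hsub i (p i) (q i))
          rw [hcod _ _ (hpq i) (hps i) (hqs i)] at h1
          have h2 : ((nb (lowg_H G p q i) (p i) (NN (lowg_H G p q i) (q i))).card : ℝ) ≤
            ((n - 2 * m : ℕ) : ℝ) := by exact_mod_cast h1
          rw [Nat.cast_sub (by omega)] at h2
          push_cast at h2
          exact h2)
        rw [Finset.sum_const, Finset.card_range, nsmul_eq_mul] at h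
        rw [hev]
        push_cast
        linarith
      · have hodd : s * m % 2 = 1 := by omega
        have hs3 : 3 ≤ s := by
          by_contra hcon
          have : s = 2 := by omega
          subst this
          omega
        have hsm3 : 3 ≤ s * m := by omega
        obtain ⟨k, hk⟩ : ∃ k, K = k + 1 := ⟨K - 1, by omega⟩
        have hk2 : s * m = 2 * k + 1 := by omega
        have h := lowg_t3 G p q (fun i => if i < k then (n : ℝ) - 2 * m else (n : ℝ) - 2 * m - 1) K (by
          intro i hi
          have h1 := Finset.card_le_card (hsub i (p i) (q i))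
          rw [hcod _ _ (hpq i) (hps i) (hqs i)] at h1
          split_ifs with hik
          · have h2 : ((nb (lowg_H G p q i) (p i) (NN (lowg_H G p q i) (q i))).card : ℝ) ≤
              ((n - 2 * m : ℕ) : ℝ) := by exact_mod_cast h1
            rw [Nat.cast_sub (by omega)] at h2
            push_cast at h2
            exact h2
          · have hik' : i = k := by omega
            -- the vertex `s m - 3`
            let w : Fin n := ⟨s * m - 3, by omega⟩
            have hpi : p i = ⟨s * m - 2, by omega⟩ := by
              apply Fin.ext
              show min (2 * i) (s * m - 2) = s * m - 2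
              omega
            have hqi : q i = ⟨s * m - 1, by omega⟩ := by
              apply Fin.ext
              show min (2 * i) (s * m - 2) + 1 = s * m - 1
              omega
            have hwp : c w ≠ c (p i) := by
              intro h'
              have h3 : lowg_c s r m (s * m - 3) = lowg_c s r m (s * m - 3 + 1) := by
                have h4 : lowg_c s r m w.val = lowg_c s r m (p i).val := by
                  rw [← hc, ← hc, h']
                rw [hpi] at h4
                have h5 : s * m - 3 + 1 = s * m - 2 := by omega
                rw [h5]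
                exact h4
              exact lowg_c_ne s r m (s * m - 3) 1 hs le_rfl (by omega) (by omega) h3
            have hwq : c w ≠ c (q i) := by
              intro h'
              have h3 : lowg_c s r m (s * m - 3) = lowg_c s r m (s * m - 3 + 2) := by
                have h4 : lowg_c s r m w.val = lowg_c s r m (q i).val := by
                  rw [← hc, ← hc, h']
                rw [hqi] at h4
                have h5 : s * m - 3 + 2 = s * m - 1 := by omega
                rw [h5]
                exact h4
              exact lowg_c_ne s r m (s * m - 3) 2 hs (by omega) (by omega) (by omega) h3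
            have hwn : w ∉ nb (lowg_H G p q i) (p i) (NN (lowg_H G p q i) (q i)) := by
              intro h'
              rw [mem_nb] at h'
              have h3 := ((lowg_adj G p q i (p i) w).mp h'.2).2 (i - 1) (by omega)
              apply h3
              have h4 : p (i - 1) = w := by
                apply Fin.ext
                show min (2 * (i - 1)) (s * m - 2) = s * m - 3
                omega
              have h5 : q (i - 1) = p i := by
                apply Fin.ext
                show min (2 * (i - 1)) (s * m - 2) + 1 = min (2 * i) (s * m - 2)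
                omega
              rw [h4, h5, Sym2.eq_swap]
            have h6 : nb (lowg_H G p q i) (p i) (NN (lowg_H G p q i) (q i)) ⊆
                (univ.filter (fun w => c w ≠ c (p i) ∧ c w ≠ c (q i))).erase w := by
              intro u hu
              rw [Finset.mem_erase]
              refine ⟨?_, hsub i _ _ hu⟩
              rintro rfl
              exact hwn hu
            have h7 := Finset.card_le_card h6
            rw [Finset.card_erase_of_mem (by simp [hwp, hwq]),
              hcod _ _ (hpq i) (hps i) (hqs i)] at h7
            have h8 : ((nb (lowg_H G p q i) (p i) (NN (lowg_H G p q i) (q i))).card : ℝ) ≤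
              ((n - 2 * m - 1 : ℕ) : ℝ) := by exact_mod_cast h7
            rw [Nat.cast_sub (by omega), Nat.cast_sub (by omega)] at h8
            push_cast at h8
            exact h8)
        rw [hk, Finset.sum_range_succ, if_neg (lt_irrefl k)] at h
        have h9 : ∑ i ∈ range k, (if i < k then (n : ℝ) - 2 * m else (n : ℝ) - 2 * m - 1) =
            k * ((n : ℝ) - 2 * m) := by
          rw [Finset.sum_congr rfl (fun i hi => if_pos (Finset.mem_range.mp hi)),
            Finset.sum_const, Finset.card_range, nsmul_eq_mul]
        rw [h9] at h
        rw [hodd, hk]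
        push_cast
        linarith
    have ht3 : (t3 G univ : ℝ) = 6 * kL (r + s) (r + 1) m := by
      rw [mp_t3 G c hG]
      have h1 : (fun i : Fin (r + s + 1) => ((univ.filter (fun v => c v = i)).card : ℝ)) =
          fun i => (m : ℝ) + (if i.val < s then 0 else 1) := by
        funext i
        rw [hcard i]
        split_ifs <;> simp
      have hcnt : ∑ i : Fin (r + s + 1), (if i.val < s then (0 : ℝ) else 1) = r + 1 := by
        rw [Fin.sum_univ_eq_sum_range (fun i => if i < s then (0 : ℝ) else 1) (r + s + 1)]
        rw [show r + s + 1 = s + (r + 1) by omega, Finset.sum_range_add]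
        rw [Finset.sum_congr rfl (fun i hi => if_pos (Finset.mem_range.mp hi)),
          Finset.sum_congr rfl (fun i hi => if_neg (show ¬ s + i < s by omega))]
        simp
      have hcnt2 : ∑ i : Fin (r + s + 1), (if i.val < s then (0 : ℝ) else 1) ^ 2 = r + 1 := by
        rw [← hcnt]
        apply Finset.sum_congr rfl
        intro i _
        split_ifs <;> simp
      have hcnt3 : ∑ i : Fin (r + s + 1), (if i.val < s then (0 : ℝ) else 1) ^ 3 = r + 1 := by
        rw [← hcnt]
        apply Finset.sum_congr rfl
        intro i _
        split_ifs <;> simp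
      rw [h1, s6_exp (r + s) m (fun i => if i.val < s then (0 : ℝ) else 1)]
      rw [hcnt, hcnt2, hcnt3, kL_six (r + s) (r + 1) m (by omega)]
      push_cast
      ring
    have htri : (t3 (lowg_H G p q K) univ : ℝ) = 6 * (tri (lowg_H G p q K) : ℝ) := by
      have := t3_cliques (lowg_H G p q K)
      rw [this]
      push_cast
      rfl
    have hkG : kG (r + s) r m = kL (r + s) (r + 1) m - (K : ℝ) * ((n : ℝ) - 2 * m) +
        ((s * m % 2 : ℕ) : ℝ) := by
      unfold kG
      rw [show r + s - r = s by omega, ← hK]
      have : (n : ℝ) = (r + s + 1) * m + r + 1 := by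
        rw [← hn']; push_cast; ring
      rw [this]
      push_cast
      ring
    rw [hkG]
    rw [ht3, htri] at hmain
    linarith

end Pool.Agent.H11.TD
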