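import Pool.Agent.H11.TD.Cls
import Pool.Agent.H11.TD.Mpc
import Pool.Agent.H11.TD.Pb

/-!
# TD LowL: the Turan graph

`n0 = (R + 1) m + r`, complete multipartite graph with `r` classes of size `m + 1` and `R + 1 - r` classes of size `m`
(for instance `c v = v % (R + 1)` on `Fin n0`, or a sigma type of cardinality `n0`).  Degrees: `n0 - (m + 1)` and
`n0 - m = R m + r`.  Number of triangles: `t3 = 6 tri` (`t3_cliques`), `mp_t3`, `s6_exp` (for the vector of the
`x i = 1` for `r` indices and `0` otherwise) and `kL_six`.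
-/

set_option autoImplicit false

open Finset

namespace Pool.Agent.H11.TD

/-- the class of a vertex -/
private def lowl_c (R n : ℕ) (v : Fin n) : Fin (R + 1) := ⟨v.1 % (R + 1), Nat.mod_lt _ (Nat.succ_pos R)⟩

private theorem lowl_card (R r m : ℕ) (hr : r ≤ R) (i : Fin (R + 1)) :
    (univ.filter (fun v : Fin ((R + 1) * m + r) => lowl_c R _ v = i)).card =
      m + if i.1 < r then 1 else 0 := by
  have h1 : (univ.filter (fun v : Fin ((R + 1) * m + r) => lowl_c R _ v = i)).card =
      ((range ((R + 1) * m + r)).filter (fun v => v ≡ i.1 [MOD (R + 1)])).card := by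
    refine card_bij (fun v _ => v.1) ?_ ?_ ?_
    · intro v hv
      rw [mem_filter] at hv ⊢
      refine ⟨mem_range.2 v.2, ?_⟩
      have h2 := congrArg Fin.val hv.2
      unfold Nat.ModEq
      rw [Nat.mod_eq_of_lt i.2]
      exact h2
    · intro v _ w _ h
      exact Fin.ext h
    · intro v hv
      rw [mem_filter] at hv
      refine ⟨⟨v, mem_range.1 hv.1⟩, ?_, rfl⟩
      rw [mem_filter]
      refine ⟨mem_univ _, Fin.ext ?_⟩
      have h2 := hv.2
      unfold Nat.ModEq at h2
      rw [Nat.mod_eq_of_lt i.2] at h2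
      exact h2
  rw [h1, ← Nat.count_eq_card_filter_range, Nat.count_modEq_card _ (Nat.succ_pos R),
    Nat.mod_eq_of_lt i.2]
  have h2 : ((R + 1) * m + r) % (R + 1) = r := by
    rw [Nat.mul_add_mod, Nat.mod_eq_of_lt (by omega)]
  have h3 : ((R + 1) * m + r) / (R + 1) = m := by
    rw [Nat.mul_add_div (Nat.succ_pos R), Nat.div_eq_of_lt (by omega), add_zero]
  rw [h2, h3]

private theorem lowl_sum (R r : ℕ) (hr : r ≤ R) :
    ∑ i : Fin (R + 1), (if i.1 < r then (1 : ℝ) else 0) = r := by
  rw [Fin.sum_univ_eq_sum_range (fun i => if i < r then (1 : ℝ) else 0), ← sum_filter]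
  have h1 : (range (R + 1)).filter (fun i => i < r) = range r := by
    ext i
    rw [mem_filter, mem_range, mem_range]
    omega
  rw [h1, sum_const, card_range, nsmul_eq_mul, mul_one]

theorem low_L (R r m : ℕ) (hR : 1 ≤ R) (hr : r ≤ R) : ∃ G0 ∈ Cls ((R + 1) * m + r) (R * m + r) (R + 1),
    kL R r m = (tri G0 : ℝ) := by
  classical
  let G : SimpleGraph (Fin ((R + 1) * m + r)) :=
    { Adj := fun u v => lowl_c R _ u ≠ lowl_c R _ v
      symm := ⟨fun _ _ h => h.symm⟩
      loopless := ⟨fun _ h => h rfl⟩ }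
  refine ⟨G, ⟨fun v => ?_, mp_cf G (lowl_c R _) fun u v h => h⟩, ?_⟩
  · have h1 : G.neighborSet v =
        (((univ : Finset (Fin ((R + 1) * m + r))).filter
          (fun u => ¬ (lowl_c R _ u = lowl_c R _ v)) : Finset (Fin ((R + 1) * m + r))) :
            Set (Fin ((R + 1) * m + r))) := by
      ext u
      rw [SimpleGraph.mem_neighborSet, coe_filter, Set.mem_ofPred_eq]
      constructor
      · intro h
        exact ⟨mem_univ _, fun h' => h h'.symm⟩
      · intro h h'
        exact h.2 h'.symm
    rw [h1, Set.ncard_coe_finset]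
    have h2 := card_filter_add_card_filter_not (s := (univ : Finset (Fin ((R + 1) * m + r))))
      (fun u => lowl_c R _ u = lowl_c R _ v)
    rw [lowl_card R r m hr, card_univ, Fintype.card_fin] at h2
    have h3 : (R + 1) * m = R * m + m := by ring
    omega
  · have h1 := mp_t3 G (lowl_c R _) (fun u v => Iff.rfl)
    have h2 : (fun i => (((univ.filter
        (fun v : Fin ((R + 1) * m + r) => lowl_c R _ v = i)).card : ℕ) : ℝ)) =
        fun i => (m : ℝ) + if i.1 < r then (1 : ℝ) else 0 := by
      funext i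
      rw [lowl_card R r m hr]
      push_cast
      rfl
    rw [h2, s6_exp, t3_cliques] at h1
    have h3 : ∀ k : ℕ, k ≠ 0 → ∑ i : Fin (R + 1), (if i.1 < r then (1 : ℝ) else 0) ^ k = r := by
      intro k hk
      rw [← lowl_sum R r hr]
      refine sum_congr rfl fun i _ => ?_
      split_ifs
      · exact one_pow k
      · exact zero_pow hk
    rw [h3 2 (by norm_num), h3 3 (by norm_num), lowl_sum R r hr] at h1
    have h4 := kL_six R r m (by omega)
    unfold tri
    push_cast at h1
    linarith

end Pool.Agent.H11.TD
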