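import Pool.Agent.H11.TD.Upp
import Pool.Agent.H11.TD.LowL
import Pool.Agent.H11.TD.LowG

/-!
# TD Main (assembly, proved)
-/

set_option autoImplicit false

open Finset Filter Topology

namespace Pool.Agent.H11.TD

theorem main (R r : ℕ) (hr : 1 ≤ r) (hs : r + 2 ≤ R) (h3 : 3 * r ≠ R) :
    ∃ m0 : ℕ, ∀ m : ℕ, m0 ≤ m →
      Tendsto (fun p : ℕ => (exT p (R * m + r) (R + 1) : ℝ) / p) atTop (𝓝 (PP R r m)) := by
  have hR : 4 ≤ R := by omega
  obtain ⟨C, hC, m1, h1⟩ := pspec R r hR hr hs h3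
  obtain ⟨m2, h2⟩ := upper R r hR hr hs h3 C hC
  refine ⟨max 1 (max m1 m2), fun m hm => ?_⟩
  have hm1 : 1 ≤ m := (le_max_left _ _).trans hm
  have hm2 : m1 ≤ m := (le_max_left _ _).trans ((le_max_right _ _).trans hm)
  have hm3 : m2 ≤ m := (le_max_right _ _).trans ((le_max_right _ _).trans hm)
  have hP := h1 m hm2
  have hP0 : 0 ≤ PP R r m := by
    have := hP.p1
    have hR' : (4 : ℝ) ≤ R := by exact_mod_cast hR
    have : 0 ≤ (R : ℝ) * (R - 1) * m ^ 2 := by
      have : 0 ≤ (R : ℝ) * (R - 1) := by nlinarith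
      positivity
    linarith
  have hup : ∀ p (G : SimpleGraph (Fin p)), G ∈ Cls p (R * m + r) (R + 1) →
      (tri G : ℝ) ≤ PP R r m * p := by
    intro p G hG
    have h4 := h2 m hm3 _ hP (Fin p) G (ctx_of_cls G hG)
    rw [t3_cliques, Fintype.card_fin] at h4
    unfold tri
    push_cast at h4
    linarith
  by_cases h5 : 3 * r < R
  · refine lim_of _ _ ((R + 1) * m + r) _ (by positivity) hP0 hup ?_
    obtain ⟨G0, hG0, h6⟩ := low_L R r m (by omega) (by omega)
    refine ⟨G0, hG0, ?_⟩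
    rw [← h6]
    unfold PP
    rw [if_pos h5]
    have h7 : (0 : ℝ) < (R + 1) * m + r := by positivity
    push_cast
    rw [div_mul_cancel₀ _ h7.ne']
  · refine lim_of _ _ ((R + 1) * m + r + 1) _ (by positivity) hP0 hup ?_
    obtain ⟨G0, hG0, h6⟩ := low_G R r m hs hm1
    refine ⟨G0, hG0, ?_⟩
    refine le_trans (le_of_eq ?_) h6
    unfold PP
    rw [if_neg h5]
    have h7 : (0 : ℝ) < (R + 1) * m + r + 1 := by positivity
    push_cast
    rw [div_mul_cancel₀ _ h7.ne']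

end Pool.Agent.H11.TD
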