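import Pool.Agent.H11.TD.S6x

/-!
# TD NumE: the exact numerical inequality in the case `c = 1`, `p = 0`, `3 r > R`

`X = ∑ x i = r + 1`, `W0 = (R - 1) m`, `a i = m + x i`.  Let `D(x) = S6(a) - 3 ∑_i a i (1 - x i)(W0 + X - x i)` (all `i`).
By `s6_exp` and `sum_g` the terms `Q = ∑ x²`, `T = ∑ x³` of `D` are `- 3 m Q + 3 Q - T`, so
`D(x) = D0 - 3 (m - 1)(Q - X) - (T - X)`, where `D0` is the value for `Q = T = X`, and by p4
`D0 = 6 P ((R+1) m + r + 1) + par`, `par = 0` if `(R - r) m` is even and `3 (W0 + r + 1) - 6` otherwise.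
`|T - X| ≤ (5 R η m + 1)(Q - X)` (`tx_le`), so `D(x) ≤ D0`.
The indices with `x i ≥ 2`: `- 3 a i (1 - x i)(W0 + X - x i) = 3 a i (x i - 1)(W0 + X - x i) ≥ 2.9 W0 a i (x i - 1)`
(`x i ≤ 5 R η m`), so
`S6 - 3 ∑_{x i ≤ 1} a i (1 - x i)(W0 + X - x i) = D(x) - ∑_{x i ≥ 2} 3 a i (x i - 1)(W0 + X - x i)
   ≤ D0 - 2.9 W0 ∑_{x i ≥ 2} a i (x i - 1)` and `4/5 + 2 ≤ 2.9`.
-/

set_option autoImplicit false

open Finset

namespace Pool.Agent.H11.TD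

theorem num_E (R r m : ℕ) (hR : 4 ≤ R) (hs : r + 2 ≤ R) (h3 : R < 3 * r) (C η P : ℝ) (hη : 0 < η)
    (hη1 : 1000 * R * η ≤ 1) (hm : 100 ≤ m) (hP : PSpec R r m C P) (x : Fin (R + 1) → ℤ)
    (hx : ∀ i, |(x i : ℝ)| ≤ 5 * R * η * m) (hX : ∑ i, x i = r + 1) :
    S6 (fun i => (m : ℝ) + x i) -
      ∑ i ∈ univ.filter (fun i => x i ≤ 1),
        ((m : ℝ) + x i) * (3 * (1 - (x i : ℝ)) * ((R - 1) * m + (r + 1) - x i)) +
      4 / 5 * ((R - 1) * m) *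
        ∑ i ∈ univ.filter (fun i => ¬ x i ≤ 1), ((m : ℝ) + x i) * ((x i : ℝ) - 1) ≤
    6 * P * ((R + 1) * m + r + 1) +
      (if Even ((R - r) * m) then 0 else 3 * ((R - 1) * (m : ℝ) + r + 1) - 6) -
      2 * ((R - 1) * m) *
        ∑ i ∈ univ.filter (fun i => ¬ x i ≤ 1), ((m : ℝ) + x i) * ((x i : ℝ) - 1) := by
  have hR' : (4:ℝ) ≤ R := by exact_mod_cast hR
  have hm' : (100:ℝ) ≤ m := by exact_mod_cast hm
  have hr' : (0:ℝ) ≤ r := Nat.cast_nonneg r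
  have hXr : ∑ i, (x i : ℝ) = r + 1 := by exact_mod_cast hX
  -- size of the x i
  have hM : 5 * (R:ℝ) * η * m ≤ m / 200 := by
    have : 5 * (R:ℝ) * η * m = (1000 * R * η) * (m / 200) := by ring
    rw [this]
    calc (1000 * R * η) * ((m:ℝ) / 200) ≤ 1 * (m / 200) :=
          mul_le_mul_of_nonneg_right hη1 (by positivity)
      _ = m / 200 := one_mul _
  have hx' : ∀ i, |(x i : ℝ)| ≤ m / 200 := fun i => (hx i).trans hM
  have hs6 := s6_exp R m (fun i => (x i : ℝ))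
  have hsg := sum_g R m ((R - 1) * m) (fun i => (x i : ℝ))
  have hp4 := hP.p4 h3
  have hqx := qx_le x
  have htx := tx_le x (m / 200) hx'
  rw [hXr] at hs6 hsg hqx htx
  set Q : ℝ := ∑ i, (x i : ℝ) ^ 2 with hQ
  set T : ℝ := ∑ i, (x i : ℝ) ^ 3 with hT
  -- splitting the sum
  have hsplit : ∑ i, ((m:ℝ) + x i) * (1 - x i) * ((R - 1) * m + (r + 1) - x i)
      = ∑ i ∈ univ.filter (fun i => x i ≤ 1),
          ((m:ℝ) + x i) * (1 - x i) * ((R - 1) * m + (r + 1) - x i)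
        + ∑ i ∈ univ.filter (fun i => ¬ x i ≤ 1),
          ((m:ℝ) + x i) * (1 - x i) * ((R - 1) * m + (r + 1) - x i) := by
    rw [Finset.sum_filter_add_sum_filter_not]
  have hA : ∑ i ∈ univ.filter (fun i => x i ≤ 1),
        ((m : ℝ) + x i) * (3 * (1 - (x i : ℝ)) * ((R - 1) * m + (r + 1) - x i))
      = 3 * ∑ i ∈ univ.filter (fun i => x i ≤ 1),
          ((m:ℝ) + x i) * (1 - x i) * ((R - 1) * m + (r + 1) - x i) := by
    rw [Finset.mul_sum]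
    exact Finset.sum_congr rfl fun i _ => by ring
  have hB : 14 / 5 * ((R - 1) * (m:ℝ)) *
        ∑ i ∈ univ.filter (fun i => ¬ x i ≤ 1), ((m : ℝ) + x i) * ((x i : ℝ) - 1)
      ≤ -(3 * ∑ i ∈ univ.filter (fun i => ¬ x i ≤ 1),
          ((m:ℝ) + x i) * (1 - x i) * ((R - 1) * m + (r + 1) - x i)) := by
    rw [Finset.mul_sum, Finset.mul_sum, ← Finset.sum_neg_distrib]
    refine Finset.sum_le_sum fun i hi => ?_
    rw [mem_filter] at hi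
    have h2 : (2:ℤ) ≤ x i := by omega
    have h2' : (2:ℝ) ≤ x i := by exact_mod_cast h2
    have h4 := (abs_le.1 (hx' i)).2
    have h5 : 0 ≤ ((m : ℝ) + x i) * ((x i : ℝ) - 1) := mul_nonneg (by linarith) (by linarith)
    have h6 : 0 ≤ 3 * ((R - 1) * (m:ℝ) + (r + 1) - x i) - 14 / 5 * ((R - 1) * (m:ℝ)) := by
      nlinarith
    have h7 := mul_nonneg h5 h6
    have e : -(3 * (((m:ℝ) + x i) * (1 - x i) * ((R - 1) * m + (r + 1) - x i)))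
        - 14 / 5 * ((R - 1) * (m:ℝ)) * (((m : ℝ) + x i) * ((x i : ℝ) - 1))
        = ((m : ℝ) + x i) * ((x i : ℝ) - 1)
          * (3 * ((R - 1) * (m:ℝ) + (r + 1) - x i) - 14 / 5 * ((R - 1) * (m:ℝ))) := by ring
    linarith
  rw [hA]
  set S1 := ∑ i ∈ univ.filter (fun i => x i ≤ 1),
          ((m:ℝ) + x i) * (1 - x i) * ((R - 1) * m + (r + 1) - x i) with hS1
  set S2 := ∑ i ∈ univ.filter (fun i => ¬ x i ≤ 1),
          ((m:ℝ) + x i) * (1 - x i) * ((R - 1) * m + (r + 1) - x i) with hS2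
  set S3 := ∑ i ∈ univ.filter (fun i => ¬ x i ≤ 1), ((m : ℝ) + x i) * ((x i : ℝ) - 1) with hS3
  rw [hs6]
  have hsg' : S1 + S2 = m * ((R - 1) * m) * (R + 1 - (r + 1)) + ((R - 1) * m) * ((r + 1) - Q) +
      m * (R * (r + 1) - (r + 1) ^ 2 + Q) + ((r + 1) ^ 2 - (r + 1) * Q - Q + T) := by
    rw [← hsplit]; exact hsg
  have htx' := (abs_le.1 htx).1
  have hkey : ((m:ℝ) / 200 + 1) * (Q - (r + 1)) ≤ 3 * (m - 1) * (Q - (r + 1)) :=
    mul_le_mul_of_nonneg_right (by linarith) (by linarith)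
  have e1 : (R:ℝ) * (R + 1) * (R - 1) * m ^ 3 + 3 * R * (R - 1) * m ^ 2 * (r + 1) +
      3 * (R - 1) * m * ((r + 1) ^ 2 - Q) + ((r + 1) ^ 3 - 3 * (r + 1) * Q + 2 * T)
      - 3 * (m * ((R - 1) * m) * (R + 1 - (r + 1)) + ((R - 1) * m) * ((r + 1) - Q) +
      m * (R * (r + 1) - (r + 1) ^ 2 + Q) + ((r + 1) ^ 2 - (r + 1) * Q - Q + T))
      = ((R:ℝ) * (R + 1) * (R - 1) * (m : ℝ) ^ 3 +
    3 * R * (R - 1) * m ^ 2 * (r + 1) + 3 * (R - 1) * m * (((r : ℝ) + 1) ^ 2 - (r + 1)) +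
    (((r : ℝ) + 1) ^ 3 - 3 * (r + 1) ^ 2 + 2 * (r + 1)) -
    3 * (R - r) * m * ((R - 1) * m + r + 1)) - 3 * (m - 1) * (Q - (r + 1)) - (T - (r + 1)) := by
    ring
  linarith

end Pool.Agent.H11.TD
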