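import Pool.Agent.H11.TD.S6x

/-!
# TD NumI: the numerical inequality in the case `c ≥ 1` (not exact)

Notation: `a i = m + x i`, `X = ∑ x i`, `c' = X - r`, `f i = x i - c'`, `c = c' + p`, `W0 = (R - 1) m`,
`Q = ∑ x i²`, `T = ∑ x i³`, `M = 5 R η m ≥ |x i|`.

By `s6_exp`, `sum_af`: `S6 + 3 W0 ∑ a f = R (R²-1) m³ + 3 R (R-1) m² X + 3 (R-1) m (X² - Q)
  + 3 (R-1) m (m (X - (R+1) c') + Q - c' X) + (X³ - 3 X Q + 2 T)`; the `Q` terms of order `m` cancel.  By p2,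
`6 P ((R+1) m + X + p) = R (R²-1) m³ + π m² + R (R-1) m² (X + p) + O(m (|X| + p + 1))`,
`π = 2 R (R-1) r + (R-1) (3 r - R)⁺` (`|X|, p ≤ m`).  The coefficient of `m²` of the difference is
`(R - 1)(- R (c - 1) + (3 r - R) - (3 r - R)⁺)`.  What remains:
* `3 (R-1) m (X² - c' X) = 3 (R-1) m r X = O(m (|c'| + 1))`;
* `|X³ - 3 X Q + 2 T| ≤ C_R η m Q ≤ C_R' η² m² ∑ |x i|` (`X² ≤ (R+1) Q`, `Q ≤ M ∑ |x i|`);
* `∑ |x i| ≤ ∑ |f i| + (R+1)|c'|`, `∑ |f i| = 2 ∑ f i⁺ - ∑ f i`, `∑ f i = r - R c'`, so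
  `∑ |x i|, ∑ f i⁻ ≤ 2 ∑ f i⁺ + C_R (|c'| + 1)`;
* `- √η W0 ∑ a f⁺ ≤ - √η (R-1) m²/2 ∑ f i⁺`, `63 R² η m ∑ a f⁻ ≤ 126 R² η m² ∑ f i⁻`.
For small `η` the `f⁺` terms are absorbed (`√η` against `η`), and the rest is
`≤ (R-1) m² (- R (c-1) + (3r-R) - (3r-R)⁺ - κ p) + C_R η m² (|c'| + 1) + C m (|c'| + p + 1)`, `|c'| ≤ c + p`:
* `c ≥ 2`: `R (c - 1) ≥ R c / 2`;  * `c = 1`, `p ≥ 1`: `|c'| + 1 ≤ p + 2 ≤ 3 p`, use `κ p`;
* `c = 1`, `p = 0`: then `3 r < R` (`3 r ≠ R` and the excluded case), so the coefficient is `≤ - 1`.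
So the sum is `≤ 0` if `η ≤ η0(R, κ)` and `m ≥ m0`.
-/

set_option autoImplicit false

open Finset

namespace Pool.Agent.H11.TD

/-- the real inequality behind `num_I` -/
private theorem numi_alg (R r m C κ η s P X Q T N Nm SX Fp Fm p cc pi' : ℝ) (hR : 4 ≤ R)
    (hr : 1 ≤ r) (hm : 1 ≤ m) (hC : 0 < C) (hη : 0 < η) (hs : 0 < s)
    (hη1 : η ≤ 1) (hsη : s * s = η)
    (hs1 : s * (2 * (126 * R ^ 2 + 50 * R ^ 2 * (R + 2) * (R + 3))) ≤ 1)
    (hcc : cc = X - r) (hp : 0 ≤ p)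
    (hpi : pi' = 2 * R * (R - 1) * r + (R - 1) * max (3 * r - R) 0)
    (hp2 : |6 * (R + 1) * P - R * (R + 1) * (R - 1) * m ^ 2 - pi' * m| ≤ C)
    (hN : 0 ≤ N) (hNm : Nm = N - r + R * cc)
    (hSX : SX ≤ N + Nm + (R + 1) * |cc|)
    (hT3 : X ^ 3 - 3 * X * Q + 2 * T ≤ 25 * R ^ 2 * (R + 2) * (R + 3) * η ^ 2 * m ^ 2 * SX)
    (hFp : m / 2 * N ≤ Fp) (hFm : Fm ≤ 2 * m * Nm) :
    (R * (R + 1) * (R - 1) * m ^ 3 + 3 * R * (R - 1) * m ^ 2 * X +
      3 * (R - 1) * m * (X ^ 2 - Q) + (X ^ 3 - 3 * X * Q + 2 * T)) -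
      6 * P * ((R + 1) * m + X + p) +
      3 * ((R - 1) * m) * (m * (X - (R + 1) * cc) + Q - cc * X) -
      s * ((R - 1) * m) * Fp + 63 * R ^ 2 * η * m * Fm - κ * ((R - 1) * m) * m * p ≤
    - (R - 1) * m ^ 2 * (R * (cc + p - 1) + max (R - 3 * r) 0 + κ * p) +
      (126 * R ^ 3 + 25 * R ^ 2 * (R + 2) * (R + 3) * (2 * R + 1)) * η * m ^ 2 * |cc| +
      (3 * (R - 1) * r * (r + 1) + C + (r + 1) * (pi' + C)) * m * (1 + |cc| + p) := by
  have hm0 : 0 < m := by linarith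
  have hacc : 0 ≤ |cc| := abs_nonneg _
  have hmx0 : 0 ≤ max (3 * r - R) 0 := le_max_right _ _
  have hpi0 : 0 ≤ pi' := by
    rw [hpi]
    have : 0 ≤ R - 1 := by linarith
    have : 0 ≤ R := by linarith
    have : 0 ≤ r := by linarith
    positivity
  have hR1 : 0 ≤ R - 1 := by linarith
  have hR0 : 0 ≤ R := by linarith
  have hr0 : 0 ≤ r := by linarith
  -- the two error terms of P
  obtain ⟨δ, hδ⟩ : ∃ δ, δ = 6 * (R + 1) * P - R * (R + 1) * (R - 1) * m ^ 2 - pi' * m := ⟨_, rfl⟩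
  obtain ⟨q, hq⟩ : ∃ q, q = 6 * P - R * (R - 1) * m ^ 2 := ⟨_, rfl⟩
  rw [← hδ] at hp2
  have hqR : (R + 1) * q = pi' * m + δ := by rw [hq, hδ]; ring
  have hδ1 := (abs_le.mp hp2).1
  have hδ2 := (abs_le.mp hp2).2
  have hqabs : |q| ≤ (pi' + C) * m := by
    have h1 : (R + 1) * |q| ≤ pi' * m + C := by
      calc (R + 1) * |q| = |(R + 1) * q| := by
            rw [abs_mul, abs_of_nonneg (by linarith : (0 : ℝ) ≤ R + 1)]
        _ = |pi' * m + δ| := by rw [hqR]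
        _ ≤ |pi' * m| + |δ| := abs_add_le _ _
        _ ≤ pi' * m + C := by
            rw [abs_of_nonneg (by positivity)]
            linarith
    have h2 : |q| ≤ (R + 1) * |q| := by
      have : 0 ≤ R * |q| := mul_nonneg hR0 (abs_nonneg q)
      linarith
    have h3 : C ≤ C * m := le_mul_of_one_le_right hC.le hm
    linarith
  -- identity
  have hid : (R * (R + 1) * (R - 1) * m ^ 3 + 3 * R * (R - 1) * m ^ 2 * X +
      3 * (R - 1) * m * (X ^ 2 - Q) + (X ^ 3 - 3 * X * Q + 2 * T)) -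
      6 * P * ((R + 1) * m + X + p) +
      3 * ((R - 1) * m) * (m * (X - (R + 1) * cc) + Q - cc * X) -
      s * ((R - 1) * m) * Fp + 63 * R ^ 2 * η * m * Fm - κ * ((R - 1) * m) * m * p =
      (R - 1) * m ^ 2 * (- R * (cc + p - 1) + ((3 * r - R) - max (3 * r - R) 0) - κ * p) +
      3 * (R - 1) * r * m * X + (X ^ 3 - 3 * X * Q + 2 * T) - δ * m - (X + p) * q -
      s * ((R - 1) * m) * Fp + 63 * R ^ 2 * η * m * Fm := by
    rw [hδ, hq, hcc, hpi]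
    ring
  rw [hid]
  have hmm : (3 * r - R) - max (3 * r - R) 0 = - max (R - 3 * r) 0 := by
    rcases le_total (3 * r) R with h | h
    · rw [max_eq_right (by linarith), max_eq_left (by linarith)]; ring
    · rw [max_eq_left (by linarith), max_eq_right (by linarith)]; ring
  rw [hmm]
  -- bounds
  have hXabs : |X| ≤ |cc| + r := by
    have : X = cc + r := by rw [hcc]; ring
    rw [this]
    calc |cc + r| ≤ |cc| + |r| := abs_add_le _ _
      _ = |cc| + r := by rw [abs_of_nonneg hr0]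
  have hX1 : X ≤ |cc| + r := (le_abs_self X).trans hXabs
  have hexp : |cc| + r + p ≤ (r + 1) * (1 + |cc| + p) := by
    have e1 : 0 ≤ r * |cc| := mul_nonneg hr0 hacc
    have e2 : 0 ≤ r * p := mul_nonneg hr0 hp
    linarith
  have b1 : 3 * (R - 1) * r * m * X ≤ 3 * (R - 1) * r * (r + 1) * m * (1 + |cc| + p) := by
    have h1 : X ≤ (r + 1) * (1 + |cc| + p) := by linarith [hexp]
    calc 3 * (R - 1) * r * m * X ≤ 3 * (R - 1) * r * m * ((r + 1) * (1 + |cc| + p)) :=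
          mul_le_mul_of_nonneg_left h1 (by positivity)
      _ = _ := by ring
  have b2 : - δ * m ≤ C * m * (1 + |cc| + p) := by
    have h1 : - δ ≤ C := by linarith
    calc - δ * m ≤ C * m := mul_le_mul_of_nonneg_right h1 hm0.le
      _ ≤ C * m * (1 + |cc| + p) := by
        have e0 : 0 ≤ C * m := by positivity
        have e1 : 0 ≤ C * m * (|cc| + p) := by positivity
        linarith
  have b3 : - ((X + p) * q) ≤ (r + 1) * (pi' + C) * m * (1 + |cc| + p) := by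
    have h1 : |X + p| ≤ (r + 1) * (1 + |cc| + p) := by
      calc |X + p| ≤ |X| + |p| := abs_add_le _ _
        _ ≤ (|cc| + r) + p := by rw [abs_of_nonneg hp]; linarith
        _ ≤ (r + 1) * (1 + |cc| + p) := hexp
    calc - ((X + p) * q) ≤ |(X + p) * q| := neg_le_abs _
      _ = |X + p| * |q| := abs_mul _ _
      _ ≤ ((r + 1) * (1 + |cc| + p)) * ((pi' + C) * m) :=
          mul_le_mul h1 hqabs (abs_nonneg _) (by positivity)
      _ = _ := by ring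
  have hcc1 : cc ≤ |cc| := le_abs_self _
  have hNm1 : Nm ≤ N + R * |cc| := by
    rw [hNm]
    have := mul_le_mul_of_nonneg_left hcc1 hR0
    linarith
  have hSX1 : SX ≤ 2 * N + (2 * R + 1) * |cc| := by linarith
  have b4 : X ^ 3 - 3 * X * Q + 2 * T ≤ 50 * R ^ 2 * (R + 2) * (R + 3) * η * m ^ 2 * N +
      25 * R ^ 2 * (R + 2) * (R + 3) * (2 * R + 1) * η * m ^ 2 * |cc| := by
    have hη2 : η ^ 2 ≤ η := by
      have := mul_le_mul_of_nonneg_left hη1 hη.le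
      linarith
    have h0 : 0 ≤ 2 * N + (2 * R + 1) * |cc| := by positivity
    calc X ^ 3 - 3 * X * Q + 2 * T
        ≤ 25 * R ^ 2 * (R + 2) * (R + 3) * η ^ 2 * m ^ 2 * SX := hT3
      _ ≤ 25 * R ^ 2 * (R + 2) * (R + 3) * η ^ 2 * m ^ 2 * (2 * N + (2 * R + 1) * |cc|) :=
          mul_le_mul_of_nonneg_left hSX1 (by positivity)
      _ ≤ 25 * R ^ 2 * (R + 2) * (R + 3) * η * m ^ 2 * (2 * N + (2 * R + 1) * |cc|) := by
          gcongr
      _ = _ := by ring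
  have b5 : 63 * R ^ 2 * η * m * Fm ≤ 126 * R ^ 2 * η * m ^ 2 * N +
      126 * R ^ 3 * η * m ^ 2 * |cc| := by
    have h1 : Fm ≤ 2 * m * (N + R * |cc|) :=
      hFm.trans (mul_le_mul_of_nonneg_left hNm1 (by positivity))
    calc 63 * R ^ 2 * η * m * Fm ≤ 63 * R ^ 2 * η * m * (2 * m * (N + R * |cc|)) :=
          mul_le_mul_of_nonneg_left h1 (by positivity)
      _ = _ := by ring
  have b6 : - (s * ((R - 1) * m) * Fp) ≤ - ((126 * R ^ 2 + 50 * R ^ 2 * (R + 2) * (R + 3)) * η *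
      m ^ 2 * N) := by
    have h1 : s * ((R - 1) * m) * (m / 2 * N) ≤ s * ((R - 1) * m) * Fp :=
      mul_le_mul_of_nonneg_left hFp (by positivity)
    have h2 : (126 * R ^ 2 + 50 * R ^ 2 * (R + 2) * (R + 3)) * η ≤ s * ((R - 1) / 2) := by
      rw [← hsη]
      have h3 : s * (126 * R ^ 2 + 50 * R ^ 2 * (R + 2) * (R + 3)) ≤ (R - 1) / 2 := by
        linarith
      calc (126 * R ^ 2 + 50 * R ^ 2 * (R + 2) * (R + 3)) * (s * s) =
          s * (s * (126 * R ^ 2 + 50 * R ^ 2 * (R + 2) * (R + 3))) := by ring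
        _ ≤ s * ((R - 1) / 2) := mul_le_mul_of_nonneg_left h3 hs.le
    have h4 : (126 * R ^ 2 + 50 * R ^ 2 * (R + 2) * (R + 3)) * η * (m ^ 2 * N) ≤
        s * ((R - 1) / 2) * (m ^ 2 * N) := mul_le_mul_of_nonneg_right h2 (by positivity)
    linarith
  linarith [b1, b2, b3, b4, b5, b6]

private theorem numi_fin (R r m κ k0 cc p K2 K3 η : ℝ) (hR : 4 ≤ R) (hm : 1 ≤ m)
    (hk0 : 0 < k0) (hk1 : k0 ≤ 1) (hk2 : k0 ≤ κ / 2) (hη : 0 < η) (hK2 : 0 < K2) (hK3 : 0 < K3)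
    (hp : 0 ≤ p) (h1 : 1 ≤ cc + p)
    (hcase : 2 ≤ cc + p ∨ (cc + p = 1 ∧ 1 ≤ p) ∨ (cc + p = 1 ∧ p = 0 ∧ 1 ≤ R - 3 * r))
    (hA : K2 * η ≤ k0 / 2) (hB : 2 * K3 ≤ k0 / 2 * m) :
    - (R - 1) * m ^ 2 * (R * (cc + p - 1) + max (R - 3 * r) 0 + κ * p) +
      K2 * η * m ^ 2 * |cc| + K3 * m * (1 + |cc| + p) ≤ 0 := by
  have hm0 : 0 < m := by linarith
  have hmx : 0 ≤ max (R - 3 * r) 0 := le_max_right _ _
  have hκ : 0 < κ := by linarith
  have hκp : 0 ≤ κ * p := by positivity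
  have hkp : k0 * p ≤ κ / 2 * p := mul_le_mul_of_nonneg_right hk2 hp
  have hL : k0 * (cc + p + p) ≤ R * (cc + p - 1) + max (R - 3 * r) 0 + κ * p := by
    rcases hcase with h | h | h
    · have e1 : k0 * (cc + p) ≤ 1 * (cc + p) := mul_le_mul_of_nonneg_right hk1 (by linarith)
      have e2 : 4 * (cc + p - 1) ≤ R * (cc + p - 1) :=
        mul_le_mul_of_nonneg_right hR (by linarith)
      linarith
    · obtain ⟨h2, h3⟩ := h
      have e1 : κ / 2 * 1 ≤ κ / 2 * p := mul_le_mul_of_nonneg_left h3 (by linarith)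
      rw [h2]
      linarith
    · obtain ⟨h2, h3, h4⟩ := h
      have e1 : 1 ≤ max (R - 3 * r) 0 := le_trans h4 (le_max_left _ _)
      rw [h2, h3]
      linarith
  have hcp : 0 < cc + p + p := by linarith
  have hL0 : 0 ≤ R * (cc + p - 1) + max (R - 3 * r) 0 + κ * p :=
    le_trans (by positivity) hL
  have hcc : |cc| ≤ cc + p + p := by
    rw [abs_le]
    constructor <;> linarith
  have s1 : m ^ 2 * (k0 * (cc + p + p)) ≤
      (R - 1) * m ^ 2 * (R * (cc + p - 1) + max (R - 3 * r) 0 + κ * p) := by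
    calc m ^ 2 * (k0 * (cc + p + p)) ≤
        m ^ 2 * (R * (cc + p - 1) + max (R - 3 * r) 0 + κ * p) :=
          mul_le_mul_of_nonneg_left hL (by positivity)
      _ ≤ (R - 1) * (m ^ 2 * (R * (cc + p - 1) + max (R - 3 * r) 0 + κ * p)) :=
          le_mul_of_one_le_left (by positivity) (by linarith)
      _ = _ := by ring
  have s2 : K2 * η * m ^ 2 * |cc| ≤ k0 / 2 * m ^ 2 * (cc + p + p) := by
    calc K2 * η * m ^ 2 * |cc| ≤ K2 * η * m ^ 2 * (cc + p + p) :=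
          mul_le_mul_of_nonneg_left hcc (by positivity)
      _ ≤ k0 / 2 * m ^ 2 * (cc + p + p) := by
          gcongr
  have s3 : K3 * m * (1 + |cc| + p) ≤ k0 / 2 * m ^ 2 * (cc + p + p) := by
    calc K3 * m * (1 + |cc| + p) ≤ K3 * m * (2 * (cc + p + p)) :=
          mul_le_mul_of_nonneg_left (by linarith) (by positivity)
      _ = 2 * K3 * (m * (cc + p + p)) := by ring
      _ ≤ k0 / 2 * m * (m * (cc + p + p)) := mul_le_mul_of_nonneg_right hB (by positivity)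
      _ = _ := by ring
  linarith

theorem num_I (R r : ℕ) (hR : 4 ≤ R) (hr : 1 ≤ r) (hs : r + 2 ≤ R) (h3 : 3 * r ≠ R) (C κ : ℝ)
    (hC : 0 < C) (hκ : 0 < κ) : ∃ η0 : ℝ, 0 < η0 ∧ ∀ η : ℝ, 0 < η → η ≤ η0 → ∃ m0 : ℕ,
      ∀ m : ℕ, m0 ≤ m → ∀ P : ℝ, PSpec R r m C P → ∀ x : Fin (R + 1) → ℤ,
        (∀ i, |(x i : ℝ)| ≤ 5 * R * η * m) → ∀ p : ℕ, (p : ℝ) ≤ 4 * R * η * m →
          1 ≤ (∑ i, x i) - r + p → ¬ ((∑ i, x i) - r + p = 1 ∧ p = 0 ∧ R < 3 * r) →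
          S6 (fun i => (m : ℝ) + x i) - 6 * P * ((R + 1) * m + ∑ i, (x i : ℝ) + p) +
            3 * ((R - 1) * m) * ∑ i, ((m : ℝ) + x i) * ((x i : ℝ) - (∑ j, (x j : ℝ) - r)) -
            Real.sqrt η * ((R - 1) * m) *
              ∑ i, ((m : ℝ) + x i) * max ((x i : ℝ) - (∑ j, (x j : ℝ) - r)) 0 +
            63 * (R : ℝ) ^ 2 * η * m *
              ∑ i, ((m : ℝ) + x i) * max (-((x i : ℝ) - (∑ j, (x j : ℝ) - r))) 0 -
            κ * ((R - 1) * m) * m * p ≤ 0 := by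
  have hRr : (4 : ℝ) ≤ R := by exact_mod_cast hR
  have hrr : (1 : ℝ) ≤ r := by exact_mod_cast hr
  obtain ⟨K1, hK1⟩ : ∃ K1 : ℝ, K1 = 2 * (126 * (R : ℝ) ^ 2 + 50 * R ^ 2 * (R + 2) * (R + 3)) :=
    ⟨_, rfl⟩
  obtain ⟨K2, hK2⟩ : ∃ K2 : ℝ, K2 = 126 * (R : ℝ) ^ 3 +
      25 * R ^ 2 * (R + 2) * (R + 3) * (2 * R + 1) := ⟨_, rfl⟩
  obtain ⟨pi', hpi⟩ : ∃ pi' : ℝ, pi' = 2 * (R : ℝ) * (R - 1) * r +
      (R - 1) * max (3 * (r : ℝ) - R) 0 := ⟨_, rfl⟩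
  obtain ⟨K3, hK3⟩ : ∃ K3 : ℝ, K3 = 3 * ((R : ℝ) - 1) * r * (r + 1) + C + (r + 1) * (pi' + C) :=
    ⟨_, rfl⟩
  obtain ⟨k0, hk0⟩ : ∃ k0 : ℝ, k0 = min 1 (κ / 2) := ⟨_, rfl⟩
  have hR1 : (0 : ℝ) < R - 1 := by linarith
  have hR0 : (0 : ℝ) < R := by linarith
  have hr0 : (0 : ℝ) < r := by linarith
  have hpi0 : 0 < pi' := by
    rw [hpi]
    have := le_max_right (3 * (r : ℝ) - R) 0
    positivity
  have hK1p : 0 < K1 := by rw [hK1]; positivity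
  have hK2p : 0 < K2 := by rw [hK2]; positivity
  have hK3p : 0 < K3 := by rw [hK3]; positivity
  have hk0p : 0 < k0 := by rw [hk0]; positivity
  have hk01 : k0 ≤ 1 := by rw [hk0]; exact min_le_left _ _
  have hk02 : k0 ≤ κ / 2 := by rw [hk0]; exact min_le_right _ _
  refine ⟨min (1 / (10 * R)) (min (1 / K1 ^ 2) (k0 / (2 * K2))), by positivity, ?_⟩
  intro η hη hη0
  have hη1 : η ≤ 1 / (10 * R) := hη0.trans (min_le_left _ _)
  have hη2 : η ≤ 1 / K1 ^ 2 := hη0.trans ((min_le_right _ _).trans (min_le_left _ _))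
  have hη3 : η ≤ k0 / (2 * K2) := hη0.trans ((min_le_right _ _).trans (min_le_right _ _))
  have hη10 : 10 * R * η ≤ 1 := by
    rw [le_div_iff₀ (by positivity)] at hη1
    linarith
  have hη1' : η ≤ 1 := by
    have : 1 * η ≤ 10 * R * η := mul_le_mul_of_nonneg_right (by linarith) hη.le
    linarith
  have hK2η : K2 * η ≤ k0 / 2 := by
    rw [le_div_iff₀ (by positivity)] at hη3
    linarith
  have hsq : Real.sqrt η * K1 ≤ 1 := by
    have h1 : Real.sqrt η ≤ Real.sqrt (1 / K1 ^ 2) := Real.sqrt_le_sqrt hη2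
    have h2 : Real.sqrt (1 / K1 ^ 2) = 1 / K1 := by
      rw [show 1 / K1 ^ 2 = (1 / K1) ^ 2 by rw [div_pow, one_pow],
        Real.sqrt_sq (by positivity)]
    rw [h2, le_div_iff₀ hK1p] at h1
    exact h1
  refine ⟨⌈max 1 (4 * K3 / k0)⌉₊, ?_⟩
  intro m hm P hP x hx p _ hc hex
  have hmR : max 1 (4 * K3 / k0) ≤ (m : ℝ) := (Nat.le_ceil _).trans (by exact_mod_cast hm)
  have hm1 : (1 : ℝ) ≤ m := (le_max_left _ _).trans hmR
  have hm2 : 4 * K3 / k0 ≤ m := (le_max_right _ _).trans hmR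
  have hm0 : (0 : ℝ) < m := by linarith
  have hB : 2 * K3 ≤ k0 / 2 * m := by
    rw [div_le_iff₀ hk0p] at hm2
    linarith
  obtain ⟨M, hM⟩ : ∃ M : ℝ, M = 5 * R * η * m := ⟨_, rfl⟩
  have hM0 : 0 ≤ M := by rw [hM]; positivity
  have hMm : M ≤ m / 2 := by
    rw [hM]
    have := mul_le_mul_of_nonneg_right hη10 hm0.le
    linarith
  rw [← hM] at hx
  obtain ⟨cc, hcc⟩ : ∃ cc : ℝ, cc = ∑ j, (x j : ℝ) - r := ⟨_, rfl⟩
  rw [← hcc]
  rw [s6_exp R (m : ℝ) (fun i => (x i : ℝ)), sum_af R (m : ℝ) cc (fun i => (x i : ℝ))]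
  have hsum1 : ∑ i, max ((x i : ℝ) - cc) 0 - ∑ i, max (-((x i : ℝ) - cc)) 0 =
      ∑ i, ((x i : ℝ) - cc) := by
    rw [← Finset.sum_sub_distrib]
    apply Finset.sum_congr rfl
    intro i _
    rcases le_total 0 ((x i : ℝ) - cc) with h | h
    · rw [max_eq_left h, max_eq_right (by linarith)]; ring
    · rw [max_eq_right h, max_eq_left (by linarith)]; ring
  have hsum2 : ∑ i, ((x i : ℝ) - cc) = ∑ i, (x i : ℝ) - (R + 1) * cc := by
    rw [Finset.sum_sub_distrib, Finset.sum_const, Finset.card_univ, Fintype.card_fin,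
      nsmul_eq_mul]
    push_cast
    ring
  have hN0 : 0 ≤ ∑ i, max ((x i : ℝ) - cc) 0 := Finset.sum_nonneg fun i _ => le_max_right _ _
  have hNm : ∑ i, max (-((x i : ℝ) - cc)) 0 = ∑ i, max ((x i : ℝ) - cc) 0 - r + R * cc := by
    have e1 : ∑ i, (x i : ℝ) = cc + r := by rw [hcc]; ring
    rw [e1] at hsum2
    linarith
  have hSX : ∑ i, |(x i : ℝ)| ≤ ∑ i, max ((x i : ℝ) - cc) 0 +
      ∑ i, max (-((x i : ℝ) - cc)) 0 + (R + 1) * |cc| := by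
    have e1 : ((R : ℝ) + 1) * |cc| = ∑ _i : Fin (R + 1), |cc| := by
      rw [Finset.sum_const, Finset.card_univ, Fintype.card_fin, nsmul_eq_mul]
      push_cast
      ring
    rw [e1, ← Finset.sum_add_distrib, ← Finset.sum_add_distrib]
    apply Finset.sum_le_sum
    intro i _
    have e2 : |(x i : ℝ)| ≤ |(x i : ℝ) - cc| + |cc| := by
      calc |(x i : ℝ)| = |((x i : ℝ) - cc) + cc| := by rw [sub_add_cancel]
        _ ≤ _ := abs_add_le _ _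
    have e3 : |(x i : ℝ) - cc| = max ((x i : ℝ) - cc) 0 + max (-((x i : ℝ) - cc)) 0 := by
      rcases le_total 0 ((x i : ℝ) - cc) with h | h
      · rw [max_eq_left h, max_eq_right (by linarith), abs_of_nonneg h]; ring
      · rw [max_eq_right h, max_eq_left (by linarith), abs_of_nonpos h]; ring
    linarith
  have hSXM : ∑ i, |(x i : ℝ)| ≤ (R + 1) * M := by
    calc ∑ i, |(x i : ℝ)| ≤ ∑ _i : Fin (R + 1), M := Finset.sum_le_sum fun i _ => hx i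
      _ = (R + 1) * M := by
        rw [Finset.sum_const, Finset.card_univ, Fintype.card_fin, nsmul_eq_mul]
        push_cast
        ring
  have hSX0 : 0 ≤ ∑ i, |(x i : ℝ)| := Finset.sum_nonneg fun i _ => abs_nonneg _
  have hXabs : |∑ i, (x i : ℝ)| ≤ ∑ i, |(x i : ℝ)| := Finset.abs_sum_le_sum_abs _ _
  have hQ : ∑ i, (x i : ℝ) ^ 2 ≤ M * ∑ i, |(x i : ℝ)| := by
    rw [Finset.mul_sum]
    apply Finset.sum_le_sum
    intro i _
    rw [← sq_abs, sq]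
    exact mul_le_mul_of_nonneg_right (hx i) (abs_nonneg _)
  have hQ0 : 0 ≤ ∑ i, (x i : ℝ) ^ 2 := Finset.sum_nonneg fun i _ => sq_nonneg _
  have hT : ∑ i, (x i : ℝ) ^ 3 ≤ M ^ 2 * ∑ i, |(x i : ℝ)| := by
    rw [Finset.mul_sum]
    apply Finset.sum_le_sum
    intro i _
    calc (x i : ℝ) ^ 3 ≤ |(x i : ℝ) ^ 3| := le_abs_self _
      _ = |(x i : ℝ)| ^ 2 * |(x i : ℝ)| := by rw [abs_pow]; ring
      _ ≤ M ^ 2 * |(x i : ℝ)| := by
        gcongr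
        exact hx i
  have hT3 : (∑ i, (x i : ℝ)) ^ 3 - 3 * (∑ i, (x i : ℝ)) * ∑ i, (x i : ℝ) ^ 2 +
      2 * ∑ i, (x i : ℝ) ^ 3 ≤
      25 * R ^ 2 * (R + 2) * (R + 3) * η ^ 2 * (m : ℝ) ^ 2 * ∑ i, |(x i : ℝ)| := by
    have t1 : (∑ i, (x i : ℝ)) ^ 3 ≤ ((R + 1) * M) ^ 2 * ∑ i, |(x i : ℝ)| := by
      calc (∑ i, (x i : ℝ)) ^ 3 ≤ |(∑ i, (x i : ℝ)) ^ 3| := le_abs_self _
        _ = |∑ i, (x i : ℝ)| ^ 2 * |∑ i, (x i : ℝ)| := by rw [abs_pow]; ring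
        _ ≤ ((R + 1) * M) ^ 2 * ∑ i, |(x i : ℝ)| := by
          apply mul_le_mul _ hXabs (abs_nonneg _) (by positivity)
          exact pow_le_pow_left₀ (abs_nonneg _) (hXabs.trans hSXM) 2
    have t2 : - (3 * (∑ i, (x i : ℝ)) * ∑ i, (x i : ℝ) ^ 2) ≤
        3 * ((R + 1) * M) * (M * ∑ i, |(x i : ℝ)|) := by
      have e1 : - (∑ i, (x i : ℝ)) ≤ (R + 1) * M := by
        have := neg_le_abs (∑ i, (x i : ℝ))
        linarith
      calc - (3 * (∑ i, (x i : ℝ)) * ∑ i, (x i : ℝ) ^ 2) =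
            3 * (- (∑ i, (x i : ℝ))) * ∑ i, (x i : ℝ) ^ 2 := by ring
        _ ≤ 3 * ((R + 1) * M) * ∑ i, (x i : ℝ) ^ 2 :=
            mul_le_mul_of_nonneg_right (by linarith) hQ0
        _ ≤ 3 * ((R + 1) * M) * (M * ∑ i, |(x i : ℝ)|) :=
            mul_le_mul_of_nonneg_left hQ (by positivity)
    calc (∑ i, (x i : ℝ)) ^ 3 - 3 * (∑ i, (x i : ℝ)) * ∑ i, (x i : ℝ) ^ 2 +
          2 * ∑ i, (x i : ℝ) ^ 3
        ≤ ((R + 1) * M) ^ 2 * ∑ i, |(x i : ℝ)| + 3 * ((R + 1) * M) * (M * ∑ i, |(x i : ℝ)|) +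
          2 * (M ^ 2 * ∑ i, |(x i : ℝ)|) := by linarith
      _ = _ := by rw [hM]; ring
  have hFp : (m : ℝ) / 2 * ∑ i, max ((x i : ℝ) - cc) 0 ≤
      ∑ i, ((m : ℝ) + x i) * max ((x i : ℝ) - cc) 0 := by
    rw [Finset.mul_sum]
    apply Finset.sum_le_sum
    intro i _
    apply mul_le_mul_of_nonneg_right _ (le_max_right _ _)
    have := (abs_le.mp (hx i)).1
    linarith
  have hFm : ∑ i, ((m : ℝ) + x i) * max (-((x i : ℝ) - cc)) 0 ≤
      2 * m * ∑ i, max (-((x i : ℝ) - cc)) 0 := by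
    rw [Finset.mul_sum]
    apply Finset.sum_le_sum
    intro i _
    apply mul_le_mul_of_nonneg_right _ (le_max_right _ _)
    have := (abs_le.mp (hx i)).2
    linarith
  have hcR : (1 : ℝ) ≤ cc + p := by
    rw [hcc]
    exact_mod_cast hc
  have hp0 : (0 : ℝ) ≤ p := Nat.cast_nonneg p
  have hcase : 2 ≤ cc + p ∨ (cc + p = 1 ∧ (1 : ℝ) ≤ p) ∨
      (cc + p = 1 ∧ (p : ℝ) = 0 ∧ 1 ≤ (R : ℝ) - 3 * r) := by
    rcases lt_or_ge 1 ((∑ i, x i) - r + (p : ℤ)) with h | h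
    · left
      rw [hcc]
      have h2 : 2 ≤ (∑ i, x i) - r + (p : ℤ) := by linarith
      exact_mod_cast h2
    · right
      have h2 : (∑ i, x i) - r + (p : ℤ) = 1 := le_antisymm h hc
      have h2R : cc + p = 1 := by rw [hcc]; exact_mod_cast h2
      rcases Nat.eq_zero_or_pos p with hp | hp
      · right
        refine ⟨h2R, by rw [hp]; norm_num, ?_⟩
        have h4 : ¬ (R < 3 * r) := fun h5 => hex ⟨h2, hp, h5⟩
        have h5 : 3 * r + 1 ≤ R := by omega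
        have h6 : (3 : ℝ) * r + 1 ≤ R := by exact_mod_cast h5
        linarith
      · left
        exact ⟨h2R, by exact_mod_cast hp⟩
  have hss : Real.sqrt η * Real.sqrt η = η := Real.mul_self_sqrt hη.le
  have hsp : 0 < Real.sqrt η := Real.sqrt_pos.mpr hη
  have hmain := numi_alg R r m C κ η (Real.sqrt η) P (∑ i, (x i : ℝ)) (∑ i, (x i : ℝ) ^ 2)
    (∑ i, (x i : ℝ) ^ 3) (∑ i, max ((x i : ℝ) - cc) 0) (∑ i, max (-((x i : ℝ) - cc)) 0)
    (∑ i, |(x i : ℝ)|) (∑ i, ((m : ℝ) + x i) * max ((x i : ℝ) - cc) 0)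
    (∑ i, ((m : ℝ) + x i) * max (-((x i : ℝ) - cc)) 0) p cc pi' hRr hrr hm1 hC hη hsp hη1' hss
    (by rw [hK1] at hsq; exact hsq) hcc hp0 hpi (by
      have := hP.p2
      rw [← hpi] at this
      exact this) hN0 hNm hSX hT3 hFp hFm
  have hfin := numi_fin R r m κ k0 cc p K2 K3 η hRr hm1 hk0p hk01 hk02 hη hK2p hK3p hp0 hcR hcase
    hK2η hB
  rw [hK2, hK3] at hfin
  exact hmain.trans hfin

end Pool.Agent.H11.TD
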