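import Pool.Agent.H11.TD.S6x

/-!
# TD NumIIa: the numerical inequality in the case `c ≤ 0`, no hubs in `B`

Notation as in `NumI`: `a i = m + x i`, `X = ∑ x i`, `c' = X - r`, `f i = x i - c'`, `c = c' + p`, `q = - c ≥ 0`,
`Q = ∑ x i²`, `T = ∑ x i³`, `M = 5 R η m ≥ |x i|`.
-/

set_option autoImplicit false

open Finset

namespace Pool.Agent.H11.TD

private lemma numIIa_final (R r m p q K Q X T C κ s η Y S W δ g G : ℝ)
    (hR : 4 ≤ R) (hr : 0 ≤ r) (hm : 1 ≤ m) (hp : 0 ≤ p) (hq : 0 ≤ q) (hK : 0 ≤ K) (hQ : 0 ≤ Q)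
    (hC : 0 < C) (hs0 : 0 < s) (hs1 : s ≤ 1) (hsκ : s ≤ κ)
    (hη1 : 5 * R * η ≤ 1)
    (hη2 : (15 * R + 5 * R * ((R + 1) ^ 2 + 3 * (R + 1) + 2)) * η ≤ 6)
    (hη3 : 12 * (R - 1) * (6 * R * (R + 1)) * η ≤ s)
    (hX : X = r - p - q)
    (hD : p + q ≤ 6 * R * (R + 1) * η * m)
    (hN : 1 ≤ p + q + K)
    (hG : G = 2 * R * (R - 1) * r + (R - 1) * K)
    (hδ' : -C ≤ δ)
    (hg : g ≤ G * m + C) (hg' : -C ≤ g)
    (hY : κ * m * p ≤ Y)
    (hT : X ^ 3 - 3 * X * Q + 2 * T ≤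
      ((R + 1) ^ 2 + 3 * (R + 1) + 2) * (5 * R * η * m) * Q)
    (hS : S = -((R - 1) * m ^ 2 * (2 * R * q + K)) + 3 * (R - 1) * m * (X ^ 2 - Q) +
      (X ^ 3 - 3 * X * Q + 2 * T) - δ * m - g * (r - q))
    (hW : W ≤ 3 * (1 + 5 * R * η) * m * (Q + 2 * r * (p + q) + (R - 1) * (p + q) ^ 2))
    (hm2 : 2 * (6 * (R - 1) * r ^ 2 + C + C * r + G + C + 12 * r) ≤ s * m) :
    S + W - 16 / 5 * ((R - 1) * m) * Y ≤ 0 := by
  have hm0 : 0 < m := by linarith
  have hR1 : 3 ≤ R - 1 := by linarith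
  have hpq : 0 ≤ p + q := by linarith
  have hG0 : 0 ≤ G := by
    rw [hG]
    have : 0 ≤ 2 * R * (R - 1) * r := by
      apply mul_nonneg _ hr
      apply mul_nonneg <;> linarith
    have : 0 ≤ (R - 1) * K := by
      apply mul_nonneg _ hK
      linarith
    linarith
  -- D ^ 2
  have hD2 : (p + q) ^ 2 ≤ 6 * R * (R + 1) * η * m * (p + q) := by
    rw [sq]
    exact mul_le_mul_of_nonneg_right hD hpq
  have hX2 : X ^ 2 ≤ 2 * r ^ 2 + 2 * (p + q) ^ 2 := by
    rw [hX]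
    linarith only [sq_nonneg (r + (p + q))]
  have h1 : 3 * (R - 1) * m * (X ^ 2 - Q) ≤
      6 * (R - 1) * m * r ^ 2 + 6 * (R - 1) * m * (p + q) ^ 2 - 3 * (R - 1) * m * Q := by
    have : 0 ≤ 3 * (R - 1) * m := by positivity
    have := mul_le_mul_of_nonneg_left hX2 this
    linarith only [this]
  have hg2 : -(g * (r - q)) ≤ C * r + (G * m + C) * q := by
    have e1 : -C * r ≤ g * r := mul_le_mul_of_nonneg_right hg' hr
    have e2 : g * q ≤ (G * m + C) * q := mul_le_mul_of_nonneg_right hg hq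
    linarith only [e1, e2]
  have hδm : -(δ * m) ≤ C * m := by
    have := mul_le_mul_of_nonneg_right hδ' hm0.le
    linarith only [this]
  have hW2 : W ≤ 3 * (1 + 5 * R * η) * m * Q + 12 * m * r * (p + q) +
      6 * m * (R - 1) * (p + q) ^ 2 := by
    have e0 : 0 ≤ m * (2 * r * (p + q) + (R - 1) * (p + q) ^ 2) := by
      apply mul_nonneg hm0.le
      apply add_nonneg
      · positivity
      · apply mul_nonneg (by linarith) (sq_nonneg _)
    have e1 : 3 * (1 + 5 * R * η) ≤ 6 := by linarith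
    have e2 := mul_le_mul_of_nonneg_right e1 e0
    linarith only [hW, e2]
  have hYm : -(16 / 5 * ((R - 1) * m) * Y) ≤ -(16 / 5 * ((R - 1) * m) * (κ * m * p)) := by
    have : 0 ≤ 16 / 5 * ((R - 1) * m) := by positivity
    have := mul_le_mul_of_nonneg_left hY this
    linarith only [this]
  have hQc : (-(3 * (R - 1)) + ((R + 1) ^ 2 + 3 * (R + 1) + 2) * (5 * R * η) +
      3 * (1 + 5 * R * η)) * (m * Q) ≤ 0 := by
    apply mul_nonpos_of_nonpos_of_nonneg
    · linarith only [hη2, hR]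
    · exact mul_nonneg hm0.le hQ
  have hA : 12 * (R - 1) * m * (p + q) ^ 2 ≤ s * m ^ 2 * (p + q) := by
    have e1 : 12 * (R - 1) * m * (p + q) ^ 2 ≤
        12 * (R - 1) * m * (6 * R * (R + 1) * η * m * (p + q)) := by
      apply mul_le_mul_of_nonneg_left hD2
      positivity
    have e2 : 12 * (R - 1) * (6 * R * (R + 1)) * η * (m ^ 2 * (p + q)) ≤ s * (m ^ 2 * (p + q)) := by
      apply mul_le_mul_of_nonneg_right hη3
      positivity
    linarith only [e1, e2]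
  -- the main negative terms
  have hneg : 2 * s * m ^ 2 * q + s * m ^ 2 * K ≤ (R - 1) * m ^ 2 * (2 * R * q + K) := by
    have e1 : 2 * s * (m ^ 2 * q) ≤ (R - 1) * (2 * R) * (m ^ 2 * q) := by
      apply mul_le_mul_of_nonneg_right _ (by positivity)
      have : 3 * 8 ≤ (R - 1) * (2 * R) := mul_le_mul hR1 (by linarith only [hR]) (by norm_num)
        (by linarith only [hR])
      linarith only [this, hs1]
    have e2 : s * (m ^ 2 * K) ≤ (R - 1) * (m ^ 2 * K) := by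
      apply mul_le_mul_of_nonneg_right _ (by positivity)
      linarith only [hR1, hs1]
    linarith only [e1, e2]
  have hneg2 : 2 * s * m ^ 2 * p ≤ 16 / 5 * ((R - 1) * m) * (κ * m * p) := by
    have e1 : 2 * s * (m ^ 2 * p) ≤ 16 / 5 * (R - 1) * κ * (m ^ 2 * p) := by
      apply mul_le_mul_of_nonneg_right _ (by positivity)
      have : 2 ≤ 16 / 5 * (R - 1) := by linarith
      calc 2 * s ≤ 2 * κ := by linarith
        _ ≤ 16 / 5 * (R - 1) * κ := by
          apply mul_le_mul_of_nonneg_right this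
          linarith
    linarith only [e1]
  -- collect
  have hsum : S + W - 16 / 5 * ((R - 1) * m) * Y ≤
      - s * m ^ 2 * (p + q + K) + m * (6 * (R - 1) * r ^ 2) + C * m + 12 * m * r * (p + q) +
        G * m * q + C * r + C * q := by
    rw [hS]
    linarith only [h1, hg2, hδm, hW2, hYm, hQc, hA, hneg, hneg2, hT]
  have hlow : m * (6 * (R - 1) * r ^ 2) + C * m + 12 * m * r * (p + q) +
        G * m * q + C * r + C * q ≤
        m * (6 * (R - 1) * r ^ 2 + C + C * r + G + C + 12 * r) * (2 * (p + q + K)) := by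
    have hB0 : 0 ≤ m * (6 * (R - 1) * r ^ 2 + C + C * r + G + C + 12 * r) := by positivity
    have e1 : m * (6 * (R - 1) * r ^ 2 + C + C * r + G + C + 12 * r) * (1 + p + q) ≤
        m * (6 * (R - 1) * r ^ 2 + C + C * r + G + C + 12 * r) * (2 * (p + q + K)) := by
      apply mul_le_mul_of_nonneg_left _ hB0
      linarith
    have f1 : C * r ≤ m * (C * r) := by
      have : 0 ≤ C * r := by positivity
      exact le_mul_of_one_le_left this hm
    have f2 : C * q ≤ m * C * q := by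
      have : 0 ≤ C * q := by positivity
      have h := le_mul_of_one_le_left this hm
      linarith only [h]
    have f3 : 0 ≤ m * (6 * (R - 1) * r ^ 2) * (p + q) := by positivity
    have f4 : 0 ≤ m * C * (p + q) := by positivity
    have f5 : 0 ≤ m * (C * r) * (p + q) := by positivity
    have f6 : 0 ≤ m * G * (1 + p) := by positivity
    have f7 : 0 ≤ m * C * (1 + p) := by positivity
    have f8 : 0 ≤ m * (12 * r) := by positivity
    linarith only [e1, f1, f2, f3, f4, f5, f6, f7, f8]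
  have hfin : m * (6 * (R - 1) * r ^ 2 + C + C * r + G + C + 12 * r) * (2 * (p + q + K)) ≤
      s * m ^ 2 * (p + q + K) := by
    have e : 0 ≤ m * (p + q + K) := by positivity
    have := mul_le_mul_of_nonneg_right hm2 e
    linarith only [this]
  linarith only [hsum, hlow, hfin]

private lemma numIIa_cube (n : ℕ) (x : Fin (n + 1) → ℤ) (M : ℝ)
    (hM : ∀ i, |(x i : ℝ)| ≤ M) :
    (∑ i, (x i : ℝ)) ^ 3 - 3 * (∑ i, (x i : ℝ)) * (∑ i, (x i : ℝ) ^ 2) +
      2 * ∑ i, (x i : ℝ) ^ 3 ≤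
      (((n : ℝ) + 1) ^ 2 + 3 * ((n : ℝ) + 1) + 2) * M * ∑ i, (x i : ℝ) ^ 2 := by
  have hM0 : 0 ≤ M := le_trans (abs_nonneg _) (hM 0)
  have hQ0 : 0 ≤ ∑ i, (x i : ℝ) ^ 2 := Finset.sum_nonneg fun i _ => sq_nonneg _
  have hXa : |∑ i, (x i : ℝ)| ≤ ((n : ℝ) + 1) * M := by
    calc |∑ i, (x i : ℝ)| ≤ ∑ i, |(x i : ℝ)| := Finset.abs_sum_le_sum_abs _ _
      _ ≤ ∑ _i : Fin (n + 1), M := Finset.sum_le_sum fun i _ => hM i
      _ = ((n : ℝ) + 1) * M := by
        rw [Finset.sum_const, Finset.card_univ, Fintype.card_fin, nsmul_eq_mul]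
        push_cast
        ring
  have hX2 : (∑ i, (x i : ℝ)) ^ 2 ≤ ((n : ℝ) + 1) * ∑ i, (x i : ℝ) ^ 2 := by
    have := sq_sum_le_card_mul_sum_sq (s := (Finset.univ : Finset (Fin (n + 1))))
      (f := fun i => (x i : ℝ))
    rw [Finset.card_univ, Fintype.card_fin] at this
    push_cast at this
    exact this
  have hT := t_le x M hM
  set X := ∑ i, (x i : ℝ) with hXd
  set Q := ∑ i, (x i : ℝ) ^ 2 with hQd
  set T := ∑ i, (x i : ℝ) ^ 3 with hTd
  have h1 : X ^ 3 ≤ ((n : ℝ) + 1) ^ 2 * M * Q := by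
    calc X ^ 3 ≤ |X| * X ^ 2 := by
          have : X * X ^ 2 ≤ |X| * X ^ 2 := mul_le_mul_of_nonneg_right (le_abs_self X) (sq_nonneg X)
          linarith [this, (by ring : X ^ 3 = X * X ^ 2)]
      _ ≤ (((n : ℝ) + 1) * M) * (((n : ℝ) + 1) * Q) := by
          apply mul_le_mul hXa hX2 (sq_nonneg _) (by positivity)
      _ = _ := by ring
  have h2 : -(3 * X * Q) ≤ 3 * ((n : ℝ) + 1) * M * Q := by
    have e : -X ≤ ((n : ℝ) + 1) * M := le_trans (neg_le_abs X) hXa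
    have := mul_le_mul_of_nonneg_right e hQ0
    linarith
  have h3 : 2 * T ≤ 2 * M * Q := by
    have := le_trans (le_abs_self T) hT
    linarith
  linarith

private lemma numIIa_fsum (n : ℕ) (x : Fin (n + 1) → ℤ) (m D M : ℝ)
    (hM : ∀ i, |(x i : ℝ)| ≤ M) (hMm : M ≤ m) :
    3 * ∑ i, ((m : ℝ) + x i) * (max ((x i : ℝ) - D) 0 * (max ((x i : ℝ) - D) 0 - 1)) ≤
      3 * (m + M) * (∑ i, (x i : ℝ) ^ 2 - 2 * D * ∑ i, (x i : ℝ) + ((n : ℝ) + 1) * D ^ 2) := by
  have e1 : ∑ i, (x i : ℝ) ^ 2 - 2 * D * ∑ i, (x i : ℝ) + ((n : ℝ) + 1) * D ^ 2 =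
      ∑ i, ((x i : ℝ) - D) ^ 2 := by
    have : ∀ i, ((x i : ℝ) - D) ^ 2 = (x i : ℝ) ^ 2 - 2 * D * (x i : ℝ) + D ^ 2 := fun i => by ring
    simp_rw [this]
    rw [Finset.sum_add_distrib, Finset.sum_sub_distrib, ← Finset.mul_sum, Finset.sum_const,
      Finset.card_univ, Fintype.card_fin, nsmul_eq_mul]
    push_cast
    ring
  rw [e1, mul_assoc, mul_le_mul_iff_right₀ (by norm_num : (0 : ℝ) < 3), Finset.mul_sum]
  apply Finset.sum_le_sum
  intro i _
  have hx := abs_le.mp (hM i)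
  set f := max ((x i : ℝ) - D) 0 with hf
  have hf0 : 0 ≤ f := le_max_right _ _
  have hf2 : f ^ 2 ≤ ((x i : ℝ) - D) ^ 2 := by
    rcases le_total ((x i : ℝ) - D) 0 with h | h
    · rw [hf, max_eq_right h]
      simp only [ne_eq, OfNat.ofNat_ne_zero, not_false_eq_true, zero_pow]
      positivity
    · rw [hf, max_eq_left h]
  calc ((m : ℝ) + x i) * (f * (f - 1)) ≤ ((m : ℝ) + x i) * f ^ 2 := by
        apply mul_le_mul_of_nonneg_left
        · nlinarith
        · linarith [hx.1]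
    _ ≤ (m + M) * f ^ 2 := by
        apply mul_le_mul_of_nonneg_right _ (sq_nonneg _)
        linarith [hx.2]
    _ ≤ (m + M) * ((x i : ℝ) - D) ^ 2 := by
        apply mul_le_mul_of_nonneg_left hf2
        linarith [hx.1, hx.2]

theorem num_IIa (R r : ℕ) (hR : 4 ≤ R) (hr : 1 ≤ r) (hs : r + 2 ≤ R) (h3 : 3 * r ≠ R) (C κ : ℝ)
    (hC : 0 < C) (hκ : 0 < κ) : ∃ η0 : ℝ, 0 < η0 ∧ ∀ η : ℝ, 0 < η → η ≤ η0 → ∃ m0 : ℕ,
      ∀ m : ℕ, m0 ≤ m → ∀ P : ℝ, PSpec R r m C P → ∀ x : Fin (R + 1) → ℤ,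
        (∀ i, |(x i : ℝ)| ≤ 5 * R * η * m) → ∀ p : ℕ, (p : ℝ) ≤ 4 * R * η * m →
          (∑ i, x i) - r + p ≤ 0 → ¬ ((∑ i, x i) - r + p = 0 ∧ p = 0 ∧ 3 * r < R) →
          ∀ Y : ℝ, κ * m * p ≤ Y →
          S6 (fun i => (m : ℝ) + x i) - 6 * P * ((R + 1) * m + ∑ i, (x i : ℝ) + p) +
            3 * R * ((R - 1) * m) * m * p +
            3 * ∑ i, ((m : ℝ) + x i) * (max ((x i : ℝ) - (∑ j, (x j : ℝ) - r)) 0 *
              (max ((x i : ℝ) - (∑ j, (x j : ℝ) - r)) 0 - 1)) -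
            16 / 5 * ((R - 1) * m) * Y ≤ 0 := by
  have hRr : (4 : ℝ) ≤ R := by exact_mod_cast hR
  set s : ℝ := min 1 κ with hsd
  have hs0 : 0 < s := lt_min one_pos hκ
  have hs1 : s ≤ 1 := min_le_left _ _
  have hsκ : s ≤ κ := min_le_right _ _
  set K : ℝ := max (3 * (r : ℝ) - R) 0 with hKd
  have hK0 : 0 ≤ K := le_max_right _ _
  set G : ℝ := 2 * R * (R - 1) * r + (R - 1) * K with hGd
  set B : ℝ := 2 * (6 * ((R : ℝ) - 1) * (r : ℝ) ^ 2 + C + C * r + G + C + 12 * r) with hBd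
  have hc1 : 0 < 15 * (R : ℝ) + 5 * R * (((R : ℝ) + 1) ^ 2 + 3 * (R + 1) + 2) := by positivity
  have hc2 : 0 < 12 * ((R : ℝ) - 1) * (6 * R * (R + 1)) := by
    have : 0 < (R : ℝ) - 1 := by linarith
    positivity
  refine ⟨min (1 / (5 * (R : ℝ))) (min (6 / (15 * (R : ℝ) + 5 * R * (((R : ℝ) + 1) ^ 2 +
    3 * (R + 1) + 2))) (s / (12 * ((R : ℝ) - 1) * (6 * R * (R + 1))))), ?_, ?_⟩
  · apply lt_min
    · positivity
    · apply lt_min
      · positivity
      · exact div_pos hs0 hc2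
  intro η hη hηle
  have hη1 : 5 * (R : ℝ) * η ≤ 1 := by
    have : η ≤ 1 / (5 * (R : ℝ)) := le_trans hηle (min_le_left _ _)
    rw [le_div_iff₀ (by positivity)] at this
    linarith
  have hη2 : (15 * (R : ℝ) + 5 * R * (((R : ℝ) + 1) ^ 2 + 3 * (R + 1) + 2)) * η ≤ 6 := by
    have : η ≤ 6 / (15 * (R : ℝ) + 5 * R * (((R : ℝ) + 1) ^ 2 + 3 * (R + 1) + 2)) :=
      le_trans hηle (le_trans (min_le_right _ _) (min_le_left _ _))
    rw [le_div_iff₀ hc1] at this
    linarith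
  have hη3 : 12 * ((R : ℝ) - 1) * (6 * R * (R + 1)) * η ≤ s := by
    have : η ≤ s / (12 * ((R : ℝ) - 1) * (6 * R * (R + 1))) :=
      le_trans hηle (le_trans (min_le_right _ _) (min_le_right _ _))
    rw [le_div_iff₀ hc2] at this
    linarith
  obtain ⟨m1, hm1⟩ := exists_nat_ge (B / s)
  obtain ⟨m2, hm2⟩ := exists_nat_ge ((r : ℝ) / (R * η))
  refine ⟨max 1 (max m1 m2), ?_⟩
  intro m hm P hP x hx p hp hc hex Y hY
  have hm1' : (1 : ℝ) ≤ m := by exact_mod_cast le_trans (le_max_left _ _) hm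
  have hmB : B ≤ s * m := by
    have h : (m1 : ℝ) ≤ m := by
      exact_mod_cast le_trans (le_trans (le_max_left _ _) (le_max_right _ _)) hm
    have := le_trans hm1 h
    rw [div_le_iff₀ hs0] at this
    linarith
  have hmr : (r : ℝ) ≤ R * η * m := by
    have h : (m2 : ℝ) ≤ m := by
      exact_mod_cast le_trans (le_trans (le_max_right _ _) (le_max_right _ _)) hm
    have := le_trans hm2 h
    rw [div_le_iff₀ (by positivity)] at this
    linarith
  have hm0 : (0 : ℝ) < m := by linarith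
  -- sums
  have hxm : 5 * (R : ℝ) * η * m ≤ m := by
    have := mul_le_mul_of_nonneg_right hη1 hm0.le
    linarith
  have hXa : |∑ i, (x i : ℝ)| ≤ ((R : ℝ) + 1) * (5 * R * η * m) := by
    calc |∑ i, (x i : ℝ)| ≤ ∑ i, |(x i : ℝ)| := Finset.abs_sum_le_sum_abs _ _
      _ ≤ ∑ _i : Fin (R + 1), 5 * (R : ℝ) * η * m := Finset.sum_le_sum fun i _ => hx i
      _ = _ := by
        rw [Finset.sum_const, Finset.card_univ, Fintype.card_fin, nsmul_eq_mul]
        push_cast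
        ring
  have hcast : ((∑ i, x i : ℤ) : ℝ) = ∑ i, (x i : ℝ) := by push_cast; rfl
  have hcR : (∑ i, (x i : ℝ)) - r + p ≤ 0 := by
    rw [← hcast]
    exact_mod_cast hc
  have hQ0 : 0 ≤ ∑ i, (x i : ℝ) ^ 2 := Finset.sum_nonneg fun i _ => sq_nonneg _
  have hcube := numIIa_cube R x (5 * R * η * m) hx
  have hfs := numIIa_fsum R x m (∑ j, (x j : ℝ) - r) (5 * R * η * m) hx hxm
  have hs6 := s6_exp R m (fun i => (x i : ℝ))
  have hN : (1 : ℝ) ≤ p + ((r : ℝ) - p - ∑ i, (x i : ℝ)) + K := by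
    by_cases h : (∑ i, x i) - r + p = 0 ∧ p = 0
    · have h3' : R < 3 * r := by
        by_contra hh
        apply hex
        refine ⟨h.1, h.2, ?_⟩
        omega
      have hK1 : (1 : ℝ) ≤ K := by
        have : (R : ℝ) + 1 ≤ 3 * r := by exact_mod_cast h3'
        rw [hKd]
        exact le_trans (by linarith) (le_max_left _ _)
      have : (0 : ℝ) ≤ p := Nat.cast_nonneg p
      linarith
    · have h4 : (1 : ℤ) ≤ p + ((r : ℤ) - p - ∑ i, x i) := by
        by_contra hh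
        apply h
        have : (0 : ℤ) ≤ p := Int.natCast_nonneg p
        constructor
        · omega
        · omega
      have h5 : (1 : ℝ) ≤ p + ((r : ℝ) - p - ∑ i, (x i : ℝ)) := by
        rw [← hcast]
        exact_mod_cast h4
      linarith
  set X : ℝ := ∑ i, (x i : ℝ) with hXd
  set Q : ℝ := ∑ i, (x i : ℝ) ^ 2 with hQd
  set T : ℝ := ∑ i, (x i : ℝ) ^ 3 with hTd
  have hp2 := abs_le.mp hP.p2
  set δ : ℝ := 6 * ((R : ℝ) + 1) * P - R * (R + 1) * (R - 1) * (m : ℝ) ^ 2 - G * m with hδd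
  set g : ℝ := 6 * P - R * (R - 1) * (m : ℝ) ^ 2 with hgd
  have hR10 : (0 : ℝ) < (R : ℝ) + 1 := by positivity
  have hgδ : g * ((R : ℝ) + 1) = G * m + δ := by
    rw [hgd, hδd]; ring
  have hδ1 : δ ≤ C := by rw [hδd]; exact hp2.2
  have hδ2 : -C ≤ δ := by rw [hδd]; exact hp2.1
  have hG0 : 0 ≤ G := by
    rw [hGd]
    have : 0 ≤ (R : ℝ) - 1 := by linarith
    positivity
  have hGm : 0 ≤ G * m := by positivity
  have hg0 : -C ≤ g := by
    by_contra hh
    push Not at hh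
    have h1 : g * ((R : ℝ) + 1) < -C * ((R : ℝ) + 1) := mul_lt_mul_of_pos_right hh hR10
    have h2 : 0 < C * R := by positivity
    linarith
  have hg1 : g ≤ G * m + C := by
    by_contra hh
    push Not at hh
    have h1 : (G * m + C) * ((R : ℝ) + 1) < g * ((R : ℝ) + 1) := mul_lt_mul_of_pos_right hh hR10
    have h2 : 0 < C * R := by positivity
    have h3 : 0 ≤ G * m * R := by positivity
    linarith
  have hrr : (0 : ℝ) ≤ r := Nat.cast_nonneg r
  have hpp : (0 : ℝ) ≤ p := Nat.cast_nonneg p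
  have key := numIIa_final R r m p (r - p - X) K Q X T C κ s η Y
    (S6 (fun i => (m : ℝ) + x i) - 6 * P * ((R + 1) * m + X + p) +
            3 * R * ((R - 1) * m) * m * p)
    (3 * ∑ i, ((m : ℝ) + x i) * (max ((x i : ℝ) - (X - r)) 0 *
              (max ((x i : ℝ) - (X - r)) 0 - 1))) δ g G
    hRr hrr hm1' hpp (by linarith) hK0 hQ0 hC hs0 hs1 hsκ hη1 hη2 hη3 (by ring)
    (by
      have h1 := (abs_le.mp hXa).1
      have h2 : 0 ≤ (R : ℝ) * R * η * m := by positivity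
      have h3 : (r : ℝ) + (R + 1) * (5 * R * η * m) ≤ 6 * R * (R + 1) * η * m := by
        linarith only [hmr, h2]
      linarith only [h1, h3])
    hN hGd hδ2 hg1 hg0 hY hcube
    (by
      rw [hs6]
      rw [hδd, hgd, hGd]
      ring)
    (by
      refine le_trans hfs (le_of_eq ?_)
      ring)
    hmB
  linarith [key]

end Pool.Agent.H11.TD
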