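import Pool.Agent.H11.TD.HulB

/-!
# TD Ovl: cores with overlapping hulls

If `V, V'` are cores and `v ∈ hpt V i ∩ hpt V' i'` then `tot V' ⊆ hull V`.
Proof.  (Write `B = tot V`, `B' = tot V'`.)
1. `|nb v (rest V i)| ≥ R (1 - η) m - γ m` and the same for `V'`; both are in `NN v`, of size `≤ (R + η) m`.  So
   `|B ∩ B'| ≥ (R - (2 R + 1) η - 2 γ) m ≥ (R - 1/2) m`.
2. For every `z ∈ V j ∩ V' j'`: `|nb z (rest V j)| ≥ R (1 - η) m - η m`, the same for `V'`, `|NN z| ≤ (R + η) m`, so
   `|rest V j ∩ rest V' j'| ≥ (R - (2 R + 3) η) m` and, as `|rest V j| ≤ R (1 + η) m`,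
   `|rest V j \ rest V' j'| ≤ (3 R + 3) η m`.
3. Choose `z1 ∈ B ∩ B'`, `z1 ∈ V j ∩ V' j'`, and `z2 ∈ (B ∩ B') \ V j` (possible: `|V j| ≤ (1 + η) m < (R - 1/2) m`),
   `z2 ∈ V k ∩ V' k'`, `k ≠ j`.  As `B = rest V j ∪ rest V k`, step 2 gives `|B \ B'| ≤ (6 R + 6) η m`, and
   `|B' \ B| = |B'| - |B| + |B \ B'| ≤ 2 (R + 1) η m + (6 R + 6) η m = (8 R + 8) η m`.
4. Let `y ∈ V' l'`.  As `|V' l'| ≥ (1 - η) m > (8 R + 8) η m` there is `z ∈ V' l' ∩ B`, `z ∈ V l`; by step 2
   `|rest V l \ rest V' l'| ≤ (3 R + 3) η m`; `y` has at most `η m` non-neighbours in `rest V' l'`, so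
   `ms G V l y ≤ (3 R + 4) η m ≤ γ m`, `y ∈ hpt V l`.
-/

set_option autoImplicit false

open Finset

namespace Pool.Agent.H11.TD

variable {α : Type} [Fintype α] [DecidableEq α] (G : SimpleGraph α) {R r m : ℕ} {γ η : ℝ}
  {V V' : Fin (R + 1) → Finset α}

private theorem ovl_par (hp : Par R r m γ η) :
    (4 : ℝ) ≤ R ∧ 0 < (m : ℝ) ∧ 0 < η ∧ 0 < γ ∧ γ ≤ 1 / 4000 ∧ (R : ℝ) ^ 2 * η ≤ γ / 1000 ∧
      (r : ℝ) ≤ η * m := by
  have h1 : (4 : ℝ) ≤ R := by exact_mod_cast hp.hR
  have h2 := hp.hm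
  have h3 := hp.hη
  have h4 := hp.hγ
  have h5 := hp.hγ'
  have h6 := hp.hη'
  have h7 : (0 : ℝ) ≤ r := Nat.cast_nonneg r
  have h8 : 0 < (m : ℝ) := by
    by_contra hc; push Not at hc
    have : η * m ≤ 0 := mul_nonpos_of_nonneg_of_nonpos h3.le hc
    linarith
  refine ⟨h1, h8, h3, h4, ?_, by linarith, by linarith⟩
  nlinarith

private theorem ovl_rest_lo (hV : Core G R m η V) (i : Fin (R + 1)) :
    (R : ℝ) * (1 - η) * m ≤ ((rest V i).card : ℝ) := by
  have h1 := rest_card V hV.disj i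
  have h2 : (rest V i).card = ∑ j ∈ univ.erase i, (V j).card := by
    have h3 := Finset.add_sum_erase univ (fun j => (V j).card) (mem_univ i)
    omega
  rw [h2]
  push_cast
  calc (R : ℝ) * (1 - η) * m = ∑ _j ∈ univ.erase i, (1 - η) * (m : ℝ) := by
        rw [Finset.sum_const, Finset.card_erase_of_mem (mem_univ i), Finset.card_univ,
          Fintype.card_fin, nsmul_eq_mul]
        simp only [Nat.add_sub_cancel]
        ring
    _ ≤ _ := Finset.sum_le_sum fun j _ => hV.lo j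

private theorem ovl_rest_hi (hV : Core G R m η V) (i : Fin (R + 1)) :
    ((rest V i).card : ℝ) ≤ (R : ℝ) * (1 + η) * m := by
  have h1 := rest_card V hV.disj i
  have h2 : (rest V i).card = ∑ j ∈ univ.erase i, (V j).card := by
    have h3 := Finset.add_sum_erase univ (fun j => (V j).card) (mem_univ i)
    omega
  rw [h2]
  push_cast
  calc ∑ j ∈ univ.erase i, ((V j).card : ℝ) ≤ ∑ _j ∈ univ.erase i, (1 + η) * (m : ℝ) :=
        Finset.sum_le_sum fun j _ => hV.hi j
    _ = (R : ℝ) * (1 + η) * m := by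
        rw [Finset.sum_const, Finset.card_erase_of_mem (mem_univ i), Finset.card_univ,
          Fintype.card_fin, nsmul_eq_mul]
        simp only [Nat.add_sub_cancel]
        ring

private theorem ovl_tot_lo (hV : Core G R m η V) :
    ((R : ℝ) + 1) * (1 - η) * m ≤ ((tot V).card : ℝ) := by
  rw [tot_card V hV.disj]
  push_cast
  calc ((R : ℝ) + 1) * (1 - η) * m = ∑ _j : Fin (R + 1), (1 - η) * (m : ℝ) := by
        rw [Finset.sum_const, Finset.card_univ, Fintype.card_fin, nsmul_eq_mul]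
        push_cast; ring
    _ ≤ _ := Finset.sum_le_sum fun j _ => hV.lo j

private theorem ovl_tot_hi (hV : Core G R m η V) :
    ((tot V).card : ℝ) ≤ ((R : ℝ) + 1) * (1 + η) * m := by
  rw [tot_card V hV.disj]
  push_cast
  calc ∑ j : Fin (R + 1), ((V j).card : ℝ) ≤ ∑ _j : Fin (R + 1), (1 + η) * (m : ℝ) :=
        Finset.sum_le_sum fun j _ => hV.hi j
    _ = ((R : ℝ) + 1) * (1 + η) * m := by
        rw [Finset.sum_const, Finset.card_univ, Fintype.card_fin, nsmul_eq_mul]
        push_cast; ring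

/-- common neighbours in two almost complete sets -/
private theorem ovl_inter (hp : Par R r m γ η) (hG : Ctx G R r m) (hV : Core G R m η V)
    (hV' : Core G R m η V') (j j' : Fin (R + 1)) (z : α) (c : ℝ)
    (h1 : (ms G V j z : ℝ) ≤ c * m) (h2 : (ms G V' j' z : ℝ) ≤ c * m) :
    (R - (2 * R + 1) * η - 2 * c) * m ≤ ((rest V j ∩ rest V' j').card : ℝ) := by
  obtain ⟨p1, p2, p3, p4, p5, p6, p7⟩ := ovl_par hp
  have a1 := nb_rest_card G V j z
  have a2 := nb_rest_card G V' j' z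
  have b1 := ovl_rest_lo G hV j
  have b2 := ovl_rest_lo G hV' j'
  have d1 : ((NN G z).card : ℝ) ≤ R * m + r := by exact_mod_cast hG.deg z
  have a1' : ((nb G z (rest V j)).card : ℝ) + ms G V j z = (rest V j).card := by exact_mod_cast a1
  have a2' : ((nb G z (rest V' j')).card : ℝ) + ms G V' j' z = (rest V' j').card := by
    exact_mod_cast a2
  have e1 : ((nb G z (rest V j)) ∪ (nb G z (rest V' j'))).card ≤ (NN G z).card := by
    apply Finset.card_le_card
    intro x hx
    rw [Finset.mem_union, mem_nb, mem_nb] at hx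
    rw [mem_NN]
    rcases hx with hx | hx <;> exact hx.2
  have e2 : ((nb G z (rest V j)) ∩ (nb G z (rest V' j'))).card ≤ (rest V j ∩ rest V' j').card := by
    apply Finset.card_le_card
    intro x hx
    rw [Finset.mem_inter, mem_nb, mem_nb] at hx
    exact Finset.mem_inter.mpr ⟨hx.1.1, hx.2.1⟩
  have e3 := Finset.card_union_add_card_inter (nb G z (rest V j)) (nb G z (rest V' j'))
  have e1' : (((nb G z (rest V j)) ∪ (nb G z (rest V' j'))).card : ℝ) ≤ (NN G z).card := by
    exact_mod_cast e1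
  have e2' : (((nb G z (rest V j)) ∩ (nb G z (rest V' j'))).card : ℝ)
      ≤ (rest V j ∩ rest V' j').card := by exact_mod_cast e2
  have e3' : (((nb G z (rest V j)) ∪ (nb G z (rest V' j'))).card : ℝ)
      + ((nb G z (rest V j)) ∩ (nb G z (rest V' j'))).card
      = (nb G z (rest V j)).card + (nb G z (rest V' j')).card := by exact_mod_cast e3
  nlinarith

private theorem ovl_diff (hp : Par R r m γ η) (hG : Ctx G R r m) (hV : Core G R m η V)
    (hV' : Core G R m η V') (j j' : Fin (R + 1)) (z : α) (h1 : z ∈ V j) (h2 : z ∈ V' j') :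
    ((rest V j \ rest V' j').card : ℝ) ≤ (3 * R + 3) * η * m := by
  have h3 := ovl_inter G hp hG hV hV' j j' z η (hV.miss j z h1) (hV'.miss j' z h2)
  have h4 := ovl_rest_hi G hV j
  have h5 := Finset.card_sdiff_add_card_inter (rest V j) (rest V' j')
  have h5' : ((rest V j \ rest V' j').card : ℝ) + (rest V j ∩ rest V' j').card
      = (rest V j).card := by exact_mod_cast h5
  linarith

theorem core_overlap (hp : Par R r m γ η) (hG : Ctx G R r m) (hV : Core G R m η V)
    (hV' : Core G R m η V') (h : ¬ Disjoint (hull G m γ V) (hull G m γ V')) :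
    tot V' ⊆ hull G m γ V := by
  classical
  obtain ⟨p1, p2, p3, p4, p5, p6, p7⟩ := ovl_par hp
  have hRη : (R : ℝ) * η ≤ γ / 4000 := by nlinarith
  have hη : η ≤ γ / 16000 := by nlinarith
  have hRsub : ∀ (W : Fin (R + 1) → Finset α) (i : Fin (R + 1)), rest W i ⊆ tot W := by
    intro W i x hx
    rw [mem_rest] at hx
    obtain ⟨j, _, hj⟩ := hx
    exact (mem_tot W).mpr ⟨j, hj⟩
  -- step 1
  rw [Finset.not_disjoint_iff] at h
  obtain ⟨v, hv, hv'⟩ := h
  unfold hull at hv hv'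
  rw [mem_tot] at hv hv'
  obtain ⟨i, hi⟩ := hv
  obtain ⟨i', hi'⟩ := hv'
  have ms1 : (ms G V i v : ℝ) ≤ γ * m := by
    unfold hpt at hi; exact (Finset.mem_filter.mp hi).2
  have ms2 : (ms G V' i' v : ℝ) ≤ γ * m := by
    unfold hpt at hi'; exact (Finset.mem_filter.mp hi').2
  have s1 := ovl_inter G hp hG hV hV' i i' v γ ms1 ms2
  have s2 : ((rest V i ∩ rest V' i').card : ℝ) ≤ (tot V ∩ tot V').card := by
    exact_mod_cast Finset.card_le_card (Finset.inter_subset_inter (hRsub V i) (hRsub V' i'))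
  have s3 : ((R : ℝ) - 1 / 2) * m ≤ (tot V ∩ tot V').card := by
    have : ((R : ℝ) - 1 / 2) * m ≤ (R - (2 * R + 1) * η - 2 * γ) * m := by
      apply mul_le_mul_of_nonneg_right _ p2.le
      nlinarith
    linarith
  -- step 3
  have hne : (tot V ∩ tot V').Nonempty := by
    rw [← Finset.card_pos]
    have : (0 : ℝ) < (tot V ∩ tot V').card := lt_of_lt_of_le (by nlinarith) s3
    exact_mod_cast this
  obtain ⟨z1, hz1⟩ := hne
  rw [Finset.mem_inter, mem_tot, mem_tot] at hz1
  obtain ⟨⟨j, hj⟩, ⟨j', hj'⟩⟩ := hz1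
  have hex2 : ∃ z2 ∈ tot V ∩ tot V', z2 ∉ V j := by
    by_contra hc
    push Not at hc
    have h1 : ((tot V ∩ tot V').card : ℝ) ≤ (V j).card := by
      exact_mod_cast Finset.card_le_card (fun x hx => hc x hx)
    have h2 := hV.hi j
    nlinarith
  obtain ⟨z2, hz2, hz2j⟩ := hex2
  rw [Finset.mem_inter, mem_tot, mem_tot] at hz2
  obtain ⟨⟨k, hk⟩, ⟨k', hk'⟩⟩ := hz2
  have hkj : k ≠ j := by rintro rfl; exact hz2j hk
  have d1 := ovl_diff G hp hG hV hV' j j' z1 hj hj'
  have d2 := ovl_diff G hp hG hV hV' k k' z2 hk hk'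
  have d3 : ((tot V \ tot V').card : ℝ) ≤ (6 * R + 6) * η * m := by
    have hsub : tot V \ tot V' ⊆ (rest V j \ rest V' j') ∪ (rest V k \ rest V' k') := by
      intro x hx
      rw [Finset.mem_sdiff, mem_tot] at hx
      obtain ⟨⟨l, hl⟩, hx2⟩ := hx
      rw [Finset.mem_union, Finset.mem_sdiff, Finset.mem_sdiff]
      by_cases hlj : l = j
      · right
        refine ⟨(mem_rest V).mpr ⟨l, by rw [hlj]; exact hkj.symm, hl⟩, ?_⟩
        intro hc; exact hx2 (hRsub V' k' hc)
      · left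
        refine ⟨(mem_rest V).mpr ⟨l, hlj, hl⟩, ?_⟩
        intro hc; exact hx2 (hRsub V' j' hc)
    have h1 : (tot V \ tot V').card ≤ (rest V j \ rest V' j').card + (rest V k \ rest V' k').card :=
      (Finset.card_le_card hsub).trans (Finset.card_union_le _ _)
    have h1' : ((tot V \ tot V').card : ℝ)
        ≤ (rest V j \ rest V' j').card + (rest V k \ rest V' k').card := by exact_mod_cast h1
    linarith
  have d4 : ((tot V' \ tot V).card : ℝ) ≤ (8 * R + 8) * η * m := by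
    have h1 := Finset.card_sdiff_add_card_inter (tot V) (tot V')
    have h2 := Finset.card_sdiff_add_card_inter (tot V') (tot V)
    rw [Finset.inter_comm (tot V') (tot V)] at h2
    have h1' : ((tot V \ tot V').card : ℝ) + (tot V ∩ tot V').card = (tot V).card := by
      exact_mod_cast h1
    have h2' : ((tot V' \ tot V).card : ℝ) + (tot V ∩ tot V').card = (tot V').card := by
      exact_mod_cast h2
    have h3 := ovl_tot_lo G hV
    have h4 := ovl_tot_hi G hV'
    nlinarith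
  -- step 4
  intro y hy
  rw [mem_tot] at hy
  obtain ⟨l', hl'⟩ := hy
  have hex : ∃ z ∈ V' l', z ∈ tot V := by
    by_contra hc
    push Not at hc
    have hsub : V' l' ⊆ tot V' \ tot V := by
      intro x hx
      exact Finset.mem_sdiff.mpr ⟨(mem_tot V').mpr ⟨l', hx⟩, hc x hx⟩
    have h1 : ((V' l').card : ℝ) ≤ (tot V' \ tot V).card := by
      exact_mod_cast Finset.card_le_card hsub
    have h2 := hV'.lo l'
    have h3 : (1 - η) * m ≤ (8 * R + 8) * η * m := h2.trans (h1.trans d4)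
    have h4 : (8 * (R : ℝ) + 8) * η < 1 - η := by nlinarith
    have h5 : (8 * (R : ℝ) + 8) * η * m < (1 - η) * m := mul_lt_mul_of_pos_right h4 p2
    linarith
  obtain ⟨z, hz', hz⟩ := hex
  rw [mem_tot] at hz
  obtain ⟨l, hl⟩ := hz
  have d5 := ovl_diff G hp hG hV hV' l l' z hl hz'
  have d6 := hV'.miss l' y hl'
  unfold hull
  rw [mem_tot]
  refine ⟨l, ?_⟩
  unfold hpt
  rw [Finset.mem_filter]
  refine ⟨mem_univ _, ?_⟩
  have hsub : rest V l \ nb G y (rest V l)
      ⊆ (rest V l \ rest V' l') ∪ (rest V' l' \ nb G y (rest V' l')) := by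
    intro x hx
    rw [Finset.mem_sdiff, mem_nb] at hx
    rw [Finset.mem_union, Finset.mem_sdiff, Finset.mem_sdiff, mem_nb]
    by_cases hx2 : x ∈ rest V' l'
    · right
      refine ⟨hx2, ?_⟩
      rintro ⟨_, h2⟩
      exact hx.2 ⟨hx.1, h2⟩
    · left
      exact ⟨hx.1, hx2⟩
  have h1 : ms G V l y ≤ (rest V l \ rest V' l').card + ms G V' l' y := by
    unfold ms
    exact (Finset.card_le_card hsub).trans (Finset.card_union_le _ _)
  have h1' : (ms G V l y : ℝ) ≤ (rest V l \ rest V' l').card + ms G V' l' y := by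
    exact_mod_cast h1
  have h2 : (3 * (R : ℝ) + 3) * η + η ≤ γ := by nlinarith
  calc (ms G V l y : ℝ) ≤ (3 * R + 3) * η * m + η * m := by linarith
    _ = ((3 * (R : ℝ) + 3) * η + η) * m := by ring
    _ ≤ γ * m := mul_le_mul_of_nonneg_right h2 p2.le

end Pool.Agent.H11.TD
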