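import Pool.Agent.H11.TD.Bas

/-!
# TD Pick: cliques in a core

`clique_pick`: induction on `I` (or greedy choice): suppose `f i ∈ A i` are chosen for `i ∈ I'`, `I' ⊂ I`, pairwise
adjacent, and let `j ∈ I \ I'`.  Each `f i` is in `V i`, so it has at most `η m` non-neighbours in
`rest V i ⊇ V j ⊇ A j`; all together at most `|I'| η m < |A j|`, so some element of `A j` is adjacent to all `f i`.

`no_clique_nb`: no `R + 1` pairwise adjacent vertices in a neighbourhood: from `clique_pick` with `I = univ` and
`A i = nb G y (V i)`: if all `|nb G y (V i)| > (R + 1) η m` then `f 0, ..., f R, y` is a clique of size `R + 2`,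
contradiction.  So some `|nb G y (V i)| ≤ (R + 1) η m`.

`indep_of_common`: if `u, v` are adjacent and for all `j ≠ i` they have more than `(R + 1) η m` common neighbours
in `V j` then contradiction: `I = univ.erase i`, clique `u, v, f j` (`j ≠ i`) of size `R + 2`.
-/

set_option autoImplicit false

open Finset

namespace Pool.Agent.H11.TD

variable {α : Type} [Fintype α] [DecidableEq α] (G : SimpleGraph α) {R m : ℕ} {η : ℝ}
  {V : Fin (R + 1) → Finset α}

/-- Elements of `V j` which are not adjacent to `v ∈ V i`, `j ≠ i`. -/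
private theorem pick_miss (hV : Core G R m η V) {i j : Fin (R + 1)} (hij : j ≠ i) {v : α}
    (hv : v ∈ V i) (B : Finset α) (hB : B ⊆ V j) :
    ((B.filter (fun x => ¬ (x ∈ nb G v B))).card : ℝ) ≤ η * m := by
  classical
  refine le_trans ?_ (hV.miss i v hv)
  have h1 : B.filter (fun x => ¬ (x ∈ nb G v B)) ⊆ rest V i \ nb G v (rest V i) := by
    intro x hx
    rw [Finset.mem_filter, mem_nb] at hx
    rw [Finset.mem_sdiff, mem_nb]
    refine ⟨(mem_rest V).mpr ⟨j, hij, hB hx.1⟩, fun h => hx.2 ⟨hx.1, h.2⟩⟩
  unfold ms
  exact_mod_cast Finset.card_le_card h1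

/-- `clique_pick` needs a point in `α` when `I` is empty. -/
theorem clique_pick [Nonempty α] (hη : 0 < η) (hV : Core G R m η V) (I : Finset (Fin (R + 1)))
    (A : Fin (R + 1) → Finset α) (hA : ∀ i ∈ I, A i ⊆ V i)
    (hc : ∀ i ∈ I, (I.card : ℝ) * (η * m) < ((A i).card : ℝ)) :
    ∃ f : Fin (R + 1) → α, (∀ i ∈ I, f i ∈ A i) ∧
      ∀ i ∈ I, ∀ j ∈ I, i ≠ j → G.Adj (f i) (f j) := by
  classical
  have hηm : 0 ≤ η * (m : ℝ) := by positivity
  have key : ∀ I' : Finset (Fin (R + 1)), I' ⊆ I → ∃ f : Fin (R + 1) → α, (∀ i ∈ I', f i ∈ A i) ∧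
      ∀ i ∈ I', ∀ j ∈ I', i ≠ j → G.Adj (f i) (f j) := by
    intro I'
    induction I' using Finset.induction_on with
    | empty =>
      intro _
      exact ⟨fun _ => Classical.arbitrary α, by simp, by simp⟩
    | insert j I' hj ih =>
      intro hI
      have hjI : j ∈ I := hI (Finset.mem_insert_self j I')
      have hI' : I' ⊆ I := fun i hi => hI (Finset.mem_insert_of_mem hi)
      obtain ⟨f, hf1, hf2⟩ := ih hI'
      -- the elements of `A j` not adjacent to some `f i`
      have hbad : ((I'.biUnion (fun i => (A j).filter (fun x => ¬ (x ∈ nb G (f i) (A j))))).card : ℝ)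
          ≤ (I'.card : ℝ) * (η * m) := by
        have h1 : ((I'.biUnion (fun i => (A j).filter (fun x => ¬ (x ∈ nb G (f i) (A j))))).card : ℝ)
            ≤ ∑ i ∈ I', (((A j).filter (fun x => ¬ (x ∈ nb G (f i) (A j)))).card : ℝ) := by
          exact_mod_cast Finset.card_biUnion_le
        refine h1.trans ?_
        rw [← nsmul_eq_mul, ← Finset.sum_const]
        refine Finset.sum_le_sum (fun i hi => ?_)
        refine pick_miss G hV (i := i) (j := j) ?_ (hA i (hI' hi) (hf1 i hi)) (A j) (hA j hjI)
        rintro rfl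
        exact hj hi
      have hlt : (I'.biUnion (fun i => (A j).filter (fun x => ¬ (x ∈ nb G (f i) (A j))))).card <
          (A j).card := by
        have h1 : (I'.card : ℝ) * (η * m) ≤ (I.card : ℝ) * (η * m) := by
          refine mul_le_mul_of_nonneg_right ?_ hηm
          exact_mod_cast Finset.card_le_card hI'
        have h2 := hc j hjI
        have h3 : ((I'.biUnion (fun i => (A j).filter (fun x => ¬ (x ∈ nb G (f i) (A j))))).card : ℝ)
          < ((A j).card : ℝ) := by linarith
        exact_mod_cast h3
      obtain ⟨x, hxA, hxB⟩ := Finset.exists_mem_notMem_of_card_lt_card hlt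
      have hadj : ∀ i ∈ I', G.Adj (f i) x := by
        intro i hi
        by_contra hcon
        apply hxB
        rw [Finset.mem_biUnion]
        refine ⟨i, hi, Finset.mem_filter.mpr ⟨hxA, fun h => hcon ((mem_nb G).mp h).2⟩⟩
      refine ⟨Function.update f j x, ?_, ?_⟩
      · intro i hi
        rcases Finset.mem_insert.mp hi with rfl | hi'
        · rw [Function.update_self]; exact hxA
        · have hne : i ≠ j := by rintro rfl; exact hj hi'
          rw [Function.update_of_ne hne]
          exact hf1 i hi'
      · intro i hi i' hi' hne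
        rcases Finset.mem_insert.mp hi with rfl | h1
        · rcases Finset.mem_insert.mp hi' with rfl | h2
          · exact absurd rfl hne
          · rw [Function.update_self, Function.update_of_ne (Ne.symm hne)]
            exact (hadj i' h2).symm
        · have hne1 : i ≠ j := by rintro rfl; exact hj h1
          rcases Finset.mem_insert.mp hi' with rfl | h2
          · rw [Function.update_self, Function.update_of_ne hne1]
            exact hadj i h1
          · have hne2 : i' ≠ j := by rintro rfl; exact hj h2
            rw [Function.update_of_ne hne1, Function.update_of_ne hne2]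
            exact hf2 i h1 i' h2 hne
  exact key I (Finset.Subset.refl I)

omit [Fintype α] in
private theorem pick_nclique (I : Finset (Fin (R + 1))) (f : Fin (R + 1) → α)
    (hf : ∀ i ∈ I, ∀ j ∈ I, i ≠ j → G.Adj (f i) (f j)) : G.IsNClique I.card (I.image f) := by
  classical
  have hinj : Set.InjOn f I := by
    intro i hi j hj hij
    by_contra hne
    have := hf i hi j hj hne
    rw [hij] at this
    exact G.loopless.irrefl _ this
  refine ⟨?_, Finset.card_image_of_injOn hinj⟩
  intro x hx y hy hxy
  rw [Finset.coe_image] at hx hy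
  obtain ⟨i, hi, rfl⟩ := hx
  obtain ⟨j, hj, rfl⟩ := hy
  exact hf i hi j hj (fun h => hxy (by rw [h]))

theorem no_clique_nb (hG : G.CliqueFree (R + 2)) (hη : 0 < η) (hV : Core G R m η V) (y : α) :
    ∃ i, ((nb G y (V i)).card : ℝ) ≤ (R + 1) * (η * m) := by
  classical
  by_contra hcon
  push Not at hcon
  have : Nonempty α := ⟨y⟩
  obtain ⟨f, hf1, hf2⟩ := clique_pick G hη hV Finset.univ (fun i => nb G y (V i))
    (fun i _ => fun x hx => ((mem_nb G).mp hx).1) (fun i _ => by
      have h1 := hcon i
      have h2 : ((Finset.univ : Finset (Fin (R + 1))).card : ℝ) = (R : ℝ) + 1 := by simp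
      rw [h2]
      exact h1)
  have h1 := pick_nclique G Finset.univ f hf2
  have h2 := h1.insert (a := y) (fun b hb => by
    obtain ⟨i, hi, rfl⟩ := Finset.mem_image.mp hb
    exact ((mem_nb G).mp (hf1 i hi)).2)
  have h3 : (Finset.univ : Finset (Fin (R + 1))).card + 1 = R + 2 := by simp
  rw [h3] at h2
  exact hG _ h2

theorem indep_of_common (hG : G.CliqueFree (R + 2)) (hη : 0 < η) (hV : Core G R m η V)
    (i : Fin (R + 1)) (u v : α)
    (h : ∀ j, j ≠ i → (R + 1) * (η * m) < ((nb G u (nb G v (V j))).card : ℝ)) : ¬ G.Adj u v := by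
  classical
  intro huv
  have : Nonempty α := ⟨u⟩
  have hηm : 0 ≤ η * (m : ℝ) := by positivity
  obtain ⟨f, hf1, hf2⟩ := clique_pick G hη hV (Finset.univ.erase i)
    (fun j => nb G u (nb G v (V j)))
    (fun j _ => fun x hx => ((mem_nb G).mp ((mem_nb G).mp hx).1).1) (fun j hj => by
      have h1 := h j (Finset.ne_of_mem_erase hj)
      have h2 : ((Finset.univ.erase i).card : ℝ) = (R : ℝ) := by
        rw [Finset.card_erase_of_mem (Finset.mem_univ i)]
        simp
      rw [h2]
      nlinarith)
  have h1 := pick_nclique G (Finset.univ.erase i) f hf2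
  have h2 := h1.insert (a := v) (fun b hb => by
    obtain ⟨j, hj, rfl⟩ := Finset.mem_image.mp hb
    exact ((mem_nb G).mp ((mem_nb G).mp (hf1 j hj)).1).2)
  have h3 := h2.insert (a := u) (fun b hb => by
    rcases Finset.mem_insert.mp hb with rfl | hb
    · exact huv
    · obtain ⟨j, hj, rfl⟩ := Finset.mem_image.mp hb
      exact ((mem_nb G).mp (hf1 j hj)).2)
  have h4 : (Finset.univ.erase i).card + 1 + 1 = R + 2 := by
    rw [Finset.card_erase_of_mem (Finset.mem_univ i)]
    simp
  rw [h4] at h3
  exact hG _ h3

end Pool.Agent.H11.TD
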