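import Pool.Agent.H11.TD.Defs

/-!
# TD S6x: expansion of `S6` and of the linear sums

`a i = m + x i`, `X = ∑ x i`, `Q = ∑ x i ^ 2`, `T = ∑ x i ^ 3` over `Fin (R + 1)`.  Pure algebra (expand the powers under the sums:
`Finset.sum_add_distrib`, `Finset.mul_sum`, `Finset.sum_const`, `Finset.card_univ`, then `ring`).
-/

set_option autoImplicit false

open Finset

namespace Pool.Agent.H11.TD

private theorem s6x_q {k : ℕ} (m : ℝ) (x : Fin k → ℝ) :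
    ∑ i, (m + x i) ^ 2 = k * m ^ 2 + 2 * m * ∑ i, x i + ∑ i, x i ^ 2 := by
  have h : ∀ i, (m + x i) ^ 2 = m ^ 2 + 2 * m * x i + x i ^ 2 := fun i => by ring
  simp only [h, Finset.sum_add_distrib, ← Finset.mul_sum, Finset.sum_const, Finset.card_univ,
    Fintype.card_fin, nsmul_eq_mul]

private theorem s6x_c {k : ℕ} (m : ℝ) (x : Fin k → ℝ) :
    ∑ i, (m + x i) ^ 3 = k * m ^ 3 + 3 * m ^ 2 * ∑ i, x i + 3 * m * ∑ i, x i ^ 2 +
      ∑ i, x i ^ 3 := by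
  have h : ∀ i, (m + x i) ^ 3 = m ^ 3 + 3 * m ^ 2 * x i + 3 * m * x i ^ 2 + x i ^ 3 :=
    fun i => by ring
  simp only [h, Finset.sum_add_distrib, ← Finset.mul_sum, Finset.sum_const, Finset.card_univ,
    Fintype.card_fin, nsmul_eq_mul]

private theorem s6x_l {k : ℕ} (m : ℝ) (x : Fin k → ℝ) :
    ∑ i, (m + x i) = k * m + ∑ i, x i := by
  simp only [Finset.sum_add_distrib, Finset.sum_const, Finset.card_univ,
    Fintype.card_fin, nsmul_eq_mul]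

theorem s6_exp (R : ℕ) (m : ℝ) (x : Fin (R + 1) → ℝ) :
    S6 (fun i => m + x i) = R * (R + 1) * (R - 1) * m ^ 3 + 3 * R * (R - 1) * m ^ 2 * ∑ i, x i +
      3 * (R - 1) * m * ((∑ i, x i) ^ 2 - ∑ i, x i ^ 2) +
      ((∑ i, x i) ^ 3 - 3 * (∑ i, x i) * ∑ i, x i ^ 2 + 2 * ∑ i, x i ^ 3) := by
  unfold S6
  rw [s6x_l, s6x_q, s6x_c]
  push_cast
  ring

/-- `∑ a_i f_i` for `f_i = x_i - c` -/
theorem sum_af (R : ℕ) (m c : ℝ) (x : Fin (R + 1) → ℝ) :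
    ∑ i, (m + x i) * (x i - c) = m * (∑ i, x i - (R + 1) * c) + ∑ i, x i ^ 2 - c * ∑ i, x i := by
  have h : ∀ i, (m + x i) * (x i - c) = m * x i + -(m * c) + x i ^ 2 + (-c) * x i :=
    fun i => by ring
  simp only [h, Finset.sum_add_distrib, ← Finset.mul_sum, Finset.sum_const, Finset.card_univ,
    Fintype.card_fin, nsmul_eq_mul]
  push_cast
  ring

/-- `∑ a_i (1 - x_i) (W + X - x_i)` -/
theorem sum_g (R : ℕ) (m W : ℝ) (x : Fin (R + 1) → ℝ) :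
    ∑ i, (m + x i) * (1 - x i) * (W + ∑ j, x j - x i) =
      m * W * (R + 1 - ∑ i, x i) + W * (∑ i, x i - ∑ i, x i ^ 2) +
      m * (R * ∑ i, x i - (∑ i, x i) ^ 2 + ∑ i, x i ^ 2) +
      ((∑ i, x i) ^ 2 - (∑ i, x i) * (∑ i, x i ^ 2) - ∑ i, x i ^ 2 + ∑ i, x i ^ 3) := by
  set X : ℝ := ∑ j, x j with hX
  have h : ∀ i, (m + x i) * (1 - x i) * (W + X - x i) =
      m * (W + X) + (-m - m * (W + X) + (W + X)) * x i + (m - 1 - (W + X)) * x i ^ 2 +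
        x i ^ 3 := fun i => by ring
  simp only [h, Finset.sum_add_distrib, ← Finset.mul_sum, Finset.sum_const, Finset.card_univ,
    Fintype.card_fin, nsmul_eq_mul]
  rw [← hX]
  push_cast
  ring

/-- for integers `x (x - 1) ≥ 0`, so `X ≤ Q`, and `|T - X| ≤ (M + 1)(Q - X)` if all `|x i| ≤ M` -/
theorem qx_le {k : ℕ} (x : Fin k → ℤ) : (∑ i, (x i : ℝ)) ≤ ∑ i, (x i : ℝ) ^ 2 := by
  apply Finset.sum_le_sum
  intro i _
  have h : x i ≤ x i ^ 2 := Int.le_self_sq (x i)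
  exact_mod_cast h

private theorem s6x_pt (y : ℤ) (M : ℝ) (hM : |(y : ℝ)| ≤ M) :
    |(y : ℝ) ^ 3 - y| ≤ (M + 1) * ((y : ℝ) ^ 2 - y) := by
  have h0 : (0 : ℝ) ≤ (y : ℝ) ^ 2 - y := by
    have h : y ≤ y ^ 2 := Int.le_self_sq y
    have : ((y : ℤ) : ℝ) ≤ ((y ^ 2 : ℤ) : ℝ) := by exact_mod_cast h
    push_cast at this
    linarith
  have h1 : (y : ℝ) ^ 3 - y = (y + 1) * ((y : ℝ) ^ 2 - y) := by ring
  rw [h1, abs_mul, abs_of_nonneg h0]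
  apply mul_le_mul_of_nonneg_right _ h0
  calc |(y : ℝ) + 1| ≤ |(y : ℝ)| + |(1 : ℝ)| := abs_add_le _ _
    _ ≤ M + 1 := by rw [abs_one]; linarith

theorem tx_le {k : ℕ} (x : Fin k → ℤ) (M : ℝ) (hM : ∀ i, |(x i : ℝ)| ≤ M) :
    |∑ i, (x i : ℝ) ^ 3 - ∑ i, (x i : ℝ)| ≤
      (M + 1) * (∑ i, (x i : ℝ) ^ 2 - ∑ i, (x i : ℝ)) := by
  rw [← Finset.sum_sub_distrib, ← Finset.sum_sub_distrib, Finset.mul_sum]
  refine (Finset.abs_sum_le_sum_abs _ _).trans ?_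
  exact Finset.sum_le_sum fun i _ => s6x_pt (x i) M (hM i)

theorem t_le {k : ℕ} (x : Fin k → ℤ) (M : ℝ) (hM : ∀ i, |(x i : ℝ)| ≤ M) :
    |∑ i, (x i : ℝ) ^ 3| ≤ M * ∑ i, (x i : ℝ) ^ 2 := by
  rw [Finset.mul_sum]
  refine (Finset.abs_sum_le_sum_abs _ _).trans ?_
  refine Finset.sum_le_sum fun i _ => ?_
  have h1 : (x i : ℝ) ^ 3 = x i * (x i : ℝ) ^ 2 := by ring
  rw [h1, abs_mul, abs_of_nonneg (sq_nonneg (x i : ℝ))]
  exact mul_le_mul_of_nonneg_right (hM i) (sq_nonneg _)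

end Pool.Agent.H11.TD
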