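import Pool.Agent.H11.TD.Main

/-!
# TD Tur: the triangle count of the Turan graph `L` and the comparison of `L` with `G*`
-/

set_option autoImplicit false

open Finset

namespace Pool.Agent.H11.TD

/-- the class of a vertex -/
private def tur_c (R n : ℕ) (v : Fin n) : Fin (R + 1) := ⟨v.1 % (R + 1), Nat.mod_lt _ (Nat.succ_pos R)⟩

private theorem tur_card (R r m : ℕ) (hr : r ≤ R) (i : Fin (R + 1)) :
    (univ.filter (fun v : Fin ((R + 1) * m + r) => tur_c R _ v = i)).card =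
      m + if i.1 < r then 1 else 0 := by
  have h1 : (univ.filter (fun v : Fin ((R + 1) * m + r) => tur_c R _ v = i)).card =
      ((range ((R + 1) * m + r)).filter (fun v => v ≡ i.1 [MOD (R + 1)])).card := by
    refine card_bij (fun v _ => v.1) ?_ ?_ ?_
    · intro v hv
      rw [mem_filter] at hv ⊢
      refine ⟨mem_range.2 v.2, ?_⟩
      have h2 := congrArg Fin.val hv.2
      unfold Nat.ModEq
      rw [Nat.mod_eq_of_lt i.2]
      exact h2
    · intro v _ w _ h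
      exact Fin.ext h
    · intro v hv
      rw [mem_filter] at hv
      refine ⟨⟨v, mem_range.1 hv.1⟩, ?_, rfl⟩
      rw [mem_filter]
      refine ⟨mem_univ _, Fin.ext ?_⟩
      have h2 := hv.2
      unfold Nat.ModEq at h2
      rw [Nat.mod_eq_of_lt i.2] at h2
      exact h2
  rw [h1, ← Nat.count_eq_card_filter_range, Nat.count_modEq_card _ (Nat.succ_pos R),
    Nat.mod_eq_of_lt i.2]
  have h2 : ((R + 1) * m + r) % (R + 1) = r := by
    rw [Nat.mul_add_mod, Nat.mod_eq_of_lt (by omega)]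
  have h3 : ((R + 1) * m + r) / (R + 1) = m := by
    rw [Nat.mul_add_div (Nat.succ_pos R), Nat.div_eq_of_lt (by omega), add_zero]
  rw [h2, h3]

private theorem tur_sum (R r : ℕ) (hr : r ≤ R) :
    ∑ i : Fin (R + 1), (if i.1 < r then (1 : ℝ) else 0) = r := by
  rw [Fin.sum_univ_eq_sum_range (fun i => if i < r then (1 : ℝ) else 0), ← sum_filter]
  have h1 : (range (R + 1)).filter (fun i => i < r) = range r := by
    ext i
    rw [mem_filter, mem_range, mem_range]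
    omega
  rw [h1, sum_const, card_range, nsmul_eq_mul, mul_one]

theorem tri_turan (R r m : ℕ) (hr : r ≤ R) :
    (tri (SimpleGraph.turanGraph ((R + 1) * m + r) (R + 1)) : ℝ) = kL R r m := by
  classical
  have h0 : ∀ u v : Fin ((R + 1) * m + r),
      (SimpleGraph.turanGraph ((R + 1) * m + r) (R + 1)).Adj u v ↔ tur_c R _ u ≠ tur_c R _ v := by
    intro u v
    unfold tur_c
    rw [Ne, Fin.mk.injEq]
    rfl
  have h1 := mp_t3 (SimpleGraph.turanGraph ((R + 1) * m + r) (R + 1)) (tur_c R _) h0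
  have h2 : (fun i => (((univ.filter
      (fun v : Fin ((R + 1) * m + r) => tur_c R _ v = i)).card : ℕ) : ℝ)) =
      fun i => (m : ℝ) + if i.1 < r then (1 : ℝ) else 0 := by
    funext i
    rw [tur_card R r m hr]
    push_cast
    rfl
  rw [h2, s6_exp, t3_cliques] at h1
  have h3 : ∀ k : ℕ, k ≠ 0 → ∑ i : Fin (R + 1), (if i.1 < r then (1 : ℝ) else 0) ^ k = r := by
    intro k hk
    rw [← tur_sum R r hr]
    refine sum_congr rfl fun i _ => ?_
    split_ifs
    · exact one_pow k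
    · exact zero_pow hk
  rw [h3 2 (by norm_num), h3 3 (by norm_num), tur_sum R r hr] at h1
  have h4 := kL_six R r m (by omega)
  unfold tri
  push_cast at h1
  linarith

private theorem tur_a1 (R r m : ℝ) (hR : 4 ≤ R) (h3 : R + 1 ≤ 3 * r) :
    m ^ 2 ≤ (R + 1) * (R - 1) * (3 * r - R) * m ^ 2 := by
  have h1 : (1 : ℝ) ≤ (R + 1) * (R - 1) := by nlinarith
  have h2 : (1 : ℝ) ≤ 3 * r - R := by linarith
  have h3 : (1 : ℝ) ≤ (R + 1) * (R - 1) * (3 * r - R) := one_le_mul_of_one_le_of_one_le h1 h2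
  calc m ^ 2 = 1 * m ^ 2 := by ring
    _ ≤ _ := mul_le_mul_of_nonneg_right h3 (sq_nonneg m)

private theorem tur_a2 (R r m : ℝ) (hR : 4 ≤ R) (hr : 1 ≤ r) (hm : 1 ≤ m) (h3 : R + 1 ≤ 3 * r) :
    0 ≤ (2 * R * (R - 1) * r + (R - 1) * (3 * r - R)) * r * m := by
  have h0 : (0 : ℝ) ≤ R - 1 := by linarith
  have b1 : 0 ≤ 2 * R * (R - 1) * r := by positivity
  have b2 : 0 ≤ (R - 1) * (3 * r - R) := mul_nonneg h0 (by linarith)
  have : 0 ≤ 2 * R * (R - 1) * r + (R - 1) * (3 * r - R) := by linarith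
  positivity

private theorem tur_a4 (R r m C : ℝ) (hR : 4 ≤ R) (hr : 1 ≤ r) (hm : 1 ≤ m) (hC : 0 < C) :
    C * (R + 1) * m + C * r + (R + 1) * (3 * (R - 1) * m * (r ^ 2 - r)) +
        (R + 1) * (r ^ 3 - 3 * r ^ 2 + 2 * r) ≤
      ((R + 1) * (3 * (R - 1) * r ^ 2 + r ^ 3 + 2 * r) + C * (R + 1) + C * r) * m := by
  have h0 : (0 : ℝ) ≤ R - 1 := by linarith
  have b1 : C * r ≤ C * r * m := le_mul_of_one_le_right (by positivity) hm
  have b2 : (R + 1) * (3 * (R - 1) * m * (r ^ 2 - r)) ≤ (R + 1) * (3 * (R - 1) * r ^ 2) * m := by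
    have h1 : 0 ≤ (R + 1) * (3 * (R - 1) * r) * m := by positivity
    have h2 : (R + 1) * (3 * (R - 1) * m * (r ^ 2 - r)) =
      (R + 1) * (3 * (R - 1) * r ^ 2) * m - (R + 1) * (3 * (R - 1) * r) * m := by ring
    linarith
  have b3 : (R + 1) * (r ^ 3 - 3 * r ^ 2 + 2 * r) ≤ (R + 1) * (r ^ 3 + 2 * r) * m := by
    have c1 : (R + 1) * (r ^ 3 - 3 * r ^ 2 + 2 * r) ≤ (R + 1) * (r ^ 3 + 2 * r) := by
      apply mul_le_mul_of_nonneg_left _ (by positivity)
      have : 0 ≤ r ^ 2 := sq_nonneg r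
      linarith
    have c2 : 0 ≤ (R + 1) * (r ^ 3 + 2 * r) := by positivity
    exact c1.trans (le_mul_of_one_le_right c2 hm)
  have e2 : ((R + 1) * (3 * (R - 1) * r ^ 2 + r ^ 3 + 2 * r) + C * (R + 1) + C * r) * m
    = (R + 1) * (3 * (R - 1) * r ^ 2) * m + (R + 1) * (r ^ 3 + 2 * r) * m + C * (R + 1) * m + C * r * m := by ring
  rw [e2]
  linarith

private theorem tur_a7 (R r m C : ℝ) (hR : 4 ≤ R) (hr : 1 ≤ r) (hm : 1 ≤ m) (hC : 0 < C)
    (h3 : R + 1 ≤ 3 * r)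
    (hD : (R + 1) * (3 * (R - 1) * r ^ 2 + r ^ 3 + 2 * r) + C * (R + 1) + C * r < m) :
    (R + 1) * (R * (R + 1) * (R - 1) * m ^ 3 + 3 * R * (R - 1) * m ^ 2 * r +
      3 * (R - 1) * m * (r ^ 2 - r) + (r ^ 3 - 3 * r ^ 2 + 2 * r)) <
    (R * (R + 1) * (R - 1) * m ^ 2 +
      (2 * R * (R - 1) * r + (R - 1) * (3 * r - R)) * m - C) * ((R + 1) * m + r) := by
  have e : (R * (R + 1) * (R - 1) * m ^ 2 +
        (2 * R * (R - 1) * r + (R - 1) * (3 * r - R)) * m - C) * ((R + 1) * m + r) -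
        (R + 1) * (R * (R + 1) * (R - 1) * m ^ 3 + 3 * R * (R - 1) * m ^ 2 * r +
      3 * (R - 1) * m * (r ^ 2 - r) + (r ^ 3 - 3 * r ^ 2 + 2 * r)) =
      (R + 1) * (R - 1) * (3 * r - R) * m ^ 2 + (2 * R * (R - 1) * r + (R - 1) * (3 * r - R)) * r * m
        - (C * (R + 1) * m + C * r + (R + 1) * (3 * (R - 1) * m * (r ^ 2 - r)) +
        (R + 1) * (r ^ 3 - 3 * r ^ 2 + 2 * r)) := by ring
  have a1 := tur_a1 R r m hR h3
  have a2 := tur_a2 R r m hR hr hm h3
  have a4 := tur_a4 R r m C hR hr hm hC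
  have a3 : ((R + 1) * (3 * (R - 1) * r ^ 2 + r ^ 3 + 2 * r) + C * (R + 1) + C * r) * m < m ^ 2 := by
    have h5 := mul_lt_mul_of_pos_right hD (show (0 : ℝ) < m by linarith)
    rwa [← pow_two m] at h5
  linarith

/-- for `3 r > R` the Turan graph is not optimal -/
theorem L_lt_G (R r : ℕ) (hr : 1 ≤ r) (hs : r + 2 ≤ R) (h3 : R < 3 * r) :
    ∃ m0 : ℕ, ∀ m : ℕ, m0 ≤ m → kL R r m / ((R + 1) * m + r) < PP R r m := by
  obtain ⟨C, hC, m1, h1⟩ := pspec R r (by omega) hr hs (by omega)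
  have hR : (4 : ℝ) ≤ R := by exact_mod_cast (by omega : 4 ≤ R)
  have hr' : (1 : ℝ) ≤ r := by exact_mod_cast hr
  have h3' : (R : ℝ) + 1 ≤ 3 * r := by exact_mod_cast (by omega : R + 1 ≤ 3 * r)
  -- the threshold
  obtain ⟨m2, hm2⟩ := exists_nat_gt
    (((R : ℝ) + 1) * (3 * (R - 1) * (r : ℝ) ^ 2 + (r : ℝ) ^ 3 + 2 * r) + C * (R + 1) + C * r)
  refine ⟨max 1 (max m1 m2), fun m hm => ?_⟩
  have hm1 : 1 ≤ m := (le_max_left _ _).trans hm
  have hmm1 : m1 ≤ m := (le_max_left _ _).trans ((le_max_right _ _).trans hm)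
  have hmm2 : m2 ≤ m := (le_max_right _ _).trans ((le_max_right _ _).trans hm)
  have hP := h1 m hmm1
  have hDm := hm2.trans_le (show (m2 : ℝ) ≤ m by exact_mod_cast hmm2)
  have hm' : (1 : ℝ) ≤ m := by exact_mod_cast hm1
  have h2 := hP.p2
  rw [max_eq_left (by linarith)] at h2
  have h4 := (abs_le.1 h2).1
  have h5 := kL_six R r m (by omega)
  have hN : (0 : ℝ) < (R + 1) * m + r := by positivity
  rw [div_lt_iff₀ hN]
  -- compare after multiplication by `6 (R + 1)`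
  have h6 : (R * (R + 1) * (R - 1) * (m : ℝ) ^ 2 +
      (2 * R * (R - 1) * r + (R - 1) * (3 * (r : ℝ) - R)) * m - C) * ((R + 1) * m + r)
      ≤ 6 * (R + 1) * PP R r m * ((R + 1) * m + r) := by
    apply mul_le_mul_of_nonneg_right _ hN.le
    linarith
  have h7 := tur_a7 R r m C hR hr' hm' hC h3' hDm
  rw [← h5] at h7
  have h8 : 6 * ((R : ℝ) + 1) * kL R r m < 6 * (R + 1) * (PP R r m * ((R + 1) * m + r)) := by
    have e1 : ((R : ℝ) + 1) * (6 * kL R r m) = 6 * (R + 1) * kL R r m := by ring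
    have e2 : 6 * ((R : ℝ) + 1) * PP R r m * ((R + 1) * m + r) =
      6 * (R + 1) * (PP R r m * ((R + 1) * m + r)) := by ring
    rw [← e1, ← e2]
    exact h7.trans_le h6
  have h9 : (0 : ℝ) < 6 * (R + 1) := by positivity
  exact lt_of_mul_lt_mul_left h8 h9.le

end Pool.Agent.H11.TD
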