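import Pool.Agent.H11.TD.Clus
import Pool.Agent.H11.TD.AccB
import Pool.Agent.H11.TD.BadJ
import Pool.Agent.H11.TD.BadB
import Pool.Agent.H11.TD.BpSum
import Pool.Agent.H11.TD.CoreB

/-!
# TD Upp: the upper bound

`γ = 1/(1000 R)`.  Choose `η` with `η ≤ η0` (`cluster_ineq`), `1000 R² η ≤ γ`, `24 R³ √η ≤ (R - 1) γ / 80`; `ε`, `m0` from
`core_ex`; `m0` from `bp_sum` with `κ = (R - 1) γ / 80`; `m` so large that `r + 1 ≤ η m`.
`L` from `exists_fam`, `H = HH L`.  `JJ V`, `V ∈ L`, are disjoint (a vertex in two of them would have degree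
`≥ (11/10) R m > R m + r`, the hulls being disjoint); `J' = ⋃ JJ V`, `univ \ H = J' ∪ BP` (disjoint union, by definition).
Every `b ∉ H` is bad or has more than `ε m` bad neighbours (otherwise `core_ex` and `Fam.cover` give `b ∈ H`).
`acc` (with `H k = hull`): `t3 ≤ ∑_V (t3 (hull V) + 3 ∑ ee) + ∑_{b ∉ H} β b`.
* `b ∈ JJ V`: `badJ`: `β b ≤ 3 (R-1)/R (U² + (R m + r - U)²) + 24 R³ √η m²`.
* `b ∈ BP`: `badB`: `β b ≤ ∑_V 3 (R-1)/R U_V² + 18 γ m g + ee (nb b (univ \ H)) (nb b (univ \ H))`, `g = |nb b H| = ∑_V U_V`.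
Insert `cluster_ineq` and collect (`|H| = ∑ |hull V|`, `n = |H| + |J'| + |BP|`):
`t3 ≤ 6 P n - |J'| ((R-1) γ/40 - 24 R³ √η) m² + ∑_{b ∈ BP} (ee - 6 P (1 - g/(R m + r)) - 18 γ m g) ≤ 6 P n`
by `bp_sum`.
-/

set_option autoImplicit false

open Finset

namespace Pool.Agent.H11.TD

theorem upp_mem_HH {α : Type} [Fintype α] [DecidableEq α] (G : SimpleGraph α) {k m : ℕ} {γ : ℝ}
    (L : Finset (Fin k → Finset α)) (b : α) :
    b ∈ HH G m γ L ↔ ∃ V ∈ L, b ∈ hull G m γ V := by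
  unfold HH
  rw [mem_biUnion]

theorem upp_nb_HH {α : Type} [Fintype α] [DecidableEq α] (G : SimpleGraph α) {k m : ℕ} {γ : ℝ}
    (L : Finset (Fin k → Finset α))
    (hd : ∀ V ∈ L, ∀ V' ∈ L, V ≠ V' → Disjoint (hull G m γ V) (hull G m γ V')) (b : α) :
    (nb G b (HH G m γ L)).card = ∑ V ∈ L, (nb G b (hull G m γ V)).card := by
  have h : nb G b (HH G m γ L) = L.biUnion (fun V => nb G b (hull G m γ V)) := by
    ext u
    rw [mem_nb, upp_mem_HH, mem_biUnion]
    constructor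
    · rintro ⟨⟨V, hV, hu⟩, hb⟩
      exact ⟨V, hV, (mem_nb G).2 ⟨hu, hb⟩⟩
    · rintro ⟨V, hV, hu⟩
      rw [mem_nb] at hu
      exact ⟨⟨V, hV, hu.1⟩, hu.2⟩
  rw [h, card_biUnion]
  intro V hV V' hV' hne
  refine disjoint_left.2 fun u hu hu' => ?_
  exact disjoint_left.1 (hd V hV V' hV' hne) ((mem_nb G).1 hu).1 ((mem_nb G).1 hu').1

theorem upp_mem_JJ {α : Type} [Fintype α] [DecidableEq α] (G : SimpleGraph α) {k R m : ℕ} {γ : ℝ}
    (L : Finset (Fin k → Finset α)) (V : Fin k → Finset α) (b : α) :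
    b ∈ JJ G R m γ L V ↔ b ∉ HH G m γ L ∧
      (11 / 20 : ℝ) * R * m ≤ ((nb G b (hull G m γ V)).card : ℝ) := by
  unfold JJ
  rw [mem_filter, mem_sdiff]
  simp

theorem upp_mem_BP {α : Type} [Fintype α] [DecidableEq α] (G : SimpleGraph α) {k R m : ℕ} {γ : ℝ}
    (L : Finset (Fin k → Finset α)) (b : α) :
    b ∈ BP G R m γ L ↔ b ∉ HH G m γ L ∧
      ∀ V ∈ L, ((nb G b (hull G m γ V)).card : ℝ) < (11 / 20 : ℝ) * R * m := by
  unfold BP
  rw [mem_filter, mem_sdiff]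
  simp

theorem upp_mem_Bad {α : Type} [Fintype α] [DecidableEq α] (G : SimpleGraph α) {R m : ℕ} {ε : ℝ}
    (b : α) : b ∈ Bad G R m ε ↔ ¬ Good G R m ε b := by
  unfold Bad
  simp

/-- the accounting for one graph -/
theorem upp_main (R r m : ℕ) (C P γ η ε κ : ℝ) (hp : Par R r m γ η) (hκ : κ = (R - 1) * γ / 80)
    (hκη : 24 * (R : ℝ) ^ 3 * Real.sqrt η ≤ κ)
    (α : Type) [Fintype α] [DecidableEq α] (G : SimpleGraph α) (hG : Ctx G R r m)
    (hbp : ∀ H J' B' : Finset α, Disjoint H J' → Disjoint H B' → Disjoint J' B' →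
          H ∪ J' ∪ B' = univ →
          (∀ b ∈ B', b ∈ Bad G R m ε ∨ ε * m < ((nb G b (Bad G R m ε)).card : ℝ)) →
          ∑ b ∈ B', ((ee G (nb G b (univ \ H)) (nb G b (univ \ H)) : ℝ) -
            6 * P * (1 - ((nb G b H).card : ℝ) / (R * m + r)) -
            18 * γ * m * ((nb G b H).card : ℝ)) ≤ κ * m ^ 2 * (J'.card : ℝ))
    (hcore : ∀ v, Good G R m ε v → ((nb G v (Bad G R m ε)).card : ℝ) ≤ ε * m →
          ∃ V : Fin (R + 1) → Finset α, Core G R m η V ∧ v ∈ tot V)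
    (hclus : ∀ L : Finset (Fin (R + 1) → Finset α), Fam G R m γ η L → ∀ V ∈ L,
            (t3 G (hull G m γ V) : ℝ) + 3 * ∑ v ∈ hull G m γ V,
                (ee G (nb G v (HH G m γ L \ hull G m γ V)) (nb G v (HH G m γ L \ hull G m γ V)) : ℝ)
              ≤ 6 * P * ((hull G m γ V).card : ℝ) -
              ∑ j ∈ JJ G R m γ L V, (3 * ((R - 1) / R) *
                (((nb G j (hull G m γ V)).card : ℝ) ^ 2 +
                  (R * m + r - ((nb G j (hull G m γ V)).card : ℝ)) ^ 2) - 6 * P +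
                (R - 1) * γ / 40 * m ^ 2) -
              ∑ b ∈ BP G R m γ L, (3 * ((R - 1) / R) * ((nb G b (hull G m γ V)).card : ℝ) ^ 2 -
                (6 * P / (R * m + r) - 36 * γ * m) * ((nb G b (hull G m γ V)).card : ℝ))) :
    (t3 G univ : ℝ) ≤ 6 * P * (Fintype.card α : ℝ) := by
  obtain ⟨L, hL⟩ := exists_fam G hp hG
  set H := HH G m γ L with hH
  set J' := L.biUnion (fun V => JJ G R m γ L V) with hJ'
  set B' := BP G R m γ L with hB'
  -- the sets `JJ V` are disjoint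
  have hm0 : (0 : ℝ) < m := by
    have h1 := hp.hm
    have h2 := hp.hη
    by_contra hcon
    have h3 : (m : ℝ) = 0 := le_antisymm (not_lt.1 hcon) (Nat.cast_nonneg _)
    rw [h3] at h1
    have h4 : (0 : ℝ) ≤ r := Nat.cast_nonneg _
    linarith
  have hR4 : (4 : ℝ) ≤ R := by exact_mod_cast hp.hR
  have hrm : (r : ℝ) < (1 / 10) * R * m := by
    have h1 := hp.hm
    have h2 := hp.hη'
    have h3 := hp.hγ'
    have h4 : γ ≤ 1 := by
      have := hp.hγ
      nlinarith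
    have h5 : η ≤ 1 / 10 := by
      have := hp.hη
      nlinarith [mul_nonneg (mul_nonneg this.le (by linarith : (0 : ℝ) ≤ R - 1))
        (by linarith : (0 : ℝ) ≤ R + 1)]
    have h6 : η * m ≤ 1 / 10 * m := mul_le_mul_of_nonneg_right h5 hm0.le
    nlinarith
  have hJd : ∀ V ∈ L, ∀ V' ∈ L, V ≠ V' → Disjoint (JJ G R m γ L V) (JJ G R m γ L V') := by
    intro V hV V' hV' hne
    refine disjoint_left.2 fun b hb hb' => ?_
    rw [upp_mem_JJ] at hb hb'
    have h1 : (nb G b (hull G m γ V)).card + (nb G b (hull G m γ V')).card ≤ (NN G b).card := by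
      have h2 : Disjoint (nb G b (hull G m γ V)) (nb G b (hull G m γ V')) := by
        refine disjoint_left.2 fun u hu hu' => ?_
        exact disjoint_left.1 (hL.disj V hV V' hV' hne) ((mem_nb G).1 hu).1 ((mem_nb G).1 hu').1
      rw [← card_union_of_disjoint h2]
      refine card_le_card ?_
      intro u hu
      rw [mem_NN]
      rcases mem_union.1 hu with h | h
      · exact ((mem_nb G).1 h).2
      · exact ((mem_nb G).1 h).2
    have h3 := h1.trans (hG.deg b)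
    have h4 : ((nb G b (hull G m γ V)).card : ℝ) + ((nb G b (hull G m γ V')).card : ℝ) ≤
        R * m + r := by exact_mod_cast h3
    linarith [hb.2, hb'.2]
  have hHJ : Disjoint H J' := by
    refine disjoint_left.2 fun b hb hb' => ?_
    rw [hJ', mem_biUnion] at hb'
    obtain ⟨V, _, h⟩ := hb'
    exact ((upp_mem_JJ G L V b).1 h).1 hb
  have hHB : Disjoint H B' :=
    disjoint_left.2 fun b hb hb' => ((upp_mem_BP G L b).1 hb').1 hb
  have hJB : Disjoint J' B' := by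
    refine disjoint_left.2 fun b hb hb' => ?_
    rw [hJ', mem_biUnion] at hb
    obtain ⟨V, hV, h⟩ := hb
    have h1 := ((upp_mem_JJ G L V b).1 h).2
    have h2 := ((upp_mem_BP G L b).1 hb').2 V hV
    linarith
  have hcomp : univ \ H = J' ∪ B' := by
    ext b
    rw [mem_sdiff, mem_union]
    constructor
    · rintro ⟨_, hb⟩
      by_cases h : ∀ V ∈ L, ((nb G b (hull G m γ V)).card : ℝ) < (11 / 20 : ℝ) * R * m
      · exact Or.inr ((upp_mem_BP G L b).2 ⟨hb, h⟩)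
      · push Not at h
        obtain ⟨V, hV, h⟩ := h
        exact Or.inl (mem_biUnion.2 ⟨V, hV, (upp_mem_JJ G L V b).2 ⟨hb, h⟩⟩)
    · rintro (hb | hb)
      · exact ⟨mem_univ _, fun h => disjoint_left.1 hHJ h hb⟩
      · exact ⟨mem_univ _, fun h => disjoint_left.1 hHB h hb⟩
  have huniv : H ∪ J' ∪ B' = univ := by
    rw [union_assoc, ← hcomp, union_sdiff_of_subset (subset_univ _)]
  have hcard : (Fintype.card α : ℝ) = ∑ V ∈ L, ((hull G m γ V).card : ℝ) +
      ∑ V ∈ L, ((JJ G R m γ L V).card : ℝ) + (B'.card : ℝ) := by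
    have h1 : Fintype.card α = ∑ V ∈ L, (hull G m γ V).card + ∑ V ∈ L, (JJ G R m γ L V).card +
        B'.card := by
      rw [← card_univ, ← huniv, card_union_of_disjoint, card_union_of_disjoint hHJ]
      · congr 2
        · rw [hH]
          unfold HH
          exact card_biUnion hL.disj
        · exact card_biUnion hJd
      · rw [disjoint_union_left]
        exact ⟨hHB, hJB⟩
    rw [h1]
    push_cast
    ring
  have hJcard : (J'.card : ℝ) = ∑ V ∈ L, ((JJ G R m γ L V).card : ℝ) := by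
    rw [hJ', card_biUnion hJd]
    push_cast
    rfl
  have hg : ∀ b, ((nb G b H).card : ℝ) = ∑ V ∈ L, ((nb G b (hull G m γ V)).card : ℝ) := by
    intro b
    rw [hH, upp_nb_HH G L hL.disj b]
    push_cast
    rfl
  -- vertices of `B'`
  have hB1 : ∀ b ∈ B', b ∈ Bad G R m ε ∨ ε * m < ((nb G b (Bad G R m ε)).card : ℝ) := by
    intro b hb
    by_contra hcon
    push Not at hcon
    obtain ⟨h1, h2⟩ := hcon
    have h3 : Good G R m ε b := by
      by_contra h4
      exact h1 ((upp_mem_Bad G b).2 h4)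
    obtain ⟨V', hV', hbV⟩ := hcore b h3 h2
    obtain ⟨V, hV, hbh⟩ := hL.cover V' hV' b hbV
    exact ((upp_mem_BP G L b).1 hb).1 ((upp_mem_HH G L b).2 ⟨V, hV, hbh⟩)
  have hbs := hbp H J' B' hHJ hHB hJB huniv hB1
  -- the accounting inequality
  have hacc : (t3 G univ : ℝ) ≤ ∑ V ∈ L, ((t3 G (hull G m γ V) : ℝ) +
      3 * ∑ v ∈ hull G m γ V, (ee G (nb G v (H \ hull G m γ V)) (nb G v (H \ hull G m γ V)) : ℝ)) +
      ∑ b ∈ univ \ H, (3 * (ee G (nb G b H) (nb G b H) : ℝ) +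
          3 * (ee G (nb G b H) (nb G b (univ \ H)) : ℝ) +
          (ee G (nb G b (univ \ H)) (nb G b (univ \ H)) : ℝ)) := by
    have h := acc G L (fun V => hull G m γ V) hL.disj
    change t3 G univ ≤ ∑ V ∈ L, (t3 G (hull G m γ V) +
      3 * ∑ v ∈ hull G m γ V, ee G (nb G v (H \ hull G m γ V)) (nb G v (H \ hull G m γ V))) +
      ∑ b ∈ univ \ H, (3 * ee G (nb G b H) (nb G b H) +
          3 * ee G (nb G b H) (nb G b (univ \ H)) +
          ee G (nb G b (univ \ H)) (nb G b (univ \ H))) at h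
    exact_mod_cast h
  rw [hcomp, sum_union hJB, hJ', sum_biUnion hJd, ← hcomp] at hacc
  -- vertices in `JJ V`
  have hJs : ∑ V ∈ L, ∑ b ∈ JJ G R m γ L V, (3 * (ee G (nb G b H) (nb G b H) : ℝ) +
          3 * (ee G (nb G b H) (nb G b (univ \ H)) : ℝ) +
          (ee G (nb G b (univ \ H)) (nb G b (univ \ H)) : ℝ)) ≤
      ∑ V ∈ L, ∑ b ∈ JJ G R m γ L V, (3 * ((R - 1) / R) *
        (((nb G b (hull G m γ V)).card : ℝ) ^ 2 +
          (R * m + r - ((nb G b (hull G m γ V)).card : ℝ)) ^ 2) + κ * m ^ 2) := by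
    refine sum_le_sum fun V hV => sum_le_sum fun b hb => ?_
    have h1 := (upp_mem_JJ G L V b).1 hb
    have h2 : hull G m γ V ⊆ H := fun u hu => (upp_mem_HH G L u).2 ⟨V, hV, hu⟩
    refine (badJ G hp hG (hL.core V hV) H h2 b (fun h => h1.1 (h2 h))).trans ?_
    have h3 : 24 * (R : ℝ) ^ 3 * Real.sqrt η * m ^ 2 ≤ κ * m ^ 2 :=
      mul_le_mul_of_nonneg_right hκη (by positivity)
    linarith
  have hBs : ∑ b ∈ B', (3 * (ee G (nb G b H) (nb G b H) : ℝ) +
          3 * (ee G (nb G b H) (nb G b (univ \ H)) : ℝ) +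
          (ee G (nb G b (univ \ H)) (nb G b (univ \ H)) : ℝ)) ≤
      ∑ b ∈ B', (∑ V ∈ L, 3 * ((R - 1) / R) * ((nb G b (hull G m γ V)).card : ℝ) ^ 2 +
        18 * γ * m * ((nb G b H).card : ℝ) +
        (ee G (nb G b (univ \ H)) (nb G b (univ \ H)) : ℝ)) := by
    refine sum_le_sum fun b _ => ?_
    have h1 := badB G hp hG L hL b
    rw [← hH] at h1
    linarith
  have hcl : ∑ V ∈ L, ((t3 G (hull G m γ V) : ℝ) +
      3 * ∑ v ∈ hull G m γ V, (ee G (nb G v (H \ hull G m γ V)) (nb G v (H \ hull G m γ V)) : ℝ)) ≤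
      ∑ V ∈ L, (6 * P * ((hull G m γ V).card : ℝ) -
              ∑ j ∈ JJ G R m γ L V, (3 * ((R - 1) / R) *
                (((nb G j (hull G m γ V)).card : ℝ) ^ 2 +
                  (R * m + r - ((nb G j (hull G m γ V)).card : ℝ)) ^ 2) - 6 * P +
                (R - 1) * γ / 40 * m ^ 2) -
              ∑ b ∈ B', (3 * ((R - 1) / R) * ((nb G b (hull G m γ V)).card : ℝ) ^ 2 -
                (6 * P / (R * m + r) - 36 * γ * m) * ((nb G b (hull G m γ V)).card : ℝ))) :=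
    sum_le_sum fun V hV => hclus L hL V hV
  -- collect
  have e1 : ∑ V ∈ L, (6 * P * ((hull G m γ V).card : ℝ) -
              ∑ j ∈ JJ G R m γ L V, (3 * ((R - 1) / R) *
                (((nb G j (hull G m γ V)).card : ℝ) ^ 2 +
                  (R * m + r - ((nb G j (hull G m γ V)).card : ℝ)) ^ 2) - 6 * P +
                (R - 1) * γ / 40 * m ^ 2) -
              ∑ b ∈ B', (3 * ((R - 1) / R) * ((nb G b (hull G m γ V)).card : ℝ) ^ 2 -
                (6 * P / (R * m + r) - 36 * γ * m) * ((nb G b (hull G m γ V)).card : ℝ))) =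
      6 * P * ∑ V ∈ L, ((hull G m γ V).card : ℝ) -
        ∑ V ∈ L, ∑ b ∈ JJ G R m γ L V, (3 * ((R - 1) / R) *
        (((nb G b (hull G m γ V)).card : ℝ) ^ 2 +
          (R * m + r - ((nb G b (hull G m γ V)).card : ℝ)) ^ 2) + κ * m ^ 2) +
        (6 * P - κ * m ^ 2) * ∑ V ∈ L, ((JJ G R m γ L V).card : ℝ) -
        ∑ b ∈ B', ∑ V ∈ L, 3 * ((R - 1) / R) * ((nb G b (hull G m γ V)).card : ℝ) ^ 2 +
        ∑ b ∈ B', (6 * P / (R * m + r) - 36 * γ * m) * ((nb G b H).card : ℝ) := by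
    have h1 : ∀ V ∈ L, ∑ j ∈ JJ G R m γ L V, (3 * ((R - 1) / R) *
                (((nb G j (hull G m γ V)).card : ℝ) ^ 2 +
                  (R * m + r - ((nb G j (hull G m γ V)).card : ℝ)) ^ 2) - 6 * P +
                (R - 1) * γ / 40 * m ^ 2) =
        ∑ b ∈ JJ G R m γ L V, (3 * ((R - 1) / R) *
        (((nb G b (hull G m γ V)).card : ℝ) ^ 2 +
          (R * m + r - ((nb G b (hull G m γ V)).card : ℝ)) ^ 2) + κ * m ^ 2) -
        (6 * P - κ * m ^ 2) * ((JJ G R m γ L V).card : ℝ) := by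
      intro V _
      have h2 : (6 * P - κ * m ^ 2) * ((JJ G R m γ L V).card : ℝ) =
          ∑ b ∈ JJ G R m γ L V, (6 * P - κ * m ^ 2) := by
        rw [sum_const, nsmul_eq_mul]; ring
      rw [h2, ← sum_sub_distrib]
      refine sum_congr rfl fun b _ => ?_
      rw [hκ]
      ring
    have h2 : ∑ b ∈ B', (6 * P / (R * m + r) - 36 * γ * m) * ((nb G b H).card : ℝ) =
        ∑ V ∈ L, ∑ b ∈ B', (6 * P / (R * m + r) - 36 * γ * m) *
          ((nb G b (hull G m γ V)).card : ℝ) := by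
      rw [sum_comm]
      refine sum_congr rfl fun b _ => ?_
      rw [hg b, mul_sum]
    have h3 : ∑ b ∈ B', ∑ V ∈ L, 3 * ((R - 1) / R : ℝ) * ((nb G b (hull G m γ V)).card : ℝ) ^ 2 =
        ∑ V ∈ L, ∑ b ∈ B', 3 * ((R - 1) / R : ℝ) * ((nb G b (hull G m γ V)).card : ℝ) ^ 2 :=
      sum_comm
    rw [h2, h3, mul_sum, mul_sum, ← sum_sub_distrib, ← sum_add_distrib, ← sum_sub_distrib,
      ← sum_add_distrib]
    refine sum_congr rfl fun V hV => ?_
    rw [h1 V hV, sum_sub_distrib]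
    ring
  have e2 : ∑ b ∈ B', (∑ V ∈ L, 3 * ((R - 1) / R) * ((nb G b (hull G m γ V)).card : ℝ) ^ 2 +
        18 * γ * m * ((nb G b H).card : ℝ) +
        (ee G (nb G b (univ \ H)) (nb G b (univ \ H)) : ℝ)) -
      ∑ b ∈ B', ∑ V ∈ L, 3 * ((R - 1) / R) * ((nb G b (hull G m γ V)).card : ℝ) ^ 2 +
        ∑ b ∈ B', (6 * P / (R * m + r) - 36 * γ * m) * ((nb G b H).card : ℝ) =
      ∑ b ∈ B', ((ee G (nb G b (univ \ H)) (nb G b (univ \ H)) : ℝ) -
            6 * P * (1 - ((nb G b H).card : ℝ) / (R * m + r)) -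
            18 * γ * m * ((nb G b H).card : ℝ)) + 6 * P * (B'.card : ℝ) := by
    have h1 : 6 * P * (B'.card : ℝ) = ∑ b ∈ B', 6 * P := by
      rw [sum_const, nsmul_eq_mul]; ring
    rw [h1, ← sum_sub_distrib, ← sum_add_distrib, ← sum_add_distrib]
    refine sum_congr rfl fun b _ => ?_
    ring
  rw [hJcard] at hbs
  rw [hcard]
  rw [e1] at hcl
  linarith

theorem upper (R r : ℕ) (hR : 4 ≤ R) (hr : 1 ≤ r) (hs : r + 2 ≤ R) (h3 : 3 * r ≠ R)
    (C : ℝ) (hC : 0 < C) : ∃ m0 : ℕ, ∀ m : ℕ, m0 ≤ m → ∀ P : ℝ, PSpec R r m C P →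
      ∀ (α : Type) [Fintype α] [DecidableEq α] (G : SimpleGraph α), Ctx G R r m →
        (t3 G univ : ℝ) ≤ 6 * P * (Fintype.card α : ℝ) := by
  have hR4 : (4 : ℝ) ≤ R := by exact_mod_cast hR
  set γ : ℝ := 1 / (1000 * R) with hγdef
  have hγ : 0 < γ := by positivity
  obtain ⟨η0, hη0, hcl⟩ := cluster_ineq R r hR hr hs h3 C γ hC hγ
  set κ : ℝ := (R - 1) * γ / 80 with hκdef
  have hκ : 0 < κ := by
    have : (0 : ℝ) < R - 1 := by linarith
    positivity
  set s : ℝ := κ / (24 * (R : ℝ) ^ 3) with hsdef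
  have hs0 : 0 < s := by positivity
  set η : ℝ := min (min η0 1) (min (γ / (1000 * (R : ℝ) ^ 2)) (s ^ 2)) with hηdef
  have hη : 0 < η := by
    refine lt_min (lt_min hη0 one_pos) (lt_min (by positivity) (by positivity))
  have hη1 : η ≤ η0 := (min_le_left _ _).trans (min_le_left _ _)
  have hη2 : η ≤ 1 := (min_le_left _ _).trans (min_le_right _ _)
  have hη3 : η ≤ γ / (1000 * (R : ℝ) ^ 2) := (min_le_right _ _).trans (min_le_left _ _)
  have hη4 : η ≤ s ^ 2 := (min_le_right _ _).trans (min_le_right _ _)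
  obtain ⟨m1, hm1⟩ := hcl η hη hη1
  obtain ⟨ε, hε, m2, hm2⟩ := core_ex R r (by omega) η hη hη2
  obtain ⟨m3, hm3⟩ := bp_sum R r hR (by omega) C ε γ κ hC hε hγ hκ
  obtain ⟨m4, hm4⟩ := exists_nat_ge (((r : ℝ) + 1) / η)
  refine ⟨max m1 (max m2 (max m3 m4)), fun m hm P hP α _ _ G hG => ?_⟩
  simp only [max_le_iff] at hm
  obtain ⟨ha, hb, hc, hd⟩ := hm
  have hp : Par R r m γ η := by
    refine ⟨hR, by omega, hγ, ?_, hη, ?_, ?_⟩
    · rw [hγdef]
      field_simp
      exact le_rfl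
    · rw [le_div_iff₀ (by positivity)] at hη3
      linarith
    · have h1 : ((r : ℝ) + 1) / η ≤ m := hm4.trans (by exact_mod_cast hd)
      rw [div_le_iff₀ hη] at h1
      linarith
  have hκη : 24 * (R : ℝ) ^ 3 * Real.sqrt η ≤ κ := by
    have h1 : Real.sqrt η ≤ s := by
      rw [Real.sqrt_le_left hs0.le]
      exact hη4
    calc 24 * (R : ℝ) ^ 3 * Real.sqrt η ≤ 24 * (R : ℝ) ^ 3 * s := by gcongr
      _ = κ := by
          rw [hsdef]
          field_simp
  exact upp_main R r m C P γ η ε κ hp hκdef hκη α G hG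
    (fun H J' B' h1 h2 h3 h4 h5 => hm3 m hc P hP α G hG H J' B' h1 h2 h3 h4 h5)
    (fun v h1 h2 => hm2 m hb α G hG v h1 h2)
    (fun L hL V hV => hm1 m ha hp P hP α G hG L hL V hV)

end Pool.Agent.H11.TD
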